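import Pool.Agent.VSY.StmtsB

/-!
# Veronese syzygies: the vanishing does not depend on the set of alternating points
-/

set_option autoImplicit false

namespace Pool.Agent.VSY

open MvPolynomial

theorem VU_thm : Stmt_VU := by
  intro K _ v d p r U _ _ hU h U' _ _ hU' f hf
  obtain ⟨e, _⟩ : ∃ e : U' ≃ U, e = e := ⟨Fintype.equivOfCardEq (hU'.trans hU.symm), rfl⟩
  have h1 : InZ U v d r (ren (Option.map e) f) := by
    refine ⟨hf.1.equiv e, fun u => ?_⟩
    have h2 : mg u ∘ Option.map e = Option.map e ∘ mg (e.symm u) := by
      funext x
      cases x with
      | none =>
        rw [Function.comp_apply, Function.comp_apply]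
        unfold mg
        rw [Function.update_of_ne (by simp), Option.map_none, Function.update_of_ne (by simp)]
        rfl
      | some a =>
        rw [Function.comp_apply, Function.comp_apply, Option.map_some]
        unfold mg
        by_cases ha : a = e.symm u
        · have h3 : e a = u := by rw [ha, Equiv.apply_symm_apply]
          rw [h3, Function.update_self, ha, Function.update_self]
          rfl
        · have h3 : (some (e a) : Option U) ≠ some u := by
            intro h4
            apply ha
            rw [← Option.some.inj h4, Equiv.symm_apply_apply]
          have h5 : (some a : Option U') ≠ some (e.symm u) := fun h4 => ha (Option.some.inj h4)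
          rw [Function.update_of_ne h3, Function.update_of_ne h5]
          rfl
    rw [ren_ren, h2, ← ren_ren, hf.2, map_zero]
  obtain ⟨g, hg, h2⟩ := h _ h1
  refine ⟨ren (Option.map (Equiv.optionCongr e.symm)) g, hg.equiv _, ?_⟩
  have h3 : Option.join ∘ Option.map (Equiv.optionCongr e.symm) =
      Option.map e.symm ∘ Option.join := by
    funext x
    rcases x with _ | _ | x <;> rfl
  have h4 : Option.map e.symm ∘ Option.map e = id := by
    funext x
    cases x with
    | none => rfl
    | some a => simp
  rw [ren_ren, h3, ← ren_ren, h2, ren_ren, h4, ren_id]

end Pool.Agent.VSY
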