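import Mathlib

/-!
# Veronese syzygies (MP_deb8da_ag): Koszul cohomology of `𝒪(b)` with respect to `𝒪(d)` on `ℙ^n`
-/

namespace Pool.Agent.VSY

open TensorProduct

section Ext

variable (K M : Type) [Field K] [AddCommGroup M] [Module K M]

/-- The exterior power `Λ^p M` (Mathlib's `⋀[K]^p M`). -/
def Ext (p : ℕ) : Type := ↥(⋀[K]^p M)

noncomputable instance (p : ℕ) : AddCommGroup (Ext K M p) :=
  inferInstanceAs (AddCommGroup ↥(⋀[K]^p M))

noncomputable instance (p : ℕ) : Module K (Ext K M p) :=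
  inferInstanceAs (Module K ↥(⋀[K]^p M))

/-- `(s_1, ..., s_p) ↦ s_1 ∧ ... ∧ s_p`. -/
noncomputable def wedge (p : ℕ) : M [⋀^Fin p]→ₗ[K] Ext K M p := exteriorPower.ιMulti K p

variable {K M} {N : Type} [AddCommGroup N] [Module K N]

/-- The universal property of the exterior power. -/
noncomputable def Ext.lift {p : ℕ} (f : M [⋀^Fin p]→ₗ[K] N) : Ext K M p →ₗ[K] N :=
  exteriorPower.alternatingMapLinearEquiv f

theorem Ext.lift_wedge {p : ℕ} (f : M [⋀^Fin p]→ₗ[K] N) (s : Fin p → M) :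
    Ext.lift f (wedge K M p s) = f s :=
  exteriorPower.alternatingMapLinearEquiv_apply_ιMulti f s

theorem Ext.span_wedge (p : ℕ) : Submodule.span K (Set.range (wedge K M p)) = ⊤ :=
  exteriorPower.ιMulti_span K p M

end Ext

variable (K : Type) [Field K]

/-- `S_m`: the homogeneous polynomials of degree `m` in `z_0, ..., z_n`. -/
def Forms (n m : ℕ) : Type := ↥(MvPolynomial.homogeneousSubmodule (Fin (n + 1)) K m)

noncomputable instance (n m : ℕ) : AddCommGroup (Forms K n m) :=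
  inferInstanceAs (AddCommGroup ↥(MvPolynomial.homogeneousSubmodule (Fin (n + 1)) K m))

noncomputable instance (n m : ℕ) : Module K (Forms K n m) :=
  inferInstanceAs (Module K ↥(MvPolynomial.homogeneousSubmodule (Fin (n + 1)) K m))

/-- `Λ^p S_d ⊗ S_m`. -/
abbrev KT (n d p m : ℕ) : Type := Ext K (Forms K n d) p ⊗[K] Forms K n m

/-- The product `S_a × S_m → S_{m'}`, where `m + a = m'`. -/
noncomputable def mulForms {n a m m' : ℕ} (h : m + a = m') :
    Forms K n a →ₗ[K] Forms K n m →ₗ[K] Forms K n m' :=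
  LinearMap.mk₂ K
    (fun s t => ⟨s.1 * t.1, by
      have h1 := MvPolynomial.IsHomogeneous.mul s.2 t.2
      have h2 : a + m = m' := by omega
      exact h2 ▸ h1⟩)
    (fun s s' t => Subtype.ext (add_mul s.1 s'.1 t.1))
    (fun c s t => Subtype.ext (smul_mul_assoc c s.1 t.1))
    (fun s t t' => Subtype.ext (mul_add s.1 t.1 t'.1))
    (fun c s t => Subtype.ext (mul_smul_comm c s.1 t.1))

/-- `(s_1, ..., s_p) ↦ (t ↦ (s_1 ∧ ... ∧ s_p) ⊗ s t)`. -/
noncomputable def kAux {n d m m' : ℕ} (p : ℕ) (h : m + d = m') (s : Forms K n d) :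
    (Forms K n d) [⋀^Fin p]→ₗ[K] (Forms K n m →ₗ[K] KT K n d p m') :=
  ((TensorProduct.mk K (Ext K (Forms K n d) p) (Forms K n m')).compl₂
    (mulForms K h s)).compAlternatingMap (wedge K (Forms K n d) p)

/-- The alternating map `(s_0, ..., s_p) ↦ (t ↦ ∑_i (-1)^i (⋀_{j ≠ i} s_j) ⊗ s_i t)`. -/
noncomputable def kAlt {n d m m' : ℕ} (p : ℕ) (h : m + d = m') :
    (Forms K n d) [⋀^Fin (p + 1)]→ₗ[K] (Forms K n m →ₗ[K] KT K n d p m') :=
  AlternatingMap.alternatizeUncurryFin
    { toFun := kAux K p h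
      map_add' := fun s s' => by
        refine AlternatingMap.ext fun v => LinearMap.ext fun t => ?_
        simp [kAux, TensorProduct.tmul_add]
      map_smul' := fun c s => by
        refine AlternatingMap.ext fun v => LinearMap.ext fun t => ?_
        simp [kAux] }

/-- The Koszul differential `∂ : Λ^{p+1} S_d ⊗ S_m → Λ^p S_d ⊗ S_{m'}`, `m' = m + d`,
`s_1 ∧ ... ∧ s_{p+1} ⊗ t ↦ ∑_i (-1)^i (⋀_{j ≠ i} s_j) ⊗ s_i t`. -/
noncomputable def koszulD {n d m m' : ℕ} (p : ℕ) (h : m + d = m') :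
    KT K n d (p + 1) m →ₗ[K] KT K n d p m' :=
  - TensorProduct.lift (Ext.lift (kAlt K p h))

theorem kAlt_apply {n d m m' : ℕ} (p : ℕ) (h : m + d = m') (s : Fin (p + 1) → Forms K n d)
    (t : Forms K n m) :
    kAlt K p h s t = ∑ i : Fin (p + 1), (-1 : K) ^ i.val •
        (wedge K (Forms K n d) p (fun j => s (i.succAbove j)) ⊗ₜ[K] mulForms K h (s i) t) := by
  rw [kAlt, AlternatingMap.alternatizeUncurryFin_apply, LinearMap.sum_apply]
  refine Finset.sum_congr rfl fun i _ => ?_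
  rcases Nat.even_or_odd i.val with hi | hi
  · rw [hi.neg_one_pow, hi.neg_one_pow, one_smul, one_smul]
    rfl
  · rw [hi.neg_one_pow, hi.neg_one_pow, neg_one_smul, neg_one_smul]
    rfl

/-- The differential on decomposable elements, as in the problem. -/
theorem koszulD_apply {n d m m' : ℕ} (p : ℕ) (h : m + d = m') (s : Fin (p + 1) → Forms K n d)
    (t : Forms K n m) :
    koszulD K p h (wedge K (Forms K n d) (p + 1) s ⊗ₜ[K] t) =
      ∑ i : Fin (p + 1), (-1 : K) ^ (i.val + 1) •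
        (wedge K (Forms K n d) p (fun j => s (i.succAbove j)) ⊗ₜ[K] mulForms K h (s i) t) := by
  have h1 : koszulD K p h (wedge K (Forms K n d) (p + 1) s ⊗ₜ[K] t) =
      - (Ext.lift (kAlt K p h) (wedge K (Forms K n d) (p + 1) s)) t := rfl
  rw [h1, Ext.lift_wedge, kAlt_apply, ← Finset.sum_neg_distrib]
  refine Finset.sum_congr rfl fun i _ => ?_
  rw [pow_succ, mul_neg_one, neg_smul]

/-- `x` is a Koszul cycle in `Λ^p S_d ⊗ S_m`. -/
def IsCycle {n d m : ℕ} : (p : ℕ) → KT K n d p m → Prop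
  | 0, _ => True
  | p + 1, x => koszulD K p (rfl : m + d = m + d) x = 0

/-- `K_{p,q}(n,b;d) = 0`: every cycle in `Λ^p S_d ⊗ S_{qd+b}` is zero or the image of an element
of `Λ^{p+1} S_d ⊗ S_m`, `m = qd+b-d`. -/
def KVanishes (n b d p q : ℕ) : Prop :=
  ∀ x : KT K n d p (q * d + b), IsCycle K p x →
    x = 0 ∨ ∃ (m : ℕ) (h : m + d = q * d + b) (y : KT K n d (p + 1) m), koszulD K p h y = x

/-- The left end `L = C(d+q,q) - C(d-b-1,q) - q` of the range `(*)`. -/
def Lend (q b d : ℕ) : ℤ := ((d + q).choose q : ℤ) - ((d - b - 1).choose q : ℤ) - q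

end Pool.Agent.VSY
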