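import Pool.Agent.VSY.Basic
import Pool.Agent.VSY.Off

/-!
# Veronese syzygies (MP_deb8da_ag): the statements of the modules
-/

namespace Pool.Agent.VSY

open MvPolynomial

/-- REL: the relations of `gl(v|1)`. -/
def Stmt_REL : Prop :=
  ∀ (K : Type) [Field K] (A : Type) [Fintype A] [DecidableEq A] (v : ℕ) (i j l : Fin v),
    (∀ c : SA K A v 0, Est i (Dop j c) = EA i j c) ∧
    (∀ (k : ℕ) (c : SA K A v (k + 1)), Est i (Dop j c) + Dop j (Est i c) =
      EA i j c + (if i = j then ((k + 1 : ℕ) : K) else 0) • c) ∧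
    (∀ (k : ℕ) (c : SA K A v (k + 1)), EA i j (Est l c) =
      Est l (EA i j c) + (if j = l then (1 : K) else 0) • Est i c) ∧
    (∀ (k : ℕ) (c : SA K A v k), Dop l (EA i j c) =
      EA i j (Dop l c) + (if l = i then (1 : K) else 0) • Dop j c)

/-- CAPM (Capelli): the composition of the `D`'s and the `E*`'s on a vector which is of weight `ν`
and of highest weight modulo `M`. -/
def Stmt_CAPM : Prop :=
  ∀ (K : Type) [Field K] (A : Type) [Fintype A] [DecidableEq A] (v : ℕ)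
    (M : Submodule K (PX K A v)), (∀ i j, ∀ f ∈ M, Eij i j f ∈ M) →
    ∀ (ν : Fin v → ℕ) (g : PX K A v), (∀ i, Eij i i g = (ν i : K) • g) →
      (∀ i j, i < j → Eij i j g ∈ M) →
      ∀ L : List (Fin v), L.Pairwise (· < ·) →
        capL L (yL L g) - (capc ν L : K) • g ∈ M

/-- NAT: substitutions commute with the operators. -/
def Stmt_NAT : Prop :=
  ∀ (K : Type) [Field K] (A B : Type) [Fintype A] [DecidableEq A] [Fintype B] [DecidableEq B]
    (v : ℕ) (φ : A → B),
    (∀ (i j : Fin v) (f : PX K A v), ren φ (Eij i j f) = Eij i j (ren φ f)) ∧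
    (∀ (k : ℕ) (i j : Fin v) (c : SA K A v k), push φ (EA i j c) = EA i j (push φ c)) ∧
    (∀ (k : ℕ) (j : Fin v) (c : SA K A v k), push φ (Dop j c) = Dop j (push φ c)) ∧
    (∀ (k : ℕ) (i : Fin v) (c : SA K A v (k + 1)), push φ (Est i c) = Est i (push φ c)) ∧
    (∀ (L : List (Fin v)) (g : PX K A v), push φ (yL L g) = yL L (ren φ g)) ∧
    (∀ (L : List (Fin v)) (c : SA K A v L.length), ren φ (capL L c) = capL L (push φ c))

/-- DEG: the operators preserve the degrees. -/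
def Stmt_DEG : Prop :=
  ∀ (K : Type) [Field K] (A : Type) [Fintype A] [DecidableEq A] (v : ℕ) (sh e : A → ℕ),
    (∀ (i j : Fin v) (f : PX K A v), (∀ m ∈ f.support, ∀ x, ∑ l, m (x, l) + sh x = e x) →
      ∀ m ∈ (Eij i j f).support, ∀ x, ∑ l, m (x, l) + sh x = e x) ∧
    (∀ (L : List (Fin v)) (f : PX K A v), (∀ m ∈ f.support, ∀ x, ∑ l, m (x, l) + sh x = e x) →
      ∀ (t : Fin L.length → A), ∀ m ∈ (yL L f (sgl K t)).support, ∀ x,
        ∑ l, m (x, l) + (Finset.univ.filter fun i => t i = x).card + sh x = e x) ∧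
    (∀ (L : List (Fin v)) (c : SA K A v L.length),
      (∀ (t : Fin L.length → A), ∀ m ∈ (c (sgl K t)).support, ∀ x,
        ∑ l, m (x, l) + (Finset.univ.filter fun i => t i = x).card + sh x = e x) →
      ∀ m ∈ (capL L c).support, ∀ x, ∑ l, m (x, l) + sh x = e x)

/-- IND: an alternating super polynomial with a prescribed component. -/
def Stmt_IND : Prop :=
  ∀ (K : Type) [Field K] [CharZero K] (U : Type) [Fintype U] [DecidableEq U] (v k : ℕ)
    (t₁ : Fin k → Option U), Function.Injective t₁ → ∀ G : PX K (Option U) v,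
    (∀ (π : Equiv.Perm U) (σ : Equiv.Perm (Fin k)), Option.map π ∘ t₁ = t₁ ∘ σ →
      ren (Option.map π) G = ((Equiv.Perm.sign π * Equiv.Perm.sign σ : ℤˣ) : ℤ) • G) →
    ∃ c : SA K (Option U) v k,
      (∀ π : Equiv.Perm U, push (Option.map π) c = ((Equiv.Perm.sign π : ℤˣ) : ℤ) • c) ∧
      c (sgl K t₁) = G ∧
      ∀ t : Fin k → Option U, c (sgl K t) = 0 ∨
        ∃ (π : Equiv.Perm U) (σ : Equiv.Perm (Fin k)), t = Option.map π ∘ t₁ ∘ σ ∧
          c (sgl K t) = ((Equiv.Perm.sign π * Equiv.Perm.sign σ : ℤˣ) : ℤ) • ren (Option.map π) G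

/-- UNI: an alternating super polynomial is determined by two components. -/
def Stmt_UNI : Prop :=
  ∀ (K : Type) [Field K] (U : Type) [Fintype U] [DecidableEq U] (v k : ℕ)
    (c : SA K (Option U) v k),
    (∀ π : Equiv.Perm U, push (Option.map π) c = ((Equiv.Perm.sign π : ℤˣ) : ℤ) • c) →
    ∀ t₁ t : Fin k → Option U, Function.Injective t₁ → ((∃ i, t₁ i = none) ↔ ∃ i, t i = none) →
      c (sgl K t₁) = 0 → c (sgl K t) = 0

/-- PAR: vanishing implies vanishing with parameters. -/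
def Stmt_PAR : Prop :=
  ∀ (K : Type) [Field K] (v d p r : ℕ), Van K v d p r → PVan K v d p r

/-- EX: exactness of the super Koszul complex in odd degree `k`. -/
def Stmt_EX : Prop :=
  ∀ (K : Type) [Field K] [CharZero K] (v d p r k : ℕ), 1 ≤ d → 1 ≤ k →
    (k ≤ p → PVan K v d (p - k) r) →
    (k ≤ p + 1 → ∀ r', r' + 1 = r → PVan K v d (p + 1 - k) r') →
    ∀ (U : Type) [Fintype U] [DecidableEq U], Fintype.card U = p →
      ∀ c : SA K (Option U) v k, KZ U v d r k c → KB U v d r k c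

/-- WT: the weight argument. -/
def Stmt_WT : Prop :=
  ∀ (K : Type) [Field K] [CharZero K] (A : Type) [Fintype A] [DecidableEq A] (v T : ℕ)
    (Z M : Submodule K (PX K A (v + 1))),
    (∀ f ∈ Z, ∀ ν : Fin (v + 1) → ℕ,
      weightedHomogeneousComponent (fun x : A × Fin (v + 1) => (Pi.single x.2 1 : _ → ℕ)) ν f ∈ Z) →
    (∀ i j, ∀ f ∈ Z, Eij i j f ∈ Z) → (∀ i j, ∀ f ∈ M, Eij i j f ∈ M) →
    (∀ f ∈ Z, ∀ m ∈ f.support, ∑ x, m x ≤ T) →
    (∀ f ∈ Z, (∀ m ∈ f.support, ∀ x, m (x, Fin.last v) = 0) → f ∈ M) →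
    (∀ f ∈ Z, capL (List.finRange (v + 1)) (yL (List.finRange (v + 1)) f) ∈ M) → Z ≤ M

/-- TR: Theorem R. -/
def Stmt_TR : Prop :=
  ∀ (K : Type) [Field K] [CharZero K] (d m p r : ℕ), 1 ≤ d → Van K m d p r →
    (∀ v, m < v → (v ≤ p → Van K v d (p - v) r) ∧
      (v ≤ p + 1 → ∀ r', r' + 1 = r → Van K v d (p + 1 - v) r')) →
    ∀ v, m ≤ v → Van K v d p r

/-- CRA: `(G_0)`. -/
def Stmt_CRA : Prop :=
  ∀ (K : Type) [Field K] (v d s P : ℕ), (s + v).choose v ≤ P → GP K (v + 1) d s P 0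

/-- GI: the induction step for `(G_i)`. -/
def Stmt_GI : Prop :=
  ∀ (K : Type) [Field K] [CharZero K] (v d s P i : ℕ), s < d → i < v → GP K v d s P i →
    GP K v d s (P + 1) i → GP K v d s (P + 1) (i + 1)

/-- QI: the induction step for `(Q_i)`. -/
def Stmt_QI : Prop :=
  ∀ (K : Type) [Field K] [CharZero K] (v d p r i : ℕ), i < v → QP K v d p r (i + 1) →
    QP K v d p r i

/-- DUAL: `(G_v)` implies `(Q_v)`. -/
def Stmt_DUAL : Prop :=
  ∀ (K : Type) [Field K] [CharZero K] (v d p r s P : ℕ), 1 ≤ d → r + s = (v + 1) * (d - 1) →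
    s < d → P + p = (d + v).choose v → GP K (v + 1) d s P (v + 1) → QP K (v + 1) d p r (v + 1)

/-- TG: Theorem G. -/
def Stmt_TG : Prop :=
  ∀ (K : Type) [Field K] [CharZero K] (v d p r : ℕ), 1 ≤ d → (v + 1) * (d - 1) < r + d →
    ((v + 1) * (d - 1) < r ∨
      ∃ s, r + s = (v + 1) * (d - 1) ∧ p + (s + v).choose v + (v + 1) ≤ (d + v).choose v) →
    Van K (v + 1) d p r

/-- Polynomials in `v` coordinates as polynomials in `m ≥ v` coordinates. -/
noncomputable def up {K : Type} [Field K] {A : Type} {v m : ℕ} (h : v ≤ m) :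
    PX K A v →ₐ[K] PX K A m :=
  rename (Prod.map id (Fin.castLE h))

/-- The coordinates `≥ v` are set to zero. -/
noncomputable def down {K : Type} [Field K] {A : Type} {v m : ℕ} :
    PX K A m →ₐ[K] PX K A v :=
  aeval fun x : A × Fin m => if h' : x.2.val < v then X (x.1, (⟨x.2.val, h'⟩ : Fin v)) else 0

/-- VAR: change of the number of coordinates. -/
def Stmt_VAR : Prop :=
  ∀ (K : Type) [Field K] (v m : ℕ) (h : v ≤ m),
    (∀ (A : Type) (f : PX K A v), down (up h f) = f) ∧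
    (∀ (A : Type) (f : PX K A m), (∀ μ ∈ f.support, ∀ x, ∀ j : Fin m, v ≤ j.val → μ (x, j) = 0) →
      up h (down (v := v) f) = f) ∧
    (∀ (A B : Type) (φ : A → B) (f : PX K A v), ren φ (up h f) = up h (ren φ f)) ∧
    (∀ (A B : Type) (φ : A → B) (f : PX K A m), ren φ (down (v := v) f) = down (ren φ f)) ∧
    ∀ (U : Type) [Fintype U] [DecidableEq U] (d r : ℕ),
      (∀ f : PX K (Option U) v, InZ U v d r f → InZ U m d r (up h f)) ∧
      (∀ f : PX K (Option U) v, InB U v d r f → InB U m d r (up h f)) ∧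
      (∀ f : PX K (Option U) m, InZ U m d r f → InZ U v d r (down f)) ∧
      (∀ f : PX K (Option U) m, InB U m d r f → InB U v d r (down f))

/-- RED: vanishing in `m` variables implies vanishing in fewer variables. -/
def Stmt_RED : Prop :=
  ∀ (K : Type) [Field K] (v m d p r : ℕ), v ≤ m → Van K m d p r → Van K v d p r

/-- OPS: the operators preserve cycles and boundaries. -/
def Stmt_OPS : Prop :=
  ∀ (K : Type) [Field K] (U : Type) [Fintype U] [DecidableEq U] (v d r : ℕ),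
    (∀ (i j : Fin v) (f : PX K (Option U) v), InZ U v d r f → InZ U v d r (Eij i j f)) ∧
    (∀ (i j : Fin v) (f : PX K (Option U) v), InB U v d r f → InB U v d r (Eij i j f)) ∧
    (∀ (L : List (Fin v)) (f : PX K (Option U) v), InZ U v d r f →
      KZ U v d r L.length (yL L f)) ∧
    (∀ (L : List (Fin v)) (c : SA K (Option U) v L.length), KB U v d r L.length c →
      InB U v d r (capL L c)) ∧
    (∀ (f : PX K (Option U) v) (ν : Fin v → ℕ), InZ U v d r f →
      InZ U v d r (weightedHomogeneousComponent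
        (fun x : Option U × Fin v => (Pi.single x.2 1 : _ → ℕ)) ν f))

/-- THB: Theorem B. -/
def Stmt_THB : Prop :=
  ∀ (K : Type) [Field K] [CharZero K] (v d : ℕ), 4 ≤ d → Van K v d (d + 2) (2 * d - 1)

/-- CH: the numbers (Theorem A with Theorem B). -/
def Stmt_CH : Prop :=
  ∀ (K : Type) [Field K] [CharZero K],
    (∀ v d b p : ℕ, b + 3 ≤ d → (p : ℤ) < Lend 2 b d → p ≤ d + 3 * b + 5 →
      Van K v d p (2 * d + b)) ∧
    (∀ v d q b p : ℕ, 3 ≤ q → b + q + 1 ≤ d → p + 5 * d ≤ 3 * q * d + 3 * b + 4 →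
      Van K v d p (q * d + b))

/-- OFF: the points model computes Koszul cohomology. -/
def Stmt_OFF : Prop :=
  ∀ (K : Type) [Field K] [CharZero K] (n b d p q : ℕ), 1 ≤ d → Van K (n + 1) d p (q * d + b) →
    KVanishes K n b d p q

/-- The final theorem. -/
def Stmt_FIN : Prop :=
  (∀ n b d p : ℕ, 1 ≤ n → b + 3 ≤ d → (p : ℤ) < Lend 2 b d → p ≤ d + 3 * b + 5 →
    KVanishes ℂ n b d p 2) ∧
  (∀ n b p : ℕ, 1 ≤ n → b + 3 ≤ 4 → (p : ℤ) < Lend 2 b 4 → KVanishes ℂ n b 4 p 2) ∧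
  (∀ n q b d p : ℕ, 1 ≤ n → 3 ≤ q → b + q + 1 ≤ d → p + 5 * d ≤ 3 * q * d + 3 * b + 4 →
    KVanishes ℂ n b d p q)

end Pool.Agent.VSY
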