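import Mathlib
import Pool.Agent.VSY.Stmts

set_option autoImplicit false

namespace Pool.Agent.VSY

open MvPolynomial

namespace NAT

variable {K : Type} [Field K] {A B : Type} [Fintype A] [DecidableEq A] [Fintype B] [DecidableEq B]
  {v : ℕ}

theorem SA_sum_apply {D : Type} {k : ℕ} {ι : Type} (s : Finset ι) (c : ι → SA K D v k)
    (ξ : Fin k → D → K) : (∑ x ∈ s, c x) ξ = ∑ x ∈ s, c x ξ := by
  classical
  induction s using Finset.induction_on with
  | empty => rfl
  | insert a s ha ih =>
    rw [Finset.sum_insert ha, Finset.sum_insert ha, AlternatingMap.add_apply, ih]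

omit [DecidableEq A] in
theorem Eij_apply (i j : Fin v) (f : PX K A v) :
    Eij i j f = ∑ x : A, X (x, i) * pderiv (x, j) f := by
  simp [Eij, LinearMap.sum_apply]

omit [DecidableEq A] in
theorem dd_apply (j : Fin v) (ξ : A → K) (f : PX K A v) :
    dd j ξ f = ∑ x : A, ξ x • pderiv (x, j) f := by
  simp [dd, LinearMap.sum_apply]

theorem ren_Eij (φ : A → B) (i j : Fin v) (f : PX K A v) :
    ren φ (Eij i j f) = Eij i j (ren φ f) := by
  rw [Eij_apply, Eij_apply, map_sum]
  have h : ∀ b : B, (X (b, i) : PX K B v) * pderiv (b, j) (ren φ f) =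
      ∑ a ∈ Finset.univ.filter (fun a => φ a = b), X (φ a, i) * ren φ (pderiv (a, j) f) := by
    intro b
    rw [pderiv_ren, Finset.mul_sum]
    refine Finset.sum_congr rfl fun a ha => ?_
    rw [(Finset.mem_filter.1 ha).2]
  rw [Finset.sum_congr rfl fun b _ => h b,
    Finset.sum_fiberwise (s := (Finset.univ : Finset A)) (g := φ)
      (f := fun a => (X (φ a, i) : PX K B v) * ren φ (pderiv (a, j) f))]
  refine Finset.sum_congr rfl fun a _ => ?_
  rw [map_mul, ren_X]

theorem ren_dd (φ : A → B) (j : Fin v) (ξ : B → K) (f : PX K A v) :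
    ren φ (dd j (ξ ∘ φ) f) = dd j ξ (ren φ f) := by
  rw [dd_apply, dd_apply, map_sum]
  have h : ∀ b : B, ξ b • pderiv (b, j) (ren φ f) =
      ∑ a ∈ Finset.univ.filter (fun a => φ a = b), ξ (φ a) • ren φ (pderiv (a, j) f) := by
    intro b
    rw [pderiv_ren, Finset.smul_sum]
    refine Finset.sum_congr rfl fun a ha => ?_
    rw [(Finset.mem_filter.1 ha).2]
  rw [Finset.sum_congr rfl fun b _ => h b,
    Finset.sum_fiberwise (s := (Finset.univ : Finset A)) (g := φ)
      (f := fun a => ξ (φ a) • ren φ (pderiv (a, j) f))]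
  refine Finset.sum_congr rfl fun a _ => ?_
  rw [map_smul, Function.comp_apply]

theorem push_EA (φ : A → B) (k : ℕ) (i j : Fin v) (c : SA K A v k) :
    push φ (EA i j c) = EA i j (push φ c) := by
  ext1 ξ
  exact ren_Eij φ i j _

omit [DecidableEq A] in
theorem Dop_apply {k : ℕ} (j : Fin v) (c : SA K A v k) (ξ : Fin (k + 1) → A → K) :
    Dop j c ξ = ∑ i : Fin (k + 1), (-1) ^ (i : ℕ) • dd j (ξ i) (c (i.removeNth ξ)) := by
  rw [Dop, AlternatingMap.alternatizeUncurryFin_apply]
  rfl

theorem push_Dop (φ : A → B) (k : ℕ) (j : Fin v) (c : SA K A v k) :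
    push φ (Dop j c) = Dop j (push φ c) := by
  ext1 ξ
  rw [push_apply, Dop_apply, Dop_apply, map_sum]
  refine Finset.sum_congr rfl fun i _ => ?_
  rw [map_zsmul, ren_dd]
  rfl

theorem Est_apply {k : ℕ} (i : Fin v) (c : SA K A v (k + 1)) (ξ : Fin k → A → K) :
    Est i c ξ = ∑ x : A, X (x, i) * c (Fin.cons (Pi.single x 1) ξ) := by
  rw [Est, SA_sum_apply]
  rfl

theorem push_Est (φ : A → B) (k : ℕ) (i : Fin v) (c : SA K A v (k + 1)) :
    push φ (Est i c) = Est i (push φ c) := by
  ext1 ξ
  rw [push_apply, Est_apply, Est_apply, map_sum]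
  have h : ∀ b : B, (X (b, i) : PX K B v) * push φ c (Fin.cons (Pi.single b 1) ξ) =
      ∑ a ∈ Finset.univ.filter (fun a => φ a = b),
        X (φ a, i) * ren φ (c (Fin.cons (Pi.single a 1) fun l => ξ l ∘ φ)) := by
    intro b
    have h1 : (fun l => (Fin.cons (Pi.single b 1) ξ : Fin (k + 1) → B → K) l ∘ φ) =
        Fin.cons (∑ a ∈ Finset.univ.filter (fun a => φ a = b), (Pi.single a (1 : K) : A → K))
          (fun l => ξ l ∘ φ) := by
      funext l
      refine Fin.cases ?_ (fun l => ?_) l
      · funext a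
        simp only [Fin.cons_zero, Function.comp_apply, Finset.sum_apply, Pi.single_apply]
        rw [Finset.sum_ite_eq]
        simp
      · simp
    have h2 : c (Fin.cons (∑ a ∈ Finset.univ.filter (fun a => φ a = b),
        (Pi.single a (1 : K) : A → K)) (fun l => ξ l ∘ φ)) =
        ∑ a ∈ Finset.univ.filter (fun a => φ a = b),
          c (Fin.cons (Pi.single a (1 : K)) (fun l => ξ l ∘ φ)) := by
      have h3 : ∀ y : A → K, c (Fin.cons y (fun l => ξ l ∘ φ)) =
          c.curryLeft y (fun l => ξ l ∘ φ) := fun y => rfl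
      rw [h3, map_sum, SA_sum_apply]
      rfl
    rw [push_apply, h1, h2, map_sum, Finset.mul_sum]
    refine Finset.sum_congr rfl fun a ha => ?_
    rw [(Finset.mem_filter.1 ha).2]
  rw [Finset.sum_congr rfl fun b _ => h b,
    Finset.sum_fiberwise (s := (Finset.univ : Finset A)) (g := φ)
      (f := fun a => (X (φ a, i) : PX K B v) *
        ren φ (c (Fin.cons (Pi.single a 1) fun l => ξ l ∘ φ)))]
  refine Finset.sum_congr rfl fun a _ => ?_
  rw [map_mul, ren_X]

theorem push_yL (φ : A → B) (L : List (Fin v)) (g : PX K A v) :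
    push φ (yL L g) = yL L (ren φ g) := by
  induction L with
  | nil =>
    ext1 ξ
    rfl
  | cons j L ih =>
    exact (push_Dop φ L.length j (yL L g)).trans (by rw [ih]; rfl)

theorem ren_capL (φ : A → B) (L : List (Fin v)) : ∀ c : SA K A v L.length,
    ren φ (capL L c) = capL L (push φ c) := by
  induction L with
  | nil =>
    intro c
    change ren φ (c Fin.elim0) = ren φ (c fun i => (Fin.elim0 i : B → K) ∘ φ)
    congr 2
    funext i
    exact i.elim0
  | cons j L ih =>
    intro c
    exact (ih (Est j c)).trans (congrArg (capL L) (push_Est φ L.length j c))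

end NAT

theorem NAT_thm : Stmt_NAT := by
  intro K _ A B _ _ _ _ v φ
  exact ⟨NAT.ren_Eij φ, NAT.push_EA φ, NAT.push_Dop φ, NAT.push_Est φ, NAT.push_yL φ,
    NAT.ren_capL φ⟩

end Pool.Agent.VSY
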