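import Pool.Agent.VSY.StmtsB

/-!
# Veronese syzygies (MP_deb8da_ag): module WB, weights and polarisation operators
-/

namespace Pool.Agent.VSY

open MvPolynomial

namespace WB

variable {K : Type} [Field K] {A B : Type} [Fintype A] [Fintype B] {v : ℕ}

/-- The weight function of the coordinates of the points. -/
def wt (A : Type) (v : ℕ) : A × Fin v → (Fin v → ℕ) := fun x => Pi.single x.2 1

omit [Fintype A] in
theorem wt_apply (x : A) (l j : Fin v) : wt A v (x, l) j = if l = j then 1 else 0 := by
  simp only [wt, Pi.single_apply]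
  exact if_congr eq_comm rfl rfl

theorem weight_wt (m : A × Fin v →₀ ℕ) (j : Fin v) :
    Finsupp.weight (wt A v) m j = ∑ x, m (x, j) := by
  rw [Finsupp.weight_apply, Finsupp.sum_fintype _ _ (by simp), Finset.sum_apply,
    Fintype.sum_prod_type]
  refine Finset.sum_congr rfl fun x _ => ?_
  rw [Finset.sum_eq_single j]
  · simp [wt_apply]
  · intro l _ hl
    simp [wt_apply, hl]
  · simp

theorem hasW_iff (ν : Fin v → ℕ) (f : PX K A v) :
    HasW ν f ↔ f.IsWeightedHomogeneous (wt A v) ν := by
  constructor
  · intro h m hm
    funext j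
    rw [weight_wt]
    exact h m (mem_support_iff.2 hm) j
  · intro h m hm j
    rw [← weight_wt, h (mem_support_iff.1 hm)]

/-- `E_ij` as a derivation. -/
noncomputable def Dij (K : Type) [Field K] (A : Type) [Fintype A] {v : ℕ} (i j : Fin v) :
    Derivation K (PX K A v) (PX K A v) :=
  ∑ x : A, (X (x, i) : PX K A v) • pderiv (x, j)

theorem Eij_apply (i j : Fin v) (f : PX K A v) :
    Eij i j f = ∑ x : A, X (x, i) * pderiv (x, j) f := by
  simp [Eij]

omit [Fintype A] in
theorem sum_der (s : Finset A) (F : A → Derivation K (PX K A v) (PX K A v)) (f : PX K A v) :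
    (∑ x ∈ s, F x) f = ∑ x ∈ s, F x f := by
  classical
  induction s using Finset.induction_on with
  | empty => simp
  | insert a s ha ih => rw [Finset.sum_insert ha, Finset.sum_insert ha, Derivation.add_apply, ih]

theorem Dij_apply (i j : Fin v) (f : PX K A v) : Dij K A i j f = Eij i j f := by
  rw [Eij_apply, Dij, sum_der]
  rfl

theorem Eij_X [DecidableEq A] (i j : Fin v) (x : A) (l : Fin v) :
    Eij i j (X (x, l) : PX K A v) = if j = l then X (x, i) else 0 := by
  rw [Eij_apply]
  simp only [pderiv_X, Pi.single_apply, Prod.mk.injEq]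
  rw [Finset.sum_eq_single x]
  · by_cases h : j = l
    · subst h
      simp
    · have h' : ¬ l = j := fun e => h e.symm
      simp [h, h']
  · intro y _ hy
    have : ¬ (x = y) := fun e => hy e.symm
    simp [this]
  · simp

theorem Eij_zero (i j : Fin v) (f : PX K A v) {ν : Fin v → ℕ} (hf : HasW ν f) (hj : ν j = 0) :
    Eij i j f = 0 := by
  rw [Eij_apply]
  refine Finset.sum_eq_zero fun x _ => ?_
  rw [pderiv_eq_zero_of_notMem_vars, mul_zero]
  intro hx
  obtain ⟨d, hd, hxd⟩ := (mem_vars_iff_mem_support _).1 hx
  have h := hf d hd j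
  rw [hj] at h
  have h2 := Finset.sum_eq_zero_iff.1 h x (Finset.mem_univ x)
  exact (Finsupp.mem_support_iff.1 hxd) h2

theorem comm [DecidableEq A] (i j k l : Fin v) (f : PX K A v) :
    Eij i j (Eij k l f) = Eij k l (Eij i j f) +
      (if j = k then Eij i l f else 0) - (if l = i then Eij k j f else 0) := by
  have h : ⁅Dij K A i j, Dij K A k l⁆ =
      (if j = k then Dij K A i l else 0) - (if l = i then Dij K A k j else 0) := by
    refine MvPolynomial.derivation_ext ?_
    rintro ⟨x, m⟩
    rw [Derivation.commutator_apply, Derivation.sub_apply]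
    have h1 : ∀ (p : Prop) [Decidable p] (D : Derivation K (PX K A v) (PX K A v)) (g : PX K A v),
        (if p then D else 0) g = if p then D g else 0 := by
      intro p _ D g
      split_ifs <;> simp
    rw [h1, h1]
    simp only [Dij_apply, Eij_X]
    have h2 : ∀ (a b : Fin v) (p : Prop) [Decidable p] (g : PX K A v),
        Eij a b (if p then g else 0) = if p then Eij a b g else 0 := by
      intro a b p _ g
      split_ifs <;> simp
    rw [h2, h2, Eij_X, Eij_X]
    by_cases hjk : j = k <;> by_cases hli : l = i <;> by_cases hlm : l = m <;>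
      by_cases hjm : j = m <;> simp [hjk, hli, hlm, hjm] <;> simp_all
  have h2 := congrArg (fun D => D f) h
  simp only [Derivation.commutator_apply, Derivation.sub_apply, Dij_apply] at h2
  have h1 : ∀ (p : Prop) [Decidable p] (a b : Fin v),
      (if p then Dij K A a b else 0) f = if p then Eij a b f else 0 := by
    intro p _ a b
    split_ifs <;> simp [Dij_apply]
  rw [h1, h1] at h2
  rw [sub_eq_iff_eq_add] at h2
  rw [h2]
  ring

end WB

open WB in
theorem WB_thm : Stmt_WB := by
  intro K _ A B _ _ _ _ v
  refine ⟨?_, ?_, ?_, ?_, ?_, ?_, ?_, ?_, ?_, ?_, ?_, ?_, ?_⟩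
  · intro ν f g hf hg
    rw [hasW_iff] at *
    exact hf.add hg
  · intro ν a f hf
    exact fun m hm => hf m (support_smul hm)
  · intro ν μ f g hf hg
    rw [hasW_iff] at *
    exact hf.mul hg
  · intro ν φ f hf m hm j
    obtain ⟨m', hm', rfl⟩ := exists_of_mem_support_ren _ _ hm
    simp only [mapDomain_deg]
    rw [← hf m' hm' j]
    exact Finset.sum_fiberwise _ _ _
  · intro ν f i hf
    have h1 : f.IsWeightedHomogeneous (fun x : A × Fin v => if x.2 = i then 1 else 0) (ν i) := by
      intro m hm
      rw [← hf m (mem_support_iff.2 hm) i, Finsupp.weight_apply,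
        Finsupp.sum_fintype _ _ (by simp), Fintype.sum_prod_type]
      refine Finset.sum_congr rfl fun x _ => ?_
      simp
    have h2 := h1.sum_weight_X_mul_pderiv
    rw [Fintype.sum_prod_type] at h2
    rw [Eij_apply, ← Nat.cast_smul_eq_nsmul K] at *
    rw [← h2]
    refine Finset.sum_congr rfl fun x _ => ?_
    simp
  · intro ν ν' f i j hf hν
    by_cases hj : ν j = 0
    · rw [Eij_zero i j f hf hj]
      intro m hm
      simp at hm
    · rw [Eij_apply, hasW_iff]
      rw [hasW_iff] at hf
      have h0 : (Pi.single i 1 : Fin v → ℕ) + (ν - Pi.single j 1) = ν' := by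
        funext l
        have h := hν l
        have h1 : (Pi.single i 1 : Fin v → ℕ) l = if l = i then 1 else 0 := by
          rw [Pi.single_apply]
        have h2 : (Pi.single j 1 : Fin v → ℕ) l = if l = j then 1 else 0 := by
          rw [Pi.single_apply]
        rw [Pi.add_apply, Pi.sub_apply, h1, h2]
        by_cases h3 : l = j
        · subst h3
          rw [if_pos rfl] at h ⊢
          omega
        · rw [if_neg h3] at h ⊢
          omega
      rw [← h0]
      refine IsWeightedHomogeneous.sum _ _ _ fun x _ => ?_
      refine IsWeightedHomogeneous.mul (isWeightedHomogeneous_X _ _ _) ?_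
      refine IsWeightedHomogeneous.pderiv hf ?_
      funext l
      have h2 : (Pi.single j 1 : Fin v → ℕ) l = if l = j then 1 else 0 := by
        rw [Pi.single_apply]
      rw [Pi.add_apply, Pi.sub_apply]
      change ν l - (Pi.single j 1 : Fin v → ℕ) l + (Pi.single j 1 : Fin v → ℕ) l = ν l
      rw [h2]
      by_cases h3 : l = j
      · subst h3
        rw [if_pos rfl]
        omega
      · rw [if_neg h3]
        omega
  · intro ν f i j hf hj
    exact Eij_zero i j f hf hj
  · intro ν f
    rw [hasW_iff]
    exact weightedHomogeneousComponent_isWeightedHomogeneous _ _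
  · intro ν μ f hf
    rw [hasW_iff] at hf
    have h := weightedHomogeneousComponent_of_mem (m := μ) (n := ν) (w := wt A v) (p := f) hf
    refine Eq.trans h ?_
    exact if_congr Iff.rfl rfl rfl
  · intro i j f g
    rw [← Dij_apply, ← Dij_apply, ← Dij_apply, Derivation.leibniz, smul_eq_mul, smul_eq_mul,
      mul_comm g]
  · intro i j x l
    exact Eij_X i j x l
  · intro i j k l f
    exact comm i j k l f
  · intro i j x a
    induction a using MvPolynomial.induction_on with
    | C a => simp [atp, E1, Eij_apply]
    | add p q hp hq => simp only [map_add, hp, hq, E1, mul_add]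
    | mul_X p l hp =>
      rw [map_mul, ← Dij_apply, Derivation.leibniz, Dij_apply, Dij_apply, hp]
      simp only [atp, rename_X, E1, Eij_X, Derivation.leibniz, smul_eq_mul, map_mul, map_add,
        pderiv_X, Pi.single_apply]
      split_ifs with h1 h2 h2
      · simp; ring
      · simp_all
      · simp_all
      · simp; ring

end Pool.Agent.VSY
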