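import Pool.Agent.VSY.StmtsD

/-!
# KOS: the Koszul complex in coordinates
-/

namespace Pool.Agent.VSY

open MvPolynomial TensorProduct Module

namespace KOS

/-! ### Sets of `p` elements -/

section Comb

variable {N : ℕ}

theorem card_lt {p : ℕ} (I : Finset (Fin N)) (h : I.card = p) (i : Fin p) :
    (I.filter (fun c => c < I.orderEmbOfFin h i)).card = i := by
  have e : I.filter (fun c => c < I.orderEmbOfFin h i) =
      (Finset.Iio i).map (I.orderEmbOfFin h).toEmbedding := by
    ext c
    rw [Finset.mem_filter, Finset.mem_map]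
    constructor
    · rintro ⟨h1, h2⟩
      have h3 : c ∈ Set.range (I.orderEmbOfFin h) := by
        rw [Finset.range_orderEmbOfFin]
        exact h1
      obtain ⟨j, rfl⟩ := h3
      exact ⟨j, Finset.mem_Iio.2 ((I.orderEmbOfFin h).lt_iff_lt.1 h2), rfl⟩
    · rintro ⟨j, h1, rfl⟩
      exact ⟨Finset.orderEmbOfFin_mem _ _ _,
        (I.orderEmbOfFin h).lt_iff_lt.2 (Finset.mem_Iio.1 h1)⟩
  rw [e, Finset.card_map, Fin.card_Iio]

theorem succAbove_eq {p : ℕ} (I : Finset (Fin N)) (h : I.card = p + 1) (i : Fin (p + 1))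
    (h' : (I.erase (I.orderEmbOfFin h i)).card = p) (j : Fin p) :
    I.orderEmbOfFin h (i.succAbove j) = (I.erase (I.orderEmbOfFin h i)).orderEmbOfFin h' j := by
  have h1 := Finset.orderEmbOfFin_unique h' (f := fun j => I.orderEmbOfFin h (i.succAbove j))
    (fun j => Finset.mem_erase.2 ⟨fun h2 => Fin.succAbove_ne i j
      ((I.orderEmbOfFin h).injective h2), Finset.orderEmbOfFin_mem _ _ _⟩)
    ((I.orderEmbOfFin h).strictMono.comp (Fin.strictMono_succAbove i))
  exact congrFun h1 j

theorem sum_fin {M : Type} [AddCommMonoid M] {p : ℕ} (I : Finset (Fin N)) (h : I.card = p)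
    (F : ℕ → Fin N → M) :
    ∑ i : Fin p, F i (I.orderEmbOfFin h i) = ∑ k ∈ I, F (I.filter (fun c => c < k)).card k := by
  refine Finset.sum_bij (fun i _ => I.orderEmbOfFin h i)
    (fun i _ => Finset.orderEmbOfFin_mem _ _ _)
    (fun i _ j _ hij => (I.orderEmbOfFin h).injective hij) (fun k hk => ?_) (fun i _ => ?_)
  · have h3 : k ∈ Set.range (I.orderEmbOfFin h) := by
      rw [Finset.range_orderEmbOfFin]
      exact hk
    obtain ⟨j, rfl⟩ := h3
    exact ⟨j, Finset.mem_univ _, rfl⟩
  · rw [card_lt]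

theorem filter_insert' (J : Finset (Fin N)) (k : Fin N) :
    (insert k J).filter (fun c => c < k) = J.filter (fun c => c < k) := by
  rw [Finset.filter_insert, if_neg (lt_irrefl k)]

/-- Exchange of the sums. -/
theorem sum_swap {M : Type} [AddCommMonoid M] (p : ℕ)
    (F : ℕ → Finset (Fin N) → Fin N → Finset (Fin N) → M) :
    ∑ I ∈ Finset.powersetCard (p + 1) (Finset.univ : Finset (Fin N)),
      ∑ k ∈ I, F (I.filter (fun c => c < k)).card (I.erase k) k I =
    ∑ J ∈ Finset.powersetCard p (Finset.univ : Finset (Fin N)),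
      ∑ k ∈ Jᶜ, F (J.filter (fun c => c < k)).card J k (insert k J) := by
  rw [Finset.sum_sigma', Finset.sum_sigma']
  refine Finset.sum_bij' (fun x _ => ⟨x.1.erase x.2, x.2⟩) (fun x _ => ⟨insert x.2 x.1, x.2⟩)
    ?_ ?_ ?_ ?_ ?_
  · rintro ⟨I, k⟩ hx
    rw [Finset.mem_sigma, Finset.mem_powersetCard] at hx
    obtain ⟨⟨-, h1⟩, h2⟩ := hx
    rw [Finset.mem_sigma, Finset.mem_powersetCard]
    refine ⟨⟨Finset.subset_univ _, ?_⟩, ?_⟩
    · simp only at h1 h2 ⊢
      rw [Finset.card_erase_of_mem h2, h1, Nat.add_sub_cancel]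
    · simp only [Finset.mem_compl, Finset.mem_erase, ne_eq, not_true, false_and, not_false_iff]
  · rintro ⟨J, k⟩ hx
    rw [Finset.mem_sigma, Finset.mem_powersetCard] at hx
    obtain ⟨⟨-, h1⟩, h2⟩ := hx
    rw [Finset.mem_sigma, Finset.mem_powersetCard]
    simp only at h1 h2 ⊢
    rw [Finset.mem_compl] at h2
    exact ⟨⟨Finset.subset_univ _, by rw [Finset.card_insert_of_notMem h2, h1]⟩,
      Finset.mem_insert_self _ _⟩
  · rintro ⟨I, k⟩ hx
    rw [Finset.mem_sigma] at hx
    simp only at hx ⊢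
    rw [Finset.insert_erase hx.2]
  · rintro ⟨J, k⟩ hx
    rw [Finset.mem_sigma] at hx
    simp only [Finset.mem_compl] at hx ⊢
    rw [Finset.erase_insert hx.2]
  · rintro ⟨I, k⟩ hx
    rw [Finset.mem_sigma] at hx
    simp only at hx ⊢
    rw [Finset.insert_erase hx.2]
    have h1 : (I.erase k).filter (fun c => c < k) = I.filter (fun c => c < k) := by
      rw [← filter_insert', Finset.insert_erase hx.2]
    rw [h1]

end Comb

/-! ### Coordinates -/

variable {K : Type} [Field K]

/-- Forms as polynomials. -/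
noncomputable def vl (K : Type) [Field K] (n m : ℕ) :
    Forms K n m →ₗ[K] MvPolynomial (Fin (n + 1)) K :=
  (homogeneousSubmodule (Fin (n + 1)) K m).subtype

theorem vl_apply {n m : ℕ} (s : Forms K n m) : vl K n m s = s.1 := rfl

theorem vl_inj {n m : ℕ} {s t : Forms K n m} (h : vl K n m s = vl K n m t) : s = t :=
  Subtype.ext h

theorem vl_mul {n a m m' : ℕ} (h : m + a = m') (s : Forms K n a) (t : Forms K n m) :
    vl K n m' (mulForms K h s t) = vl K n a s * vl K n m t := rfl

section

variable {n d N : ℕ} (β : Basis (Fin N) K (Forms K n d))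

/-- The wedge product of the basis vectors in `J`. -/
noncomputable def W (p : ℕ) (J : Finset (Fin N)) : Ext K (Forms K n d) p :=
  if h : J.card = p then wedge K (Forms K n d) p (fun i => β (J.orderEmbOfFin h i)) else 0

/-- The coordinates. -/
noncomputable def ev (p : ℕ) (J : Finset (Fin N)) : Ext K (Forms K n d) p →ₗ[K] K :=
  if h : J.card = p then (β.exteriorPower p).coord ⟨J, h⟩ else 0

theorem W_eq {p : ℕ} {J : Finset (Fin N)} (h : J.card = p) :
    W β p J = (β.exteriorPower p) ⟨J, h⟩ := by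
  rw [W, dif_pos h, exteriorPower.basis_apply]
  rfl

theorem ev_W {p : ℕ} {I J : Finset (Fin N)} (hI : I.card = p) (hJ : J.card = p) :
    ev β p I (W β p J) = if J = I then 1 else 0 := by
  rw [W_eq β hJ, ev, dif_pos hI]
  have h1 : (β.exteriorPower p).coord ⟨I, hI⟩ ((β.exteriorPower p) ⟨J, hJ⟩) =
      if (⟨J, hJ⟩ : Set.powersetCard (Fin N) p) = ⟨I, hI⟩ then 1 else 0 := by
    rw [Basis.coord_apply, Basis.repr_self, Finsupp.single_apply]
  refine h1.trans ?_
  by_cases h : J = I
  · rw [if_pos h, if_pos (Subtype.ext h)]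
  · rw [if_neg h, if_neg fun h2 => h (congrArg Subtype.val h2)]

theorem sum_W {p : ℕ} (w : Ext K (Forms K n d) p) :
    w = ∑ J ∈ Finset.powersetCard p (Finset.univ : Finset (Fin N)), ev β p J w • W β p J := by
  have h1 := (β.exteriorPower p).sum_repr w
  have h2 : ∑ J ∈ Finset.powersetCard p (Finset.univ : Finset (Fin N)), ev β p J w • W β p J =
      ∑ s : Set.powersetCard (Fin N) p, ev β p s.1 w • W β p s.1 :=
    Finset.sum_subtype _ (fun J => by
      rw [Finset.mem_powersetCard]
      exact ⟨fun h => h.2, fun h => ⟨Finset.subset_univ _, h⟩⟩) _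
  rw [h2]
  refine h1.symm.trans (Finset.sum_congr rfl fun s _ => ?_)
  rw [W_eq β s.2, ev, dif_pos (show s.1.card = p from s.2)]
  rfl

/-- The coordinates of tensors. -/
noncomputable def evT (p m : ℕ) (J : Finset (Fin N)) : KT K n d p m →ₗ[K] Forms K n m :=
  TensorProduct.lift ((LinearMap.lsmul K (Forms K n m)).comp (ev β p J))

theorem evT_tmul {p m : ℕ} (J : Finset (Fin N)) (w : Ext K (Forms K n d) p) (t : Forms K n m) :
    evT β p m J (w ⊗ₜ[K] t) = ev β p J w • t := rfl

theorem evT_sum {p m : ℕ} {J : Finset (Fin N)} (hJ : J.card = p)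
    (y : Finset (Fin N) → Forms K n m) :
    evT β p m J (∑ I ∈ Finset.powersetCard p (Finset.univ : Finset (Fin N)),
      W β p I ⊗ₜ[K] y I) = y J := by
  rw [map_sum, Finset.sum_eq_single J]
  · rw [evT_tmul, ev_W β hJ hJ, if_pos rfl, one_smul]
  · intro I hI hne
    rw [evT_tmul, ev_W β hJ (Finset.mem_powersetCard.1 hI).2, if_neg hne, zero_smul]
  · intro h
    exact absurd (Finset.mem_powersetCard.2 ⟨Finset.subset_univ _, hJ⟩) h

theorem sum_evT {p m : ℕ} (x : KT K n d p m) :
    x = ∑ I ∈ Finset.powersetCard p (Finset.univ : Finset (Fin N)),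
      W β p I ⊗ₜ[K] evT β p m I x := by
  induction x using TensorProduct.induction_on with
  | zero =>
    simp only [map_zero, TensorProduct.tmul_zero, Finset.sum_const_zero]
  | add x y hx hy =>
    simp only [map_add, TensorProduct.tmul_add, Finset.sum_add_distrib]
    rw [← hx, ← hy]
  | tmul w t =>
    have h1 := congrArg (fun w => w ⊗ₜ[K] t) (sum_W β w)
    simp only [TensorProduct.sum_tmul] at h1
    refine h1.trans (Finset.sum_congr rfl fun I _ => ?_)
    rw [evT_tmul, TensorProduct.smul_tmul]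

theorem koszulD_W {p m m' : ℕ} (h : m + d = m') {I : Finset (Fin N)} (hI : I.card = p + 1)
    (y : Forms K n m) :
    koszulD K p h (W β (p + 1) I ⊗ₜ[K] y) =
      ∑ k ∈ I, (-1 : K) ^ ((I.filter (fun c => c < k)).card + 1) •
        (W β p (I.erase k) ⊗ₜ[K] mulForms K h (β k) y) := by
  rw [W, dif_pos hI, koszulD_apply, ← sum_fin I hI (fun a k => (-1 : K) ^ (a + 1) •
    (W β p (I.erase k) ⊗ₜ[K] mulForms K h (β k) y))]
  refine Finset.sum_congr rfl fun i _ => ?_
  have h' : (I.erase (I.orderEmbOfFin hI i)).card = p := by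
    rw [Finset.card_erase_of_mem (Finset.orderEmbOfFin_mem _ _ _), hI, Nat.add_sub_cancel]
  have h3 : (fun j => β (I.orderEmbOfFin hI (i.succAbove j))) =
      fun j => β ((I.erase (I.orderEmbOfFin hI i)).orderEmbOfFin h' j) :=
    funext fun j => by rw [succAbove_eq I hI i h' j]
  rw [W, dif_pos h', h3]

theorem koszulD_sum {p m m' : ℕ} (h : m + d = m') (y : Finset (Fin N) → Forms K n m) :
    koszulD K p h (∑ I ∈ Finset.powersetCard (p + 1) (Finset.univ : Finset (Fin N)),
      W β (p + 1) I ⊗ₜ[K] y I) =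
    ∑ J ∈ Finset.powersetCard p (Finset.univ : Finset (Fin N)), W β p J ⊗ₜ[K]
      ∑ k ∈ Jᶜ, (-1 : K) ^ ((J.filter (fun c => c < k)).card + 1) •
        mulForms K h (β k) (y (insert k J)) := by
  rw [map_sum]
  have h1 := sum_swap (N := N) (M := KT K n d p m') p (fun a J k I => (-1 : K) ^ (a + 1) •
    (W β p J ⊗ₜ[K] mulForms K h (β k) (y I)))
  refine Eq.trans (Finset.sum_congr rfl fun I hI => ?_) (h1.trans
    (Finset.sum_congr rfl fun J hJ => ?_))
  · exact koszulD_W β h (Finset.mem_powersetCard.1 hI).2 (y I)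
  · rw [TensorProduct.tmul_sum]
    refine Finset.sum_congr rfl fun k _ => ?_
    rw [TensorProduct.tmul_smul]

theorem evT_koszulD {p m m' : ℕ} (h : m + d = m') {I : Finset (Fin N)} (hI : I.card = p)
    (y : KT K n d (p + 1) m) :
    evT β p m' I (koszulD K p h y) =
      ∑ k ∈ Iᶜ, (-1 : K) ^ ((I.filter (fun c => c < k)).card + 1) •
        mulForms K h (β k) (evT β (p + 1) m (insert k I) y) := by
  have h1 : koszulD K p h y = ∑ J ∈ Finset.powersetCard p (Finset.univ : Finset (Fin N)),
      W β p J ⊗ₜ[K] ∑ k ∈ Jᶜ, (-1 : K) ^ ((J.filter (fun c => c < k)).card + 1) •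
        mulForms K h (β k) (evT β (p + 1) m (insert k J) y) :=
    (congrArg (koszulD K p h) (sum_evT β y)).trans
      (koszulD_sum β h fun I => evT β (p + 1) m I y)
  exact (congrArg (evT β p m' I) h1).trans (evT_sum β hI _)

theorem vl_sum {m m' : ℕ} (h : m + d = m') (J : Finset (Fin N))
    (y : Finset (Fin N) → Forms K n m) :
    vl K n m' (∑ k ∈ Jᶜ, (-1 : K) ^ ((J.filter (fun c => c < k)).card + 1) •
        mulForms K h (β k) (y (insert k J))) =
      ∑ k ∈ Jᶜ, (-1 : MvPolynomial (Fin (n + 1)) K) ^ (J.filter (fun c => c < k)).card *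
        (β k).1 * (-(y (insert k J)).1) := by
  rw [map_sum]
  refine Finset.sum_congr rfl fun k _ => ?_
  rw [map_smul, vl_mul, vl_apply, vl_apply, Algebra.smul_def, map_pow, map_neg, map_one, pow_succ]
  ring

end

/-- The basis of forms. -/
theorem exists_basis {n d N : ℕ} {φ : Fin N → MvPolynomial (Fin (n + 1)) K}
    (hφ : ∀ k, φ k ∈ homogeneousSubmodule (Fin (n + 1)) K d) (hli : LinearIndependent K φ)
    (hsp : Submodule.span K (Set.range φ) = homogeneousSubmodule (Fin (n + 1)) K d) :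
    ∃ β : Basis (Fin N) K (Forms K n d), ∀ k, vl K n d (β k) = φ k := by
  obtain ⟨ψ, hψ⟩ : ∃ ψ : Fin N → Forms K n d, ∀ k, vl K n d (ψ k) = φ k :=
    ⟨fun k => ⟨φ k, hφ k⟩, fun k => rfl⟩
  have e : (vl K n d) ∘ ψ = φ := funext hψ
  have hli' : LinearIndependent K ψ := LinearIndependent.of_comp (vl K n d) (by rw [e]; exact hli)
  have hsp' : ⊤ ≤ Submodule.span K (Set.range ψ) := by
    intro x _
    have h1 : vl K n d x ∈ (Submodule.span K (Set.range ψ)).map (vl K n d) := by
      rw [Submodule.map_span, ← Set.range_comp, e, hsp]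
      exact x.2
    obtain ⟨y, hy, hyx⟩ := Submodule.mem_map.1 h1
    rw [← vl_inj hyx]
    exact hy
  exact ⟨Basis.mk hli' hsp', fun k => by rw [Basis.mk_apply]; exact hψ k⟩

theorem key {n d N p r : ℕ} (β : Basis (Fin N) K (Forms K n d))
    (hV : ∀ x : KT K n d p r, IsCycle K p x → x = 0 ∨ ∃ (m : ℕ) (h : m + d = r)
      (y : KT K n d (p + 1) m), koszulD K p h y = x)
    (y : Finset (Fin N) → Forms K n r)
    (hcyc : ∀ J : Finset (Fin N), J.card + 1 = p →
      ∑ k ∈ Jᶜ, (-1 : MvPolynomial (Fin (n + 1)) K) ^ (J.filter (fun c => c < k)).card *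
        (β k).1 * (-(y (insert k J)).1) = 0) :
    (∀ I : Finset (Fin N), I.card = p → (y I).1 = 0) ∨
    ∃ (m : ℕ) (_ : m + d = r) (z : Finset (Fin N) → Forms K n m), ∀ I : Finset (Fin N),
      I.card = p → (y I).1 =
        ∑ k ∈ Iᶜ, (-1 : MvPolynomial (Fin (n + 1)) K) ^ (I.filter (fun c => c < k)).card *
          (β k).1 * (-(z (insert k I)).1) := by
  have hc : IsCycle K p (∑ I ∈ Finset.powersetCard p (Finset.univ : Finset (Fin N)),
      W β p I ⊗ₜ[K] y I) := by
    cases p with
    | zero => trivial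
    | succ p =>
      change koszulD K p rfl _ = 0
      rw [koszulD_sum]
      refine Finset.sum_eq_zero fun J hJ => ?_
      have h1 : (∑ k ∈ Jᶜ, (-1 : K) ^ ((J.filter (fun c => c < k)).card + 1) •
          mulForms K (rfl : r + d = r + d) (β k) (y (insert k J))) = 0 := by
        apply vl_inj
        rw [vl_sum, map_zero]
        exact hcyc J (by rw [(Finset.mem_powersetCard.1 hJ).2])
      rw [h1, TensorProduct.tmul_zero]
  rcases hV _ hc with h0 | ⟨m, h, z, hz⟩
  · refine Or.inl fun I hI => ?_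
    have h1 := evT_sum β hI y
    rw [h0, map_zero] at h1
    rw [← h1]
    rfl
  · refine Or.inr ⟨m, h, fun I => evT β (p + 1) m I z, fun I hI => ?_⟩
    have h1 := evT_koszulD β h hI z
    rw [hz, evT_sum β hI] at h1
    have h2 := congrArg (vl K n r) h1
    exact h2.trans (vl_sum β h I fun I => evT β (p + 1) m I z)

end KOS

theorem KOS_thm : Stmt_KOS := by
  intro K _ n b d p q hV N φ hφ hli hsp f hf hfc hcyc
  obtain ⟨β, hβ⟩ := KOS.exists_basis hφ hli hsp
  have hβ' : ∀ k, (β k).1 = φ k := hβ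
  have h1 := KOS.key β hV (fun I => ⟨f I, hf I⟩) (fun J hJ => by
    rw [← neg_eq_zero, ← Finset.sum_neg_distrib, ← hcyc J hJ]
    refine Finset.sum_congr rfl fun k _ => ?_
    rw [hβ', mul_neg, neg_neg])
  rcases h1 with h0 | ⟨m, h, z, hz⟩
  · refine ⟨fun _ => 0, fun _ => zero_mem _, fun _ _ => rfl, fun _ _ => rfl, fun I hI => ?_⟩
    have h2 : f I = 0 := h0 I hI
    rw [h2]
    simp only [mul_zero, Finset.sum_const_zero]
  · have hm : q * d + b - d = m := by omega
    refine ⟨fun I => if I.card = p + 1 then -(z I).1 else 0, fun I => ?_,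
      fun hr => ?_, fun I hI => if_neg hI, fun I hI => ?_⟩
    · rw [hm]
      by_cases hI : I.card = p + 1
      · have h2 : (fun I : Finset (Fin N) => if I.card = p + 1 then -(z I).1 else 0) I =
            -(z I).1 := if_pos hI
        rw [h2]
        exact neg_mem (z I).2
      · have h2 : (fun I : Finset (Fin N) => if I.card = p + 1 then -(z I).1 else 0) I = 0 :=
          if_neg hI
        rw [h2]
        exact zero_mem _
    · omega
    · refine (hz I hI).trans (Finset.sum_congr rfl fun k hk => ?_)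
      rw [Finset.mem_compl] at hk
      have h2 : (fun I : Finset (Fin N) => if I.card = p + 1 then -(z I).1 else 0) (insert k I) =
          -(z (insert k I)).1 := if_pos (by rw [Finset.card_insert_of_notMem hk, hI])
      rw [hβ', h2]

end Pool.Agent.VSY
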