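import Pool.Agent.VSY.Stmts

/-!
# PAR: vanishing implies vanishing with parameters
-/

namespace Pool.Agent.VSY.PAR

open MvPolynomial

variable {K : Type} [Field K] {A B : Type} {v : ℕ}

/-- The active points: `ι` is the inclusion, `act` the inverse, where defined. -/
structure Act (ι : B → A) (act : A → Option B) : Prop where
  a1 : ∀ b, act (ι b) = some b
  a2 : ∀ x b, act x = some b → ι b = x

theorem Act.inj {ι : B → A} {act : A → Option B} (h : Act ι act) : Function.Injective ι := by
  intro b b' hb
  have h1 := h.a1 b
  rw [hb, h.a1] at h1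
  exact (Option.some_injective _ h1).symm

/-- Polynomials in the parameters with coefficients polynomials in the active points. -/
noncomputable def th (act : A → Option B) :
    PX K A v →ₐ[K] MvPolynomial (A × Fin v) (PX K B v) :=
  aeval fun y => (act y.1).elim (X y) fun b => C (X (b, y.2))

theorem th_C (act : A → Option B) (a : K) : th (v := v) act (C a) = C (C a) := by
  rw [th, aeval_C]
  rfl

theorem th_act {act : A → Option B} {x : A} {b : B} (h : act x = some b) (j : Fin v) :
    th (K := K) act (X (x, j)) = C (X (b, j)) := by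
  rw [th, aeval_X]
  simp [h]

theorem th_par {act : A → Option B} {x : A} (h : act x = none) (j : Fin v) :
    th (K := K) act (X (x, j)) = X (x, j) := by
  rw [th, aeval_X]
  simp [h]

/-- Substitutions of the active points act on the coefficients. -/
theorem th_ren {act : A → Option B} (φ : A → A) (ψ : B → B)
    (h1 : ∀ x, act x = none → φ x = x) (h2 : ∀ x b, act x = some b → act (φ x) = some (ψ b))
    (f : PX K A v) :
    th act (ren φ f) = map ((ren ψ : PX K B v →ₐ[K] PX K B v) : PX K B v →+* PX K B v)
      (th act f) := by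
  induction f using MvPolynomial.induction_on with
  | C a => rw [ren_C, th_C, map_C]; simp
  | add p q hp hq => simp only [map_add, hp, hq]
  | mul_X p x hp =>
    obtain ⟨x, i⟩ := x
    rw [map_mul, map_mul, hp, map_mul, map_mul, ren_X]
    congr 1
    cases hx : act x with
    | none => rw [h1 x hx, th_par hx, map_X]
    | some b => rw [th_act (h2 x b hx), th_act hx, map_C]; simp

/-- Substitutions of the parameters act on the exponents. -/
theorem th_perm {act : A → Option B} (σ : A → A) (h1 : ∀ x, act x = none → act (σ x) = none)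
    (h2 : ∀ x b, act x = some b → σ x = x) (f : PX K A v) :
    th act (ren σ f) = rename (Prod.map σ id) (th act f) := by
  induction f using MvPolynomial.induction_on with
  | C a => rw [ren_C, th_C, rename_C]
  | add p q hp hq => simp only [map_add, hp, hq]
  | mul_X p x hp =>
    obtain ⟨x, i⟩ := x
    rw [map_mul, map_mul, hp, map_mul, map_mul, ren_X]
    congr 1
    cases hx : act x with
    | none => rw [th_par hx, th_par (h1 x hx), rename_X]; rfl
    | some b => rw [h2 x b hx, th_act hx, rename_C]

theorem eval_th {ι : B → A} {act : A → Option B} (h : Act ι act) (f : PX K A v) :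
    eval₂ ((ren ι : PX K B v →ₐ[K] PX K A v) : PX K B v →+* PX K A v) X (th act f) = f := by
  induction f using MvPolynomial.induction_on with
  | C a => rw [th_C, eval₂_C]; simp
  | add p q hp hq => rw [map_add, eval₂_add, hp, hq]
  | mul_X p x hp =>
    obtain ⟨x, i⟩ := x
    rw [map_mul, eval₂_mul, hp]
    congr 1
    cases hx : act x with
    | none => rw [th_par hx, eval₂_X]
    | some b => rw [th_act hx, eval₂_C]; simp [h.a2 x b hx]

theorem th_sum {ι : B → A} {act : A → Option B} (h : Act ι act) (f : PX K A v) :
    f = ∑ α ∈ (th act f).support, ren ι (coeff α (th act f)) * monomial α 1 := by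
  have h1 := eval_th h f
  rw [eval₂_eq] at h1
  refine h1.symm.trans (Finset.sum_congr rfl fun α _ => ?_)
  rw [monomial_eq, C_1, one_mul]
  rfl

/-- The exponents of the parameters. -/
noncomputable def resP (act : A → Option B) (m : A × Fin v →₀ ℕ) : A × Fin v →₀ ℕ :=
  m.filter fun y => act y.1 = none

/-- The exponents of the active points. -/
noncomputable def resB {ι : B → A} (hι : Function.Injective ι) (m : A × Fin v →₀ ℕ) :
    B × Fin v →₀ ℕ :=
  m.comapDomain (Prod.map ι id) (Function.Injective.prodMap hι Function.injective_id).injOn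

theorem resP_none {act : A → Option B} (m : A × Fin v →₀ ℕ) {x : A} (hx : act x = none)
    (j : Fin v) : resP act m (x, j) = m (x, j) :=
  Finsupp.filter_apply_pos _ _ hx

theorem resP_some {act : A → Option B} (m : A × Fin v →₀ ℕ) {x : A} {b : B}
    (hx : act x = some b) (j : Fin v) : resP act m (x, j) = 0 :=
  Finsupp.filter_apply_neg _ _ (by simp [hx])

theorem resB_apply {ι : B → A} (hι : Function.Injective ι) (m : A × Fin v →₀ ℕ) (b : B)
    (j : Fin v) : resB hι m (b, j) = m (ι b, j) := rfl

theorem th_monomial {ι : B → A} {act : A → Option B} (h : Act ι act) (m : A × Fin v →₀ ℕ)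
    (a : K) : th act (monomial m a) = monomial (resP act m) (monomial (resB h.inj m) a) := by
  classical
  induction m using Finsupp.induction_linear generalizing a with
  | zero =>
    have h1 : resP act (0 : A × Fin v →₀ ℕ) = 0 := Finsupp.filter_zero _
    have h2 : resB h.inj (0 : A × Fin v →₀ ℕ) = 0 := by
      ext y; rfl
    rw [h1, h2]
    exact th_C act a
  | add s t hs ht =>
    have h1 : resP act (s + t) = resP act s + resP act t := by
      ext y; simp [resP, Finsupp.filter_add]
    have h2 : resB h.inj (s + t) = resB h.inj s + resB h.inj t := by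
      ext y; rfl
    have h3 : (monomial (s + t)) a = monomial s (1 : K) * monomial t a := by
      rw [monomial_mul, one_mul]
    rw [h3, map_mul, hs, ht, h1, h2, monomial_mul, monomial_mul, one_mul]
  | single y n =>
    obtain ⟨x, j⟩ := y
    have h3 : (monomial (Finsupp.single (x, j) n)) a = C a * (X (x, j) : PX K A v) ^ n :=
      C_mul_X_pow_eq_monomial.symm
    rw [h3, map_mul, map_pow, th_C]
    cases hx : act x with
    | none =>
      have h1 : resP act (Finsupp.single (x, j) n : A × Fin v →₀ ℕ) = Finsupp.single (x, j) n := by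
        ext y
        by_cases hy : y = (x, j)
        · subst hy
          rw [resP_none _ hx]
        · simp [resP, Finsupp.filter_apply, Finsupp.single_apply, Ne.symm hy]
      have h2 : resB h.inj (Finsupp.single (x, j) n : A × Fin v →₀ ℕ) = 0 := by
        ext ⟨b, i⟩
        rw [resB_apply, Finsupp.single_apply, if_neg]
        · rfl
        · intro he
          have h4 : x = ι b := (Prod.mk.inj he).1
          rw [h4, h.a1] at hx
          simp at hx
      rw [h1, h2, th_par hx, ← C_mul_X_pow_eq_monomial]
      rfl
    | some b =>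
      have h1 : resP act (Finsupp.single (x, j) n : A × Fin v →₀ ℕ) = 0 := by
        ext y
        by_cases hy : y = (x, j)
        · subst hy
          rw [resP_some _ hx]
          rfl
        · simp [resP, Finsupp.filter_apply, Finsupp.single_apply, Ne.symm hy]
      have h2 : resB h.inj (Finsupp.single (x, j) n : A × Fin v →₀ ℕ) =
          Finsupp.single (b, j) n := by
        ext ⟨b', i⟩
        rw [resB_apply, Finsupp.single_apply, Finsupp.single_apply]
        have h4 : ((x, j) = (ι b', i)) ↔ ((b, j) = (b', i)) := by
          rw [Prod.mk.injEq, Prod.mk.injEq, ← h.a2 x b hx]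
          exact and_congr_left fun _ => h.inj.eq_iff
        simp only [h4]
      rw [h1, h2, th_act hx, ← map_pow, ← map_mul, C_mul_X_pow_eq_monomial]
      rfl

theorem mem_th {ι : B → A} {act : A → Option B} (h : Act ι act) (f : PX K A v)
    (α : A × Fin v →₀ ℕ) (μ : B × Fin v →₀ ℕ) (hμ : μ ∈ (coeff α (th act f)).support) :
    ∃ m ∈ f.support, α = resP act m ∧ μ = resB h.inj m := by
  classical
  rw [mem_support_iff] at hμ
  have h1 : coeff μ (coeff α (th act f)) =
      ∑ m ∈ f.support, coeff μ (coeff α (th act (monomial m (coeff m f)))) := by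
    conv_lhs => rw [f.as_sum, map_sum, coeff_sum, coeff_sum]
  rw [h1] at hμ
  obtain ⟨m, hm, h2⟩ := Finset.exists_ne_zero_of_sum_ne_zero hμ
  refine ⟨m, hm, ?_⟩
  rw [th_monomial h, coeff_monomial] at h2
  split_ifs at h2 with h3
  · rw [coeff_monomial] at h2
    split_ifs at h2 with h4
    · exact ⟨h3.symm, h4.symm⟩
    · exact absurd rfl h2
  · exact absurd (coeff_zero _) h2

theorem mem_th' {ι : B → A} {act : A → Option B} (h : Act ι act) (f : PX K A v)
    (α : A × Fin v →₀ ℕ) (hα : α ∈ (th act f).support) :
    ∃ m ∈ f.support, α = resP act m := by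
  rw [mem_support_iff] at hα
  obtain ⟨μ, hμ⟩ := exists_coeff_ne_zero hα
  obtain ⟨m, hm, h1, -⟩ := mem_th h f α μ (by rwa [mem_support_iff])
  exact ⟨m, hm, h1⟩

/-- A permutation which fixes the points outside the range of an injection. -/
theorem perm_restrict {C D : Type} [Fintype C] [DecidableEq C] [Fintype D] [DecidableEq D]
    {l : C → D} (hl : Function.Injective l) (π : Equiv.Perm D)
    (h : ∀ y, (∀ c, l c ≠ y) → π y = y) :
    ∃ ρ : Equiv.Perm C, (∀ c, l (ρ c) = π (l c)) ∧ Equiv.Perm.sign ρ = Equiv.Perm.sign π := by
  classical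
  have h1 : ∀ x, (∃ c, l c = x) ↔ ∃ c, l c = π x := by
    intro x
    constructor
    · rintro ⟨c, rfl⟩
      by_contra hc
      have h2 : π (π (l c)) = π (l c) := h _ fun c' hc' => hc ⟨c', hc'⟩
      have h3 := π.injective h2
      exact hc ⟨c, h3.symm⟩
    · intro hx
      by_contra hc
      have h2 : π x = x := h _ fun c' hc' => hc ⟨c', hc'⟩
      rw [h2] at hx
      exact hc hx
  let p : D → Prop := fun x => ∃ c, l c = x
  let e : C ≃ {x // p x} := Equiv.ofInjective l hl
  let q : Equiv.Perm {x // p x} := π.subtypePerm (fun x => (h1 x).symm)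
  refine ⟨e.symm.permCongr q, fun c => ?_, ?_⟩
  · have h2 : e (e.symm.permCongr q c) = q (e c) := by
      simp [Equiv.permCongr_apply]
    exact congrArg Subtype.val h2
  · rw [Equiv.Perm.sign_permCongr]
    refine Equiv.Perm.sign_subtypePerm (p := p) π (fun x => (h1 x).symm) ?_
    intro x hx
    by_contra hc
    exact hx (h _ fun c' hc' => hc ⟨c', hc'⟩)

section main

variable {A : Type} [DecidableEq A] (w : A) (S : Finset A)

/-- The inclusion of the active points. -/
def io : Option {x // x ∈ S} → A := fun o => o.elim w Subtype.val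

/-- The active point of a point. -/
def actv (x : A) : Option (Option {x // x ∈ S}) :=
  if x = w then some none else if h : x ∈ S then some (some ⟨x, h⟩) else none

variable {w S}

theorem actv_w : actv w S w = some none := by simp [actv]

theorem actv_mem (hw : w ∉ S) {x : A} (hx : x ∈ S) : actv w S x = some (some ⟨x, hx⟩) := by
  have h : x ≠ w := fun h => hw (h ▸ hx)
  simp [actv, h, hx]

theorem actv_none {x : A} (h1 : x ≠ w) (h2 : x ∉ S) : actv w S x = none := by
  simp [actv, h1, h2]

theorem not_mem_of_none (hw : w ∉ S) {x : A} (h : actv w S x = none) : x ≠ w ∧ x ∉ S := by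
  constructor
  · rintro rfl
    rw [actv_w] at h
    simp at h
  · intro hx
    rw [actv_mem hw hx] at h
    simp at h

theorem actv_cases (hw : w ∉ S) {x : A} {b : Option {x // x ∈ S}} (h : actv w S x = some b) :
    (x = w ∧ b = none) ∨ ∃ hx : x ∈ S, b = some ⟨x, hx⟩ := by
  by_cases h1 : x = w
  · subst h1
    rw [actv_w] at h
    exact Or.inl ⟨rfl, (Option.some_injective _ h).symm⟩
  · by_cases h2 : x ∈ S
    · rw [actv_mem hw h2] at h
      exact Or.inr ⟨h2, (Option.some_injective _ h).symm⟩
    · rw [actv_none h1 h2] at h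
      simp at h

theorem actv_Act (hw : w ∉ S) : Act (io w S) (actv w S) := by
  refine ⟨fun b => ?_, fun x b h => ?_⟩
  · cases b with
    | none => exact actv_w
    | some x => exact actv_mem hw x.2
  · rcases actv_cases hw h with ⟨rfl, rfl⟩ | ⟨hx, rfl⟩ <;> rfl

variable (w S)

/-- The points of the chain with one more alternating point. -/
def kap : Option (Option {x // x ∈ S}) → Option A
  | none => some w
  | some none => none
  | some (some x) => some x

variable {w S}

theorem kap_inj (hw : w ∉ S) : Function.Injective (kap w S) := by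
  rintro (_ | _ | ⟨x, hx⟩) (_ | _ | ⟨y, hy⟩) h
  · rfl
  · simp [kap] at h
  · simp only [kap, Option.some.injEq] at h
    exact absurd (h ▸ hy) hw
  · simp [kap] at h
  · rfl
  · simp [kap] at h
  · simp only [kap, Option.some.injEq] at h
    exact absurd (h ▸ hx) hw
  · simp [kap] at h
  · simp only [kap, Option.some.injEq] at h
    subst h
    rfl

theorem kap_none (hw : w ∉ S) {x : A} (h1 : x ≠ w) (h2 : x ∉ S) :
    ∀ c, kap w S c ≠ some x := by
  rintro (_ | _ | ⟨y, hy⟩) h
  · simp only [kap, Option.some.injEq] at h
    exact h1 h.symm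
  · simp [kap] at h
  · simp only [kap, Option.some.injEq] at h
    exact h2 (h ▸ hy)

theorem mapDomain_inj {C D : Type} {v : ℕ} {φ : C → D} (hφ : Function.Injective φ)
    (m : C × Fin v →₀ ℕ) (c : C) (j : Fin v) :
    m.mapDomain (Prod.map φ id) (φ c, j) = m (c, j) :=
  Finsupp.mapDomain_apply (f := Prod.map φ (id : Fin v → Fin v))
    (Function.Injective.prodMap hφ Function.injective_id) m (c, j)

theorem mapDomain_out {C D : Type} {v : ℕ} {φ : C → D} (m : C × Fin v →₀ ℕ) {y : D}
    (hy : ∀ c, φ c ≠ y) (j : Fin v) : m.mapDomain (Prod.map φ id) (y, j) = 0 := by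
  refine Finsupp.mapDomain_notin_range _ _ ?_
  rintro ⟨⟨c, i⟩, h⟩
  exact hy c (Prod.mk.inj h).1

/-- The coefficients of a cycle with parameters are cycles. -/
theorem inZ [Fintype A] {K : Type} [Field K] {v d r : ℕ} (hw : w ∉ S) {f : PX K A v}
    (halt : ∀ π : Equiv.Perm A, (∀ x, x ∉ S → π x = x) →
      ren π f = ((Equiv.Perm.sign π : ℤˣ) : ℤ) • f)
    (hdeg : ∀ m ∈ f.support, (∀ x ∈ S, ∑ j, m (x, j) = d) ∧ ∑ j, m (w, j) = r)
    (hcyc : ∀ u ∈ S, ren (Function.update id u w) f = 0) (α : A × Fin v →₀ ℕ) :
    InZ {x // x ∈ S} v d r (coeff α (th (actv w S) f)) := by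
  refine ⟨⟨fun π => ?_, fun m hm => ?_⟩, fun u => ?_⟩
  · have h1 : ∀ x, x ∉ S → Equiv.Perm.ofSubtype π x = x := fun x hx =>
      Equiv.Perm.ofSubtype_apply_of_not_mem π hx
    have h2 := halt (Equiv.Perm.ofSubtype π) h1
    rw [Equiv.Perm.sign_ofSubtype] at h2
    have h3 := th_ren (act := actv w S) (Equiv.Perm.ofSubtype π) (Option.map π)
      (fun x hx => h1 x (not_mem_of_none hw hx).2)
      (by
        intro x b hb
        rcases actv_cases hw hb with ⟨rfl, rfl⟩ | ⟨hx, rfl⟩
        · rw [h1 _ hw]
          exact actv_w
        · rw [Equiv.Perm.ofSubtype_apply_of_mem π hx]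
          exact actv_mem hw (π ⟨x, hx⟩).2) f
    rw [h2, map_zsmul] at h3
    have h4 := congrArg (coeff α) h3
    rw [coeff_map] at h4
    rw [← coeff_smul]
    exact h4.symm
  · obtain ⟨m0, hm0, -, rfl⟩ := mem_th (actv_Act hw) f α m hm
    have h1 := hdeg m0 hm0
    exact ⟨fun u => h1.1 u u.2, h1.2⟩
  · have h3 := th_ren (act := actv w S) (Function.update id (u : A) w) (mg u)
      (fun x hx => by
        have h4 : x ≠ u := fun h5 => (not_mem_of_none hw hx).2 (h5 ▸ u.2)
        simp [Function.update_of_ne h4])
      (by
        intro x b hb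
        rcases actv_cases hw hb with ⟨rfl, rfl⟩ | ⟨hx, rfl⟩
        · have h4 : x ≠ u := fun h5 => hw (h5 ▸ u.2)
          rw [Function.update_of_ne h4]
          simp [mg, actv_w]
        · by_cases h4 : x = u
          · subst h4
            simp [mg, actv_w]
          · rw [Function.update_of_ne h4]
            have h5 : (some (⟨x, hx⟩ : {x // x ∈ S})) ≠ some u := by
              intro h6
              exact h4 (congrArg Subtype.val (Option.some_injective _ h6))
            rw [mg, Function.update_of_ne h5]
            exact actv_mem hw hx) f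
    rw [hcyc u u.2, map_zero] at h3
    have h4 := congrArg (coeff α) h3
    rw [coeff_map, coeff_zero] at h4
    exact h4.symm

end main

end Pool.Agent.VSY.PAR

namespace Pool.Agent.VSY

open MvPolynomial PAR

/-- Vanishing implies vanishing with parameters. -/
theorem PAR_thm : Stmt_PAR := by
  intro K _ v d p r hVan A _ _ w S hw hS f halt hdeg hcyc
  classical
  have hcard : Fintype.card {x // x ∈ S} = p := by rw [Fintype.card_coe, hS]
  obtain ⟨Gf, hGf⟩ : ∃ Gf : PX K (Option {x // x ∈ S}) v → PX K (Option (Option {x // x ∈ S})) v,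
      ∀ F, InZ {x // x ∈ S} v d r F →
        InC (Option {x // x ∈ S}) v d d r (Gf F) ∧ ren Option.join (Gf F) = F := by
    refine ⟨fun F => if h : InZ {x // x ∈ S} v d r F then (hVan _ hcard F h).choose else 0,
      fun F h => ?_⟩
    simp only [dif_pos h]
    exact (hVan _ hcard F h).choose_spec
  have hZ := inZ hw halt hdeg hcyc
  have hA := actv_Act (w := w) (S := S) hw
  have hα : ∀ α ∈ (th (actv w S) f).support, ∀ x, x ∈ S ∨ x = w → ∀ j, α (x, j) = 0 := by
    intro α h x hx j
    obtain ⟨m, -, rfl⟩ := mem_th' hA f α h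
    rcases hx with hx | rfl
    · exact resP_some m (actv_mem hw hx) j
    · exact resP_some m actv_w j
  set T := th (actv w S) f with hT
  set G : PX K (Option A) v := ∑ α ∈ T.support, ren (kap w S) (Gf (coeff α T)) *
    monomial (α.mapDomain (Prod.map some id)) 1 with hG
  have hmem : ∀ m ∈ G.support, ∃ α ∈ T.support, ∃ m1 ∈ (Gf (coeff α T)).support,
      m = m1.mapDomain (Prod.map (kap w S) id) + α.mapDomain (Prod.map some id) := by
    intro m hm
    rw [mem_support_iff, hG, coeff_sum] at hm
    obtain ⟨α, h1, h2⟩ := Finset.exists_ne_zero_of_sum_ne_zero hm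
    rw [← mem_support_iff] at h2
    obtain ⟨a, ha, b, hb, rfl⟩ := Finset.mem_add.1 (support_mul _ _ h2)
    obtain ⟨m1, hm1, rfl⟩ := exists_of_mem_support_ren _ _ ha
    have h3 := Finset.mem_singleton.1 (support_monomial_subset hb)
    subst h3
    exact ⟨α, h1, m1, hm1, rfl⟩
  refine ⟨G, ?_, ?_, ?_, ?_, ?_⟩
  · intro π hπ
    obtain ⟨ρ, h1, h2⟩ := perm_restrict (l := fun o : Option {x // x ∈ S} => o.map Subtype.val)
      (Option.map_injective Subtype.val_injective) π (by
        intro y hy
        cases y with
        | none => exact absurd rfl (hy none)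
        | some x =>
          refine hπ x fun hx => ?_
          exact hy (some ⟨x, hx⟩) rfl)
    have h3 : (π : Option A → Option A) ∘ kap w S = kap w S ∘ Option.map ρ := by
      funext c
      cases c with
      | none => exact hπ w hw
      | some o =>
        have h4 : ∀ o : Option {x // x ∈ S}, kap w S (some o) = o.map Subtype.val := by
          intro o
          cases o <;> rfl
        have h5 := h1 o
        show π (kap w S (some o)) = kap w S (some (ρ o))
        rw [h4, h4, h5]
    rw [hG, map_sum, Finset.smul_sum]
    refine Finset.sum_congr rfl fun α hα' => ?_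
    have h6 : (α.mapDomain (Prod.map some id)).mapDomain (Prod.map π id) =
        α.mapDomain (Prod.map some (id : Fin v → Fin v)) := by
      rw [← Finsupp.mapDomain_comp]
      refine Finsupp.mapDomain_congr ?_
      rintro ⟨x, j⟩ hx
      have h7 : x ∉ S := by
        intro h8
        rw [Finsupp.mem_support_iff] at hx
        exact hx (hα α hα' x (Or.inl h8) j)
      simp [hπ x h7]
    rw [map_mul, ren_monomial, h6, ren_ren, h3, ← ren_ren, (hGf _ (hZ α)).1.alt, map_zsmul, h2,
      smul_mul_assoc]
  · intro m hm
    obtain ⟨α, h1, m1, h2, rfl⟩ := hmem m hm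
    have h3 := (hGf _ (hZ α)).1.deg m1 h2
    have hsome : Function.Injective (some : A → Option A) := Option.some_injective _
    refine ⟨?_, fun x hx => ?_, ?_⟩
    · rw [← h3.1 none]
      refine Finset.sum_congr rfl fun j _ => ?_
      rw [Finsupp.add_apply, mapDomain_out α (fun c => by simp) j, add_zero]
      exact mapDomain_inj (kap_inj hw) m1 (some none) j
    · rw [← h3.1 (some ⟨x, hx⟩)]
      refine Finset.sum_congr rfl fun j _ => ?_
      rw [Finsupp.add_apply, mapDomain_inj hsome, hα α h1 x (Or.inl hx) j, add_zero]
      exact mapDomain_inj (kap_inj hw) m1 (some (some ⟨x, hx⟩)) j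
    · rw [← h3.2]
      congr 1
      refine Finset.sum_congr rfl fun j _ => ?_
      rw [Finsupp.add_apply, mapDomain_inj hsome, hα α h1 w (Or.inr rfl) j, add_zero]
      exact mapDomain_inj (kap_inj hw) m1 none j
  · intro x hx1 hx2 e he m hm
    obtain ⟨α, h1, m1, h2, rfl⟩ := hmem m hm
    have hsome : Function.Injective (some : A → Option A) := Option.some_injective _
    obtain ⟨m0, hm0, rfl⟩ := mem_th' hA f α h1
    rw [← he m0 hm0]
    refine Finset.sum_congr rfl fun j _ => ?_
    rw [Finsupp.add_apply, mapDomain_inj hsome, mapDomain_out m1 (kap_none hw hx2 hx1) j, zero_add,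
      resP_none _ (actv_none hx2 hx1)]
  · intro σ hσ1 hσ2 hσ3
    have h1 : T = rename (Prod.map σ id) T := by
      have h2 := th_perm (act := actv w S) σ (by
          intro x hx
          obtain ⟨h3, h4⟩ := not_mem_of_none hw hx
          refine actv_none ?_ ?_
          · intro h5
            exact h3 (σ.injective (h5.trans hσ2.symm))
          · intro h5
            have h6 := σ.injective (hσ1 _ h5)
            rw [h6] at h5
            exact h4 h5)
        (by
          intro x b hx
          rcases actv_cases hw hx with ⟨rfl, -⟩ | ⟨h3, -⟩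
          · exact hσ2
          · exact hσ1 x h3) f
      rw [hσ3] at h2
      exact h2
    have hinj : Function.Injective (Prod.map σ (id : Fin v → Fin v)) :=
      Function.Injective.prodMap σ.injective Function.injective_id
    have h2 : ∀ α, coeff (α.mapDomain (Prod.map σ id)) T = coeff α T := by
      intro α
      conv_lhs => rw [h1]
      exact coeff_rename_mapDomain _ hinj _ _
    have h3 : Option.map σ ∘ kap w S = kap w S := by
      funext c
      rcases c with _ | _ | ⟨x, hx⟩
      · simp [kap, hσ2]
      · rfl
      · simp [kap, hσ1 x hx]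
    rw [hG, map_sum]
    refine Finset.sum_nbij' (fun α => α.mapDomain (Prod.map σ id))
      (fun α => α.mapDomain (Prod.map σ.symm id)) ?_ ?_ ?_ ?_ ?_
    · intro α h4
      rw [mem_support_iff] at h4 ⊢
      rwa [h2]
    · intro α h4
      rw [mem_support_iff] at h4 ⊢
      rw [← h2, ← Finsupp.mapDomain_comp, Prod.map_comp_map]
      simpa using h4
    · intro α _
      rw [← Finsupp.mapDomain_comp, Prod.map_comp_map]
      simp
    · intro α _
      rw [← Finsupp.mapDomain_comp, Prod.map_comp_map]
      simp
    · intro α h4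
      rw [map_mul, ren_monomial, ren_ren, h3, h2]
      congr 2
      rw [← Finsupp.mapDomain_comp, ← Finsupp.mapDomain_comp]
      rfl
  · rw [hG, map_sum]
    refine Eq.trans ?_ (th_sum hA f).symm
    refine Finset.sum_congr rfl fun α _ => ?_
    have h1 : (fun o : Option A => o.getD w) ∘ kap w S = io w S ∘ Option.join := by
      funext c
      rcases c with _ | _ | ⟨x, hx⟩ <;> rfl
    have h2 : (α.mapDomain (Prod.map some id)).mapDomain
        (Prod.map (fun o : Option A => o.getD w) (id : Fin v → Fin v)) = α := by
      rw [← Finsupp.mapDomain_comp]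
      exact Finsupp.mapDomain_id
    rw [map_mul, ren_monomial, h2, ren_ren, h1, ← ren_ren, (hGf _ (hZ α)).2]

end Pool.Agent.VSY
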