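import Pool.Agent.VSY.StmtsB

/-!
# L2M: the relation between the four alternating sums
-/

namespace Pool.Agent.VSY

open MvPolynomial

variable {K : Type} [Field K]

namespace L2M

section det

variable {A B : Type} {v : ℕ}

/-- The determinant of the coordinates of four points. -/
noncomputable def det4 (K : Type) [Field K] (p : Fin 4 → A) : PX K A 4 :=
  (Matrix.of fun i j : Fin 4 => (X (p i, j) : PX K A 4)).det

theorem ren_det4 (φ : A → B) (p : Fin 4 → A) : ren φ (det4 K p) = det4 K (φ ∘ p) := by
  unfold det4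
  rw [AlgHom.map_det]
  congr 1
  ext i j : 2
  simp

theorem ren_atp (φ : A → B) (x : A) (a : MvPolynomial (Fin v) K) :
    ren φ (atp x a) = atp (φ x) a := by
  rw [ren, atp, atp, rename_rename]
  rfl

theorem det4_perm (p : Fin 4 → A) (σ : Equiv.Perm (Fin 4)) :
    det4 K (p ∘ σ) = ((Equiv.Perm.sign σ : ℤˣ) : ℤ) • det4 K p := by
  have h := Matrix.det_permute σ (Matrix.of fun i j : Fin 4 => (X (p i, j) : PX K A 4))
  rw [zsmul_eq_mul]
  exact h

theorem det4_swap (p : Fin 4 → A) (i : Fin 4) (hi : 0 ≠ i) :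
    det4 K (p ∘ Equiv.swap 0 i) = - det4 K p := by
  rw [det4_perm, Equiv.Perm.sign_swap hi]
  simp

end det

section deg

variable {A B : Type} {v : ℕ}

/-- Polynomials of degree `δ x` in the coordinates of each point `x`. -/
def DS (K : Type) [Field K] (v : ℕ) (δ : A → ℕ) : Submodule K (PX K A v) where
  carrier := {f | ∀ m ∈ f.support, ∀ x, ∑ j, m (x, j) = δ x}
  add_mem' := by
    classical
    intro f g hf hg m hm
    rcases Finset.mem_union.1 (support_add hm) with h | h
    · exact hf m h
    · exact hg m h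
  zero_mem' := by
    intro m hm
    simp at hm
  smul_mem' := fun a f hf m hm => hf m (support_smul hm)

theorem DS_mul {δ ε : A → ℕ} {f g : PX K A v} (hf : f ∈ DS K v δ) (hg : g ∈ DS K v ε) :
    f * g ∈ DS K v (δ + ε) := by
  classical
  intro m hm x
  obtain ⟨m1, h1, m2, h2, rfl⟩ := Finset.mem_add.1 (support_mul f g hm)
  simp only [Finsupp.add_apply, Finset.sum_add_distrib, Pi.add_apply, hf m1 h1 x, hg m2 h2 x]

theorem DS_one : (1 : PX K A v) ∈ DS K v 0 := by
  classical
  intro m hm x
  have h : m = 0 := by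
    by_contra h
    rw [mem_support_iff, coeff_one, if_neg (Ne.symm h)] at hm
    exact hm rfl
  subst h
  simp

theorem DS_prod {ι : Type} (s : Finset ι) (δ : ι → A → ℕ) (f : ι → PX K A v)
    (h : ∀ i ∈ s, f i ∈ DS K v (δ i)) : ∏ i ∈ s, f i ∈ DS K v (∑ i ∈ s, δ i) := by
  classical
  induction s using Finset.induction_on with
  | empty => simpa using DS_one
  | insert a s ha ih =>
    rw [Finset.prod_insert ha, Finset.sum_insert ha]
    exact DS_mul (h a (Finset.mem_insert_self a s))
      (ih fun i hi => h i (Finset.mem_insert_of_mem hi))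

theorem DS_X [DecidableEq A] (x : A) (l : Fin v) : (X (x, l) : PX K A v) ∈ DS K v (Pi.single x 1) := by
  classical
  intro m hm y
  have h : m = Finsupp.single (x, l) 1 := by
    rw [support_X, Finset.mem_singleton] at hm
    exact hm
  subst h
  by_cases hy : y = x
  · subst hy
    simp [Finsupp.single_apply]
  · rw [Pi.single_eq_of_ne hy]
    refine Finset.sum_eq_zero fun j _ => ?_
    rw [Finsupp.single_eq_of_ne]
    intro h
    exact hy (Prod.ext_iff.1 h).1

theorem DS_det [DecidableEq A] (p : Fin 4 → A) :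
    det4 K p ∈ DS K 4 (∑ i, Pi.single (p i) 1) := by
  rw [det4, Matrix.det_apply]
  refine Submodule.sum_mem _ fun σ _ => ?_
  rw [Units.smul_def]
  refine zsmul_mem ?_ _
  have h := DS_prod Finset.univ (fun i : Fin 4 => (Pi.single (p (σ i)) 1 : A → ℕ))
    (fun i => (X (p (σ i), i) : PX K A 4)) (fun i _ => DS_X _ _)
  rw [Equiv.sum_comp σ (fun i => (Pi.single (p i) 1 : A → ℕ))] at h
  exact h

theorem DS_atp [DecidableEq A] {N : ℕ} (x : A) {a : MvPolynomial (Fin v) K}
    (ha : a.IsHomogeneous N) : atp x a ∈ DS K v (Pi.single x N) := by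
  classical
  intro m hm y
  rw [mem_support_iff, atp] at hm
  obtain ⟨m', h1, h2⟩ := coeff_rename_ne_zero _ _ _ hm
  have h3 : ∑ j, m' j = N := by
    have := ha h2
    rw [Finsupp.weight_apply, Finsupp.sum_fintype _ _ (by simp)] at this
    simpa using this
  subst h1
  by_cases hy : y = x
  · subst hy
    rw [Pi.single_eq_same, ← h3]
    refine Finset.sum_congr rfl fun j _ => ?_
    rw [Finsupp.mapDomain_apply (Prod.mk_right_injective _)]
  · rw [Pi.single_eq_of_ne hy]
    refine Finset.sum_eq_zero fun j _ => ?_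
    rw [Finsupp.mapDomain_of_notMem_range]
    rintro ⟨l, hl⟩
    exact hy (Prod.ext_iff.1 hl).1.symm

theorem DS_ren [Fintype A] [DecidableEq B] (φ : A → B) {δ : A → ℕ} {f : PX K A v}
    (hf : f ∈ DS K v δ) :
    ren φ f ∈ DS K v (fun y => ∑ a ∈ Finset.univ.filter (fun a => φ a = y), δ a) := by
  intro m hm y
  obtain ⟨m', h1, rfl⟩ := exists_of_mem_support_ren φ f hm
  rw [mapDomain_sum]
  exact Finset.sum_congr rfl fun a _ => hf m' h1 a

end deg

section main

variable (N : ℕ)

/-- The points `u_0, u_1, u_2, u_3`. -/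
def PP : Fin 4 → Option (Option (QU N)) := Fin.cons (some none) fun i => some (some (Sum.inl i))

/-- The points of `z`. -/
def kap : Option (Fin N) → Option (Option (QU N)) := Option.map fun j => some (Sum.inr j)

/-- The substitution. -/
def phi (u : QU N) : Option (Option (QU N)) → Option (QU N) :=
  Option.join ∘ Option.map (Equiv.swap none (some u))

theorem join_PP : Option.join ∘ PP N = q4 N := by
  funext i
  refine Fin.cases ?_ (fun i => ?_) i <;> rfl

theorem phi_none (u : QU N) : phi N u none = none := rfl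

theorem phi_some_none (u : QU N) : phi N u (some none) = some u := by
  simp [phi]

theorem phi_self (u : QU N) : phi N u (some (some u)) = none := by
  simp [phi]

theorem phi_ne (u x : QU N) (h : x ≠ u) : phi N u (some (some x)) = some x := by
  simp only [phi, Function.comp_apply, Option.map_some]
  rw [Equiv.swap_apply_of_ne_of_ne]
  · rfl
  · simp
  · simpa using h

theorem phi_PP (i : Fin 3) : phi N (Sum.inl i) ∘ PP N = q4 N ∘ Equiv.swap 0 i.succ := by
  funext l
  refine Fin.cases ?_ (fun l => ?_) l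
  · simp only [Function.comp_apply, Equiv.swap_apply_left]
    exact phi_some_none N _
  · simp only [Function.comp_apply]
    by_cases h : l = i
    · subst h
      rw [Equiv.swap_apply_right]
      exact phi_self N _
    · rw [Equiv.swap_apply_of_ne_of_ne (Fin.succ_ne_zero l) (fun h' => h (Fin.succ_injective _ h'))]
      exact phi_ne N _ _ (fun h' => h (Sum.inl_injective h'))

theorem join_kap : Option.join ∘ kap N = Option.map Sum.inr := by
  funext x
  cases x <;> rfl

theorem phi_kap (i : Fin 3) : phi N (Sum.inl i) ∘ kap N = Option.map Sum.inr := by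
  funext x
  cases x with
  | none => rfl
  | some x => exact phi_ne N _ _ (by simp)

theorem phi_kap_inr (j : Fin N) : phi N (Sum.inr j) ∘ kap N = Option.map Sum.inr ∘ mg j := by
  funext x
  cases x with
  | none =>
    simp [mg, kap, phi_none]
  | some x =>
    by_cases h : x = j
    · subst h
      simp only [Function.comp_apply, mg, Function.update_self, Option.map_none]
      exact phi_self N _
    · have h1 : mg j (some x) = some x := by
        simp [mg, Function.update_of_ne, h]
      simp only [Function.comp_apply, h1, Option.map_some]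
      exact phi_ne N _ _ (fun h' => h (Sum.inr_injective h'))

/-- The polynomial `F`. -/
noncomputable def FF (a b c e : MvPolynomial (Fin 4) K) (z : PX K (Option (Fin N)) 4) :
    PX K (Option (Option (QU N))) 4 :=
  det4 K (PP N) * (atp (PP N 0) a * atp (PP N 1) b * atp (PP N 2) c * atp (PP N 3) e) *
    ren (kap N) z

theorem FF_deg {a b c e : MvPolynomial (Fin 4) K} {z : PX K (Option (Fin N)) 4}
    (ha : a.IsHomogeneous N) (hb : b.IsHomogeneous N) (hc : c.IsHomogeneous N)
    (he : e.IsHomogeneous N) (hz : InZ (Fin N) 4 (N + 1) N z) :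
    ∀ m ∈ (FF N a b c e z).support, (∀ u : Option (QU N), ∑ j, m (some u, j) = N + 1) ∧
      ∑ j, m (none, j) + (N + 1) = 2 * N + 1 := by
  classical
  have hz' : z ∈ DS K 4 (fun x : Option (Fin N) => if x = none then N else N + 1) := by
    intro m hm x
    have h := hz.1.deg m hm
    cases x with
    | none => simpa using h.2
    | some x => simpa using h.1 x
  have h := DS_mul (DS_mul (DS_det (K := K) (PP N)) (DS_mul (DS_mul (DS_mul
    (DS_atp (PP N 0) ha) (DS_atp (PP N 1) hb)) (DS_atp (PP N 2) hc)) (DS_atp (PP N 3) he)))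
    (DS_ren (kap N) hz')
  intro m hm
  have h0 := h m hm
  simp only [Pi.add_apply, Finset.sum_apply] at h0
  simp only [Fin.sum_univ_four (fun c : Fin 4 => (Pi.single (PP N c) 1 : _ → ℕ) _)] at h0
  have p0 : PP N 0 = some none := rfl
  have p1 : PP N 1 = some (some (Sum.inl 0)) := rfl
  have p2 : PP N 2 = some (some (Sum.inl 1)) := rfl
  have p3 : PP N 3 = some (some (Sum.inl 2)) := rfl
  rw [p0, p1, p2, p3] at h0
  simp only [Pi.single_apply] at h0
  have k0 : (Finset.univ.filter fun x : Option (Fin N) => kap N x = none) = {none} := by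
    ext x
    cases x <;> simp [kap]
  have k1 : (Finset.univ.filter fun x : Option (Fin N) => kap N x = some none) = ∅ := by
    ext x
    cases x <;> simp [kap]
  have k2 : ∀ i : Fin 3, (Finset.univ.filter fun x : Option (Fin N) =>
      kap N x = some (some (Sum.inl i))) = ∅ := by
    intro i
    ext x
    cases x <;> simp [kap]
  have k3 : ∀ i : Fin N, (Finset.univ.filter fun x : Option (Fin N) =>
      kap N x = some (some (Sum.inr i))) = {some i} := by
    intro i
    ext x
    cases x <;> simp [kap]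
  refine ⟨fun u => ?_, ?_⟩
  · rw [h0 (some u)]
    rcases u with _ | (i | i)
    · rw [k1]
      simp [add_comm]
    · rw [k2]
      fin_cases i <;> simp [add_comm]
    · rw [k3]
      simp
  · rw [h0 none, k0]
    simp
    ring

theorem lam_eq (a b c : MvPolynomial (Fin 4) K) (z : PX K (Option (Fin N)) 4) :
    Lam N a b c z = ∑ π : Equiv.Perm (QU N), ((Equiv.Perm.sign π : ℤˣ) : ℤ) • ren (Option.map π)
      (det4 K (q4 N) * (atp (some (Sum.inl 0)) a * atp (some (Sum.inl 1)) b *
        atp (some (Sum.inl 2)) c) * ren (Option.map Sum.inr) z) := rfl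

theorem ren_join_FF (a b c e : MvPolynomial (Fin 4) K) (z : PX K (Option (Fin N)) 4) :
    ren Option.join (FF N a b c e z) = det4 K (q4 N) * (atp (some (Sum.inl 0)) b *
      atp (some (Sum.inl 1)) c * atp (some (Sum.inl 2)) e) *
        ren (Option.map Sum.inr) (atp none a * z) := by
  rw [FF]
  simp only [map_mul, ren_det4, ren_atp, ren_ren, join_PP, join_kap]
  have q0 : Option.join (PP N 0) = none := rfl
  have q1 : Option.join (PP N 1) = some (Sum.inl 0) := rfl
  have q2 : Option.join (PP N 2) = some (Sum.inl 1) := rfl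
  have q3 : Option.join (PP N 3) = some (Sum.inl 2) := rfl
  rw [q0, q1, q2, q3, Option.map_none]
  ring

theorem phi_PP_apply (i : Fin 3) (l : Fin 4) :
    phi N (Sum.inl i) (PP N l) = q4 N (Equiv.swap 0 i.succ l) := congrFun (phi_PP N i) l

theorem ren_phi_FF (i : Fin 3) (a b c e : MvPolynomial (Fin 4) K)
    (z : PX K (Option (Fin N)) 4) :
    ren (phi N (Sum.inl i)) (FF N a b c e z) = - (det4 K (q4 N) *
      (atp (q4 N (Equiv.swap 0 i.succ 0)) a * atp (q4 N (Equiv.swap 0 i.succ 1)) b *
        atp (q4 N (Equiv.swap 0 i.succ 2)) c * atp (q4 N (Equiv.swap 0 i.succ 3)) e) *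
      ren (Option.map Sum.inr) z) := by
  rw [FF]
  simp only [map_mul, ren_det4, ren_atp, ren_ren, phi_PP, phi_kap, phi_PP_apply]
  rw [det4_swap _ _ (Fin.succ_ne_zero i).symm]
  ring

theorem ren_phi_inr (j : Fin N) (a b c e : MvPolynomial (Fin 4) K)
    {z : PX K (Option (Fin N)) 4} (hz : ren (mg j) z = 0) :
    ren (phi N (Sum.inr j)) (FF N a b c e z) = 0 := by
  rw [FF, map_mul, ren_ren, phi_kap_inr, ← ren_ren, hz, map_zero, mul_zero]

end main

end L2M

open L2M in
theorem L2M_thm (h1 : Stmt_ASM) (h2 : Stmt_LLN) : Stmt_L2M := by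
  intro K _ _ N a b c e ha hb hc he z hz
  obtain ⟨h11, h12⟩ := h1 K (Option (QU N)) 4
  obtain ⟨-, h13⟩ := h1 K (QU N) 4
  obtain ⟨-, -, -, -, s1, s2, -, -⟩ := h2 K N
  refine ⟨_, h11 (N + 1) (N + 1) (2 * N + 1) (FF N a b c e z) (FF_deg N ha hb hc he hz), ?_⟩
  rw [h13]
  have e0 : ∑ u : QU N, ren (Option.join ∘ Option.map (Equiv.swap none (some u)))
      (FF N a b c e z) =
      - (det4 K (q4 N) * (atp (some (Sum.inl 0)) a * atp (some (Sum.inl 1)) c *
          atp (some (Sum.inl 2)) e) * ren (Option.map Sum.inr) (atp none b * z)) -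
      (det4 K (q4 N) * (atp (some (Sum.inl 0)) b * atp (some (Sum.inl 1)) a *
          atp (some (Sum.inl 2)) e) * ren (Option.map Sum.inr) (atp none c * z)) -
      (det4 K (q4 N) * (atp (some (Sum.inl 0)) b * atp (some (Sum.inl 1)) c *
          atp (some (Sum.inl 2)) a) * ren (Option.map Sum.inr) (atp none e * z)) := by
    have e1 : ∀ u : QU N, ren (Option.join ∘ Option.map (Equiv.swap none (some u)))
        (FF N a b c e z) = ren (phi N u) (FF N a b c e z) := fun u => rfl
    simp only [e1, Fintype.sum_sum_type, ren_phi_inr N _ a b c e (hz.2 _), ren_phi_FF,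
      Finset.sum_const_zero, add_zero, Fin.sum_univ_three]
    have t00 : q4 N (Equiv.swap 0 (0 : Fin 3).succ 0) = some (Sum.inl 0) := rfl
    have t01 : q4 N (Equiv.swap 0 (0 : Fin 3).succ 1) = none := rfl
    have t02 : q4 N (Equiv.swap 0 (0 : Fin 3).succ 2) = some (Sum.inl 1) := rfl
    have t03 : q4 N (Equiv.swap 0 (0 : Fin 3).succ 3) = some (Sum.inl 2) := rfl
    have t10 : q4 N (Equiv.swap 0 (1 : Fin 3).succ 0) = some (Sum.inl 1) := rfl
    have t11 : q4 N (Equiv.swap 0 (1 : Fin 3).succ 1) = some (Sum.inl 0) := rfl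
    have t12 : q4 N (Equiv.swap 0 (1 : Fin 3).succ 2) = none := rfl
    have t13 : q4 N (Equiv.swap 0 (1 : Fin 3).succ 3) = some (Sum.inl 2) := rfl
    have t20 : q4 N (Equiv.swap 0 (2 : Fin 3).succ 0) = some (Sum.inl 2) := rfl
    have t21 : q4 N (Equiv.swap 0 (2 : Fin 3).succ 1) = some (Sum.inl 0) := rfl
    have t22 : q4 N (Equiv.swap 0 (2 : Fin 3).succ 2) = some (Sum.inl 1) := rfl
    have t23 : q4 N (Equiv.swap 0 (2 : Fin 3).succ 3) = none := rfl
    rw [t00, t01, t02, t03, t10, t11, t12, t13, t20, t21, t22, t23]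
    simp only [map_mul, ren_atp, Option.map_none]
    ring
  rw [e0, ren_join_FF, ← s1 a b e, ← s1 a b c, ← s2 b a c, lam_eq, lam_eq, lam_eq, lam_eq,
    ← Finset.sum_add_distrib, ← Finset.sum_add_distrib, ← Finset.sum_add_distrib]
  refine Finset.sum_congr rfl fun σ _ => ?_
  rw [← smul_add, ← smul_add, ← smul_add, ← map_add, ← map_add, ← map_add]
  congr 2
  ring

end Pool.Agent.VSY
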