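import Pool.Agent.VSY.Stmts

/-!
# Veronese syzygies: the numbers
-/

namespace Pool.Agent.VSY.CH

variable {K : Type} [Field K] [CharZero K]

theorem ch2 (n : ℕ) : 2 * (n + 1).choose 2 = (n + 1) * n := by
  induction n with
  | zero => simp
  | succ n ih =>
    have h1 : (n + 1 + 1).choose 2 = (n + 1).choose 1 + (n + 1).choose 2 :=
      Nat.choose_succ_succ (n + 1) 1
    rw [h1, Nat.choose_one_right, mul_add, ih]
    ring

variable (K) in
/-- Vanishing in all numbers of variables. -/
def W (d p r : ℕ) : Prop := ∀ v, Van K v d p r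

/-- The vanishing for `r ≥ d + p`. -/
theorem zero (h1 : Stmt_TR) (h2 : Stmt_TG) (h3 : Stmt_RED) {d : ℕ} (hd : 1 ≤ d) (p : ℕ) :
    ∀ r, d + p ≤ r → W K d p r := by
  induction p using Nat.strong_induction_on with
  | _ p ih =>
    intro r hr
    have h4 : Van K 1 d p r := by
      refine h2 K 0 d p r hd (by omega) (Or.inl (by omega))
    have h5 : ∀ v, 1 ≤ v → Van K v d p r := by
      refine h1 K d 1 p r hd h4 fun v hv => ⟨fun hvp => ?_, fun hvp r' hr' => ?_⟩
      · exact ih (p - v) (by omega) r (by omega) v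
      · exact ih (p + 1 - v) (by omega) r' (by omega) v
    intro v
    rcases Nat.eq_zero_or_pos v with rfl | hv
    · exact h3 K 0 1 d p r (by omega) h4
    · exact h5 v hv

/-- The step. -/
theorem step (h1 : Stmt_TR) (h2 : Stmt_TG) (h3 : Stmt_RED) {d q p r : ℕ} (hd : 1 ≤ d)
    (hq : (q + 1) * (d - 1) < r + d)
    (hG : (q + 1) * (d - 1) < r ∨
      ∃ s, r + s = (q + 1) * (d - 1) ∧ p + (s + q).choose q + (q + 1) ≤ (d + q).choose q)
    (hA : ∀ p', p' + q + 2 ≤ p → W K d p' r)
    (hB : ∀ p' r', p' + q + 1 ≤ p → r' + 1 = r → W K d p' r') : W K d p r := by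
  have h4 : Van K (q + 1) d p r := h2 K q d p r hd hq hG
  have h5 : ∀ v, q + 1 ≤ v → Van K v d p r := by
    refine h1 K d (q + 1) p r hd h4 fun v hv => ⟨fun hvp => ?_, fun hvp r' hr' => ?_⟩
    · exact hA (p - v) (by omega) v
    · exact hB (p + 1 - v) r' (by omega) hr' v
  intro v
  rcases le_or_gt (q + 1) v with hv | hv
  · exact h5 v hv
  · exact h3 K v (q + 1) d p r hv.le h4

/-- `r = 2 d - 1`. -/
theorem rowA (h1 : Stmt_TR) (h2 : Stmt_TG) (h3 : Stmt_RED) {d : ℕ} (hd : 2 ≤ d) (p : ℕ) :
    p + 2 ≤ 2 * d → p ≤ d + 1 → W K d p (2 * d - 1) := by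
  induction p using Nat.strong_induction_on with
  | _ p ih =>
    intro hp hp'
    refine step h1 h2 h3 (q := 2) (by omega) (by omega) (Or.inr ⟨d - 2, by omega, ?_⟩) ?_ ?_
    · obtain ⟨e, rfl⟩ : ∃ e, d = e + 2 := ⟨d - 2, by omega⟩
      have e1 := ch2 (e + 1)
      have e2 := ch2 (e + 3)
      rw [Nat.add_sub_cancel]
      have e3 : (e + 2).choose 2 = (e + 1 + 1).choose 2 := rfl
      have e4 : (e + 2 + 2).choose 2 = (e + 3 + 1).choose 2 := rfl
      rw [e3, e4]
      nlinarith
    · intro p' h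
      exact ih p' (by omega) (by omega) (by omega)
    · intro p' r' h hr
      exact zero h1 h2 h3 (by omega) p' r' (by omega)

/-- `Lend 2 b d`. -/
theorem lend_eq {b d : ℕ} (hb : b + 3 ≤ d) :
    2 * Lend 2 b d = ((d : ℤ) + 2) * (d + 1) - (d - b - 1) * (d - b - 2) - 4 := by
  obtain ⟨e, rfl⟩ : ∃ e, d = e + b + 3 := ⟨d - b - 3, by omega⟩
  have e1 := ch2 (e + 1)
  have e2 := ch2 (e + b + 3 + 1)
  have e3 : e + b + 3 - b - 1 = e + 1 + 1 := by omega
  have e4 : e + b + 3 + 2 = e + b + 3 + 1 + 1 := rfl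
  rw [Lend, e3, e4]
  have e5 : (2 : ℤ) * ((e + 1 + 1).choose 2 : ℕ) = ((e + 1 + 1) * (e + 1) : ℕ) := by
    rw [← e1]; push_cast; ring
  have e6 : (2 : ℤ) * ((e + b + 3 + 1 + 1).choose 2 : ℕ) =
      ((e + b + 3 + 1 + 1) * (e + b + 3 + 1) : ℕ) := by
    rw [← e2]; push_cast; ring
  have e7 : (2 : ℤ) * (((e + b + 3 + 1 + 1).choose 2 : ℕ) - ((e + 1 + 1).choose 2 : ℕ) - (2 : ℕ)) =
      2 * ((e + b + 3 + 1 + 1).choose 2 : ℕ) - 2 * ((e + 1 + 1).choose 2 : ℕ) - 4 := by
    push_cast; ring
  rw [e7, e5, e6]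
  push_cast
  ring

/-- `r = 2 d + b`. -/
theorem rowB (h1 : Stmt_TR) (h2 : Stmt_TG) (h3 : Stmt_RED) (h4 : Stmt_THB) (d b : ℕ) :
    b + 3 ≤ d → ∀ p : ℕ, (p : ℤ) < Lend 2 b d → p ≤ d + 3 * b + 5 → W K d p (2 * d + b) := by
  induction b with
  | zero =>
    intro hb p
    induction p using Nat.strong_induction_on with
    | _ p ih =>
      intro hp hp'
      have hL := lend_eq hb
      refine step h1 h2 h3 (q := 2) (by omega) (by omega) (Or.inr ⟨d - 3, by omega, ?_⟩) ?_ ?_
      · obtain ⟨e, rfl⟩ : ∃ e, d = e + 3 := ⟨d - 3, by omega⟩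
        have e3 : e + 3 - 0 - 1 = e + 3 - 3 + 2 := by omega
        rw [Lend, e3] at hp
        have : (p : ℤ) + ((e + 3 - 3 + 2).choose 2 : ℕ) + 3 ≤ ((e + 3 + 2).choose 2 : ℕ) := by
          push_cast at hp ⊢
          linarith
        exact_mod_cast this
      · intro p' h
        refine ih p' (by omega) ?_ (by omega)
        have : (p' : ℤ) ≤ p := by exact_mod_cast (by omega : p' ≤ p)
        linarith
      · intro p' r' h hr
        have hr2 : r' = 2 * d - 1 := by omega
        subst hr2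
        rcases Nat.lt_or_ge d 4 with hd | hd
        · have hd3 : d = 3 := by omega
          subst hd3
          have h7 : (p : ℤ) < 7 := by
            norm_num at hL
            linarith
          have h8 : p < 7 := by exact_mod_cast h7
          exact rowA h1 h2 h3 (by omega) p' (by omega) (by omega)
        · rcases Nat.lt_or_ge p' (d + 2) with h5 | h5
          · exact rowA h1 h2 h3 (by omega) p' (by omega) (by omega)
          · have h6 : p' = d + 2 := by omega
            subst h6
            exact fun v => h4 K v d hd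
  | succ b ihb =>
    intro hb p
    induction p using Nat.strong_induction_on with
    | _ p ih =>
      intro hp hp'
      have hL := lend_eq hb
      have hL' := lend_eq (by omega : b + 3 ≤ d)
      refine step h1 h2 h3 (q := 2) (by omega) (by omega)
        (Or.inr ⟨d - 3 - (b + 1), by omega, ?_⟩) ?_ ?_
      · obtain ⟨e, rfl⟩ : ∃ e, d = e + (b + 1) + 3 := ⟨d - (b + 1) - 3, by omega⟩
        have e3 : e + (b + 1) + 3 - (b + 1) - 1 = e + (b + 1) + 3 - 3 - (b + 1) + 2 := by omega
        rw [Lend, e3] at hp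
        have : (p : ℤ) + ((e + (b + 1) + 3 - 3 - (b + 1) + 2).choose 2 : ℕ) + 3 ≤
            ((e + (b + 1) + 3 + 2).choose 2 : ℕ) := by
          push_cast at hp ⊢
          linarith
        exact_mod_cast this
      · intro p' h
        refine ih p' (by omega) ?_ (by omega)
        have : (p' : ℤ) ≤ p := by exact_mod_cast (by omega : p' ≤ p)
        linarith
      · intro p' r' h hr
        have hr2 : r' = 2 * d + b := by omega
        subst hr2
        refine ihb (by omega) p' ?_ (by omega)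
        have h5 : (p' : ℤ) + 3 ≤ p := by exact_mod_cast h
        have h6 : (p' : ℤ) ≤ d + 3 * b + 5 := by exact_mod_cast (by omega : p' ≤ d + 3 * b + 5)
        push_cast at hL
        rcases Nat.lt_or_ge d (b + 6) with hd | hd
        · have hd' : (d : ℤ) ≤ b + 5 := by exact_mod_cast (by omega : d ≤ b + 5)
          nlinarith
        · have hd' : (b : ℤ) + 6 ≤ d := by exact_mod_cast hd
          have hb0 : (0 : ℤ) ≤ b := by positivity
          nlinarith

/-- The remaining rows. -/
theorem rowC (h1 : Stmt_TR) (h2 : Stmt_TG) (h3 : Stmt_RED) {d : ℕ} (hd : 4 ≤ d) (j : ℕ) :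
    ∀ p, p + 2 ≤ d + 3 * j → W K d p (2 * d - 2 + j) := by
  induction j with
  | zero =>
    intro p hp
    exact zero h1 h2 h3 (by omega) p _ (by omega)
  | succ j ihj =>
    intro p
    induction p using Nat.strong_induction_on with
    | _ p ih =>
      intro hp
      refine step h1 h2 h3 (q := 2) (by omega) (by omega) ?_ ?_ ?_
      · rcases Nat.lt_or_ge ((2 + 1) * (d - 1)) (2 * d - 2 + (j + 1)) with h | h
        · exact Or.inl h
        · right
          obtain ⟨s, hs⟩ : ∃ s, d = s + (j + 1) + 1 := ⟨d - (j + 1) - 1, by omega⟩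
          refine ⟨s, by omega, ?_⟩
          have e1 := ch2 (s + 1)
          have e2 := ch2 (d + 1)
          have e3 : (s + 2).choose 2 = (s + 1 + 1).choose 2 := rfl
          have e4 : (d + 2).choose 2 = (d + 1 + 1).choose 2 := rfl
          rw [e3, e4]
          have e5 : 2 * (p + (s + 1 + 1).choose 2 + (2 + 1)) ≤ 2 * (d + 1 + 1).choose 2 := by
            rw [mul_add, mul_add, e1, e2]
            subst hs
            nlinarith
          omega
      · intro p' h
        exact ih p' (by omega) (by omega)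
      · intro p' r' h hr
        have hr2 : r' = 2 * d - 2 + j := by omega
        subst hr2
        exact ihj p' (by omega)

end Pool.Agent.VSY.CH

namespace Pool.Agent.VSY

open CH

/-- RED: vanishing in `m` variables implies vanishing in fewer variables. -/
theorem RED_thm (h : Stmt_VAR) : Stmt_RED := by
  intro K _ v m d p r hvm hV U _ _ hU f hf
  obtain ⟨h1, -, -, -, h5⟩ := h K v m hvm
  obtain ⟨h6, -, -, h9⟩ := h5 U d r
  rw [← h1 (Option U) f]
  exact h9 _ (hV U hU _ (h6 f hf))

/-- CH: the numbers. -/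
theorem CH_thm (h1 : Stmt_TR) (h2 : Stmt_TG) (h3 : Stmt_RED) (h4 : Stmt_THB) : Stmt_CH := by
  intro K _ _
  refine ⟨fun v d b p hb hp hp' => rowB h1 h2 h3 h4 d b hb p hp hp' v, ?_⟩
  intro v d q b p hq hb hp
  have h5 : 3 * d ≤ q * d := Nat.mul_le_mul_right d hq
  have h6 : 3 * q * d = 3 * (q * d) := by ring
  have h7 : q * d + b = 2 * d - 2 + (q * d + b - (2 * d - 2)) := by omega
  rw [h7]
  refine rowC h1 h2 h3 (by omega) _ p ?_ v
  rw [h6] at hp
  omega

end Pool.Agent.VSY
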