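import Pool.Agent.VSY.StmtsB

/-!
# Veronese syzygies: alternating sums
-/

set_option autoImplicit false

namespace Pool.Agent.VSY.ASM

open MvPolynomial

variable {K : Type} [Field K] {U : Type} [Fintype U] [DecidableEq U] {v : ℕ}

/-- The alternating sum is a chain. -/
theorem part1 (d s r : ℕ) (F : PX K (Option U) v)
    (hF : ∀ m ∈ F.support, (∀ u : U, ∑ j, m (some u, j) = d) ∧ ∑ j, m (none, j) + s = r) :
    InC U v d s r
      (∑ π : Equiv.Perm U, ((Equiv.Perm.sign π : ℤˣ) : ℤ) • ren (Option.map π) F) := by
  classical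
  refine ⟨fun π₀ => ?_, fun m hm => ?_⟩
  · rw [map_sum, Finset.smul_sum]
    refine Fintype.sum_equiv (Equiv.mulLeft π₀) _ _ fun π => ?_
    rw [map_zsmul, ren_ren, Option.map_comp_map, Equiv.coe_mulLeft, smul_smul,
      Equiv.Perm.sign_mul, Units.val_mul, ← mul_assoc, ← Units.val_mul, Int.units_mul_self,
      Units.val_one, one_mul, Equiv.Perm.coe_mul]
  · have h0 := support_sum hm
    obtain ⟨π, _, h1⟩ := Finset.mem_biUnion.1 h0
    have h2 : m ∈ (ren (Option.map π) F).support := by
      rw [mem_support_iff] at h1 ⊢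
      intro h
      apply h1
      rw [coeff_smul, h, smul_zero]
    obtain ⟨m', hm', rfl⟩ := exists_of_mem_support_ren _ _ h2
    have h := hF m' hm'
    have hfil : ∀ y : Option U, (Finset.univ.filter fun a : Option U => Option.map π a = y) =
        {Option.map π.symm y} := by
      intro y
      ext a
      simp only [Finset.mem_filter, Finset.mem_univ, true_and, Finset.mem_singleton]
      constructor
      · rintro rfl
        cases a <;> simp
      · rintro rfl
        cases y <;> simp
    refine ⟨fun u => ?_, ?_⟩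
    · rw [mapDomain_sum, hfil, Finset.sum_singleton]
      exact h.1 _
    · rw [mapDomain_sum, hfil, Finset.sum_singleton]
      exact h.2

/-- The permutations of `Option U`. -/
def E (U : Type) [DecidableEq U] : Option U × Equiv.Perm U ≃ Equiv.Perm (Option U) :=
  (Equiv.prodCongr (Equiv.refl _) (Equiv.inv (Equiv.Perm U))).trans
    (Equiv.Perm.decomposeOption.symm.trans (Equiv.inv _))

omit [Fintype U] in
theorem E_apply (x : Option U) (σ : Equiv.Perm U) :
    E U (x, σ) = Equiv.optionCongr σ * Equiv.swap none x := by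
  have h1 : E U (x, σ) = (Equiv.swap none x * Equiv.optionCongr σ⁻¹)⁻¹ := by
    show (Equiv.Perm.decomposeOption.symm (x, σ⁻¹))⁻¹ = _
    rw [Equiv.Perm.decomposeOption_symm_apply]
  rw [h1, mul_inv_rev, Equiv.swap_inv]
  congr 1

theorem part2 (F : PX K (Option (Option U)) v) :
    ren Option.join
        (∑ π : Equiv.Perm (Option U), ((Equiv.Perm.sign π : ℤˣ) : ℤ) • ren (Option.map π) F) =
      ∑ σ : Equiv.Perm U, ((Equiv.Perm.sign σ : ℤˣ) : ℤ) • ren (Option.map σ)
        (ren Option.join F -
          ∑ u : U, ren (Option.join ∘ Option.map (Equiv.swap none (some u))) F) := by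
  classical
  have hc : ∀ (x : Option U) (σ : Equiv.Perm U),
      ren Option.join (((Equiv.Perm.sign (E U (x, σ)) : ℤˣ) : ℤ) •
        ren (Option.map (E U (x, σ))) F) =
      ((Equiv.Perm.sign σ : ℤˣ) : ℤ) • (((Equiv.Perm.sign (Equiv.swap none x) : ℤˣ) : ℤ) •
        ren (Option.map σ) (ren (Option.join ∘ Option.map (Equiv.swap none x)) F)) := by
    intro x σ
    rw [map_zsmul, ren_ren, ren_ren, smul_smul, E_apply, Equiv.Perm.sign_mul,
      Equiv.optionCongr_sign, Units.val_mul]
    congr 2
    congr 1
    funext a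
    rcases a with _ | a
    · rfl
    · show Option.join (some ((Equiv.optionCongr σ) (Equiv.swap none x a))) =
        Option.map σ (Option.join (some (Equiv.swap none x a)))
      cases (Equiv.swap none x a) <;> rfl
  rw [map_sum, ← Equiv.sum_comp (E U), Fintype.sum_prod_type_right]
  refine Finset.sum_congr rfl fun σ _ => ?_
  rw [Finset.sum_congr rfl fun x _ => hc x σ, ← Finset.smul_sum, Fintype.sum_option]
  congr 1
  rw [Equiv.swap_self, Equiv.Perm.sign_refl, Units.val_one, one_smul, map_sub, map_sum,
    sub_eq_add_neg, ← Finset.sum_neg_distrib]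
  congr 1
  · have h1 : Option.join ∘ Option.map (Equiv.refl (Option U)) = Option.join := by
      funext a
      cases a <;> rfl
    rw [h1]
  · refine Finset.sum_congr rfl fun u _ => ?_
    rw [Equiv.Perm.sign_swap (by simp), Units.val_neg, Units.val_one, neg_one_smul]

end Pool.Agent.VSY.ASM

namespace Pool.Agent.VSY

theorem ASM_thm : Stmt_ASM := by
  intro K _ U _ _ v
  exact ⟨fun d s r F hF => ASM.part1 d s r F hF, fun F => ASM.part2 F⟩

end Pool.Agent.VSY
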