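import Pool.Agent.VSY.StmtsB

/-!
# Veronese syzygies: `Λ(abc; z)` for a boundary `z` (module L1M)
-/

namespace Pool.Agent.VSY

open MvPolynomial

namespace L1M

variable {K : Type} [Field K] {A B : Type} {v : ℕ}

/-- The polynomial `f` has degree `n` at the point `x`. -/
def Dg (x : A) (n : ℕ) (f : PX K A v) : Prop := ∀ m ∈ f.support, ∑ j, m (x, j) = n

theorem Dg.mul {x : A} {n k : ℕ} {f g : PX K A v} (hf : Dg x n f) (hg : Dg x k g) :
    Dg x (n + k) (f * g) := by
  classical
  intro m hm
  obtain ⟨a, ha, b, hb, rfl⟩ := Finset.mem_add.1 (support_mul f g hm)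
  simp only [Finsupp.add_apply, Finset.sum_add_distrib]
  rw [hf a ha, hg b hb]

theorem Dg.add {x : A} {n : ℕ} {f g : PX K A v} (hf : Dg x n f) (hg : Dg x n g) :
    Dg x n (f + g) := by
  classical
  intro m hm
  rcases Finset.mem_union.1 (support_add hm) with h | h
  · exact hf m h
  · exact hg m h

theorem Dg.zsmul {x : A} {n : ℕ} {f : PX K A v} (a : ℤ) (hf : Dg x n f) : Dg x n (a • f) := by
  intro m hm
  refine hf m ?_
  rw [mem_support_iff] at hm ⊢
  intro h0
  apply hm
  rw [← Int.cast_smul_eq_zsmul K, coeff_smul, h0, smul_zero]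

theorem Dg.sum {x : A} {n : ℕ} {ι : Type} (s : Finset ι) (f : ι → PX K A v)
    (h : ∀ i ∈ s, Dg x n (f i)) : Dg x n (∑ i ∈ s, f i) := by
  classical
  induction s using Finset.induction_on with
  | empty => intro m hm; simp at hm
  | insert i s hi ih =>
    rw [Finset.sum_insert hi]
    exact (h i (Finset.mem_insert_self _ _)).add
      (ih fun k hk => h k (Finset.mem_insert_of_mem hk))

theorem Dg.prod {x : A} {ι : Type} (s : Finset ι) (n : ι → ℕ) (f : ι → PX K A v)
    (h : ∀ i ∈ s, Dg x (n i) (f i)) : Dg x (∑ i ∈ s, n i) (∏ i ∈ s, f i) := by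
  classical
  induction s using Finset.induction_on with
  | empty =>
    intro m hm
    rw [Finset.prod_empty, mem_support_iff, coeff_one] at hm
    have : m = 0 := by
      by_contra hc
      exact hm (if_neg fun h => hc h.symm)
    simp [this]
  | insert i s hi ih =>
    rw [Finset.sum_insert hi, Finset.prod_insert hi]
    exact (h i (Finset.mem_insert_self _ _)).mul
      (ih fun k hk => h k (Finset.mem_insert_of_mem hk))

theorem Dg_X [DecidableEq A] (x y : A) (j : Fin v) :
    Dg x (if y = x then 1 else 0) (X (y, j) : PX K A v) := by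
  intro m hm
  rw [support_X, Finset.mem_singleton] at hm
  subst hm
  split_ifs with h
  · subst h
    simp [Finsupp.single_apply]
  · refine Finset.sum_eq_zero fun k _ => ?_
    rw [Finsupp.single_apply, if_neg]
    intro hc
    exact h (congrArg Prod.fst hc)

theorem Dg_ren [Fintype A] {φ : A → B} (h : Function.Injective φ) {x : A} {n : ℕ}
    {f : PX K A v} (hf : Dg x n f) : Dg (φ x) n (ren φ f) := by
  classical
  intro m hm
  obtain ⟨m', hm', rfl⟩ := exists_of_mem_support_ren _ _ hm
  rw [mapDomain_sum]
  have : (Finset.univ.filter fun a : A => φ a = φ x) = {x} := by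
    ext a
    simp only [Finset.mem_filter, Finset.mem_univ, true_and, Finset.mem_singleton]
    exact ⟨fun hh => h hh, fun hh => by rw [hh]⟩
  rw [this, Finset.sum_singleton]
  exact hf m' hm'

theorem Dg_ren_zero [Fintype A] {φ : A → B} {y : B} (h : ∀ x, φ x ≠ y) (f : PX K A v) :
    Dg y 0 (ren φ f) := by
  classical
  intro m hm
  obtain ⟨m', hm', rfl⟩ := exists_of_mem_support_ren _ _ hm
  rw [mapDomain_sum, Finset.filter_false_of_mem fun a _ => h a, Finset.sum_empty]

theorem ren_atp (φ : A → B) (x : A) (a : MvPolynomial (Fin v) K) :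
    ren φ (atp x a) = atp (φ x) a := by
  rw [ren, atp, atp, rename_rename]
  rfl

theorem Dg_atp [DecidableEq A] {n : ℕ} {a : MvPolynomial (Fin v) K} (ha : a.IsHomogeneous n)
    (x y : A) : Dg x (if y = x then n else 0) (atp y a : PX K A v) := by
  intro m hm
  rw [mem_support_iff, atp] at hm
  obtain ⟨m', h1, h2⟩ := coeff_rename_ne_zero _ _ _ hm
  have hinj : Function.Injective fun j : Fin v => (y, j) := fun a b h => (Prod.mk.inj h).2
  subst h1
  split_ifs with h
  · subst h
    simp only [Finsupp.mapDomain_apply hinj]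
    have := ha h2
    rw [← this]
    simp [Finsupp.weight_apply, Finsupp.sum_fintype]
  · refine Finset.sum_eq_zero fun j _ => ?_
    refine Finsupp.mapDomain_of_notMem_range _ _ ?_
    rintro ⟨k, hk⟩
    exact h (Prod.mk.inj hk).1

/-- The determinant of the coordinates of four points. -/
noncomputable def dt (K : Type) [Field K] {A : Type} (p : Fin 4 → A) : PX K A 4 :=
  (Matrix.of fun i j : Fin 4 => (X (p i, j) : PX K A 4)).det

theorem DD4_eq (N : ℕ) : DD4 K N = dt K (q4 N) := rfl

theorem ren_dt (φ : A → B) (p : Fin 4 → A) : ren φ (dt K p) = dt K (φ ∘ p) := by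
  rw [dt, dt, AlgHom.map_det]
  congr 1
  ext1 i j
  simp [AlgHom.mapMatrix_apply, Matrix.map_apply]

theorem dt_eq_zero (p : Fin 4 → A) {i j : Fin 4} (hij : i ≠ j) (h : p i = p j) :
    dt K p = 0 := by
  refine Matrix.det_zero_of_row_eq hij ?_
  funext k
  simp [h]

theorem Dg_dt [DecidableEq A] (x : A) (p : Fin 4 → A) :
    Dg x (∑ i, if p i = x then 1 else 0) (dt K p) := by
  rw [dt, Matrix.det_apply']
  refine Dg.sum _ _ fun σ _ => ?_
  have h1 : ((Equiv.Perm.sign σ : ℤˣ) : ℤ) • ∏ i, (X (p (σ i), i) : PX K A 4) =
      (((Equiv.Perm.sign σ : ℤˣ) : ℤ) : PX K A 4) *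
        ∏ i, (Matrix.of fun i j : Fin 4 => (X (p i, j) : PX K A 4)) (σ i) i := by
    rw [zsmul_eq_mul]
    rfl
  rw [← h1, ← Equiv.sum_comp σ]
  exact (Dg.prod _ _ _ fun i _ => Dg_X _ _ _).zsmul _

end L1M

open L1M in
theorem L1M_thm (h1 : Stmt_ASM) : Stmt_L1M := by
  classical
  intro K _ _ N a b c ha hb hc z hz
  obtain ⟨g, hg, rfl⟩ := hz
  -- the factor without `z`
  set P : PX K (Option (QU N)) 4 := DD4 K N *
    (atp (some (Sum.inl 0)) a * atp (some (Sum.inl 1)) b * atp (some (Sum.inl 2)) c) with hPdef
  have hP : ∀ {B : Type} (φ : Option (QU N) → B), ren φ P = dt K (φ ∘ q4 N) *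
      (atp (φ (some (Sum.inl 0))) a * atp (φ (some (Sum.inl 1))) b *
        atp (φ (some (Sum.inl 2))) c) := by
    intro B φ
    rw [hPdef, map_mul, map_mul, map_mul, ren_atp, ren_atp, ren_atp, DD4_eq, ren_dt]
  have hsomeinj : Function.Injective (Option.map (some : QU N → Option (QU N))) :=
    Option.map_injective (Option.some_injective _)
  have hPdeg : (∀ i : Fin 3, Dg (some (Sum.inl i)) (N + 1) P) ∧
      (∀ j : Fin N, Dg (some (Sum.inr j)) 0 P) ∧ Dg none 1 P := by
    have key : ∀ x : Option (QU N), Dg x ((∑ i, if q4 N i = x then 1 else 0) +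
        ((if some (Sum.inl 0) = x then N else 0) + (if some (Sum.inl 1) = x then N else 0) +
          (if some (Sum.inl 2) = x then N else 0))) P := fun x =>
      (Dg_dt x (q4 N)).mul (((Dg_atp ha x _).mul (Dg_atp hb x _)).mul (Dg_atp hc x _))
    refine ⟨fun i => ?_, fun j => ?_, ?_⟩
    · have := key (some (Sum.inl i))
      fin_cases i
      · convert this using 1
        simp [Fin.sum_univ_succ, q4]
        omega
      · convert this using 1
        simp [Fin.sum_univ_succ, q4]
        omega
      · convert this using 1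
        simp [Fin.sum_univ_succ, q4]
        omega
    · have := key (some (Sum.inr j))
      convert this using 1
      simp [Fin.sum_univ_succ, q4]
    · have := key none
      convert this using 1
      simp [Fin.sum_univ_succ, q4]
  -- the chain
  set κ : Option (Option (Fin N)) → Option (Option (QU N)) :=
    Option.map (Option.map Sum.inr) with hκ
  have hκinj : Function.Injective κ := Option.map_injective (Option.map_injective Sum.inr_injective)
  set F : PX K (Option (Option (QU N))) 4 := ren (Option.map some) P * ren κ g with hF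
  have hFdeg : ∀ m ∈ F.support, (∀ u : Option (QU N), ∑ j, m (some u, j) = N + 1) ∧
      ∑ j, m (none, j) + (N + 1) = 2 * N + 1 := by
    have hgn : ∀ m ∈ g.support, ∑ j, m (none, j) + (N + 1) = 2 * N := fun m hm => (hg.deg m hm).2
    have hsum : ∀ m ∈ F.support, (∀ u : Option (QU N), ∑ j, m (some u, j) = N + 1) := by
      intro m hm u
      rcases u with _ | (i | j)
      · have h1 : Dg (some none) 0 (ren (Option.map (some : QU N → Option (QU N))) P) :=
          Dg_ren_zero (by rintro (_ | x) h <;> simp at h) _
        have h2 : Dg (some none) (N + 1) (ren κ g) :=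
          Dg_ren (x := some none) hκinj fun m hm => (hg.deg m hm).1 none
        have := h1.mul h2 m hm
        omega
      · have h1 : Dg (some (some (Sum.inl i))) (N + 1)
            (ren (Option.map (some : QU N → Option (QU N))) P) :=
          Dg_ren (x := some (Sum.inl i)) hsomeinj (hPdeg.1 i)
        have h2 : Dg (some (some (Sum.inl i))) 0 (ren κ g) :=
          Dg_ren_zero (by rintro (_ | _ | x) h <;> simp [hκ] at h) _
        have := h1.mul h2 m hm
        omega
      · have h1 : Dg (some (some (Sum.inr j))) 0
            (ren (Option.map (some : QU N → Option (QU N))) P) :=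
          Dg_ren (x := some (Sum.inr j)) hsomeinj (hPdeg.2.1 j)
        have h2 : Dg (some (some (Sum.inr j))) (N + 1) (ren κ g) :=
          Dg_ren (x := some (some j)) hκinj fun m hm => (hg.deg m hm).1 (some j)
        have := h1.mul h2 m hm
        omega
    intro m hm
    refine ⟨hsum m hm, ?_⟩
    obtain ⟨m1, hm1, m2, hm2, rfl⟩ := Finset.mem_add.1 (support_mul _ _ hm)
    have e1 : ∑ j, m1 (none, j) = 1 := Dg_ren (x := none) hsomeinj hPdeg.2.2 m1 hm1
    have e2 : ∑ j, m2 (none, j) + (N + 1) = 2 * N := by
      obtain ⟨m', hm', rfl⟩ := exists_of_mem_support_ren _ _ hm2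
      rw [mapDomain_sum]
      have : (Finset.univ.filter fun a : Option (Option (Fin N)) => κ a = none) = {none} := by
        ext x
        rcases x with _ | x <;> simp [hκ]
      rw [this, Finset.sum_singleton]
      exact hgn m' hm'
    simp only [Finsupp.add_apply, Finset.sum_add_distrib]
    omega
  have hG := (h1 K (Option (QU N)) 4).1 (N + 1) (N + 1) (2 * N + 1) F hFdeg
  have hJ := (h1 K (QU N) 4).2 F
  -- the values
  have v0 : ren Option.join F = P * ren (Option.map Sum.inr) (ren Option.join g) := by
    rw [hF, map_mul, ren_ren, ren_ren, ren_ren]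
    congr 1
    · rw [ren_congr (ψ := id) (by rintro (_ | x) <;> rfl), ren_id]
    · exact ren_congr (by rintro (_ | _ | x) <;> rfl) g
  have vl : ∀ i : Fin 3, ren (Option.join ∘ Option.map
      (Equiv.swap none (some (Sum.inl i : QU N)))) F = 0 := by
    intro i
    rw [hF, map_mul, ren_ren, hP, dt_eq_zero (i := 0) (j := i.succ) _ (Fin.succ_ne_zero i).symm,
      zero_mul, zero_mul]
    simp [q4]
  have vr : ∀ j : Fin N, ren (Option.join ∘ Option.map
      (Equiv.swap none (some (Sum.inr j : QU N)))) F =
        - (P * ren (Option.map Sum.inr) (ren Option.join g)) := by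
    intro j
    have hsg := hg.alt (Equiv.swap none (some j))
    rw [Equiv.Perm.sign_swap (by simp)] at hsg
    rw [hF, map_mul, ren_ren, ren_ren]
    have e1 : ren ((Option.join ∘ Option.map (Equiv.swap none (some (Sum.inr j : QU N)))) ∘
        Option.map some) P = P := by
      have h2 := hP (id : Option (QU N) → Option (QU N))
      rw [ren_id] at h2
      rw [hP, h2]
      have hfix : ∀ i : Fin 3, ((Option.join ∘ Option.map
          (Equiv.swap none (some (Sum.inr j : QU N)))) ∘ Option.map some)
            (some (Sum.inl i)) = some (Sum.inl i) := by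
        intro i
        simp [Equiv.swap_apply_of_ne_of_ne]
      have hp : ((Option.join ∘ Option.map (Equiv.swap none (some (Sum.inr j : QU N)))) ∘
          Option.map some) ∘ q4 N = id ∘ q4 N := by
        funext i
        refine Fin.cases ?_ (fun i => ?_) i
        · rfl
        · exact hfix i
      rw [hp, hfix, hfix, hfix]
      rfl
    have e2 : ren ((Option.join ∘ Option.map (Equiv.swap none (some (Sum.inr j : QU N)))) ∘ κ) g =
        ren (Option.map Sum.inr) (ren Option.join
          (ren (Option.map (Equiv.swap none (some j))) g)) := by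
      rw [ren_ren, ren_ren]
      refine ren_congr ?_ g
      rintro (_ | _ | x)
      · rfl
      · simp [hκ]
      · by_cases hx : x = j
        · subst hx
          simp [hκ]
        · simp only [hκ, Function.comp_apply, Option.map_some]
          rw [Equiv.swap_apply_of_ne_of_ne (by simp) (by simpa using hx),
            Equiv.swap_apply_of_ne_of_ne (by simp) (by simpa using hx)]
          rfl
    rw [e1, e2, hsg]
    simp
  have hsum : ren Option.join F - ∑ u : QU N, ren (Option.join ∘ Option.map
      (Equiv.swap none (some u))) F =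
        ((N : K) + 1) • (P * ren (Option.map Sum.inr) (ren Option.join g)) := by
    rw [Fintype.sum_sum_type, v0]
    simp only [vl, vr, Finset.sum_const_zero, zero_add, Finset.sum_const, Finset.card_univ,
      Fintype.card_fin]
    rw [add_smul, one_smul, Nat.cast_smul_eq_nsmul, smul_neg, sub_neg_eq_add, add_comm]
  have hlam : ren Option.join (∑ π : Equiv.Perm (Option (QU N)),
      ((Equiv.Perm.sign π : ℤˣ) : ℤ) • ren (Option.map π) F) =
        ((N : K) + 1) • Lam N a b c (ren Option.join g) := by
    rw [hJ, hsum, Lam, Finset.smul_sum]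
    refine Finset.sum_congr rfl fun σ _ => ?_
    rw [map_smul, smul_comm]
  have hne : ((N : K) + 1) ≠ 0 := by
    exact_mod_cast Nat.succ_ne_zero N
  have hfin : InB (QU N) 4 (N + 1) (2 * N + 1)
      (((N : K) + 1) • Lam N a b c (ren Option.join g)) := ⟨_, hG, hlam⟩
  have := hfin.smul ((N : K) + 1)⁻¹
  rwa [smul_smul, inv_mul_cancel₀ hne, one_smul] at this

end Pool.Agent.VSY
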