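import Pool.Agent.VSY.StmtsB

/-!
# Veronese syzygies: the Capelli element is a boundary
-/

set_option autoImplicit false

namespace Pool.Agent.VSY.L0M

open MvPolynomial

section cap

variable {K : Type} [Field K] {A : Type} [Fintype A] [DecidableEq A] {v : ℕ}

theorem Est_add {k : ℕ} (i : Fin v) (c c' : SA K A v (k + 1)) :
    Est i (c + c') = Est i c + Est i c' := by
  unfold Est
  rw [← Finset.sum_add_distrib]
  refine Finset.sum_congr rfl fun x _ => ?_
  ext1 ξ
  simp

theorem capL_add (L : List (Fin v)) (c c' : SA K A v L.length) :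
    capL L (c + c') = capL L c + capL L c' := by
  induction L with
  | nil => rfl
  | cons j L ih =>
    show capL L (Est j (c + c')) = capL L (Est j c) + capL L (Est j c')
    rw [Est_add, ih]

end cap

section pts

variable {N : ℕ}

theorem q4_zero : q4 N 0 = none := rfl

theorem q4_succ (i : Fin 3) : q4 N i.succ = some (Sum.inl i) := rfl

theorem q4_ne_inr (i : Fin 4) (j : Fin N) : q4 N i ≠ some (Sum.inr j) := by
  refine Fin.cases ?_ (fun i => ?_) i
  · rw [q4_zero]
    exact fun h => by simp at h
  · rw [q4_succ]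
    exact fun h => by simp at h

theorem q4_eq_none {i : Fin 4} (h : q4 N i = none) : i = 0 := by
  revert h
  refine Fin.cases ?_ (fun i => ?_) i
  · intro _
    rfl
  · rw [q4_succ]
    intro h
    simp at h

theorem q4_inj : Function.Injective (q4 N) := by
  intro i j
  refine Fin.cases ?_ (fun i => ?_) i
  · intro h
    exact (q4_eq_none h.symm).symm
  · refine Fin.cases ?_ (fun j => ?_) j
    · intro h
      exact q4_eq_none h
    · intro h
      rw [q4_succ, q4_succ] at h
      rw [Sum.inl.inj (Option.some.inj h)]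

/-- The tuple. -/
def t1 (N : ℕ) {k : ℕ} (hk : k = 4) : Fin k → Option (QU N) := fun i => q4 N (Fin.cast hk i)

theorem t1_inj {k : ℕ} (hk : k = 4) : Function.Injective (t1 N hk) :=
  fun _ _ h => Fin.cast_injective hk (q4_inj h)

theorem count {k : ℕ} (hk : k = 4) (i : Fin 4) :
    (Finset.univ.filter fun j : Fin k => t1 N hk j = q4 N i).card = 1 := by
  rw [Finset.card_eq_one]
  refine ⟨Fin.cast hk.symm i, ?_⟩
  ext j
  simp only [Finset.mem_filter, Finset.mem_univ, true_and, Finset.mem_singleton]
  constructor
  · intro h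
    rw [← q4_inj h]
    rfl
  · rintro rfl
    rfl

theorem count_none {k : ℕ} (hk : k = 4) :
    (Finset.univ.filter fun j : Fin k => t1 N hk j = none).card = 1 := by
  rw [Finset.card_eq_one]
  refine ⟨Fin.cast hk.symm 0, ?_⟩
  ext j
  simp only [Finset.mem_filter, Finset.mem_univ, true_and, Finset.mem_singleton]
  constructor
  · intro h
    rw [← q4_eq_none h]
    rfl
  · rintro rfl
    rfl

theorem count_inr {k : ℕ} (hk : k = 4) (i : Fin N) :
    (Finset.univ.filter fun j : Fin k => t1 N hk j = some (Sum.inr i)).card = 0 := by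
  rw [Finset.card_eq_zero, Finset.filter_eq_empty_iff]
  intro j _
  exact q4_ne_inr _ _

end pts

/-- The conditions for the main component. -/
theorem cond {K : Type} [Field K] {N k : ℕ} (hk : k = 4) {c : SA K (Option (QU N)) 4 k}
    (hc : KZ (QU N) 4 (N + 1) (2 * N + 1) k c)
    (h0 : ∀ t : Fin k → Option (QU N), (∀ i, t i ≠ none) → c (sgl K t) = 0) :
    (∀ π : Equiv.Perm (Fin N), ren (Option.map (Sum.map id π)) (c (sgl K (t1 N hk))) =
        ((Equiv.Perm.sign π : ℤˣ) : ℤ) • c (sgl K (t1 N hk))) ∧
    (∀ m ∈ (c (sgl K (t1 N hk))).support,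
      (∀ i : Fin 3, ∑ j, m (some (Sum.inl i), j) = N) ∧
        (∀ i : Fin N, ∑ j, m (some (Sum.inr i), j) = N + 1) ∧ ∑ j, m (none, j) = 2 * N) ∧
    (∀ i : Fin N, ren (mg (Sum.inr i)) (c (sgl K (t1 N hk))) = 0) := by
  classical
  refine ⟨fun π => ?_, fun m hm => ?_, fun i => ?_⟩
  · have h1 := hc.1.alt (Equiv.sumCongr (1 : Equiv.Perm (Fin 3)) π)
    have h2 := congrArg (fun a : SA K (Option (QU N)) 4 k => a (sgl K (t1 N hk))) h1
    simp only [push_apply] at h2
    have h3 : (fun i => sgl K (t1 N hk) i ∘
        Option.map (Equiv.sumCongr (1 : Equiv.Perm (Fin 3)) π)) = sgl K (t1 N hk) := by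
      funext i x
      rw [Function.comp_apply]
      unfold sgl
      rw [Pi.single_apply, Pi.single_apply]
      have h4 : Option.map (Equiv.sumCongr (1 : Equiv.Perm (Fin 3)) π) x = t1 N hk i ↔
          x = t1 N hk i := by
        have h5 : Option.map (Equiv.sumCongr (1 : Equiv.Perm (Fin 3)) π) (t1 N hk i) =
            t1 N hk i := by
          unfold t1
          refine Fin.cases ?_ (fun i => ?_) (Fin.cast hk i)
          · rfl
          · rfl
        constructor
        · intro h
          rw [← h5] at h
          exact Option.map_injective (Equiv.injective _) h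
        · rintro rfl
          exact h5
      simp only [h4]
    rw [h3] at h2
    have h6 : Equiv.Perm.sign (Equiv.sumCongr (1 : Equiv.Perm (Fin 3)) π) =
        Equiv.Perm.sign π := by
      have := Equiv.Perm.sign_sumCongr (1 : Equiv.Perm (Fin 3)) π
      rw [map_one, one_mul] at this
      exact this
    rw [h6] at h2
    exact h2
  · have h1 := hc.1.deg (t1 N hk) m hm
    refine ⟨fun i => ?_, fun i => ?_, ?_⟩
    · have h2 := h1.1 (Sum.inl i)
      rw [← q4_succ, count hk] at h2
      rw [← q4_succ]
      omega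
    · have h2 := h1.1 (Sum.inr i)
      rw [count_inr hk] at h2
      omega
    · have h2 := h1.2
      rw [count_none hk] at h2
      omega
  · have h1 := congrArg (fun a : SA K (Option (QU N)) 4 k => a (sgl K (t1 N hk)))
      (hc.2 (Sum.inr i))
    simp only [push_sgl, AlternatingMap.zero_apply] at h1
    have h2 : mg (Sum.inr i) ∘ t1 N hk = t1 N hk := by
      funext j
      rw [Function.comp_apply]
      unfold mg
      rw [Function.update_of_ne (show t1 N hk j ≠ some (Sum.inr i) from q4_ne_inr _ _)]
      rfl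
    have hmem : t1 N hk ∈ Finset.univ.filter
        (fun s : Fin k → Option (QU N) => mg (Sum.inr i) ∘ s = t1 N hk) :=
      Finset.mem_filter.2 ⟨Finset.mem_univ _, h2⟩
    refine Eq.trans (Eq.symm (Finset.sum_eq_single_of_mem (t1 N hk) hmem ?_)) h1
    · intro s hs hne
      have h3 := (Finset.mem_filter.1 hs).2
      have h4 : ∀ j, s j = some (Sum.inr i) ∨ s j = t1 N hk j := by
        intro j
        by_cases h5 : s j = some (Sum.inr i)
        · exact Or.inl h5
        · right
          rw [← h3, Function.comp_apply]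
          unfold mg
          rw [Function.update_of_ne h5]
          rfl
      have h5 : ∀ j, s j ≠ none := by
        intro j hj
        apply hne
        funext j'
        rcases h4 j' with h6 | h6
        · exfalso
          have h7 : t1 N hk j' = none := by
            rw [← h3, Function.comp_apply, h6]
            unfold mg
            rw [Function.update_self]
          have h8 : t1 N hk j = none := by
            rw [← h3, Function.comp_apply, hj]
            unfold mg
            rw [Function.update_of_ne (by simp)]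
            rfl
          have h9 : j = j' := t1_inj hk (h8.trans h7.symm)
          rw [h9, h6] at hj
          simp at hj
        · exact h6
      rw [h0 s h5, map_zero]

theorem L0M_thm (h1 : Stmt_OPS) (h2 : Stmt_EXA) (h3 : Stmt_PAR) (h4 : Stmt_LOW)
    (h5 : Stmt_L0B) (h6 : Stmt_L0C) (h7 : Stmt_LALL) : Stmt_L0M := by
  intro K _ _ N hN f hf
  have hlen : (List.finRange 4).length = 4 := List.length_finRange
  have hcard : Fintype.card (QU N) = N + 3 := by
    rw [Fintype.card_sum, Fintype.card_fin, Fintype.card_fin, add_comm]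
  obtain ⟨_, _, o3, o4, _⟩ := h1 K (QU N) 4 (N + 1) (2 * N + 1)
  have hy := o3 (List.finRange 4) f hf
  have hP : (List.finRange 4).length ≤ N + 3 →
      PVan K 4 (N + 1) (N + 3 - (List.finRange 4).length) (2 * N + 1) := by
    intro _
    refine h3 K 4 (N + 1) _ (2 * N + 1) (h4 K 4 (N + 1) _ (2 * N + 1) (by omega) ?_)
    rw [hlen]
    omega
  obtain ⟨c, hc, hb, h0⟩ := h2 K 4 (N + 1) (N + 3) (2 * N + 1) (List.finRange 4).length
    (by omega) (by rw [hlen]; omega) hP (QU N) hcard _ hy
  have hsplit : capL (List.finRange 4) (yL (List.finRange 4) f) =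
      capL (List.finRange 4) (yL (List.finRange 4) f - c) + capL (List.finRange 4) c := by
    rw [← capL_add, sub_add_cancel]
  rw [hsplit]
  refine (o4 (List.finRange 4) _ hb).add ?_
  obtain ⟨a, ha⟩ := h5 K N c hc.1.alt h0
  rw [ha]
  refine InB.smul a ?_
  obtain ⟨g1, g2, g3⟩ := cond hlen hc h0
  exact h6 K N (BB K (QU N) 4 (N + 1) (2 * N + 1))
    (fun x y z hx hy hz w hw => h7 K N hN x y z hx hy hz w hw) _ g1 g2 g3

end Pool.Agent.VSY.L0M

namespace Pool.Agent.VSY

theorem L0M_thm (h1 : Stmt_OPS) (h2 : Stmt_EXA) (h3 : Stmt_PAR) (h4 : Stmt_LOW)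
    (h5 : Stmt_L0B) (h6 : Stmt_L0C) (h7 : Stmt_LALL) : Stmt_L0M :=
  L0M.L0M_thm h1 h2 h3 h4 h5 h6 h7

end Pool.Agent.VSY
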