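import Pool.Agent.VSY.StmtsB

/-!
# Veronese syzygies (MP_deb8da_ag): Theorem B
-/

namespace Pool.Agent.VSY

open MvPolynomial

namespace TB

theorem binom_bound (N : ℕ) (hN : 3 ≤ N) :
    (N + 3) + ((N - 1) + 2).choose 2 + (2 + 1) ≤ (N + 1 + 2).choose 2 := by
  obtain ⟨n, rfl⟩ : ∃ n, N = n + 3 := ⟨N - 3, by omega⟩
  have e1 : n + 3 - 1 + 2 = n + 4 := by omega
  have e2 : n + 3 + 1 + 2 = n + 6 := by omega
  rw [e1, e2]
  have h5 : (n + 5).choose 2 = (n + 4) + (n + 4).choose 2 := by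
    rw [show n + 5 = (n + 4) + 1 from rfl, Nat.choose_succ_succ' (n + 4) 1, Nat.choose_one_right]
  have h6 : (n + 6).choose 2 = (n + 5) + (n + 5).choose 2 := by
    rw [show n + 6 = (n + 5) + 1 from rfl, Nat.choose_succ_succ' (n + 5) 1, Nat.choose_one_right]
  omega

theorem van3 (h3 : Stmt_TG) (K : Type) [Field K] [CharZero K] (N : ℕ) (hN : 3 ≤ N) :
    Van K 3 (N + 1) (N + 3) (2 * N + 1) := by
  have := h3 K 2 (N + 1) (N + 3) (2 * N + 1) (by omega) (by
    rw [Nat.add_sub_cancel]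
    omega) (Or.inr ⟨N - 1, by
      rw [Nat.add_sub_cancel]
      omega, binom_bound N hN⟩)
  exact this

/-- The total degree of the monomials of a chain. -/
theorem total_deg {K : Type} [Field K] {U : Type} [Fintype U] [DecidableEq U] {v d s r : ℕ}
    {f : PX K (Option U) v} (hf : InC U v d s r f) (m : Option U × Fin v →₀ ℕ)
    (hm : m ∈ f.support) : ∑ x, m x ≤ Fintype.card U * d + r := by
  rw [Fintype.sum_prod_type, Fintype.sum_option]
  obtain ⟨h1, h2⟩ := hf.deg m hm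
  have h3 : ∑ u : U, ∑ j, m (some u, j) = Fintype.card U * d := by
    rw [Finset.sum_congr rfl (fun u _ => h1 u), Finset.sum_const, Finset.card_univ, smul_eq_mul]
  rw [h3]
  omega

theorem van4 (h2 : Stmt_VU) (h3 : Stmt_TG) (h5 : Stmt_WT) (h6 : Stmt_VAR)
    (h7 : Stmt_OPS) (h9 : Stmt_L0M) (K : Type) [Field K] [CharZero K] (N : ℕ) (hN : 3 ≤ N) :
    Van K 4 (N + 1) (N + 3) (2 * N + 1) := by
  refine h2 K 4 (N + 1) (N + 3) (2 * N + 1) (QU N) (by simp [QU]; omega) fun f hf => ?_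
  obtain ⟨o1, o2, _, _, o5⟩ := h7 K (QU N) 4 (N + 1) (2 * N + 1)
  have hle : ZZ K (QU N) 4 (N + 1) (2 * N + 1) ≤ BB K (QU N) 4 (N + 1) (2 * N + 1) := by
    refine h5 K (Option (QU N)) 3 (Fintype.card (QU N) * (N + 1) + (2 * N + 1)) _ _
      (fun g hg ν => o5 g ν hg) (fun i j g hg => o1 i j g hg) (fun i j g hg => o2 i j g hg)
      (fun g hg m hm => total_deg (hg : InZ _ _ _ _ g).1 m hm) (fun g hg hl => ?_)
      (fun g hg => h9 K N hN g hg)
    obtain ⟨_, v2, _, _, v5⟩ := h6 K 3 4 (by omega)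
    obtain ⟨_, w2, w3, _⟩ := v5 (QU N) (N + 1) (2 * N + 1)
    have hup : up (by omega : 3 ≤ 4) (down (v := 3) g) = g := by
      refine v2 _ g fun μ hμ x j hj => ?_
      have hjl : j = Fin.last 3 := by
        apply Fin.ext
        have := j.isLt
        simp only [Fin.val_last]
        omega
      rw [hjl]
      exact hl μ hμ x
    have hz : InZ (QU N) 3 (N + 1) (2 * N + 1) (down g) := w3 g hg
    have hb := van3 h3 K N hN (QU N) (by simp [QU]; omega) _ hz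
    have hb' := w2 _ hb
    rw [hup] at hb'
    exact hb'
  exact hle hf

end TB

theorem THB_thm (h1 : Stmt_LOW) (h2 : Stmt_VU) (h3 : Stmt_TG) (h4 : Stmt_RED) (h5 : Stmt_WT)
    (h6 : Stmt_VAR) (h7 : Stmt_OPS) (h8 : Stmt_TR) (h9 : Stmt_L0M) : Stmt_THB := by
  intro K _ _ v d hd
  obtain ⟨N, rfl⟩ : ∃ N, d = N + 1 := ⟨d - 1, by omega⟩
  have hN : 3 ≤ N := by omega
  have er : 2 * (N + 1) - 1 = 2 * N + 1 := by omega
  have ep : N + 1 + 2 = N + 3 := by omega
  rw [er, ep]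
  by_cases hv : v ≤ 3
  · exact h4 K v 3 (N + 1) (N + 3) (2 * N + 1) hv (TB.van3 h3 K N hN)
  · refine h8 K (N + 1) 4 (N + 3) (2 * N + 1) (by omega)
      (TB.van4 h2 h3 h5 h6 h7 h9 K N hN) (fun v' hv' => ⟨fun hp => ?_, fun hp r' hr' => ?_⟩) v
      (by omega)
    · exact h1 K v' (N + 1) (N + 3 - v') (2 * N + 1) (by omega) (by omega)
    · exact h1 K v' (N + 1) (N + 3 + 1 - v') r' (by omega) (by omega)

end Pool.Agent.VSY
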