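import Pool.Agent.VSY.Stmts

/-!
# Veronese syzygies (MP_deb8da_ag), module TR: Theorem R
-/

set_option autoImplicit false

namespace Pool.Agent.VSY

open MvPolynomial

namespace TR

variable {K : Type} [Field K]

/-- The degree of a monomial of a cycle. -/
theorem deg_le {U : Type} [Fintype U] [DecidableEq U] {v d p r : ℕ} (hU : Fintype.card U = p)
    {f : PX K (Option U) v} (hf : InZ U v d r f) {m : Option U × Fin v →₀ ℕ}
    (hm : m ∈ f.support) : ∑ x, m x ≤ p * d + r := by
  have h := hf.1.deg m hm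
  rw [Fintype.sum_prod_type, Fintype.sum_option, Finset.sum_congr rfl fun u _ => h.1 u,
    Finset.sum_const, Finset.card_univ, hU, smul_eq_mul]
  have h2 := h.2
  omega

theorem step (h1 : Stmt_WT) (h2 : Stmt_OPS) (h3 : Stmt_VAR) (h4 : Stmt_PAR) (h5 : Stmt_EX)
    [CharZero K] (v d p r : ℕ) (hd : 1 ≤ d) (hv : Van K v d p r)
    (ha : v + 1 ≤ p → Van K (v + 1) d (p - (v + 1)) r)
    (hb : v + 1 ≤ p + 1 → ∀ r', r' + 1 = r → Van K (v + 1) d (p + 1 - (v + 1)) r') :
    Van K (v + 1) d p r := by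
  intro U _ _ hU f hf
  obtain ⟨o1, o2, o3, o4, o5⟩ := h2 K U (v + 1) d r
  obtain ⟨-, v2, -, -, v5⟩ := h3 K v (v + 1) (Nat.le_succ v)
  obtain ⟨-, w2, w3, -⟩ := v5 U d r
  refine h1 K (Option U) v (p * d + r) (ZZ K U (v + 1) d r) (BB K U (v + 1) d r) ?_ ?_ ?_ ?_ ?_ ?_
    (mem_ZZ.2 hf)
  · intro g hg ν
    exact o5 g ν hg
  · intro i j g hg
    exact o1 i j g hg
  · intro i j g hg
    exact o2 i j g hg
  · intro g hg m hm
    exact deg_le hU hg hm
  · intro g hg hlast
    have e := v2 (Option U) g (by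
      intro μ hμ x j hj
      have hj' : j = Fin.last v := by
        apply Fin.ext
        rw [Fin.val_last]
        have := j.2
        omega
      rw [hj']
      exact hlast μ hμ x)
    rw [← e]
    exact w2 _ (hv U hU _ (w3 g hg))
  · intro g hg
    have hL : (List.finRange (v + 1)).length = v + 1 := List.length_finRange
    refine o4 (List.finRange (v + 1)) _ ?_
    refine h5 K (v + 1) d p r (List.finRange (v + 1)).length hd (by omega) ?_ ?_ U hU _
      (o3 (List.finRange (v + 1)) g hg)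
    · intro h
      rw [hL] at h ⊢
      exact h4 K _ _ _ _ (ha h)
    · intro h r' hr'
      rw [hL] at h ⊢
      exact h4 K _ _ _ _ (hb h r' hr')

end TR

theorem TR_thm (h1 : Stmt_WT) (h2 : Stmt_OPS) (h3 : Stmt_VAR) (h4 : Stmt_PAR) (h5 : Stmt_EX) :
    Stmt_TR := by
  intro K _ _ d m p r hd hm hrec v hv
  induction v, hv using Nat.le_induction with
  | base => exact hm
  | succ v hv ih =>
    exact TR.step h1 h2 h3 h4 h5 v d p r hd ih (hrec (v + 1) (by omega)).1
      (hrec (v + 1) (by omega)).2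

end Pool.Agent.VSY
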