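import Pool.Agent.VSY.Stmts

/-!
# Veronese syzygies: the Capelli lemma
-/

namespace Pool.Agent.VSY

open MvPolynomial

namespace CAPM

set_option linter.unusedSectionVars false

variable {K : Type} [Field K] {A : Type} [Fintype A] [DecidableEq A] {v : ℕ}

theorem sum_app {k : ℕ} (T : Finset A) (f : A → SA K A v k) (s : Fin k → A → K) :
    (∑ x ∈ T, f x) s = ∑ x ∈ T, f x s := by
  classical
  induction T using Finset.induction_on with
  | empty => rfl
  | insert a T ha ih =>
    rw [Finset.sum_insert ha, Finset.sum_insert ha, AlternatingMap.add_apply, ih]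

theorem est_apply {k : ℕ} (i : Fin v) (c : SA K A v (k + 1)) (s : Fin k → A → K) :
    Est i c s = ∑ x : A, (X (x, i) : PX K A v) * c (Matrix.vecCons (Pi.single x 1) s) := by
  rw [Est, sum_app]
  rfl

theorem est_add {k : ℕ} (i : Fin v) (c c' : SA K A v (k + 1)) :
    Est i (c + c') = Est i c + Est i c' := by
  ext1 s
  simp only [est_apply, AlternatingMap.add_apply, mul_add, Finset.sum_add_distrib]

theorem est_smul {k : ℕ} (i : Fin v) (a : K) (c : SA K A v (k + 1)) :
    Est i (a • c) = a • Est i c := by
  ext1 s
  simp only [est_apply, AlternatingMap.smul_apply, mul_smul_comm, Finset.smul_sum]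

theorem neg_eq {k : ℕ} (c : SA K A v k) : (-1 : K) • c = -c := by
  ext1 s
  rw [AlternatingMap.smul_apply, AlternatingMap.neg_apply, neg_smul, one_smul]

theorem est_neg {k : ℕ} (i : Fin v) (c : SA K A v (k + 1)) :
    Est i (-c) = -Est i c := by
  have := est_smul i (-1 : K) c
  rwa [neg_eq, neg_eq] at this

theorem est_sub {k : ℕ} (i : Fin v) (c c' : SA K A v (k + 1)) :
    Est i (c - c') = Est i c - Est i c' := by
  rw [sub_eq_add_neg, est_add, est_neg, ← sub_eq_add_neg]

/-- The forms all of whose contractions lie in `M`. -/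
def Small (M : Submodule K (PX K A v)) : (k : ℕ) → SA K A v k → Prop
  | 0, c => c Fin.elim0 ∈ M
  | k + 1, c => ∀ i, Small M k (Est i c)

variable {M : Submodule K (PX K A v)}

theorem Small.add {k : ℕ} : ∀ {c c' : SA K A v k}, Small M k c → Small M k c' →
    Small M k (c + c') := by
  induction k with
  | zero =>
    intro c c' h h'
    exact M.add_mem h h'
  | succ k ih =>
    intro c c' h h' i
    rw [est_add]
    exact ih (h i) (h' i)

theorem Small.smul {k : ℕ} (a : K) : ∀ {c : SA K A v k}, Small M k c → Small M k (a • c) := by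
  induction k with
  | zero =>
    intro c h
    exact M.smul_mem a h
  | succ k ih =>
    intro c h i
    rw [est_smul]
    exact ih (h i)

theorem Small.sub {k : ℕ} {c c' : SA K A v k} (h : Small M k c) (h' : Small M k c') :
    Small M k (c - c') := by
  have := h.add (h'.smul (-1 : K))
  rwa [neg_eq, ← sub_eq_add_neg] at this

theorem small_EA (hR : Stmt_REL) (hM : ∀ i j, ∀ f ∈ M, Eij i j f ∈ M) (i j : Fin v) :
    ∀ {k : ℕ} {c : SA K A v k}, Small M k c → Small M k (EA i j c) := by
  intro k
  induction k with
  | zero =>
    intro c h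
    exact hM i j _ h
  | succ k ih =>
    intro c h l
    have h3 := (hR K A v i j l).2.2.1 k c
    have h4 : Est l (EA i j c) = EA i j (Est l c) - (if j = l then (1 : K) else 0) • Est i c := by
      rw [h3, add_sub_cancel_right]
    rw [h4]
    exact (ih (h l)).sub ((h i).smul _)

theorem small_Dop (hR : Stmt_REL) (hM : ∀ i j, ∀ f ∈ M, Eij i j f ∈ M) (j : Fin v) :
    ∀ {k : ℕ} {c : SA K A v k}, Small M k c → Small M (k + 1) (Dop j c) := by
  intro k
  induction k with
  | zero =>
    intro c h i
    rw [(hR K A v i j j).1 c]
    exact small_EA hR hM i j h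
  | succ k ih =>
    intro c h i
    have h2 := (hR K A v i j j).2.1 k c
    have h4 : Est i (Dop j c) = EA i j c + (if i = j then ((k + 1 : ℕ) : K) else 0) • c -
        Dop j (Est i c) := by
      rw [← h2, add_sub_cancel_right]
    rw [h4]
    exact ((small_EA hR hM i j h).add (h.smul _)).sub (ih (h i))

theorem capL_mem : ∀ (L : List (Fin v)) (c : SA K A v L.length), Small M L.length c →
    capL L c ∈ M := by
  intro L
  induction L with
  | nil =>
    intro c h
    exact h
  | cons j L ih =>
    intro c h
    exact ih (Est j c) (h j)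

theorem capL_sub : ∀ (L : List (Fin v)) (c c' : SA K A v L.length),
    capL L (c - c') = capL L c - capL L c' := by
  intro L
  induction L with
  | nil =>
    intro c c'
    rfl
  | cons j L ih =>
    intro c c'
    show capL L (Est j (c - c')) = _
    rw [est_sub, ih]
    rfl

theorem capL_smul (a : K) : ∀ (L : List (Fin v)) (c : SA K A v L.length),
    capL L (a • c) = a • capL L c := by
  intro L
  induction L with
  | nil =>
    intro c
    rfl
  | cons j L ih =>
    intro c
    show capL L (Est j (a • c)) = _
    rw [est_smul, ih]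
    rfl

theorem small_yL (hR : Stmt_REL) (hM : ∀ i j, ∀ f ∈ M, Eij i j f ∈ M) {f : PX K A v}
    (hf : f ∈ M) : ∀ L : List (Fin v), Small M L.length (yL L f) := by
  intro L
  induction L with
  | nil => exact hf
  | cons j L ih => exact small_Dop hR hM j ih

theorem EA_yL (hR : Stmt_REL) (j i : Fin v) (g : PX K A v) :
    ∀ L : List (Fin v), j ∉ L → EA j i (yL L g) = yL L (Eij j i g) := by
  intro L
  induction L with
  | nil =>
    intro _
    ext1 s
    rfl
  | cons a L ih =>
    intro h
    rw [List.mem_cons, not_or] at h
    have h4 := (hR K A v j i a).2.2.2 L.length (yL L g)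
    rw [if_neg (Ne.symm h.1), zero_smul, add_zero] at h4
    show EA j i (Dop a (yL L g)) = Dop a (yL L (Eij j i g))
    rw [← h4, ih h.2]

theorem Dop_smul {k : ℕ} (j : Fin v) (a : K) (c : SA K A v k) :
    Dop j (a • c) = a • Dop j c := by
  ext1 s
  simp only [Dop, AlternatingMap.alternatizeUncurryFin_apply, AlternatingMap.smul_apply,
    Finset.smul_sum]
  refine Finset.sum_congr rfl fun x _ => ?_
  rw [smul_comm]
  congr 1
  show (dd j (s x)) (a • c _) = a • (dd j (s x)) (c _)
  rw [map_smul]

theorem yL_smul (a : K) (g : PX K A v) :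
    ∀ L : List (Fin v), yL L (a • g) = a • yL L g := by
  intro L
  induction L with
  | nil =>
    ext1 s
    rfl
  | cons b L ih =>
    show Dop b (yL L (a • g)) = a • Dop b (yL L g)
    rw [ih, Dop_smul]

theorem small_Est (hR : Stmt_REL) (hM : ∀ i j, ∀ f ∈ M, Eij i j f ∈ M) {g : PX K A v}
    (hg : ∀ i j, i < j → Eij i j g ∈ M) (j : Fin v) :
    ∀ (L : List (Fin v)) (a : Fin v), (∀ b ∈ a :: L, j < b) →
      Small M L.length (Est j (yL (a :: L) g) : SA K A v L.length) := by
  intro L
  induction L with
  | nil =>
    intro a h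
    have ha : j < a := h a List.mem_cons_self
    show Small M 0 (Est j (Dop a (yL [] g)))
    rw [(hR K A v j a a).1 (yL [] g), EA_yL hR j a g [] List.not_mem_nil]
    exact hg j a ha
  | cons b L ih =>
    intro a h
    have ha : j < a := h a List.mem_cons_self
    have hj : j ∉ (b :: L) := fun hj => lt_irrefl j (h j (List.mem_cons_of_mem a hj))
    have h2 := (hR K A v j a a).2.1 L.length (yL (b :: L) g)
    rw [if_neg (ne_of_lt ha), zero_smul, add_zero] at h2
    have h4 : Est j (Dop a (yL (b :: L) g)) = EA j a (yL (b :: L) g) -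
        Dop a (Est j (yL (b :: L) g)) := by
      rw [← h2, add_sub_cancel_right]
    show Small M (L.length + 1) (Est j (Dop a (yL (b :: L) g)))
    rw [h4]
    refine Small.sub ?_ ?_
    · have h5 := EA_yL hR j a g (b :: L) hj
      have h6 := small_yL hR hM (hg j a ha) (b :: L)
      rw [← h5] at h6
      exact h6
    · exact small_Dop hR hM a (ih b fun x hx => h x (List.mem_cons_of_mem a hx))

theorem main (hR : Stmt_REL) (hM : ∀ i j, ∀ f ∈ M, Eij i j f ∈ M) {g : PX K A v}
    (ν : Fin v → ℕ) (hν : ∀ i, Eij i i g = (ν i : K) • g)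
    (hg : ∀ i j, i < j → Eij i j g ∈ M) :
    ∀ L : List (Fin v), L.Pairwise (· < ·) → capL L (yL L g) - (capc ν L : K) • g ∈ M := by
  intro L
  induction L with
  | nil =>
    intro _
    have h1 : capL [] (yL [] g) = g := rfl
    rw [h1]
    simp [capc]
  | cons j L ih =>
    intro hL
    rw [List.pairwise_cons] at hL
    have hj : j ∉ L := fun h => lt_irrefl j (hL.1 j h)
    have key : capL L (Est j (Dop j (yL L g))) -
        ((ν j + L.length : ℕ) : K) • capL L (yL L g) ∈ M := by
      cases L with
      | nil =>
        have h1 := (hR K A v j j j).1 (yL [] g)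
        have h2 : capL [] (Est j (Dop j (yL [] g))) = (ν j : K) • g := by
          show (Est j (Dop j (yL [] g))) Fin.elim0 = _
          rw [h1, EA_yL hR j j g [] List.not_mem_nil, hν]
          rfl
        have h3 : capL [] (yL [] g) = g := rfl
        rw [h2, h3]
        simp
      | cons b L =>
        have h2 := (hR K A v j j j).2.1 L.length (yL (b :: L) g)
        rw [if_pos rfl] at h2
        have h5 := EA_yL hR j j g (b :: L) hj
        rw [hν, yL_smul] at h5
        have h6 : EA j j (yL (b :: L) g : SA K A v (L.length + 1)) =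
            (ν j : K) • (yL (b :: L) g : SA K A v (L.length + 1)) := h5
        have h4 : Est j (Dop j (yL (b :: L) g)) =
            ((ν j + (L.length + 1) : ℕ) : K) • (yL (b :: L) g : SA K A v (L.length + 1)) -
              Dop j (Est j (yL (b :: L) g)) := by
          rw [eq_sub_iff_add_eq, h2, h6, ← add_smul]
          push_cast
          rfl
        have h7 : capL (b :: L) (Est j (Dop j (yL (b :: L) g))) =
            ((ν j + (L.length + 1) : ℕ) : K) • capL (b :: L) (yL (b :: L) g) -
              capL (b :: L) (Dop j (Est j (yL (b :: L) g))) := by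
          have h8 : capL (b :: L) (Est j (Dop j (yL (b :: L) g))) =
              capL (b :: L) (((ν j + (L.length + 1) : ℕ) : K) •
                (yL (b :: L) g : SA K A v (L.length + 1)) -
              Dop j (Est j (yL (b :: L) g))) := by
            exact congrArg (capL (b :: L)) h4
          rw [h8]
          refine (capL_sub (b :: L) _ _).trans ?_
          congr 1
          exact capL_smul _ (b :: L) _
        rw [h7]
        have h9 : capL (b :: L) (Dop j (Est j (yL (b :: L) g))) ∈ M := by
          refine capL_mem (b :: L) _ ?_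
          exact small_Dop hR hM j (small_Est hR hM hg j L b hL.1)
        show _ - _ - ((ν j + (L.length + 1) : ℕ) : K) • capL (b :: L) (yL (b :: L) g) ∈ M
        rw [sub_right_comm, sub_self, zero_sub]
        exact M.neg_mem h9
    have h10 : capL (j :: L) (yL (j :: L) g) = capL L (Est j (Dop j (yL L g))) := rfl
    rw [h10]
    have h11 := M.smul_mem ((ν j + L.length : ℕ) : K) (ih hL.2)
    have h12 := M.add_mem key h11
    have h13 : capL L (Est j (Dop j (yL L g))) - ((ν j + L.length : ℕ) : K) • capL L (yL L g) +
        ((ν j + L.length : ℕ) : K) • (capL L (yL L g) - (capc ν L : K) • g) =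
        capL L (Est j (Dop j (yL L g))) - (capc ν (j :: L) : K) • g := by
      rw [smul_sub, smul_smul]
      have h14 : (capc ν (j :: L) : K) = ((ν j + L.length : ℕ) : K) * (capc ν L : K) := by
        rw [← Nat.cast_mul]
        rfl
      rw [h14]
      abel
    rw [h13] at h12
    exact h12

end CAPM

theorem CAPM_thm (h1 : Stmt_REL) : Stmt_CAPM := by
  intro K _ A _ _ v M hM ν g hν hg L hL
  exact CAPM.main h1 hM ν hν hg L hL

end Pool.Agent.VSY
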