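import Pool.Agent.VSY.StmtsB

/-!
# Veronese syzygies (MP_deb8da_ag): CAPS, the value of `capL`
-/

namespace Pool.Agent.VSY

open MvPolynomial

namespace CAPS

variable {K : Type} [Field K] {A : Type} [Fintype A] [DecidableEq A] {v : ℕ}

omit [Fintype A] [DecidableEq A] in
theorem sum_ap {ι : Type} {k : ℕ} (s : Finset ι) (c : ι → SA K A v k) (ξ : Fin k → A → K) :
    (∑ i ∈ s, c i) ξ = ∑ i ∈ s, c i ξ := by
  classical
  induction s using Finset.induction_on with
  | empty => rfl
  | insert a s ha ih => rw [Finset.sum_insert ha, Finset.sum_insert ha, AlternatingMap.add_apply, ih]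

theorem Est_sgl {k : ℕ} (j : Fin v) (c : SA K A v (k + 1)) (t : Fin k → A) :
    Est j c (sgl K t) =
      ∑ x : A, X (x, j) * c (sgl K (Fin.cons x t : Fin (k + 1) → A)) := by
  rw [Est, sum_ap]
  refine Finset.sum_congr rfl fun x _ => ?_
  change X (x, j) * c (Matrix.vecCons (Pi.single x 1) (sgl K t)) = _
  have e : (Matrix.vecCons (Pi.single x 1) (sgl K t) : Fin (k + 1) → A → K) =
      sgl K (Fin.cons x t : Fin (k + 1) → A) := by
    funext i
    refine Fin.cases ?_ (fun i => ?_) i
    · rfl
    · rfl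
  rw [e]

omit [DecidableEq A] in
theorem sum_cons {k : ℕ} {M : Type} [AddCommMonoid M] (f : (Fin (k + 1) → A) → M) :
    ∑ t, f t = ∑ x : A, ∑ t : Fin k → A, f (Fin.cons x t) := by
  rw [← (Fin.consEquiv (fun _ => A)).sum_comp, Fintype.sum_prod_type]
  rfl

end CAPS

theorem CAPS_thm : Stmt_CAPS := by
  intro K _ A _ _ v L
  induction L with
  | nil =>
    intro c
    change c Fin.elim0 = ∑ t : Fin 0 → A, (∏ i : Fin 0, X (t i, ([] : List (Fin v)).get i)) *
      c (sgl K t)
    rw [Fintype.sum_unique, Finset.univ_eq_empty, Finset.prod_empty, one_mul]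
    congr 1
    funext i
    exact i.elim0
  | cons j L ih =>
    intro c
    change capL L (Est j c) = ∑ t : Fin (L.length + 1) → A,
      (∏ i : Fin (L.length + 1), X (t i, (j :: L).get i)) * c (sgl K t)
    rw [ih (Est j c), CAPS.sum_cons, Finset.sum_comm]
    refine Finset.sum_congr rfl fun t _ => ?_
    rw [CAPS.Est_sgl, Finset.mul_sum]
    refine Finset.sum_congr rfl fun x _ => ?_
    rw [Fin.prod_univ_succ]
    change _ = (X (x, j) * ∏ i : Fin L.length, X (t i, L.get i)) * _
    ring

end Pool.Agent.VSY
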