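import Pool.Agent.VSY.Stmts

/-!
# CRA: a chain whose boundary vanishes is zero if there are many alternating points
-/

namespace Pool.Agent.VSY.CRA

open MvPolynomial

section

variable {K : Type} [Field K] {A B : Type} {v : ℕ}

/-- The exponents of the monomial `n` at the point `x`. -/
noncomputable def ex (x : A) (n : Fin v →₀ ℕ) : A × Fin v →₀ ℕ := n.mapDomain fun j => (x, j)

theorem ex_same (x : A) (n : Fin v →₀ ℕ) (j : Fin v) : ex x n (x, j) = n j :=
  Finsupp.mapDomain_apply (fun _ _ h => (Prod.mk.inj h).2) n j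

theorem ex_ne {x y : A} (h : y ≠ x) (n : Fin v →₀ ℕ) (j : Fin v) : ex x n (y, j) = 0 := by
  refine Finsupp.mapDomain_of_notMem_range n _ ?_
  rintro ⟨i, hi⟩
  exact h (Prod.mk.inj hi).1.symm

/-- The value of the monomial `n` at the point `x`. -/
noncomputable def ev (x : A) (n : Fin v →₀ ℕ) : PX K A v := monomial (ex x n) 1

theorem ren_ev (φ : A → B) (x : A) (n : Fin v →₀ ℕ) :
    ren φ (ev (K := K) x n) = ev (φ x) n := by
  rw [ev, ren_monomial, ev, ex, ex, ← Finsupp.mapDomain_comp]
  rfl

end

section

variable {K : Type} [Field K] {U : Type} {v : ℕ}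

/-- The exponents at the point `none`. -/
noncomputable def co (m : Option U × Fin v →₀ ℕ) : Fin v →₀ ℕ :=
  Finsupp.equivFunOnFinite.symm fun j => m (none, j)

theorem co_apply (m : Option U × Fin v →₀ ℕ) (j : Fin v) : co m j = m (none, j) := rfl

/-- The exponents at the other points. -/
noncomputable def rs (m : Option U × Fin v →₀ ℕ) : Option U × Fin v →₀ ℕ :=
  m.filter fun x => x.1 ≠ none

theorem split (m : Option U × Fin v →₀ ℕ) : rs m + ex none (co m) = m := by
  ext ⟨x, j⟩
  rw [Finsupp.add_apply]
  cases x with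
  | none =>
    rw [ex_same, co_apply, rs, Finsupp.filter_apply_neg _ _ (by simp), zero_add]
  | some u =>
    rw [ex_ne (by simp), rs, Finsupp.filter_apply_pos _ _ (by simp), add_zero]

/-- Moves the point `none` to `some u`. -/
def mv [DecidableEq U] (u : U) : Option U → Option U := Function.update id none (some u)

variable [DecidableEq U]

theorem mv_none (u : U) : mv u none = some u := by simp [mv]

theorem mv_some (u w : U) : mv u (some w) = some w := by simp [mv]

theorem mv_mg (u : U) : mv u ∘ mg u = mv u := by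
  funext x
  cases x with
  | none => simp [mv, mg]
  | some w =>
    by_cases h : w = u
    · subst h
      simp [mv, mg]
    · simp [mv, mg, h]

theorem rename_rs (u : U) (m : Option U × Fin v →₀ ℕ) :
    (rs m).mapDomain (Prod.map (mv u) id) = rs m := by
  have h1 : (rs m).mapDomain (Prod.map (mv u) id) = (rs m).mapDomain id := by
    refine Finsupp.mapDomain_congr fun x hx => ?_
    obtain ⟨x, j⟩ := x
    cases x with
    | none =>
      exfalso
      rw [Finsupp.mem_support_iff, rs, Finsupp.filter_apply_neg _ _ (by simp)] at hx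
      exact hx rfl
    | some w =>
      simp [mv_some]
  rw [h1, Finsupp.mapDomain_id]

variable (f : PX K (Option U) v)

open Classical in
/-- The coefficients of `f` as a polynomial in the point `none`. -/
noncomputable def F (n : Fin v →₀ ℕ) : PX K (Option U) v :=
  ∑ m ∈ f.support.filter fun m => co m = n, monomial (rs m) (coeff m f)

theorem ren_F (u : U) (n : Fin v →₀ ℕ) : ren (mv u) (F f n) = F f n := by
  rw [F, map_sum]
  refine Finset.sum_congr rfl fun m _ => ?_
  rw [ren_monomial, rename_rs]

theorem sum_F (N : Finset (Fin v →₀ ℕ)) (h : ∀ m ∈ f.support, co m ∈ N) :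
    ∑ n ∈ N, F f n * ev none n = f := by
  classical
  have h1 := Finset.sum_fiberwise_of_maps_to (s := f.support) (t := N) (g := co)
    (f := fun m => monomial m (coeff m f)) h
  rw [support_sum_monomial_coeff] at h1
  refine (Finset.sum_congr rfl fun n _ => ?_).trans h1
  rw [F, Finset.sum_mul]
  refine Finset.sum_congr (by congr) fun m hm => ?_
  rw [Finset.mem_filter] at hm
  rw [ev, monomial_mul, mul_one, ← hm.2, split]

end

/-- The monomials of degree `s`. -/
abbrev N (v s : ℕ) : Type := ↥((Finset.univ : Finset (Fin (v + 1))).finsuppAntidiag s)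

theorem card_N (v s : ℕ) : Fintype.card (N v s) = (s + v).choose v := by
  rw [Fintype.card_coe, Finset.card_finsuppAntidiag_nat_eq_choose, Finset.card_univ,
    Fintype.card_fin]
  have h1 : v + 1 + s - 1 = s + v := by omega
  rw [h1]
  exact Nat.choose_symm_add

section

variable {K : Type} [Field K] {U : Type} [DecidableEq U] {v s : ℕ}

/-- The matrix of the values of the monomials at the points. -/
noncomputable def M (u : N v s ↪ U) : Matrix (N v s) (N v s) (PX K (Option U) (v + 1)) :=
  fun i n => ev (some (u i)) (n : Fin (v + 1) →₀ ℕ)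

/-- The exponents of the term of the determinant. -/
noncomputable def E (u : N v s ↪ U) (σ : Equiv.Perm (N v s)) :
    Option U × Fin (v + 1) →₀ ℕ :=
  ∑ i : N v s, ex (some (u (σ i))) (i : Fin (v + 1) →₀ ℕ)

theorem E_apply (u : N v s ↪ U) (σ : Equiv.Perm (N v s)) (k : N v s) (j : Fin (v + 1)) :
    E u σ (some (u (σ k)), j) = (k : Fin (v + 1) →₀ ℕ) j := by
  rw [E, Finsupp.finsetSum_apply, Finset.sum_eq_single k]
  · exact ex_same _ _ _
  · intro i _ hik
    refine ex_ne (fun h => hik ?_) _ _
    exact (σ.injective (u.injective (Option.some.inj h))).symm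
  · intro h
    exact absurd (Finset.mem_univ k) h

theorem E_inj (u : N v s ↪ U) (σ : Equiv.Perm (N v s)) (h : E u σ = E u 1) : σ = 1 := by
  ext1 k
  have h1 : ∀ j, (k : Fin (v + 1) →₀ ℕ) j = ((σ k : N v s) : Fin (v + 1) →₀ ℕ) j := by
    intro j
    rw [← E_apply u σ k j, h]
    exact E_apply u 1 (σ k) j
  exact (Subtype.ext (Finsupp.ext h1)).symm

theorem prod_M (u : N v s ↪ U) (σ : Equiv.Perm (N v s)) :
    ∏ i, M (K := K) u (σ i) i = monomial (E u σ) 1 := by
  rw [E, monomial_sum_one]
  rfl

theorem det_M (u : N v s ↪ U) : (M (K := K) u).det ≠ 0 := by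
  classical
  intro h0
  have h2 : coeff (E u 1) (M (K := K) u).det = 1 := by
    rw [Matrix.det_apply, coeff_sum, Finset.sum_eq_single 1]
    · rw [prod_M, Equiv.Perm.sign_one, one_smul, coeff_monomial, if_pos rfl]
    · intro σ _ hσ
      rw [prod_M, Units.smul_def, ← Int.cast_smul_eq_zsmul K, coeff_smul, coeff_monomial,
        if_neg fun h => hσ (E_inj u σ h), smul_zero]
    · intro h
      exact absurd (Finset.mem_univ _) h
  rw [h0, coeff_zero] at h2
  exact zero_ne_one h2

end

end Pool.Agent.VSY.CRA

namespace Pool.Agent.VSY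

open MvPolynomial CRA

theorem CRA_thm : Stmt_CRA := by
  intro K _ v d s P hP U _ _ hU f hf hb
  have hcard : Fintype.card (N v s) ≤ Fintype.card U := by
    rw [card_N, hU]
    exact hP
  obtain ⟨u⟩ := Function.Embedding.nonempty_of_card_le hcard
  have hmem : ∀ m ∈ f.support, co m ∈ (Finset.univ : Finset (Fin (v + 1))).finsuppAntidiag s := by
    intro m hm
    rw [Finset.mem_finsuppAntidiag]
    refine ⟨?_, Finset.subset_univ _⟩
    have := (hf.deg m hm).2
    rw [add_zero] at this
    exact this
  have hz : ∀ w : U, ren (mg w) f = 0 := by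
    intro w
    rw [← support_eq_empty, Finset.eq_empty_iff_forall_notMem]
    intro m hm
    obtain ⟨l, hl, _⟩ := hb w m hm
    omega
  have hz2 : ∀ w : U, ren (mv w) f = 0 := by
    intro w
    rw [← mv_mg w, ← ren_ren, hz, map_zero]
  have hsum := sum_F f _ hmem
  have hmv : (M (K := K) u).mulVec (fun n => F f (n : Fin (v + 1) →₀ ℕ)) = 0 := by
    funext i
    have h1 : ren (mv (u i)) f =
        ∑ n ∈ (Finset.univ : Finset (Fin (v + 1))).finsuppAntidiag s,
          ev (some (u i)) n * F f n := by
      conv_lhs => rw [← hsum]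
      rw [map_sum]
      refine Finset.sum_congr rfl fun n _ => ?_
      rw [map_mul, ren_F, ren_ev, mv_none, mul_comm]
    rw [hz2, ← Finset.sum_coe_sort] at h1
    exact h1.symm
  have h0 := Matrix.eq_zero_of_mulVec_eq_zero (det_M (K := K) u) hmv
  rw [← hsum]
  refine Finset.sum_eq_zero fun n hn => ?_
  have h1 : F f n = 0 := congrFun h0 ⟨n, hn⟩
  rw [h1, zero_mul]

end Pool.Agent.VSY
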