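import Pool.Agent.VSY.Stmts

/-!
# Veronese syzygies: the operators preserve the degrees
-/

namespace Pool.Agent.VSY

open MvPolynomial

namespace DEG

variable {K : Type} [Field K] {A : Type} {v : ℕ}

/-- The degree of every monomial at the point `x` is `e x - g x`. -/
def DP (e g : A → ℕ) (f : PX K A v) : Prop :=
  ∀ m ∈ f.support, ∀ x, ∑ l, m (x, l) + g x = e x

variable {e g : A → ℕ}

theorem DP.zero : DP e g (0 : PX K A v) := fun m hm => by simp at hm

theorem DP.add {f f' : PX K A v} (hf : DP e g f) (hf' : DP e g f') : DP e g (f + f') :=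
  fun m hm => by
    classical
    rcases Finset.mem_union.1 (support_add hm) with h | h
    · exact hf m h
    · exact hf' m h

theorem DP.neg {f : PX K A v} (hf : DP e g f) : DP e g (-f) := fun m hm => by
  rw [support_neg] at hm
  exact hf m hm

theorem DP.zsmul {f : PX K A v} (hf : DP e g f) (a : ℤ) : DP e g (a • f) := fun m hm => by
  refine hf m ?_
  rw [mem_support_iff] at hm ⊢
  intro h
  apply hm
  rw [coeff_smul, h, smul_zero]

theorem DP.sum {ι : Type} (s : Finset ι) (F : ι → PX K A v) (h : ∀ i ∈ s, DP e g (F i)) :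
    DP e g (∑ i ∈ s, F i) := by
  classical
  induction s using Finset.induction_on with
  | empty => exact DP.zero
  | insert a s ha ih =>
    rw [Finset.sum_insert ha]
    exact (h a (Finset.mem_insert_self _ _)).add
      (ih fun i hi => h i (Finset.mem_insert_of_mem hi))

/-- The degree of the variable `(x, j)` at the point `y`. -/
theorem single_deg [DecidableEq A] (x : A) (j : Fin v) (y : A) :
    ∑ l, (Finsupp.single (x, j) 1 : A × Fin v →₀ ℕ) (y, l) = if x = y then 1 else 0 := by
  classical
  simp only [Finsupp.single_apply, Prod.mk.injEq]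
  by_cases h : x = y
  · simp [h]
  · simp [h]

theorem DP.pderiv [DecidableEq A] {f : PX K A v} (hf : DP e g f) (x : A) (j : Fin v) :
    DP e (fun y => (if x = y then 1 else 0) + g y) (MvPolynomial.pderiv (x, j) f) := by
  classical
  intro m hm y
  rw [mem_support_iff, coeff_pderiv] at hm
  have h1 : m + Finsupp.single (x, j) 1 ∈ f.support := by
    rw [mem_support_iff]
    intro h
    apply hm
    rw [h]
    simp
  have h2 := hf _ h1 y
  simp only [Finsupp.add_apply, Finset.sum_add_distrib] at h2
  rw [single_deg] at h2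
  rw [← add_assoc]
  exact h2

theorem DP.mulX [DecidableEq A] {f : PX K A v} (x : A) (i : Fin v)
    (hf : DP e (fun y => (if x = y then 1 else 0) + g y) f) : DP e g (X (x, i) * f) := by
  classical
  intro m hm y
  rw [mul_comm, mem_support_iff, coeff_mul_X'] at hm
  by_cases h : (x, i) ∈ m.support
  · rw [if_pos h] at hm
    have h1 := hf _ (mem_support_iff.mpr hm) y
    have h2 : m = (m - Finsupp.single (x, i) 1) + Finsupp.single (x, i) 1 := by
      rw [tsub_add_cancel_of_le]
      rw [Finsupp.single_le_iff]
      exact Nat.one_le_iff_ne_zero.mpr (Finsupp.mem_support_iff.mp h)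
    rw [h2]
    simp only [Finsupp.add_apply, Finset.sum_add_distrib]
    rw [single_deg, add_assoc]
    exact h1
  · rw [if_neg h] at hm
    exact absurd rfl hm

theorem Eij_apply [Fintype A] (i j : Fin v) (f : PX K A v) :
    Eij i j f = ∑ x : A, X (x, i) * pderiv (x, j) f := by
  rw [Eij, LinearMap.sum_apply]
  rfl

theorem DP.Eij [Fintype A] {f : PX K A v} (hf : DP e g f) (i j : Fin v) :
    DP e g (Eij i j f) := by
  classical
  rw [Eij_apply]
  exact DP.sum _ _ fun x _ => DP.mulX x i (hf.pderiv x j)

/-- The number of the members of the tuple `t` which are equal to `x`. -/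
def cnt [DecidableEq A] {k : ℕ} (t : Fin k → A) (x : A) : ℕ :=
  (Finset.univ.filter fun i => t i = x).card

theorem cnt_succAbove [DecidableEq A] {k : ℕ} (t : Fin (k + 1) → A) (i : Fin (k + 1)) (x : A) :
    cnt t x = (if t i = x then 1 else 0) + cnt (fun l => t (i.succAbove l)) x := by
  unfold cnt
  rw [Finset.card_filter, Finset.card_filter, Fin.sum_univ_succAbove _ i]

theorem cnt_cons [DecidableEq A] {k : ℕ} (t : Fin k → A) (y x : A) :
    cnt (Fin.cons y t : Fin (k + 1) → A) x = (if y = x then 1 else 0) + cnt t x := by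
  unfold cnt
  rw [Finset.card_filter, Finset.card_filter, Fin.sum_univ_succ]
  simp only [Fin.cons_zero, Fin.cons_succ]

theorem cnt_zero [DecidableEq A] (t : Fin 0 → A) (x : A) : cnt t x = 0 := by
  unfold cnt
  simp

/-- The degrees of super polynomials. -/
def DS [DecidableEq A] (e sh : A → ℕ) {k : ℕ} (c : SA K A v k) : Prop :=
  ∀ t : Fin k → A, DP e (fun x => cnt t x + sh x) (c (sgl K t))

theorem dd_single [Fintype A] [DecidableEq A] (j : Fin v) (x : A) (f : PX K A v) :
    dd j (Pi.single x 1) f = pderiv (x, j) f := by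
  rw [dd, LinearMap.sum_apply, LinearMap.sum_apply]
  rw [Finset.sum_eq_single x]
  · simp
  · intro y _ hy
    simp [Pi.single_eq_of_ne hy]
  · intro h
    exact absurd (Finset.mem_univ _) h

theorem Dop_sgl [Fintype A] [DecidableEq A] {k : ℕ} (j : Fin v) (c : SA K A v k)
    (t : Fin (k + 1) → A) :
    Dop j c (sgl K t) =
      ∑ i : Fin (k + 1), (-1 : ℤ) ^ (i : ℕ) •
        pderiv (t i, j) (c (sgl K fun l => t (i.succAbove l))) := by
  rw [Dop, AlternatingMap.alternatizeUncurryFin_apply]
  refine Finset.sum_congr rfl fun i _ => ?_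
  congr 1
  exact dd_single j (t i) _

theorem sum_apply' {k : ℕ} (s : Finset A) (F : A → SA K A v k) (ξ : Fin k → A → K) :
    (∑ x ∈ s, F x) ξ = ∑ x ∈ s, F x ξ := by
  classical
  induction s using Finset.induction_on with
  | empty => rfl
  | insert a s ha ih => rw [Finset.sum_insert ha, Finset.sum_insert ha, ← ih]; rfl

theorem Est_sgl [Fintype A] [DecidableEq A] {k : ℕ} (i : Fin v) (c : SA K A v (k + 1))
    (t : Fin k → A) :
    Est i c (sgl K t) = ∑ x : A, X (x, i) * c (sgl K (Fin.cons x t : Fin (k + 1) → A)) := by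
  rw [Est, sum_apply']
  refine Finset.sum_congr rfl fun x _ => ?_
  have h1 : sgl K (Fin.cons x t : Fin (k + 1) → A) =
      Matrix.vecCons (Pi.single x 1) (sgl K t) := by
    funext l
    refine Fin.cases ?_ (fun l => ?_) l
    · rfl
    · rfl
  rw [h1]
  rfl

theorem DS.Dop [Fintype A] [DecidableEq A] {sh : A → ℕ} {k : ℕ} {c : SA K A v k}
    (hc : DS e sh c) (j : Fin v) : DS e sh (Dop j c) := by
  intro t
  rw [Dop_sgl]
  refine DP.sum _ _ fun i _ => DP.zsmul ?_ _
  have h1 := (hc (fun l => t (i.succAbove l))).pderiv (t i) j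
  have h2 : (fun x => cnt t x + sh x) = fun y => (if t i = y then 1 else 0) +
      (cnt (fun l => t (i.succAbove l)) y + sh y) := by
    funext y
    rw [cnt_succAbove t i, add_assoc]
  rw [h2]
  exact h1

theorem DS.Est [Fintype A] [DecidableEq A] {sh : A → ℕ} {k : ℕ} {c : SA K A v (k + 1)}
    (hc : DS e sh c) (i : Fin v) : DS e sh (Est i c) := by
  intro t
  rw [Est_sgl]
  refine DP.sum _ _ fun x _ => DP.mulX x i ?_
  have h1 := hc (Fin.cons x t)
  have h2 : (fun y => cnt (Fin.cons x t : Fin (k + 1) → A) y + sh y) =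
      fun y => (if x = y then 1 else 0) + (cnt t y + sh y) := by
    funext y
    rw [cnt_cons, add_assoc]
  rw [← h2]
  exact h1

theorem DS.yL [Fintype A] [DecidableEq A] {sh : A → ℕ} (L : List (Fin v)) {f : PX K A v}
    (hf : DP e sh f) : DS e sh (yL L f) := by
  induction L with
  | nil =>
    intro t
    have h1 : (fun x => cnt t x + sh x) = sh := by
      funext x
      have h2 : cnt t x = 0 := cnt_zero t x
      rw [h2, zero_add]
    rw [h1]
    exact hf
  | cons j L ih => exact ih.Dop j

theorem DP.capL [Fintype A] [DecidableEq A] {sh : A → ℕ} (L : List (Fin v))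
    (c : SA K A v L.length) (hc : DS e sh c) : DP e sh (capL L c) := by
  induction L with
  | nil =>
    have h0 := hc Fin.elim0
    have h1 : (fun x => cnt (Fin.elim0 : Fin ([] : List (Fin v)).length → A) x + sh x) = sh := by
      funext x
      have h2 : cnt (Fin.elim0 : Fin ([] : List (Fin v)).length → A) x = 0 := cnt_zero _ x
      rw [h2, zero_add]
    rw [h1] at h0
    have h3 : (sgl K (Fin.elim0 : Fin ([] : List (Fin v)).length → A)) = Fin.elim0 := by
      funext i
      exact Fin.elim0 i
    rw [h3] at h0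
    exact h0
  | cons j L ih => exact ih _ (hc.Est j)

end DEG

open DEG in
/-- **DEG** -/
theorem DEG_thm : Stmt_DEG := by
  intro K _ A _ _ v sh e
  refine ⟨fun i j f hf => DP.Eij (e := e) (g := sh) hf i j, fun L f hf t m hm x => ?_,
    fun L c hc => ?_⟩
  · have h1 := DS.yL (e := e) (sh := sh) L hf t m hm x
    rw [add_assoc]
    exact h1
  · refine DP.capL (e := e) (sh := sh) L c fun t m hm x => ?_
    have h1 := hc t m hm x
    rw [add_assoc] at h1
    exact h1

end Pool.Agent.VSY
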