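import Pool.Agent.VSY.Stmts

/-!
# Veronese syzygies: the duality argument
-/

set_option autoImplicit false

namespace Pool.Agent.VSY.DUAL

open MvPolynomial

section mon

variable {R : Type} [CommRing R] {A B : Type} {n : ℕ}

/-- The exponents `b` at the point `x`. -/
noncomputable def ex (x : A) (b : Fin n → ℕ) : A × Fin n →₀ ℕ :=
  ∑ j, Finsupp.single (x, j) (b j)

theorem ex_apply [DecidableEq A] (x y : A) (b : Fin n → ℕ) (j : Fin n) :
    ex x b (y, j) = if y = x then b j else 0 := by
  classical
  unfold ex
  rw [Finsupp.finsetSum_apply]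
  simp only [Finsupp.single_apply, Prod.mk.injEq]
  split_ifs with h
  · rw [Finset.sum_eq_single j]
    · simp [h]
    · intro i _ hi
      rw [if_neg]
      exact fun h' => hi h'.2
    · intro h'
      exact absurd (Finset.mem_univ j) h'
  · apply Finset.sum_eq_zero
    intro i _
    rw [if_neg]
    exact fun h' => h h'.1.symm

theorem ex_add (x : A) (b c : Fin n → ℕ) : ex x (b + c) = ex x b + ex x c := by
  unfold ex
  rw [← Finset.sum_add_distrib]
  refine Finset.sum_congr rfl fun j _ => ?_
  rw [Pi.add_apply, Finsupp.single_add]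

theorem ex_inj {x : A} {b c : Fin n → ℕ} (h : ex x b = ex x c) : b = c := by
  classical
  funext j
  have h1 := DFunLike.congr_fun h (x, j)
  rwa [ex_apply, ex_apply, if_pos rfl, if_pos rfl] at h1

theorem ex_map (φ : A → B) (x : A) (b : Fin n → ℕ) :
    (ex x b).mapDomain (Prod.map φ id) = ex (φ x) b := by
  unfold ex
  rw [← Finsupp.mapDomain.addMonoidHom_apply, map_sum]
  refine Finset.sum_congr rfl fun j _ => ?_
  rw [Finsupp.mapDomain.addMonoidHom_apply, Finsupp.mapDomain_single]
  rfl

/-- The monomial `b` at the point `x`. -/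
noncomputable def mon (x : A) (b : Fin n → ℕ) : MvPolynomial (A × Fin n) R := monomial (ex x b) 1

theorem mon_add (x : A) (b c : Fin n → ℕ) :
    (mon x (b + c) : MvPolynomial (A × Fin n) R) = mon x b * mon x c := by
  unfold mon
  rw [ex_add, monomial_mul, one_mul]

theorem rename_mon (φ : A → B) (x : A) (b : Fin n → ℕ) :
    rename (Prod.map φ id) (mon x b : MvPolynomial (A × Fin n) R) = mon (φ x) b := by
  unfold mon
  rw [rename_monomial, ex_map]

end mon

variable {K : Type} [Field K]

theorem ren_mon {A B : Type} {n : ℕ} (φ : A → B) (x : A) (b : Fin n → ℕ) :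
    ren φ (mon x b : PX K A n) = mon (φ x) b := rename_mon φ x b

/-- Polynomials in the coordinates of the points of `X` whose coefficients are polynomials in the
coordinates of the points of `A`. -/
abbrev BX (K : Type) [Field K] (X A : Type) (n : ℕ) : Type := MvPolynomial (X × Fin n) (PX K A n)

/-- The value of the monomial `b` at a point. -/
noncomputable def ent {X A : Type} {n : ℕ} (b : Fin n → ℕ) : X ⊕ A → BX K X A n
  | Sum.inl x => mon x b
  | Sum.inr a => C (mon a b)

section dt

variable {X X' A A' I : Type} [Fintype I] [DecidableEq I] {n : ℕ}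

/-- The determinant of the values of the monomials `e y` at the points `row x`. -/
noncomputable def dt (e : I → Fin n → ℕ) (row : I → X ⊕ A) : BX K X A n :=
  Matrix.det (Matrix.of fun x y => ent (e y) (row x))

theorem dt_rename (e : I → Fin n → ℕ) (row : I → X ⊕ A) (φ : X → X') :
    rename (Prod.map φ id) (dt e row : BX K X A n) = dt e (Sum.map φ id ∘ row) := by
  unfold dt
  rw [AlgHom.map_det]
  congr 1
  ext1 x y
  rw [AlgHom.mapMatrix_apply, Matrix.map_apply, Matrix.of_apply, Matrix.of_apply,
    Function.comp_apply]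
  cases row x with
  | inl a => exact rename_mon φ a (e y)
  | inr a =>
    show rename (Prod.map φ id) (C (mon a (e y))) = C (mon a (e y))
    rw [rename_C]

theorem dt_map (e : I → Fin n → ℕ) (row : I → X ⊕ A) (φ : A → A') :
    map (ren φ : PX K A n →ₐ[K] PX K A' n).toRingHom (dt e row : BX K X A n) =
      dt e (Sum.map id φ ∘ row) := by
  unfold dt
  rw [RingHom.map_det]
  congr 1
  ext1 x y
  rw [RingHom.mapMatrix_apply, Matrix.map_apply, Matrix.of_apply, Matrix.of_apply,
    Function.comp_apply]
  cases row x with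
  | inl a =>
    show map (ren φ : PX K A n →ₐ[K] PX K A' n).toRingHom (mon a (e y)) = mon a (e y)
    unfold mon
    rw [map_monomial, map_one]
  | inr a =>
    show map (ren φ : PX K A n →ₐ[K] PX K A' n).toRingHom (C (mon a (e y))) = C (mon (φ a) (e y))
    rw [map_C]
    congr 1
    exact ren_mon φ a (e y)

theorem dt_perm (e : I → Fin n → ℕ) (row : I → X ⊕ A) (σ : Equiv.Perm I) :
    (dt e (row ∘ σ) : BX K X A n) = ((Equiv.Perm.sign σ : ℤˣ) : ℤ) • dt e row := by
  unfold dt
  have h := Matrix.det_permute σ (Matrix.of fun x y => (ent (e y) (row x) : BX K X A n))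
  rw [zsmul_eq_mul, ← h]
  rfl

end dt

/-- The exponent vectors with entries less than `d` and sum `t`. -/
def Fs (n d t : ℕ) : Finset (Fin n → ℕ) :=
  (Fintype.piFinset fun _ => Finset.range d).filter fun c => ∑ j, c j = t

theorem mem_Fs {n d t : ℕ} {c : Fin n → ℕ} : c ∈ Fs n d t ↔ (∀ j, c j < d) ∧ ∑ j, c j = t := by
  unfold Fs
  rw [Finset.mem_filter, Fintype.mem_piFinset]
  simp only [Finset.mem_range]

/-- The complementary exponents. -/
def cpl {n : ℕ} (d : ℕ) (c : Fin n → ℕ) : Fin n → ℕ := fun j => d - 1 - c j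

section RR

variable {X X' A A' : Type} {n : ℕ}

/-- The sum of `c(x) c'(w)` over the complementary exponents. -/
noncomputable def RR (d t : ℕ) (x : X) (w : A) : BX K X A n :=
  ∑ c ∈ Fs n d t, mon x c * C (mon w (cpl d c))

theorem RR_rename (d t : ℕ) (x : X) (w : A) (φ : X → X') :
    rename (Prod.map φ id) (RR d t x w : BX K X A n) = RR d t (φ x) w := by
  unfold RR
  rw [map_sum]
  refine Finset.sum_congr rfl fun c _ => ?_
  rw [map_mul, rename_mon, rename_C]

theorem RR_map (d t : ℕ) (x : X) (w : A) (φ : A → A') :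
    map (ren φ : PX K A n →ₐ[K] PX K A' n).toRingHom (RR d t x w : BX K X A n) =
      RR d t x (φ w) := by
  unfold RR
  rw [map_sum]
  refine Finset.sum_congr rfl fun c _ => ?_
  rw [map_mul, map_C]
  congr 1
  · unfold mon
    rw [map_monomial, map_one]
  · congr 1
    exact ren_mon φ w _

end RR

section ideals

variable {X A : Type} {n : ℕ}

/-- Every monomial is divisible by the `d`-th power of a coordinate of `w`. -/
def Iw (K : Type) [Field K] (n d : ℕ) (w : A) : Ideal (PX K A n) where
  carrier := {f | ∀ m ∈ f.support, ∃ l : Fin n, d ≤ m (w, l)}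
  add_mem' := by
    classical
    intro f g hf hg m hm
    rcases Finset.mem_union.1 (support_add hm) with h | h
    · exact hf m h
    · exact hg m h
  zero_mem' := by
    intro m hm
    simp at hm
  smul_mem' := by
    classical
    intro g f hf m hm
    have h1 := support_mul g f hm
    obtain ⟨a, _, b, hb, rfl⟩ := Finset.mem_add.1 h1
    obtain ⟨l, hl⟩ := hf b hb
    refine ⟨l, ?_⟩
    rw [Finsupp.add_apply]
    omega

theorem mem_Iw {d : ℕ} {w : A} {f : PX K A n} :
    f ∈ Iw K n d w ↔ ∀ m ∈ f.support, ∃ l : Fin n, d ≤ m (w, l) := Iff.rfl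

theorem mon_mem_Iw {d : ℕ} {w : A} {b : Fin n → ℕ} {l : Fin n} (h : d ≤ b l) :
    (mon w b : PX K A n) ∈ Iw K n d w := by
  classical
  intro m hm
  unfold mon at hm
  have h1 := support_monomial_subset hm
  rw [Finset.mem_singleton] at h1
  refine ⟨l, ?_⟩
  rw [h1, ex_apply, if_pos rfl]
  exact h

/-- The coefficients of the monomials with small exponents at `x` belong to `Iw`. -/
def JJ (K : Type) [Field K] (n d : ℕ) (x : X) (w : A) : Ideal (BX K X A n) where
  carrier := {F | ∀ m : X × Fin n →₀ ℕ, (∀ l, m (x, l) < d) → coeff m F ∈ Iw K n d w}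
  add_mem' := by
    intro F G hF hG m hm
    rw [coeff_add]
    exact Ideal.add_mem _ (hF m hm) (hG m hm)
  zero_mem' := by
    intro m _
    rw [coeff_zero]
    exact Ideal.zero_mem _
  smul_mem' := by
    classical
    intro G F hF m hm
    rw [smul_eq_mul, coeff_mul]
    refine Ideal.sum_mem _ fun q hq => Ideal.mul_mem_left _ _ (hF _ fun l => ?_)
    have h1 := hm l
    rw [← Finset.HasAntidiagonal.mem_antidiagonal.1 hq, Finsupp.add_apply] at h1
    omega

theorem mem_JJ {d : ℕ} {x : X} {w : A} {F : BX K X A n} : F ∈ JJ K n d x w ↔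
    ∀ m : X × Fin n →₀ ℕ, (∀ l, m (x, l) < d) → coeff m F ∈ Iw K n d w := Iff.rfl

/-- The symmetry of the kernel. -/
theorem kernel {d s : ℕ} (x : X) (w : A) {b : Fin n → ℕ} (hb : ∑ j, b j = d) :
    (mon x b * RR d s x w - C (mon w b) * RR d (s + d) x w : BX K X A n) ∈ JJ K n d x w := by
  classical
  intro m hm
  have h1 : coeff m (mon x b * RR d s x w : BX K X A n) =
      ∑ c ∈ Fs n d s, if ex x (b + c) = m then mon w (cpl d c) else 0 := by
    unfold RR
    rw [Finset.mul_sum, coeff_sum]
    refine Finset.sum_congr rfl fun c _ => ?_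
    rw [← mul_assoc, ← mon_add, mul_comm, coeff_C_mul]
    unfold mon
    rw [coeff_monomial]
    split_ifs
    · rw [mul_one]
    · rw [mul_zero]
  have h2 : coeff m (C (mon w b) * RR d (s + d) x w : BX K X A n) =
      ∑ c ∈ Fs n d (s + d), if ex x c = m then mon w (b + cpl d c) else 0 := by
    unfold RR
    rw [Finset.mul_sum, coeff_sum]
    refine Finset.sum_congr rfl fun c _ => ?_
    rw [mul_left_comm, ← C_mul, ← mon_add, mul_comm, coeff_C_mul]
    unfold mon
    rw [coeff_monomial]
    split_ifs
    · rw [mul_one]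
    · rw [mul_zero]
  rw [coeff_sub, h1, h2]
  by_cases h3 : ∃ ν ∈ Fs n d (s + d), ex x ν = m
  · obtain ⟨ν, hν, rfl⟩ := h3
    have hν' := mem_Fs.1 hν
    rw [Finset.sum_eq_single_of_mem ν hν (by
      intro c _ hc
      rw [if_neg]
      exact fun h => hc (ex_inj h)), if_pos rfl]
    by_cases h4 : ∀ l, b l ≤ ν l
    · have h5 : b + (ν - b) = ν := by
        funext l
        have := h4 l
        simp only [Pi.add_apply, Pi.sub_apply]
        omega
      have h6 : ν - b ∈ Fs n d s := by
        rw [mem_Fs]
        refine ⟨fun j => ?_, ?_⟩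
        · have := hν'.1 j
          simp only [Pi.sub_apply]
          omega
        · have h7 : ∑ j, (b + (ν - b)) j = s + d := by rw [h5]; exact hν'.2
          simp only [Pi.add_apply] at h7
          rw [Finset.sum_add_distrib, hb] at h7
          omega
      rw [Finset.sum_eq_single_of_mem (ν - b) h6 (by
        intro c _ hc
        rw [if_neg]
        intro h
        apply hc
        have h8 := ex_inj h
        rw [← h8]
        funext l
        simp), if_pos (by rw [h5])]
      have h9 : cpl d (ν - b) = b + cpl d ν := by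
        funext l
        have := h4 l
        have := hν'.1 l
        simp only [cpl, Pi.add_apply, Pi.sub_apply]
        omega
      rw [h9, sub_self]
      exact Ideal.zero_mem _
    · push Not at h4
      obtain ⟨l, hl⟩ := h4
      rw [Finset.sum_eq_zero (by
        intro c _
        rw [if_neg]
        intro h
        have h8 := congrFun (ex_inj h) l
        simp only [Pi.add_apply] at h8
        omega), zero_sub]
      refine Ideal.neg_mem_iff _ |>.2 (mon_mem_Iw (l := l) ?_)
      have := hν'.1 l
      simp only [cpl, Pi.add_apply]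
      omega
  · push Not at h3
    rw [Finset.sum_eq_zero (by
      intro c hc
      rw [if_neg]
      intro h
      have hc' := mem_Fs.1 hc
      apply h3 (b + c) _ h
      rw [mem_Fs]
      refine ⟨fun j => ?_, ?_⟩
      · have := hm j
        rwa [← h, ex_apply, if_pos rfl] at this
      · simp only [Pi.add_apply]
        rw [Finset.sum_add_distrib, hb, hc'.2, add_comm]), Finset.sum_eq_zero (by
      intro c hc
      rw [if_neg]
      exact h3 c hc), sub_self]
    exact Ideal.zero_mem _

end ideals

section PS

variable {X X' A : Type} {n : ℕ}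

/-- A functional applied to the coefficients. -/
noncomputable def PS (ψ : PX K A n →ₗ[K] K) (F : BX K X A n) : PX K X n :=
  ∑ m ∈ F.support, monomial m (ψ (coeff m F))

theorem coeff_PS (ψ : PX K A n →ₗ[K] K) (F : BX K X A n) (m : X × Fin n →₀ ℕ) :
    coeff m (PS ψ F) = ψ (coeff m F) := by
  classical
  unfold PS
  rw [coeff_sum]
  simp only [coeff_monomial]
  rw [Finset.sum_ite_eq']
  split_ifs with h
  · rfl
  · rw [notMem_support_iff.1 h, map_zero]

theorem PS_add (ψ : PX K A n →ₗ[K] K) (F G : BX K X A n) :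
    PS ψ (F + G) = PS ψ F + PS ψ G := by
  ext m
  rw [coeff_add, coeff_PS, coeff_PS, coeff_PS, coeff_add, map_add]

theorem PS_zsmul (ψ : PX K A n →ₗ[K] K) (a : ℤ) (F : BX K X A n) :
    PS ψ (a • F) = a • PS ψ F := by
  ext m
  rw [coeff_smul, coeff_PS, coeff_PS, coeff_smul, map_zsmul]

theorem PS_monomial (ψ : PX K A n →ₗ[K] K) (u : X × Fin n →₀ ℕ) (a : PX K A n) :
    PS ψ (monomial u a) = monomial u (ψ a) := by
  classical
  ext m
  rw [coeff_PS, coeff_monomial, coeff_monomial]
  split_ifs
  · rfl
  · rw [map_zero]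

theorem PS_rename (ψ : PX K A n →ₗ[K] K) (φ : X → X') (F : BX K X A n) :
    ren φ (PS ψ F) = PS ψ (rename (Prod.map φ id) F) := by
  induction F using MvPolynomial.induction_on' with
  | monomial u a =>
    rw [PS_monomial, ren_monomial, rename_monomial, PS_monomial]
  | add p q hp hq => rw [PS_add, map_add, hp, hq, map_add, PS_add]

end PS

/-- Determinants in graded rings. -/
theorem det_graded {B I : Type} [CommRing B] [Fintype I] [DecidableEq I] (Q : ℕ → AddSubgroup B)
    (h1 : (1 : B) ∈ Q 0) (hm : ∀ i j, ∀ a ∈ Q i, ∀ b ∈ Q j, a * b ∈ Q (i + j))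
    (M : Matrix I I B) (δ : I → ℕ) (hM : ∀ x y, M x y ∈ Q (δ x)) : M.det ∈ Q (∑ x, δ x) := by
  rw [← Matrix.det_transpose, Matrix.det_apply]
  refine AddSubgroup.sum_mem _ fun σ _ => ?_
  rw [Units.smul_def]
  refine AddSubgroup.zsmul_mem _ ?_ _
  have h : ∀ S : Finset I, ∏ i ∈ S, M.transpose (σ i) i ∈ Q (∑ i ∈ S, δ i) := by
    intro S
    induction S using Finset.induction_on with
    | empty =>
      rw [Finset.prod_empty, Finset.sum_empty]
      exact h1
    | insert a S ha ih =>
      rw [Finset.prod_insert ha, Finset.sum_insert ha]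
      exact hm _ _ _ (hM _ _) _ ih
  exact h Finset.univ

section deg

variable {X A : Type} {n : ℕ}

/-- Degree `t` in the coordinates of the point `x : X`. -/
def DX (K : Type) [Field K] (A : Type) (n : ℕ) (x : X) (t : ℕ) : AddSubgroup (BX K X A n) where
  carrier := {F | ∀ m ∈ F.support, ∑ j, m (x, j) = t}
  add_mem' := by
    classical
    intro f g hf hg m hm
    rcases Finset.mem_union.1 (support_add hm) with h | h
    · exact hf m h
    · exact hg m h
  zero_mem' := by
    intro m hm
    simp at hm
  neg_mem' := by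
    intro f hf m hm
    rw [support_neg] at hm
    exact hf m hm

theorem mem_DX {x : X} {t : ℕ} {F : BX K X A n} :
    F ∈ DX K A n x t ↔ ∀ m ∈ F.support, ∑ j, m (x, j) = t := Iff.rfl

theorem DX_one (x : X) : (1 : BX K X A n) ∈ DX K A n x 0 := by
  classical
  intro m hm
  rw [← C_1] at hm
  have h1 := support_monomial_subset hm
  rw [Finset.mem_singleton] at h1
  rw [h1]
  simp

theorem DX_mul (x : X) (i j : ℕ) : ∀ a ∈ DX K A n x i, ∀ b ∈ DX K A n x j,
    a * b ∈ DX K A n x (i + j) := by
  classical
  intro f hf g hg m hm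
  have h1 := support_mul f g hm
  obtain ⟨a, ha, b, hb, rfl⟩ := Finset.mem_add.1 h1
  simp only [Finsupp.add_apply]
  rw [Finset.sum_add_distrib, hf a ha, hg b hb]

/-- Degree `t` of the coefficients in the coordinates of the point `a : A`. -/
def DA (K : Type) [Field K] (X : Type) (n : ℕ) (a : A) (t : ℕ) : AddSubgroup (BX K X A n) where
  carrier := {F | ∀ m, ∀ m' ∈ (coeff m F).support, ∑ j, m' (a, j) = t}
  add_mem' := by
    classical
    intro f g hf hg m m' hm
    rw [coeff_add] at hm
    rcases Finset.mem_union.1 (support_add hm) with h | h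
    · exact hf m m' h
    · exact hg m m' h
  zero_mem' := by
    intro m m' hm
    simp at hm
  neg_mem' := by
    intro f hf m m' hm
    rw [coeff_neg, support_neg] at hm
    exact hf m m' hm

theorem mem_DA {a : A} {t : ℕ} {F : BX K X A n} :
    F ∈ DA K X n a t ↔ ∀ m, ∀ m' ∈ (coeff m F).support, ∑ j, m' (a, j) = t := Iff.rfl

theorem DA_C {a : A} {t : ℕ} {f : PX K A n} (hf : ∀ m' ∈ f.support, ∑ j, m' (a, j) = t) :
    (C f : BX K X A n) ∈ DA K X n a t := by
  classical
  intro m m' hm
  rw [coeff_C] at hm
  split_ifs at hm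
  · exact hf m' hm
  · simp at hm

theorem DA_one (a : A) : (1 : BX K X A n) ∈ DA K X n a 0 := by
  classical
  rw [← C_1]
  refine DA_C fun m hm => ?_
  rw [← C_1] at hm
  have h1 := support_monomial_subset hm
  rw [Finset.mem_singleton] at h1
  rw [h1]
  simp

theorem DA_mul (a : A) (i j : ℕ) : ∀ F ∈ DA K X n a i, ∀ G ∈ DA K X n a j,
    F * G ∈ DA K X n a (i + j) := by
  classical
  intro f hf g hg m m' hm
  rw [coeff_mul] at hm
  have h0 := support_sum hm
  obtain ⟨q, _, h1⟩ := Finset.mem_biUnion.1 h0
  have h2 := support_mul _ _ h1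
  obtain ⟨b, hb, c, hc, rfl⟩ := Finset.mem_add.1 h2
  simp only [Finsupp.add_apply]
  rw [Finset.sum_add_distrib, hf _ b hb, hg _ c hc]

theorem mon_deg [DecidableEq A] {R : Type} [CommRing R] {x y : A} {b : Fin n → ℕ}
    {m : A × Fin n →₀ ℕ} (hm : m ∈ (mon y b : MvPolynomial (A × Fin n) R).support) :
    ∑ j, m (x, j) = if x = y then ∑ j, b j else 0 := by
  classical
  unfold mon at hm
  have h1 := support_monomial_subset hm
  rw [Finset.mem_singleton] at h1
  rw [h1]
  simp only [ex_apply]
  split_ifs
  · rfl
  · exact Finset.sum_const_zero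

theorem DX_mon [DecidableEq X] (x y : X) (b : Fin n → ℕ) :
    (mon y b : BX K X A n) ∈ DX K A n x (if x = y then ∑ j, b j else 0) :=
  fun _ hm => mon_deg hm

theorem DX_C (x : X) (f : PX K A n) : (C f : BX K X A n) ∈ DX K A n x 0 := by
  classical
  intro m hm
  have h1 := support_monomial_subset hm
  rw [Finset.mem_singleton] at h1
  rw [h1]
  simp

theorem DA_mon (a : A) (y : X) (b : Fin n → ℕ) : (mon y b : BX K X A n) ∈ DA K X n a 0 := by
  classical
  intro m m' hm
  unfold mon at hm
  rw [coeff_monomial] at hm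
  split_ifs at hm
  · rw [← C_1] at hm
    have h1 := support_monomial_subset hm
    rw [Finset.mem_singleton] at h1
    rw [h1]
    simp
  · simp at hm

theorem DX_ent [DecidableEq X] [DecidableEq A] {d : ℕ} (x : X) {b : Fin n → ℕ}
    (hb : ∑ j, b j = d) (z : X ⊕ A) :
    (ent b z : BX K X A n) ∈ DX K A n x (if z = Sum.inl x then d else 0) := by
  cases z with
  | inl y =>
    have h := DX_mon (K := K) (A := A) x y b
    rw [hb] at h
    by_cases h1 : x = y
    · rw [if_pos (by rw [h1])]
      rw [if_pos h1] at h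
      exact h
    · rw [if_neg (fun h2 => h1 (Sum.inl.inj h2).symm)]
      rw [if_neg h1] at h
      exact h
  | inr a =>
    rw [if_neg (by simp)]
    exact DX_C x _

theorem DA_ent [DecidableEq X] [DecidableEq A] {d : ℕ} (a : A) {b : Fin n → ℕ}
    (hb : ∑ j, b j = d) (z : X ⊕ A) :
    (ent b z : BX K X A n) ∈ DA K X n a (if z = Sum.inr a then d else 0) := by
  cases z with
  | inl y =>
    rw [if_neg (by simp)]
    exact DA_mon a y b
  | inr c =>
    refine DA_C fun m' hm' => ?_
    rw [mon_deg (x := a) hm', hb]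
    by_cases h1 : a = c
    · rw [if_pos h1, if_pos (by rw [h1])]
    · rw [if_neg h1, if_neg (fun h2 => h1 (Sum.inr.inj h2).symm)]

theorem DX_RR [DecidableEq X] (d t : ℕ) (x y : X) (w : A) :
    (RR d t y w : BX K X A n) ∈ DX K A n x (if x = y then t else 0) := by
  unfold RR
  refine AddSubgroup.sum_mem _ fun c hc => ?_
  have h1 := DX_mul (K := K) (A := A) x _ _ _ (DX_mon x y c) _ (DX_C x (mon w (cpl d c)))
  rw [(mem_Fs.1 hc).2, add_zero] at h1
  exact h1

theorem DA_RR [DecidableEq A] (d t : ℕ) (y : X) (a w : A) :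
    (RR d t y w : BX K X A n) ∈ DA K X n a (if a = w then n * (d - 1) - t else 0) := by
  unfold RR
  refine AddSubgroup.sum_mem _ fun c hc => ?_
  have h0 : (C (mon w (cpl d c)) : BX K X A n) ∈
      DA K X n a (if a = w then n * (d - 1) - t else 0) := by
    refine DA_C fun m' hm' => ?_
    rw [mon_deg (x := a) hm']
    have h2 := mem_Fs.1 hc
    have h3 : ∑ j, cpl d c j + ∑ j, c j = n * (d - 1) := by
      rw [← Finset.sum_add_distrib]
      have h4 : ∀ j : Fin n, cpl d c j + c j = d - 1 := by
        intro j
        have := h2.1 j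
        unfold cpl
        omega
      rw [Finset.sum_congr rfl fun j _ => h4 j, Finset.sum_const, Finset.card_univ,
        Fintype.card_fin, smul_eq_mul]
    rw [h2.2] at h3
    split_ifs
    · omega
    · rfl
  have h1 := DA_mul a _ _ _ (DA_mon (K := K) a y c) _ h0
  rw [zero_add] at h1
  exact h1

theorem DX_dt [DecidableEq X] [DecidableEq A] {I : Type} [Fintype I] [DecidableEq I] {d : ℕ}
    (x : X) {e : I → Fin n → ℕ} (he : ∀ i, ∑ j, e i j = d) (row : I → X ⊕ A) :
    (dt e row : BX K X A n) ∈ DX K A n x (∑ i, if row i = Sum.inl x then d else 0) :=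
  det_graded _ (DX_one x) (DX_mul x) _ _ fun _ y => DX_ent x (he y) _

theorem DA_dt [DecidableEq X] [DecidableEq A] {I : Type} [Fintype I] [DecidableEq I] {d : ℕ}
    (a : A) {e : I → Fin n → ℕ} (he : ∀ i, ∑ j, e i j = d) (row : I → X ⊕ A) :
    (dt e row : BX K X A n) ∈ DA K X n a (∑ i, if row i = Sum.inr a then d else 0) :=
  det_graded _ (DA_one a) (DA_mul a) _ _ fun _ y => DA_ent a (he y) _

end deg

theorem InI_iff {U : Type} {n d : ℕ} {f : PX K (Option U) n} :
    InI d n f ↔ f ∈ Iw K n d (none : Option U) := by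
  constructor
  · intro h m hm
    obtain ⟨l, _, hl⟩ := h m hm
    exact ⟨l, hl⟩
  · intro h m hm
    obtain ⟨l, hl⟩ := h m hm
    exact ⟨l, l.2, hl⟩

section tot

variable {I : Type} [Fintype I] {n : ℕ}

/-- The exponents `b i` at the points `some i` and `c` at the point `none`. -/
noncomputable def tot (b : I → Fin n → ℕ) (c : Fin n → ℕ) : Option I × Fin n →₀ ℕ :=
  ∑ i, ex (some i) (b i) + ex none c

theorem tot_some (b : I → Fin n → ℕ) (c : Fin n → ℕ) (i : I) (l : Fin n) :
    tot b c (some i, l) = b i l := by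
  classical
  unfold tot
  rw [Finsupp.add_apply, Finsupp.finsetSum_apply, ex_apply, if_neg (by simp), add_zero]
  rw [Finset.sum_eq_single i]
  · rw [ex_apply, if_pos rfl]
  · intro j _ hj
    rw [ex_apply, if_neg]
    intro h
    exact hj (Option.some.inj h).symm
  · intro h
    exact absurd (Finset.mem_univ i) h

theorem tot_none (b : I → Fin n → ℕ) (c : Fin n → ℕ) (l : Fin n) :
    tot b c (none, l) = c l := by
  classical
  unfold tot
  rw [Finsupp.add_apply, Finsupp.finsetSum_apply, ex_apply, if_pos rfl, Finset.sum_eq_zero,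
    zero_add]
  intro i _
  rw [ex_apply, if_neg (by simp)]

theorem tot_inj {b b' : I → Fin n → ℕ} {c c' : Fin n → ℕ} (h : tot b c = tot b' c') :
    b = b' ∧ c = c' := by
  constructor
  · funext i l
    rw [← tot_some b c i l, h, tot_some]
  · funext l
    rw [← tot_none b c l, h, tot_none]

theorem tot_self (m : Option I × Fin n →₀ ℕ) :
    tot (fun i l => m (some i, l)) (fun l => m (none, l)) = m := by
  ext ⟨x, l⟩
  cases x with
  | none => rw [tot_none]
  | some i => rw [tot_some]

omit [Fintype I] in
theorem prod_mon {A R : Type} [CommRing R] (S : Finset I) (x : I → A) (b : I → Fin n → ℕ) :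
    ∏ i ∈ S, (mon (x i) (b i) : MvPolynomial (A × Fin n) R) =
      monomial (∑ i ∈ S, ex (x i) (b i)) 1 := by
  classical
  induction S using Finset.induction_on with
  | empty =>
    rw [Finset.prod_empty, Finset.sum_empty]
    rfl
  | insert a S ha ih =>
    rw [Finset.prod_insert ha, Finset.sum_insert ha, ih]
    unfold mon
    rw [monomial_mul, one_mul]

theorem monomial_tot {R : Type} [CommRing R] (b : I → Fin n → ℕ) (c : Fin n → ℕ) :
    (monomial (tot b c) 1 : MvPolynomial (Option I × Fin n) R) =
      (∏ i, mon (some i) (b i)) * mon none c := by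
  rw [prod_mon]
  unfold mon tot
  rw [monomial_mul, one_mul]

end tot

section key

variable {U : Type} [Fintype U] [DecidableEq U] {n P : ℕ}

/-- The points of the rows of the determinant. -/
def row0 (P : ℕ) (U : Type) : Fin P ⊕ U → Option (Fin P) ⊕ Option U
  | Sum.inl j => Sum.inl (some j)
  | Sum.inr u => Sum.inr (some u)

/-- The determinant times the kernel. -/
noncomputable def F0 (K : Type) [Field K] (d s : ℕ) (e : Fin P ⊕ U → Fin n → ℕ) :
    BX K (Option (Fin P)) (Option U) n :=
  dt e (row0 P U) * RR d s none none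

/-- The rows with one new point. -/
def row3 (U : Type) (j0 : Fin P) : Fin P ⊕ U → Option (Fin P) ⊕ Option (Option U)
  | Sum.inl j => if j = j0 then Sum.inr (some none) else Sum.inl (some j)
  | Sum.inr u => Sum.inr (some (some u))

omit [Fintype U] [DecidableEq U] in
theorem row3_eq (j0 : Fin P) : row3 U j0 (Sum.inl j0) = Sum.inr (some none) := if_pos rfl

omit [Fintype U] [DecidableEq U] in
theorem row3_ne {j0 j : Fin P} (h : j ≠ j0) : row3 U j0 (Sum.inl j) = Sum.inl (some j) :=
  if_neg h

theorem F0_deg_some {d s : ℕ} {e : Fin P ⊕ U → Fin n → ℕ} (he : ∀ i, ∑ j, e i j = d)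
    (u : Fin P) : F0 K d s e ∈ DX K (Option U) n (some u) d := by
  have h := DX_mul (K := K) (A := Option U) (n := n) (some u) _ _ _
    (DX_dt (some u) he (row0 P U)) _ (DX_RR d s (some u) none none)
  have h1 : (∑ i, if row0 P U i = Sum.inl (some u) then d else 0) +
      (if (some u : Option (Fin P)) = none then s else 0) = d := by
    rw [Fintype.sum_sum_type]
    simp [row0]
  rw [h1] at h
  exact h

theorem F0_deg_none {d s : ℕ} {e : Fin P ⊕ U → Fin n → ℕ} (he : ∀ i, ∑ j, e i j = d) :
    F0 K d s e ∈ DX K (Option U) n none s := by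
  have h := DX_mul (K := K) (A := Option U) (n := n) (none : Option (Fin P)) _ _ _
    (DX_dt none he (row0 P U)) _ (DX_RR d s none none none)
  have h1 : (∑ i, if row0 P U i = Sum.inl (none : Option (Fin P)) then d else 0) +
      (if (none : Option (Fin P)) = none then s else 0) = s := by
    rw [Fintype.sum_sum_type]
    simp [row0]
  rw [h1] at h
  exact h

theorem E_InC {d s : ℕ} {e : Fin P ⊕ U → Fin n → ℕ} (he : ∀ i, ∑ j, e i j = d)
    (ψ : PX K (Option U) n →ₗ[K] K) : InC (Fin P) n d 0 s (PS ψ (F0 K d s e)) := by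
  refine ⟨fun π => ?_, fun m hm => ?_⟩
  · rw [PS_rename, ← PS_zsmul]
    congr 1
    unfold F0
    rw [map_mul, dt_rename, RR_rename]
    have h1 : Sum.map (Option.map π) id ∘ row0 P U =
        row0 P U ∘ (Equiv.sumCongr π (1 : Equiv.Perm U)) := by
      funext x
      cases x <;> rfl
    have h2 : Equiv.Perm.sign (Equiv.sumCongr π (1 : Equiv.Perm U)) = Equiv.Perm.sign π := by
      have := Equiv.Perm.sign_sumCongr π (1 : Equiv.Perm U)
      rw [map_one, mul_one] at this
      exact this
    rw [h1, dt_perm, h2, smul_mul_assoc]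
    rfl
  · have h1 : m ∈ (F0 K d s e).support := by
      rw [mem_support_iff] at hm ⊢
      intro h
      apply hm
      rw [coeff_PS, h, map_zero]
    exact ⟨fun u => F0_deg_some he u m h1, F0_deg_none he m h1⟩

theorem G_InC {d r s : ℕ} (hd : 1 ≤ d) (hrs : r + s = n * (d - 1))
    {e : Fin P ⊕ U → Fin n → ℕ} (he : ∀ i, ∑ j, e i j = d) (j0 : Fin P)
    (m : Option (Fin P) × Fin n →₀ ℕ) :
    InC (Option U) n d d r (coeff m (dt e (row3 U j0) * RR d (s + d) none none :
      BX K (Option (Fin P)) (Option (Option U)) n)) := by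
  by_cases hr : r < d
  · have h1 : (RR d (s + d) none none : BX K (Option (Fin P)) (Option (Option U)) n) = 0 := by
      unfold RR
      apply Finset.sum_eq_zero
      intro c hc
      exfalso
      have h2 := mem_Fs.1 hc
      have h3 : ∑ j, c j ≤ ∑ _j : Fin n, (d - 1) := Finset.sum_le_sum fun j _ => by
        have := h2.1 j
        omega
      rw [Finset.sum_const, Finset.card_univ, Fintype.card_fin, smul_eq_mul, h2.2] at h3
      omega
    rw [h1, mul_zero, coeff_zero]
    exact InC.zero
  refine ⟨fun π => ?_, fun m' hm' => ⟨fun u => ?_, ?_⟩⟩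
  · have h0 : ∀ F : BX K (Option (Fin P)) (Option (Option U)) n, ren (Option.map π) (coeff m F) =
        coeff m (map (ren (Option.map π) : PX K (Option (Option U)) n →ₐ[K] _).toRingHom F) := by
      intro F
      rw [coeff_map]
      rfl
    rw [h0, map_mul, dt_map, RR_map, ← coeff_smul]
    congr 1
    let κ : Option U ↪ Fin P ⊕ U :=
      ⟨fun o => o.elim (Sum.inl j0) Sum.inr, by
        intro a b h
        cases a with
        | none =>
          cases b with
          | none => rfl
          | some b => simp at h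
        | some a =>
          cases b with
          | none => simp at h
          | some b =>
            simp only [Option.elim_some, Sum.inr.injEq] at h
            rw [h]⟩
    have h3 : ∀ o, row3 U j0 (κ o) = Sum.inr (some o) := by
      intro o
      cases o with
      | none =>
        exact row3_eq j0
      | some u => rfl
    have h1 : Sum.map id (Option.map π) ∘ row3 U j0 = row3 U j0 ∘ (π.viaFintypeEmbedding κ) := by
      funext x
      rw [Function.comp_apply, Function.comp_apply]
      by_cases hx : x ∈ Set.range κ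
      · obtain ⟨o, rfl⟩ := hx
        rw [Equiv.Perm.viaFintypeEmbedding_apply_image, h3, h3]
        rfl
      · rw [Equiv.Perm.viaFintypeEmbedding_apply_notMem_range _ _ hx]
        cases x with
        | inl j =>
          have h4 : j ≠ j0 := by
            rintro rfl
            exact hx ⟨none, rfl⟩
          rw [row3_ne h4]
          rfl
        | inr u => exact absurd ⟨some u, rfl⟩ hx
    rw [h1, dt_perm, Equiv.Perm.viaFintypeEmbedding_sign, smul_mul_assoc]
    rfl
  · have h := DA_mul (K := K) (X := Option (Fin P)) (n := n) (some u : Option (Option U)) _ _ _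
      (DA_dt (some u) he (row3 U j0)) _ (DA_RR d (s + d) none (some u) none)
    have h1 : (∑ i, if row3 U j0 i = Sum.inr (some u) then d else 0) +
        (if (some u : Option (Option U)) = none then n * (d - 1) - (s + d) else 0) = d := by
      rw [Fintype.sum_sum_type, if_neg (by simp), add_zero]
      cases u with
      | none =>
        rw [Finset.sum_eq_single j0]
        · simp [row3]
        · intro j _ hj
          simp [row3, hj]
        · intro h
          exact absurd (Finset.mem_univ j0) h
      | some u =>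
        rw [Finset.sum_eq_zero]
        · simp [row3]
        · intro j _
          unfold row3
          by_cases hj : j = j0
          · simp [hj]
          · simp [hj]
    rw [h1] at h
    exact h m m' hm'
  · have h := DA_mul (K := K) (X := Option (Fin P)) (n := n) (none : Option (Option U)) _ _ _
      (DA_dt none he (row3 U j0)) _ (DA_RR d (s + d) none none none)
    have h1 : (∑ i, if row3 U j0 i = Sum.inr (none : Option (Option U)) then d else 0) +
        (if (none : Option (Option U)) = none then n * (d - 1) - (s + d) else 0) = r - d := by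
      rw [Fintype.sum_sum_type, if_pos rfl, Finset.sum_eq_zero, Finset.sum_eq_zero]
      · omega
      · intro u _
        simp [row3]
      · intro j _
        unfold row3
        by_cases hj : j = j0
        · simp [hj]
        · simp [hj]
    rw [h1] at h
    have h2 := h m m' hm'
    omega

/-- Replacement of one row. -/
theorem dt_update {X A I : Type} [Fintype I] [DecidableEq I] (e : I → Fin n → ℕ)
    (row : I → X ⊕ A) (i0 : I) (z : X ⊕ A) :
    (dt e (Function.update row i0 z) : BX K X A n) =
      Matrix.det (Matrix.updateRow (Matrix.of fun x y => ent (e y) (row x)) i0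
        (fun y => ent (e y) z)) := by
  unfold dt
  congr 1
  ext1 x y
  rw [Matrix.updateRow_apply, Matrix.of_apply, Matrix.of_apply, Function.update_apply]
  split_ifs <;> rfl

theorem dt_cong {X A I : Type} [Fintype I] [DecidableEq I] {d s : ℕ} {e : I → Fin n → ℕ}
    (he : ∀ i, ∑ j, e i j = d) (row : I → X ⊕ A) (i0 : I) (x : X) (w : A) :
    (dt e (Function.update row i0 (Sum.inl x)) * RR d s x w -
      dt e (Function.update row i0 (Sum.inr w)) * RR d (s + d) x w : BX K X A n) ∈
      JJ K n d x w := by
  rw [dt_update, dt_update]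
  obtain ⟨M, hM⟩ : ∃ M : Matrix I I (BX K X A n), M = Matrix.of fun x y => ent (e y) (row x) :=
    ⟨_, rfl⟩
  rw [← hM]
  obtain ⟨η, hη⟩ : ∃ η : I → BX K X A n,
      η = fun y => mon x (e y) * RR d s x w - C (mon w (e y)) * RR d (s + d) x w := ⟨_, rfl⟩
  have h1 : (RR d s x w : BX K X A n) • (fun y => (ent (e y) (Sum.inl x) : BX K X A n)) =
      η + (RR d (s + d) x w : BX K X A n) • (fun y => ent (e y) (Sum.inr w)) := by
    funext y
    rw [hη]
    simp only [Pi.smul_apply, Pi.add_apply, smul_eq_mul, ent]
    ring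
  have h2 := Matrix.det_updateRow_smul M i0 (RR d s x w)
    (fun y => (ent (e y) (Sum.inl x) : BX K X A n))
  have h3 := Matrix.det_updateRow_smul M i0 (RR d (s + d) x w)
    (fun y => (ent (e y) (Sum.inr w) : BX K X A n))
  rw [h1, Matrix.det_updateRow_add, h3] at h2
  have h4 : (Matrix.det (Matrix.updateRow M i0 (fun y => ent (e y) (Sum.inl x))) * RR d s x w -
      Matrix.det (Matrix.updateRow M i0 (fun y => ent (e y) (Sum.inr w))) * RR d (s + d) x w :
        BX K X A n) = Matrix.det (Matrix.updateRow M i0 η) := by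
    rw [mul_comm, ← h2]
    ring
  rw [h4, Matrix.det_eq_sum_mul_adjugate_row _ i0]
  refine Ideal.sum_mem _ fun y _ => Ideal.mul_mem_right _ _ ?_
  rw [Matrix.updateRow_self, hη]
  exact kernel x w (he y)

theorem PS_mem {X A : Type} {d : ℕ} {x : X} {w : A} (ψ : PX K A n →ₗ[K] K)
    (hψ : ∀ f ∈ Iw K n d w, ψ f = 0) {F : BX K X A n} (hF : F ∈ JJ K n d x w) :
    PS ψ F ∈ Iw K n d x := by
  intro m hm
  by_contra hc
  push Not at hc
  rw [mem_support_iff, coeff_PS] at hm
  exact hm (hψ _ (hF m hc))

theorem E_bd {d r s : ℕ} (hd : 1 ≤ d) (hrs : r + s = n * (d - 1))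
    {e : Fin P ⊕ U → Fin n → ℕ} (he : ∀ i, ∑ j, e i j = d)
    (ψ : PX K (Option U) n →ₗ[K] K) (hψ : ∀ f ∈ Iw K n d (none : Option U), ψ f = 0)
    (hψ1 : ∀ g : PX K (Option (Option U)) n, InC (Option U) n d d r g →
      ψ (ren Option.join g) = 0) (j0 : Fin P) :
    InI d n (ren (mg j0) (PS ψ (F0 K d s e))) := by
  rw [InI_iff, PS_rename]
  unfold F0
  rw [map_mul, dt_rename, RR_rename]
  have h0 : mg j0 none = none := by
    unfold mg
    rw [Function.update_of_ne (by simp)]
    rfl
  rw [h0]
  have h1 : Sum.map (mg j0) id ∘ row0 P U =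
      Function.update (row0 P U) (Sum.inl j0) (Sum.inl none) := by
    funext x
    cases x with
    | inl j =>
      rw [Function.comp_apply, Function.update_apply]
      show Sum.inl (mg j0 (some j)) = _
      unfold mg
      rw [Function.update_apply]
      by_cases hj : j = j0
      · rw [if_pos (by rw [hj]), if_pos (by rw [hj])]
      · rw [if_neg (fun h => hj (Option.some.inj h)), if_neg (fun h => hj (Sum.inl.inj h))]
        rfl
    | inr u =>
      rw [Function.comp_apply, Function.update_apply, if_neg (by simp)]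
      rfl
  rw [h1]
  have h2 := dt_cong (K := K) (s := s) he (row0 P U) (Sum.inl j0) (none : Option (Fin P))
    (none : Option U)
  have h3 : PS ψ (dt e (Function.update (row0 P U) (Sum.inl j0) (Sum.inr none)) *
      RR d (s + d) none none : BX K (Option (Fin P)) (Option U) n) = 0 := by
    ext m
    rw [coeff_PS, coeff_zero]
    have h4 : (dt e (Function.update (row0 P U) (Sum.inl j0) (Sum.inr none)) *
        RR d (s + d) none none : BX K (Option (Fin P)) (Option U) n) =
        map (ren Option.join : PX K (Option (Option U)) n →ₐ[K] PX K (Option U) n).toRingHom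
          (dt e (row3 U j0) * RR d (s + d) none none) := by
      rw [map_mul, dt_map, RR_map]
      congr 1
      congr 1
      funext x
      cases x with
      | inl j =>
        rw [Function.comp_apply, Function.update_apply]
        by_cases hj : j = j0
        · rw [if_pos (by rw [hj]), hj, row3_eq]
          rfl
        · rw [if_neg (fun h => hj (Sum.inl.inj h)), row3_ne hj]
          rfl
      | inr u =>
        rw [Function.comp_apply, Function.update_apply, if_neg (by simp)]
        rfl
    rw [h4, coeff_map]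
    exact hψ1 _ (G_InC hd hrs he j0 m)
  have h5 := PS_mem ψ hψ h2
  have h6 := PS_add ψ
    (dt e (Function.update (row0 P U) (Sum.inl j0) (Sum.inl none)) * RR d s none none -
      dt e (Function.update (row0 P U) (Sum.inl j0) (Sum.inr none)) * RR d (s + d) none none)
    (dt e (Function.update (row0 P U) (Sum.inl j0) (Sum.inr none)) * RR d (s + d) none none :
      BX K (Option (Fin P)) (Option U) n)
  rw [sub_add_cancel, h3, add_zero] at h6
  rw [h6]
  exact h5

omit [DecidableEq U] in
theorem dt_expand {e : Fin P ⊕ U → Fin n → ℕ} [DecidableEq U] (c : Fin n → ℕ) :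
    (dt e (row0 P U) * mon none c : BX K (Option (Fin P)) (Option U) n) =
      ∑ σ : Equiv.Perm (Fin P ⊕ U), ((Equiv.Perm.sign σ : ℤˣ) : ℤ) •
        monomial (tot (fun j => e (σ (Sum.inl j))) c)
          (∏ u, mon (some u) (e (σ (Sum.inr u)))) := by
  unfold dt
  rw [← Matrix.det_transpose, Matrix.det_apply, Finset.sum_mul]
  refine Finset.sum_congr rfl fun σ _ => ?_
  rw [Units.smul_def, smul_mul_assoc]
  congr 1
  rw [Fintype.prod_sum_type]
  have h1 : (∏ j : Fin P, (Matrix.of fun x y =>
      (ent (e y) (row0 P U x) : BX K (Option (Fin P)) (Option U) n)).transpose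
        (σ (Sum.inl j)) (Sum.inl j)) = ∏ j : Fin P, mon (some j) (e (σ (Sum.inl j))) := rfl
  have h2 : (∏ u : U, (Matrix.of fun x y =>
      (ent (e y) (row0 P U x) : BX K (Option (Fin P)) (Option U) n)).transpose
        (σ (Sum.inr u)) (Sum.inr u)) = C (∏ u : U, mon (some u) (e (σ (Sum.inr u)))) := by
    rw [map_prod]
    rfl
  rw [h1, h2, mul_right_comm, ← monomial_tot, mul_comm, C_mul_monomial, mul_one]

theorem coeff_dt {e : Fin P ⊕ U → Fin n → ℕ} (hi : Function.Injective e) (c c' : Fin n → ℕ) :
    coeff (tot (fun j => e (Sum.inl j)) c)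
      (dt e (row0 P U) * mon none c' : BX K (Option (Fin P)) (Option U) n) =
      if c' = c then Matrix.det (Matrix.of fun u u' : U =>
        (mon (some u) (e (Sum.inr u')) : PX K (Option U) n)) else 0 := by
  classical
  rw [dt_expand, coeff_sum]
  simp only [coeff_smul, coeff_monomial]
  have h0 : ∀ σ : Equiv.Perm (Fin P ⊕ U),
      (tot (fun j => e (σ (Sum.inl j))) c' = tot (fun j => e (Sum.inl j)) c) ↔
        (c' = c ∧ ∀ j, σ (Sum.inl j) = Sum.inl j) := by
    intro σ
    constructor
    · intro h
      obtain ⟨h1, h2⟩ := tot_inj h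
      exact ⟨h2, fun j => hi (congrFun h1 j)⟩
    · rintro ⟨rfl, h⟩
      simp only [h]
  simp only [h0]
  by_cases hc : c' = c
  · rw [if_pos hc]
    simp only [hc, true_and]
    obtain ⟨N, hN⟩ : ∃ N : Matrix (Fin P ⊕ U) (Fin P ⊕ U) (PX K (Option U) n),
        N = Matrix.fromBlocks 1 0 (Matrix.of fun u j => mon (some u) (e (Sum.inl j)))
          (Matrix.of fun u u' => mon (some u) (e (Sum.inr u'))) := ⟨_, rfl⟩
    have h1 : Matrix.det N = Matrix.det (Matrix.of fun u u' : U =>
        (mon (some u) (e (Sum.inr u')) : PX K (Option U) n)) := by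
      rw [hN, Matrix.det_fromBlocks_zero₁₂, Matrix.det_one, one_mul]
    rw [← h1, ← Matrix.det_transpose, Matrix.det_apply]
    refine Finset.sum_congr rfl fun σ _ => ?_
    rw [Units.smul_def]
    congr 1
    rw [Fintype.prod_sum_type]
    have h2 : ∀ u : U, N.transpose (σ (Sum.inr u)) (Sum.inr u) =
        mon (some u) (e (σ (Sum.inr u))) := by
      intro u
      rw [hN, Matrix.transpose_apply]
      cases σ (Sum.inr u) <;> rfl
    have h3 : ∀ j : Fin P, N.transpose (σ (Sum.inl j)) (Sum.inl j) =
        if σ (Sum.inl j) = Sum.inl j then 1 else 0 := by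
      intro j
      rw [hN, Matrix.transpose_apply]
      cases h4 : σ (Sum.inl j) with
      | inl i =>
        rw [Matrix.fromBlocks_apply₁₁, Matrix.one_apply]
        by_cases h5 : j = i
        · rw [if_pos h5, if_pos (by rw [h5])]
        · rw [if_neg h5, if_neg (fun h => h5 (Sum.inl.inj h).symm)]
      | inr u =>
        rw [Matrix.fromBlocks_apply₁₂, if_neg (by simp)]
        rfl
    rw [Finset.prod_congr rfl fun u _ => h2 u, Finset.prod_congr rfl fun j _ => h3 j,
      Finset.prod_boole]
    by_cases h6 : ∀ j, σ (Sum.inl j) = Sum.inl j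
    · rw [if_pos h6, if_pos (fun j _ => h6 j), one_mul]
    · rw [if_neg h6, if_neg (fun h => h6 fun j => h j (Finset.mem_univ j)), zero_mul]
  · rw [if_neg hc]
    simp only [hc, false_and, if_false, smul_zero, Finset.sum_const_zero]

theorem coeff_F0 {d s : ℕ} {e : Fin P ⊕ U → Fin n → ℕ} (hi : Function.Injective e)
    {c : Fin n → ℕ} (hc : c ∈ Fs n d s) :
    coeff (tot (fun j => e (Sum.inl j)) c) (F0 K d s e) =
      mon none (cpl d c) * Matrix.det (Matrix.of fun u u' : U =>
        (mon (some u) (e (Sum.inr u')) : PX K (Option U) n)) := by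
  classical
  unfold F0 RR
  rw [Finset.mul_sum, coeff_sum]
  have h : ∀ c' : Fin n → ℕ, coeff (tot (fun j => e (Sum.inl j)) c)
      (dt e (row0 P U) * (mon none c' * C (mon none (cpl d c'))) :
        BX K (Option (Fin P)) (Option U) n) =
      if c' = c then mon none (cpl d c') * Matrix.det (Matrix.of fun u u' : U =>
        (mon (some u) (e (Sum.inr u')) : PX K (Option U) n)) else 0 := by
    intro c'
    rw [← mul_assoc, mul_comm, coeff_C_mul, coeff_dt hi]
    split_ifs
    · rfl
    · rw [mul_zero]
  rw [Finset.sum_congr rfl fun c' _ => h c', Finset.sum_ite_eq', if_pos hc]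

end key

/-- Completion of an injective family of exponents. -/
theorem exists_enum {U : Type} [Fintype U] [DecidableEq U] {v d P : ℕ}
    (hP : P + Fintype.card U = (d + v).choose v) {β : U → Fin (v + 1) → ℕ}
    (hβ : Function.Injective β) (hd : ∀ u, ∑ j, β u j = d) :
    ∃ e : Fin P ⊕ U → Fin (v + 1) → ℕ, Function.Injective e ∧ (∀ i, ∑ j, e i j = d) ∧
      ∀ u, e (Sum.inr u) = β u := by
  classical
  obtain ⟨T, hT⟩ : ∃ T : Finset (Fin (v + 1) → ℕ),
      T = (Finset.finsuppAntidiag (Finset.univ : Finset (Fin (v + 1))) d).map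
        (⟨fun f => ⇑f, DFunLike.coe_injective⟩ : (Fin (v + 1) →₀ ℕ) ↪ (Fin (v + 1) → ℕ)) :=
    ⟨_, rfl⟩
  have hc : T.card = (d + v).choose v := by
    rw [hT, Finset.card_map, Finset.card_finsuppAntidiag_nat_eq_choose, Finset.card_univ,
      Fintype.card_fin]
    have h1 : v + 1 + d - 1 = d + v := by omega
    rw [h1, ← Nat.choose_symm_add]
  have hm : ∀ b, b ∈ T ↔ ∑ j, b j = d := by
    intro b
    rw [hT, Finset.mem_map]
    constructor
    · rintro ⟨f, hf, rfl⟩
      exact (Finset.mem_finsuppAntidiag.1 hf).1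
    · intro h
      refine ⟨Finsupp.equivFunOnFinite.symm b, ?_, rfl⟩
      rw [Finset.mem_finsuppAntidiag]
      exact ⟨h, Finset.subset_univ _⟩
  have h1 : P = (T \ Finset.univ.image β).card := by
    rw [Finset.card_sdiff_of_subset, Finset.card_image_of_injective _ hβ, Finset.card_univ, hc]
    · omega
    · intro b hb
      obtain ⟨u, _, rfl⟩ := Finset.mem_image.1 hb
      exact (hm _).2 (hd u)
  obtain ⟨E, hE⟩ : ∃ E : Fin P ≃ ↥(T \ Finset.univ.image β), E = E :=
    ⟨(finCongr h1).trans (Finset.equivFin _).symm, rfl⟩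
  have hE1 : ∀ j, (E j).1 ∈ T ∧ (E j).1 ∉ Finset.univ.image β := fun j =>
    Finset.mem_sdiff.1 (E j).2
  refine ⟨fun x => x.elim (fun j => (E j).1) β, ?_, ?_, fun u => rfl⟩
  · rintro (i | u) (j | u') h
    · rw [E.injective (Subtype.ext h)]
    · exfalso
      apply (hE1 i).2
      exact Finset.mem_image.2 ⟨u', Finset.mem_univ _, h.symm⟩
    · exfalso
      apply (hE1 j).2
      exact Finset.mem_image.2 ⟨u, Finset.mem_univ _, h⟩
    · rw [hβ h]
  · rintro (j | u)
    · exact (hm _).1 (hE1 j).1
    · exact hd u

/-- The values of the functional at the determinants. -/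
theorem claim {U : Type} [Fintype U] [DecidableEq U] {v d p r s P : ℕ} (hd : 1 ≤ d)
    (hrs : r + s = (v + 1) * (d - 1)) (hP : P + p = (d + v).choose v)
    (hGP : GP K (v + 1) d s P (v + 1)) (hU : Fintype.card U = p)
    (ψ : PX K (Option U) (v + 1) →ₗ[K] K)
    (hψ : ∀ f ∈ Iw K (v + 1) d (none : Option U), ψ f = 0)
    (hψ1 : ∀ g : PX K (Option (Option U)) (v + 1), InC (Option U) (v + 1) d d r g →
      ψ (ren Option.join g) = 0)
    {β : U → Fin (v + 1) → ℕ} (hβ : ∀ u, ∑ j, β u j = d) {m0 : Fin (v + 1) → ℕ}
    (hm0 : ∑ j, m0 j = r) :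
    ψ (mon none m0 * Matrix.det (Matrix.of fun u u' : U =>
        (mon (some u) (β u') : PX K (Option U) (v + 1)))) = 0 := by
  classical
  by_cases hi : Function.Injective β
  · by_cases hm : ∀ l, m0 l < d
    · have h1 : cpl d m0 ∈ Fs (v + 1) d s := by
        rw [mem_Fs]
        constructor
        · intro j
          unfold cpl
          omega
        · have h3 : ∑ j, cpl d m0 j + ∑ j, m0 j = (v + 1) * (d - 1) := by
            rw [← Finset.sum_add_distrib]
            have h4 : ∀ j : Fin (v + 1), cpl d m0 j + m0 j = d - 1 := by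
              intro j
              have := hm j
              unfold cpl
              omega
            rw [Finset.sum_congr rfl fun j _ => h4 j, Finset.sum_const, Finset.card_univ,
              Fintype.card_fin, smul_eq_mul]
          omega
      have h2 : cpl d (cpl d m0) = m0 := by
        funext j
        have := hm j
        unfold cpl
        omega
      rw [← hU] at hP
      obtain ⟨e, he1, he2, he3⟩ := exists_enum hP hi hβ
      have h3 : PS ψ (F0 K d s e) = 0 := by
        refine hGP (Fin P) (Fintype.card_fin P) _ (E_InC he2 ψ) fun j0 => ?_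
        exact E_bd hd hrs he2 ψ hψ hψ1 j0
      have h4 := coeff_PS ψ (F0 K d s e) (tot (fun j => e (Sum.inl j)) (cpl d m0))
      rw [h3, coeff_zero, coeff_F0 he1 h1, h2] at h4
      simp only [he3] at h4
      exact h4.symm
    · push Not at hm
      obtain ⟨l, hl⟩ := hm
      exact hψ _ (Ideal.mul_mem_right _ _ (mon_mem_Iw hl))
  · rw [Function.Injective] at hi
    push Not at hi
    obtain ⟨u, u', h1, h2⟩ := hi
    rw [Matrix.det_zero_of_column_eq h2 (fun k => by
      rw [Matrix.of_apply, Matrix.of_apply, h1]), mul_zero, map_zero]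

theorem DUAL_thm : Stmt_DUAL := by
  classical
  intro K _ _ v d p r s P hd hrs _ hP hGP U _ _ hU f hf _
  by_contra hcon
  obtain ⟨V, hV⟩ : ∃ V : Submodule K (PX K (Option U) (v + 1)), ∀ h, h ∈ V ↔
      ∃ g : PX K (Option (Option U)) (v + 1), InC (Option U) (v + 1) d d r g ∧
        h - ren Option.join g ∈ Iw K (v + 1) d (none : Option U) := by
    refine ⟨{ carrier := {h | ∃ g : PX K (Option (Option U)) (v + 1),
                InC (Option U) (v + 1) d d r g ∧
                h - ren Option.join g ∈ Iw K (v + 1) d (none : Option U)}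
              add_mem' := ?_, zero_mem' := ?_, smul_mem' := ?_ }, fun h => Iff.rfl⟩
    · rintro a b ⟨g, hg, h1⟩ ⟨g', hg', h2⟩
      refine ⟨g + g', hg.add hg', ?_⟩
      have h3 := Ideal.add_mem _ h1 h2
      have h4 : a + b - ren Option.join (g + g') =
          a - ren Option.join g + (b - ren Option.join g') := by
        rw [map_add]
        ring
      rw [h4]
      exact h3
    · refine ⟨0, InC.zero, ?_⟩
      rw [map_zero, sub_zero]
      exact Ideal.zero_mem _
    · rintro c a ⟨g, hg, h1⟩
      refine ⟨c • g, hg.smul c, ?_⟩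
      have h4 : c • a - ren Option.join (c • g) = C c * (a - ren Option.join g) := by
        rw [map_smul, ← smul_sub, smul_eq_C_mul]
      rw [h4]
      exact Ideal.mul_mem_left _ _ h1
  have hfV : f ∉ V := by
    intro h
    obtain ⟨g, hg, h1⟩ := (hV f).1 h
    exact hcon ⟨g, hg, InI_iff.2 h1⟩
  obtain ⟨ψ, hψf, hψV⟩ := Submodule.exists_le_ker_of_notMem hfV
  have hψ : ∀ h ∈ Iw K (v + 1) d (none : Option U), ψ h = 0 := by
    intro h hh
    refine hψV ((hV h).2 ⟨0, InC.zero, ?_⟩)
    rw [map_zero, sub_zero]
    exact hh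
  have hψ1 : ∀ g : PX K (Option (Option U)) (v + 1), InC (Option U) (v + 1) d d r g →
      ψ (ren Option.join g) = 0 := by
    intro g hg
    refine hψV ((hV _).2 ⟨g, hg, ?_⟩)
    rw [sub_self]
    exact Ideal.zero_mem _
  apply hψf
  have hA : ∑ π : Equiv.Perm U, ((Equiv.Perm.sign π : ℤˣ) : ℤ) • ren (Option.map π) f =
      (Fintype.card (Equiv.Perm U) : K) • f := by
    have h1 : ∀ π : Equiv.Perm U,
        ((Equiv.Perm.sign π : ℤˣ) : ℤ) • ren (Option.map π) f = f := by
      intro π
      rw [hf.alt, smul_smul, ← Units.val_mul, Int.units_mul_self, Units.val_one, one_smul]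
    rw [Finset.sum_congr rfl fun π _ => h1 π, Finset.sum_const, Finset.card_univ,
      Nat.cast_smul_eq_nsmul]
  have hB : ψ (∑ π : Equiv.Perm U, ((Equiv.Perm.sign π : ℤˣ) : ℤ) • ren (Option.map π) f) =
      0 := by
    have h1 : ∑ π : Equiv.Perm U, ((Equiv.Perm.sign π : ℤˣ) : ℤ) • ren (Option.map π) f =
        ∑ m ∈ f.support, coeff m f • ∑ π : Equiv.Perm U, ((Equiv.Perm.sign π : ℤˣ) : ℤ) •
          ren (Option.map π) (monomial m 1 : PX K (Option U) (v + 1)) := by
      simp only [Finset.smul_sum]
      rw [Finset.sum_comm]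
      refine Finset.sum_congr rfl fun π _ => ?_
      have h2 : f = ∑ m ∈ f.support, coeff m f • (monomial m 1 : PX K (Option U) (v + 1)) := by
        have h3 := f.as_sum
        refine h3.trans (Finset.sum_congr rfl fun m _ => ?_)
        rw [smul_monomial, smul_eq_mul, mul_one]
      conv_lhs => rw [h2]
      rw [map_sum, Finset.smul_sum]
      refine Finset.sum_congr rfl fun m _ => ?_
      rw [map_smul, smul_comm]
    rw [h1, map_sum]
    refine Finset.sum_eq_zero fun m hm => ?_
    have h2 := hf.deg m hm
    have h3 : ∑ π : Equiv.Perm U, ((Equiv.Perm.sign π : ℤˣ) : ℤ) •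
        ren (Option.map π) (monomial m 1 : PX K (Option U) (v + 1)) =
        mon none (fun l => m (none, l)) * Matrix.det (Matrix.of fun u u' : U =>
          (mon (some u) (fun l => m (some u', l)) : PX K (Option U) (v + 1))) := by
      rw [Matrix.det_apply, Finset.mul_sum]
      refine Finset.sum_congr rfl fun π _ => ?_
      rw [Units.smul_def, mul_smul_comm]
      congr 1
      have h4 : (monomial m 1 : PX K (Option U) (v + 1)) =
          (∏ u, mon (some u) (fun l => m (some u, l))) * mon none (fun l => m (none, l)) := by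
        rw [← monomial_tot, tot_self]
      rw [h4, map_mul, map_prod, ren_mon, mul_comm]
      congr 1
      refine Finset.prod_congr rfl fun u _ => ?_
      rw [ren_mon]
      rfl
    rw [map_smul, h3, claim hd hrs hP hGP hU ψ hψ hψ1 (fun u => h2.1 u)
      (by have := h2.2; omega), smul_zero]
  rw [hA, map_smul, smul_eq_mul] at hB
  rcases mul_eq_zero.1 hB with h | h
  · exfalso
    rw [Nat.cast_eq_zero] at h
    exact Fintype.card_ne_zero h
  · exact h

end Pool.Agent.VSY.DUAL

namespace Pool.Agent.VSY

theorem DUAL_thm : Stmt_DUAL := DUAL.DUAL_thm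

end Pool.Agent.VSY
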