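import Pool.Agent.VSY.Stmts

/-!
# Veronese syzygies (MP_deb8da_ag): module EX, exactness of the super Koszul complex
-/

namespace Pool.Agent.VSY

open MvPolynomial

namespace EX

variable {K : Type} [Field K] {U : Type} [Fintype U] [DecidableEq U] {v d s r k : ℕ}

theorem int_smul_support {A : Type} (a : ℤˣ) (f : PX K A v) :
    (((a : ℤ)) • f).support = f.support := by
  rcases Int.units_eq_one_or a with h | h
  · simp [h]
  · simp [h]

theorem sign_smul_cancel {M : Type} [AddCommGroup M] (a : ℤˣ) {x y : M}
    (h : ((a : ℤ)) • x = y) : x = ((a : ℤ)) • y := by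
  rw [← h, smul_smul, ← Units.val_mul, Int.units_mul_self]
  simp

/-- Values of an alternating super polynomial at permuted tuples. -/
theorem push_map_sgl (π : Equiv.Perm U) (c : SA K (Option U) v k) (t : Fin k → Option U) :
    push (Option.map π) c (sgl K (Option.map π ∘ t)) = ren (Option.map π) (c (sgl K t)) := by
  rw [push_apply]
  have h1 : (fun i => sgl K (Option.map π ∘ t) i ∘ Option.map π) = sgl K t := by
    funext i x
    have h2 : (Option.map π x = Option.map π (t i)) ↔ x = t i :=
      (Option.map_injective π.injective).eq_iff
    simp only [sgl, Function.comp_apply, Pi.single_apply, h2]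
  rw [h1]

theorem alt_sgl {c : SA K (Option U) v k}
    (hc : ∀ π : Equiv.Perm U, push (Option.map π) c = ((Equiv.Perm.sign π : ℤˣ) : ℤ) • c)
    (π : Equiv.Perm U) (t : Fin k → Option U) :
    ren (Option.map π) (c (sgl K t)) =
      ((Equiv.Perm.sign π : ℤˣ) : ℤ) • c (sgl K (Option.map π ∘ t)) := by
  rw [← push_map_sgl, hc]
  rfl

theorem KC_add {c c' : SA K (Option U) v k} (hc : KC U v d s r k c) (hc' : KC U v d s r k c') :
    KC U v d s r k (c + c') := by
  refine ⟨fun π => by rw [push_add, hc.alt, hc'.alt, smul_add], fun t m hm => ?_⟩
  classical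
  rcases Finset.mem_union.1 (support_add hm) with h | h
  · exact hc.deg t m h
  · exact hc'.deg t m h

theorem KC_neg {c : SA K (Option U) v k} (hc : KC U v d s r k c) :
    KC U v d s r k (-c) := by
  refine ⟨fun π => ?_, fun t m hm => ?_⟩
  · have h : push (Option.map π) (-c) = - push (Option.map π) c := by
      ext1 ξ
      simp [push_apply]
    rw [h, hc.alt, smul_neg]
  · refine hc.deg t m ?_
    have h : (-c) (sgl K t) = - c (sgl K t) := rfl
    rw [h, MvPolynomial.support_neg] at hm
    exact hm

theorem KC_sub {c c' : SA K (Option U) v k} (hc : KC U v d s r k c) (hc' : KC U v d s r k c') :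
    KC U v d s r k (c - c') := by
  rw [sub_eq_add_neg]
  exact KC_add hc (KC_neg hc')

theorem KC_zero : KC U v d s r k (0 : SA K (Option U) v k) := by
  refine ⟨fun π => by simp, fun t m hm => ?_⟩
  have h : (0 : SA K (Option U) v k) (sgl K t) = 0 := rfl
  rw [h] at hm
  simp at hm

theorem KZ_sub {c c' : SA K (Option U) v k} (hc : KZ U v d r k c) (hc' : KZ U v d r k c') :
    KZ U v d r k (c - c') :=
  ⟨KC_sub hc.1 hc'.1, fun u => by rw [push_sub, hc.2, hc'.2, sub_zero]⟩

/-! ### Boundaries are cycles -/

theorem join_eq_some (x : Option (Option U)) (u : U) : Option.join x = some u ↔ x = some (some u) := by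
  rcases x with _ | _ | x <;> simp

theorem join_eq_none (x : Option (Option U)) : Option.join x = none ↔ x = none ∨ x = some none := by
  rcases x with _ | _ | x <;> simp

theorem filter_join_some (u : U) :
    (Finset.univ.filter fun a : Option (Option U) => Option.join a = some u) =
      {some (some u)} := by
  ext x
  simp [join_eq_some]

theorem filter_join_none :
    (Finset.univ.filter fun a : Option (Option U) => Option.join a = none) =
      {none, some none} := by
  ext x
  simp [join_eq_none]

theorem BND [CharZero K] {h : SA K (Option (Option U)) v k} (hh : KC (Option U) v d d r k h) :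
    KZ U v d r k (push Option.join h) := by
  refine ⟨⟨fun π => ?_, fun t m hm => ?_⟩, fun u => ?_⟩
  · have h1 : Option.map π ∘ (Option.join : Option (Option U) → Option U) =
        Option.join ∘ Option.map (Equiv.optionCongr π) := by
      funext x
      rcases x with _ | _ | x <;> rfl
    rw [push_push, h1, ← push_push, hh.alt, push_zsmul, Equiv.optionCongr_sign]
  · rw [push_sgl] at hm
    obtain ⟨s, hs, hm1⟩ := Finset.mem_biUnion.1 (MvPolynomial.support_sum hm)
    rw [Finset.mem_filter] at hs
    obtain ⟨m', hm', rfl⟩ := exists_of_mem_support_ren _ _ hm1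
    obtain ⟨h1, h2⟩ := hh.deg s m' hm'
    have hs' : ∀ i, t i = Option.join (s i) := fun i => (congrFun hs.2 i).symm
    refine ⟨fun u => ?_, ?_⟩
    · rw [mapDomain_sum, filter_join_some, Finset.sum_singleton]
      have h3 : (Finset.univ.filter fun i => t i = some u) =
          Finset.univ.filter fun i => s i = some (some u) := by
        ext i
        simp [hs', join_eq_some]
      rw [h3]
      exact h1 (some u)
    · rw [mapDomain_sum, filter_join_none, Finset.sum_pair (by simp)]
      have h3 : (Finset.univ.filter fun i => t i = none) =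
          (Finset.univ.filter fun i => s i = none) ∪
            (Finset.univ.filter fun i => s i = some none) := by
        ext i
        simp [hs', join_eq_none]
      have h4 : Disjoint (Finset.univ.filter fun i => s i = none)
          (Finset.univ.filter fun i => s i = some none) := by
        rw [Finset.disjoint_filter]
        intro i _ hi
        simp [hi]
      rw [h3, Finset.card_union_of_disjoint h4]
      have h5 := h1 none
      omega
  · have h1 : mg u ∘ (Option.join : Option (Option U) → Option U) ∘
        Option.map (Equiv.swap none (some u)) = mg u ∘ Option.join := by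
      funext x
      rcases x with _ | _ | x
      · rfl
      · simp [mg, Function.update]
      · by_cases hx : x = u
        · subst hx
          simp [mg, Function.update]
        · have : (Equiv.swap (none : Option U) (some u)) (some x) = some x :=
            Equiv.swap_apply_of_ne_of_ne (by simp) (by simpa using hx)
          simp [this]
    have h2 : push (mg u) (push Option.join h) = - push (mg u) (push Option.join h) := by
      have h3 := hh.alt (Equiv.swap none (some u))
      rw [Equiv.Perm.sign_swap (by simp)] at h3
      calc push (mg u) (push Option.join h)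
          = push (mg u ∘ Option.join) h := push_push _ _ _
        _ = push (mg u ∘ Option.join ∘ Option.map (Equiv.swap none (some u))) h := by rw [h1]
        _ = push (mg u) (push Option.join (push (Option.map (Equiv.swap none (some u))) h)) := by
            rw [push_push, push_push]
            rfl
        _ = - push (mg u) (push Option.join h) := by
            rw [h3, push_zsmul, push_zsmul]
            simp
    have h4 : (2 : K) • push (mg u) (push Option.join h) = 0 := by
      rw [two_smul]
      nth_rewrite 1 [h2]
      exact neg_add_cancel _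
    exact (smul_eq_zero.1 h4).resolve_left two_ne_zero

/-! ### The cycle condition at a component -/

theorem CYC {c : SA K (Option U) v k} {u : U} (hc : push (mg u) c = 0) {t₁ : Fin k → Option U}
    (hinj : Function.Injective t₁) (hu : ∀ i, t₁ i ≠ some u)
    (hz : (∃ i, t₁ i = none) → ∀ s : Fin k → Option U, (¬ ∃ i, s i = none) → c (sgl K s) = 0) :
    ren (mg u) (c (sgl K t₁)) = 0 := by
  have h1 : push (mg u) c (sgl K t₁) = 0 := by rw [hc]; rfl
  rw [push_sgl, Finset.sum_eq_single t₁] at h1
  · exact h1
  · intro s hs hne
    rw [Finset.mem_filter] at hs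
    have h2 : ∀ i, mg u (s i) = t₁ i := fun i => congrFun hs.2 i
    have h3 : ∃ i, s i ≠ t₁ i := by
      by_contra hcon
      push Not at hcon
      exact hne (funext hcon)
    obtain ⟨i, hi⟩ := h3
    have h4 : t₁ i = none := by
      rw [← h2 i]
      by_cases h5 : s i = some u
      · rw [h5]
        simp [mg]
      · exfalso
        apply hi
        rw [← h2 i, mg, Function.update_of_ne h5]
        rfl
    rw [hz ⟨i, h4⟩ s, map_zero]
    rintro ⟨i', hi'⟩
    have h6 : t₁ i' = none := by
      rw [← h2 i', hi', mg, Function.update_of_ne (by simp)]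
      rfl
    have h7 : i' = i := hinj (h6.trans h4.symm)
    subst h7
    exact hi (hi'.trans h4.symm)
  · intro h
    exfalso
    apply h
    rw [Finset.mem_filter]
    refine ⟨Finset.mem_univ _, ?_⟩
    funext i
    simp [mg, Function.update_of_ne (hu i)]

/-! ### One step of the proof of exactness -/

theorem exists_optionCongr {W : Type} [DecidableEq W] (π : Equiv.Perm (Option W))
    (h : π none = none) : ∃ π' : Equiv.Perm W, Equiv.optionCongr π' = π := by
  refine ⟨Equiv.removeNone π, ?_⟩
  rw [map_equiv_removeNone, h, Equiv.swap_self]
  rfl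

theorem coe_optionCongr {W : Type} (π : Equiv.Perm W) :
    (Equiv.optionCongr π : Option W → Option W) = Option.map π := by
  funext x
  exact Equiv.optionCongr_apply π x

/-- Degrees after a permutation of the points. -/
theorem ren_perm_deg {A : Type} [Fintype A] [DecidableEq A] (π : Equiv.Perm A)
    (m : A × Fin v →₀ ℕ) (x : A) :
    ∑ j, m.mapDomain (Prod.map π id) (x, j) = ∑ j, m (π.symm x, j) := by
  rw [mapDomain_sum]
  have h : (Finset.univ.filter fun a => π a = x) = {π.symm x} := by
    ext a
    simp only [Finset.mem_filter, Finset.mem_univ, true_and, Finset.mem_singleton]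
    exact ⟨fun h => by rw [← h, Equiv.symm_apply_apply], fun h => by rw [h, Equiv.apply_symm_apply]⟩
  rw [h, Finset.sum_singleton]

theorem STEP [CharZero K] (hIND : Stmt_IND) (hd : 1 ≤ d) {q r'' : ℕ}
    {c : SA K (Option U) v k} (hc : KZ U v d r k c) {t₁ : Fin k → Option U}
    (hinj : Function.Injective t₁)
    (hz : (∃ i, t₁ i = none) → ∀ s : Fin k → Option U, (¬ ∃ i, s i = none) → c (sgl K s) = 0)
    (hr : r'' + (Finset.univ.filter fun i => t₁ i = none).card = r)
    (hq : (Finset.univ.filter fun x : Option U => x ≠ none ∧ ∀ i, t₁ i ≠ x).card = q)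
    (hP : PVan K v d q r'') :
    ∃ h : SA K (Option (Option U)) v k, KC (Option U) v d d r k h ∧
      push Option.join h (sgl K t₁) = c (sgl K t₁) ∧
      ∀ t, h (sgl K t) ≠ 0 → ((∃ i, t i = none) ↔ ∃ i, t₁ i = none) := by
  obtain ⟨hKC, hcyc⟩ := hc
  have hFdeg := hKC.deg t₁
  have hFz : ∀ u : U, (∀ i, t₁ i ≠ some u) → ren (mg u) (c (sgl K t₁)) = 0 :=
    fun u hu => CYC (hcyc u) hinj hu hz
  have hFalt := fun π : Equiv.Perm U => alt_sgl hKC.alt π t₁
  have hFalt2 := fun σ : Equiv.Perm (Fin k) => sgl_perm c t₁ σ
  generalize hF : c (sgl K t₁) = F at hFdeg hFz hFalt hFalt2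
  have hSmem : ∀ x : Option U, x ∈ (Finset.univ.filter fun x : Option U =>
      x ≠ none ∧ ∀ i, t₁ i ≠ x) ↔ x ≠ none ∧ ∀ i, t₁ i ≠ x := fun x => by simp
  generalize (Finset.univ.filter fun x : Option U => x ≠ none ∧ ∀ i, t₁ i ≠ x) = S at hq hSmem
  have hwS : none ∉ S := by simp [hSmem]
  -- the hypotheses of the vanishing with parameters
  have H1 : ∀ π : Equiv.Perm (Option U), (∀ x, x ∉ S → π x = x) →
      ren π F = ((Equiv.Perm.sign π : ℤˣ) : ℤ) • F := by
    intro π hπ
    obtain ⟨π', rfl⟩ := exists_optionCongr π (hπ none hwS)
    rw [coe_optionCongr, Equiv.optionCongr_sign, hFalt]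
    have h1 : Option.map π' ∘ t₁ = t₁ := by
      funext i
      have h2 := hπ (t₁ i) (by simp [hSmem])
      rw [coe_optionCongr] at h2
      exact h2
    rw [h1, hF]
  have H2 : ∀ m ∈ F.support, (∀ x ∈ S, ∑ j, m (x, j) = d) ∧ ∑ j, m (none, j) = r'' := by
    intro m hm
    obtain ⟨h1, h2⟩ := hFdeg m hm
    refine ⟨fun x hx => ?_, by omega⟩
    rw [hSmem] at hx
    rcases x with _ | u
    · exact absurd rfl hx.1
    · have h3 := h1 u
      have h4 : (Finset.univ.filter fun i => t₁ i = some u) = ∅ := by
        rw [Finset.filter_eq_empty_iff]
        exact fun i _ => hx.2 i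
      rw [h4] at h3
      simpa using h3
  have H3 : ∀ u ∈ S, ren (Function.update id u none) F = 0 := by
    intro x hx
    rw [hSmem] at hx
    rcases x with _ | u
    · exact absurd rfl hx.1
    · exact hFz u hx.2
  obtain ⟨G, G1, G2, G3, G4, G5⟩ := hP (Option U) none S hwS hq F H1 H2 H3
  have hG5 : ren Option.join G = F := by
    rw [← G5]
    refine ren_congr (fun x => ?_) G
    rcases x with _ | _ | x <;> rfl
  have ht₁' : Function.Injective (Option.map some ∘ t₁) :=
    (Option.map_injective (Option.some_injective _)).comp hinj
  -- the swap of the new point and of `w`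
  obtain ⟨τ, hτ⟩ : ∃ τ : Equiv.Perm (Option (Option U)), τ = Equiv.swap none (some none) :=
    ⟨_, rfl⟩
  have hτn : τ none = some none := by rw [hτ, Equiv.swap_apply_left]
  have hτs : τ (some none) = none := by rw [hτ, Equiv.swap_apply_right]
  have hτu : ∀ u : U, τ (some (some u)) = some (some u) := fun u => by
    rw [hτ]
    exact Equiv.swap_apply_of_ne_of_ne (by simp) (by simp)
  have hττ : τ.symm = τ := by rw [hτ, Equiv.symm_swap]
  have hjτ : Option.join ∘ τ = (Option.join : Option (Option U) → Option U) := by
    funext x
    rcases x with _ | _ | u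
    · simp [hτn]
    · simp [hτs]
    · simp [hτu]
  -- the prescribed component
  have HG : ∀ (π : Equiv.Perm (Option U)) (σ : Equiv.Perm (Fin k)),
      Option.map π ∘ (Option.map some ∘ t₁) = (Option.map some ∘ t₁) ∘ σ →
      ren (Option.map π) (ren τ G) =
        ((Equiv.Perm.sign π * Equiv.Perm.sign σ : ℤˣ) : ℤ) • ren τ G := by
    intro π σ hπσ
    have hπ1 : ∀ i, Option.map π (Option.map some (t₁ i)) = Option.map some (t₁ (σ i)) :=
      fun i => congrFun hπσ i
    obtain ⟨ρ, hρ⟩ : ∃ ρ : Equiv.Perm (Option U), ρ = σ.viaFintypeEmbedding ⟨t₁, hinj⟩ :=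
      ⟨_, rfl⟩
    have hρsign : Equiv.Perm.sign ρ = Equiv.Perm.sign σ := by
      rw [hρ, Equiv.Perm.viaFintypeEmbedding_sign]
    have hρt : ∀ i, ρ (t₁ i) = t₁ (σ i) := fun i => by
      rw [hρ]
      exact Equiv.Perm.viaFintypeEmbedding_apply_image σ ⟨t₁, hinj⟩ i
    have hρo : ∀ x, (∀ i, t₁ i ≠ x) → ρ x = x := fun x hx => by
      rw [hρ]
      refine Equiv.Perm.viaFintypeEmbedding_apply_notMem_range σ ⟨t₁, hinj⟩ ?_
      rintro ⟨i, hi⟩
      exact hx i hi
    have hρn : ρ none = none := by
      by_cases h : ∃ i, t₁ i = none
      · obtain ⟨i, hi⟩ := h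
        have h2 := hπ1 i
        rw [hi] at h2
        have h3 : t₁ (σ i) = none := by
          rcases h4 : t₁ (σ i) with _ | y
          · rfl
          · rw [h4] at h2
            simp at h2
        have h5 := hρt i
        rw [hi, h3] at h5
        exact h5
      · push Not at h
        exact hρo none h
    obtain ⟨ρ', rfl⟩ := exists_optionCongr ρ hρn
    have hρF : ren (Equiv.optionCongr ρ') F = F := by
      have h1 : Option.map ρ' ∘ t₁ = t₁ ∘ σ := by
        funext i
        have := hρt i
        rw [coe_optionCongr] at this
        exact this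
      rw [coe_optionCongr, hFalt, h1, hFalt2, smul_smul, ← Units.val_mul,
        ← Equiv.optionCongr_sign ρ', hρsign, Int.units_mul_self, Units.val_one, one_smul]
    have hρG : ren (Option.map (Equiv.optionCongr ρ')) G = G := by
      refine G4 _ (fun x hx => ?_) hρn hρF
      rw [hSmem] at hx
      exact hρo x hx.2
    have hρG' : ren (Option.map (Equiv.optionCongr ρ')) (ren τ G) = ren τ G := by
      have h1 : Option.map (Equiv.optionCongr ρ') ∘ τ = τ ∘ Option.map (Equiv.optionCongr ρ') := by
        funext x
        rcases x with _ | _ | u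
        · simp [hτn]
        · simp [hτs]
        · simp [hτu]
      rw [ren_ren, h1, ← ren_ren, hρG]
    -- the remaining factor
    obtain ⟨ω, hω⟩ : ∃ ω : Equiv.Perm (Option U), ω = (Equiv.optionCongr ρ')⁻¹ * π := ⟨_, rfl⟩
    have hπω : π = Equiv.optionCongr ρ' * ω := by rw [hω, mul_inv_cancel_left]
    have hωsign : Equiv.Perm.sign ω = Equiv.Perm.sign π * Equiv.Perm.sign σ := by
      rw [hω, Equiv.Perm.sign_mul, Equiv.Perm.sign_inv, hρsign, mul_comm]
    have hωfix : ∀ i u, t₁ i = some u → ω (some u) = some u := by
      intro i u hi
      have h2 := hπ1 i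
      have h3 := hρt i
      rw [hi] at h2 h3
      have h4 : π (some u) = Equiv.optionCongr ρ' (some u) := by
        rcases h5 : t₁ (σ i) with _ | y
        · rw [h5] at h3
          simp at h3
        · rw [h5] at h2 h3
          rw [h3]
          simpa using h2
      rw [hω, Equiv.Perm.mul_apply, h4, ← Equiv.Perm.mul_apply, inv_mul_cancel,
        Equiv.Perm.one_apply]
    have hωG : ren (Option.map ω) (ren τ G) = ((Equiv.Perm.sign ω : ℤˣ) : ℤ) • ren τ G := by
      have h1 := G1 ((τ.trans (Equiv.optionCongr ω)).trans τ.symm) (fun x hx => by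
        rw [hττ]
        rw [hSmem] at hx
        push Not at hx
        rcases x with _ | u
        · simp [hτs, hτn]
        · obtain ⟨i, hi⟩ := hx (by simp)
          simp [hτu, hωfix i u hi])
      rw [Equiv.Perm.sign_trans_trans_symm, Equiv.optionCongr_sign] at h1
      have h2 : Option.map ω ∘ τ = τ ∘ ((τ.trans (Equiv.optionCongr ω)).trans τ.symm) := by
        funext x
        simp
      rw [ren_ren, h2, ← ren_ren, h1, map_zsmul]
    rw [← hωsign]
    have h6 : Option.map π = Option.map (Equiv.optionCongr ρ') ∘ Option.map ω := by
      rw [hπω]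
      funext x
      rcases x with _ | x <;> simp
    rw [h6, ← ren_ren, hωG, map_zsmul, hρG']
  obtain ⟨h, hh1, hh2, hh3⟩ := hIND K (Option U) v k _ ht₁' (ren τ G) HG
  refine ⟨h, ⟨hh1, fun t m hm => ?_⟩, ?_, fun t ht => ?_⟩
  · -- degrees
    rcases hh3 t with h0 | ⟨π, σ, h1, h2⟩
    · rw [h0] at hm
      simp at hm
    · rw [h2, int_smul_support] at hm
      obtain ⟨m1, hm1, rfl⟩ := exists_of_mem_support_ren _ _ hm
      obtain ⟨m2, hm2, rfl⟩ := exists_of_mem_support_ren _ _ hm1
      obtain ⟨g1, g2, g3⟩ := G2 m2 hm2
      have hdeg : ∀ y : Option (Option U),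
          ∑ j, (m2.mapDomain (Prod.map τ id)) (y, j) = ∑ j, m2 (τ y, j) := fun y => by
        rw [ren_perm_deg, hττ]
      have hcard : ∀ y : Option (Option U),
          (Finset.univ.filter fun i => t i = Option.map π y).card =
            (Finset.univ.filter fun i => (Option.map some ∘ t₁) i = y).card := by
        intro y
        refine Finset.card_bij (fun i _ => σ i) (fun i hi => ?_) (fun i _ j _ hij =>
          σ.injective hij) (fun i hi => ⟨σ.symm i, ?_, by simp⟩)
        · simp only [Finset.mem_filter, Finset.mem_univ, true_and] at hi ⊢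
          rw [h1] at hi
          exact Option.map_injective π.injective hi
        · simp only [Finset.mem_filter, Finset.mem_univ, true_and] at hi ⊢
          rw [h1]
          simp only [Function.comp_apply, Equiv.apply_symm_apply]
          rw [← hi]
          rfl
      have hmap : ∀ (m' : Option (Option U) × Fin v →₀ ℕ) (y : Option (Option U)),
          ∑ j, m'.mapDomain (Prod.map (Option.map π) id) (Option.map π y, j) =
            ∑ j, m' (y, j) := by
        intro m' y
        rw [← coe_optionCongr, ren_perm_deg, Equiv.symm_apply_apply]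
      have key1 : ∀ x : Option U, ∑ j, (m2.mapDomain (Prod.map τ id)) (some x, j) +
          (Finset.univ.filter fun i => (Option.map some ∘ t₁) i = some x).card = d := by
        intro x
        rw [hdeg]
        rcases x with _ | u
        · rw [hτs, g1]
          have : (Finset.univ.filter fun i => (Option.map some ∘ t₁) i = some none) = ∅ := by
            rw [Finset.filter_eq_empty_iff]
            intro i _ hi
            rcases h5 : t₁ i with _ | y <;> simp [h5] at hi
          rw [this]
          simp
        · rw [hτu]
          have h4 : (Finset.univ.filter fun i => (Option.map some ∘ t₁) i = some (some u)) =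
              Finset.univ.filter fun i => t₁ i = some u := by
            ext i
            rcases h5 : t₁ i with _ | y <;> simp [h5]
          rw [h4]
          by_cases hx : some u ∈ S
          · rw [g2 _ hx]
            rw [hSmem] at hx
            have : (Finset.univ.filter fun i => t₁ i = some u) = ∅ := by
              rw [Finset.filter_eq_empty_iff]
              exact fun i _ => hx.2 i
            rw [this]
            simp
          · have hx' := hx
            rw [hSmem] at hx'
            push Not at hx'
            obtain ⟨i, hi⟩ := hx' (by simp)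
            have h5 : (Finset.univ.filter fun i => t₁ i = some u) = {i} := by
              ext i'
              simp only [Finset.mem_filter, Finset.mem_univ, true_and, Finset.mem_singleton]
              exact ⟨fun h => hinj (h.trans hi.symm), fun h => by rw [h, hi]⟩
            rw [h5, Finset.card_singleton, G3 (some u) hx (by simp) (d - 1) (fun m' hm' => ?_) m2
              hm2]
            · omega
            · have h6 := (hFdeg m' hm').1 u
              rw [h5, Finset.card_singleton] at h6
              omega
      have key2 : ∑ j, (m2.mapDomain (Prod.map τ id)) (none, j) +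
          (Finset.univ.filter fun i => (Option.map some ∘ t₁) i = none).card + d = r := by
        rw [hdeg, hτn]
        have h4 : (Finset.univ.filter fun i => (Option.map some ∘ t₁) i = none) =
            Finset.univ.filter fun i => t₁ i = none := by
          ext i
          simp
        rw [h4]
        omega
      refine ⟨fun x => ?_, ?_⟩
      · have h7 : (some x : Option (Option U)) = Option.map π (some (π.symm x)) := by simp
        rw [h7, hmap, hcard]
        exact key1 _
      · have h7 := hmap (m2.mapDomain (Prod.map τ id)) none
        have h8 : (Finset.univ.filter fun i => t i = none).card =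
            (Finset.univ.filter fun i => (Option.map some ∘ t₁) i = none).card := by
          simpa using hcard none
        rw [Option.map_none] at h7
        rw [h7, h8]
        exact key2
  · -- the component
    rw [push_sgl, Finset.sum_eq_single (Option.map some ∘ t₁)]
    · rw [hh2, ren_ren, hjτ, hG5]
    · intro s hs hne
      rw [Finset.mem_filter] at hs
      have h2 : ∀ i, Option.join (s i) = t₁ i := fun i => congrFun hs.2 i
      have h3 : ∃ i, s i ≠ Option.map some (t₁ i) := by
        by_contra hcon
        push Not at hcon
        exact hne (funext hcon)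
      obtain ⟨i, hi⟩ := h3
      have h4 : s i = some none := by
        rcases h5 : s i with _ | _ | u
        · rw [← h2 i, h5] at hi
          simp at hi
        · rfl
        · rw [← h2 i, h5] at hi
          simp at hi
      have h5 : t₁ i = none := by
        rw [← h2 i, h4]
        rfl
      have h6 : ¬ ∃ i', s i' = none := by
        rintro ⟨i', hi'⟩
        have h7 : t₁ i' = none := by
          rw [← h2 i', hi']
          rfl
        have h8 := hinj (h7.trans h5.symm)
        subst h8
        rw [h4] at hi'
        simp at hi'
      have h7 : h (sgl K s) = 0 := by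
        rcases hh3 s with h0 | ⟨π, σ, h8, -⟩
        · exact h0
        · exfalso
          apply h6
          refine ⟨σ.symm i, ?_⟩
          rw [h8]
          simp [h5]
      rw [h7, map_zero]
    · intro hcon
      exfalso
      apply hcon
      rw [Finset.mem_filter]
      refine ⟨Finset.mem_univ _, ?_⟩
      funext i
      rcases h5 : t₁ i with _ | y <;> simp [h5]
  · rcases hh3 t with h0 | ⟨π, σ, h8, -⟩
    · exact absurd h0 ht
    · rw [h8]
      constructor
      · rintro ⟨i, hi⟩
        exact ⟨σ i, by simpa using hi⟩
      · rintro ⟨i, hi⟩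
        exact ⟨σ.symm i, by simp [hi]⟩

/-- Tuples of distinct points different from `none`. -/
theorem card_le_of_injective {p : ℕ} (hp : Fintype.card U = p) {t : Fin k → Option U}
    (ht : Function.Injective t) (hn : ¬ ∃ i, t i = none) : k ≤ p := by
  have h1 : ∀ i, ∃ u, t i = some u := fun i => by
    rcases h : t i with _ | u
    · exact absurd ⟨i, h⟩ hn
    · exact ⟨u, rfl⟩
  choose T hT using h1
  have h2 : Function.Injective T := fun i j hij => ht (by rw [hT, hT, hij])
  have h3 := Fintype.card_le_of_injective T h2
  rwa [Fintype.card_fin, hp] at h3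

theorem card_le_of_injective' {p : ℕ} (hp : Fintype.card U = p) {t : Fin k → Option U}
    (ht : Function.Injective t) : k ≤ p + 1 := by
  have h3 := Fintype.card_le_of_injective t ht
  rwa [Fintype.card_fin, Fintype.card_option, hp] at h3

/-- The number of the points which are neither `none` nor in the tuple. -/
theorem card_rest {p : ℕ} (hp : Fintype.card U = p) {t₁ : Fin k → Option U}
    (hinj : Function.Injective t₁) :
    (Finset.univ.filter fun x : Option U => x ≠ none ∧ ∀ i, t₁ i ≠ x).card + k =
      p + (Finset.univ.filter fun i => t₁ i = none).card := by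
  have h1 : (Finset.univ : Finset (Option U)).card = p + 1 := by
    rw [Finset.card_univ, Fintype.card_option, hp]
  have h2 : (Finset.univ.filter fun x : Option U => x ≠ none ∧ ∀ i, t₁ i ≠ x) =
      Finset.univ \ (insert none (Finset.univ.image t₁)) := by
    ext x
    simp only [Finset.mem_filter, Finset.mem_univ, true_and, Finset.mem_sdiff, Finset.mem_insert,
      Finset.mem_image, not_or, not_exists]
  have h3 : (Finset.univ.image t₁).card = k := by
    rw [Finset.card_image_of_injective _ hinj, Finset.card_univ, Fintype.card_fin]
  have h4 : (insert none (Finset.univ.image t₁)).card ≤ (Finset.univ : Finset (Option U)).card :=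
    Finset.card_le_card (Finset.subset_univ _)
  rw [h2, Finset.card_sdiff_of_subset (Finset.subset_univ _), h1]
  rw [h1] at h4
  by_cases hn : ∃ i, t₁ i = none
  · obtain ⟨i, hi⟩ := hn
    have h5 : (Finset.univ.filter fun i => t₁ i = none) = {i} := by
      ext i'
      simp only [Finset.mem_filter, Finset.mem_univ, true_and, Finset.mem_singleton]
      exact ⟨fun h => hinj (h.trans hi.symm), fun h => by rw [h, hi]⟩
    have h6 : (none : Option U) ∈ Finset.univ.image t₁ :=
      Finset.mem_image.2 ⟨i, Finset.mem_univ _, hi⟩
    rw [Finset.insert_eq_of_mem h6, h3] at h4 ⊢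
    rw [h5, Finset.card_singleton]
    omega
  · have h5 : (Finset.univ.filter fun i => t₁ i = none) = ∅ := by
      rw [Finset.filter_eq_empty_iff]
      exact fun i _ hi => hn ⟨i, hi⟩
    have h6 : (none : Option U) ∉ Finset.univ.image t₁ := by
      intro h
      obtain ⟨i, -, hi⟩ := Finset.mem_image.1 h
      exact hn ⟨i, hi⟩
    rw [Finset.card_insert_of_notMem h6, h3] at h4 ⊢
    rw [h5, Finset.card_empty]
    omega

theorem exists_tuple {p : ℕ} (hp : Fintype.card U = p) {k : ℕ} (hk : k ≤ p) :
    ∃ T : Fin k → U, Function.Injective T := by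
  have h : Fintype.card (Fin k) ≤ Fintype.card U := by
    rw [Fintype.card_fin, hp]
    exact hk
  obtain ⟨f⟩ := Function.Embedding.nonempty_of_card_le h
  exact ⟨f, f.injective⟩

end EX

open EX in
/-- Exactness of the super Koszul complex in odd degree `k`. -/
theorem EX_thm (h1 : Stmt_IND) (h2 : Stmt_UNI) : Stmt_EX := by
  intro K _ _ v d p r k hd hk hP1 hP2 U _ _ hU c hc
  -- first step: the components without the point `none`
  have step1 : ∃ h : SA K (Option (Option U)) v k, KC (Option U) v d d r k h ∧
      ∀ t, (¬ ∃ i, t i = none) → (c - push Option.join h) (sgl K t) = 0 := by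
    by_cases hkp : k ≤ p
    · obtain ⟨T, hT⟩ := exists_tuple hU hkp
      have hinj : Function.Injective (some ∘ T) := (Option.some_injective _).comp hT
      have hnn : ¬ ∃ i, (some ∘ T) i = none := by simp
      have hcn : (Finset.univ.filter fun i => (some ∘ T) i = none).card = 0 := by simp
      have hrest := card_rest hU hinj
      rw [hcn] at hrest
      obtain ⟨h, hh1, hh2, -⟩ := STEP (q := p - k) (r'' := r) h1 hd hc hinj
        (fun h => absurd h hnn) (by rw [hcn, add_zero]) (by omega) (hP1 hkp)
      refine ⟨h, hh1, fun t ht => ?_⟩
      have hcz := KZ_sub hc (BND hh1)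
      refine h2 K U v k _ hcz.1.alt _ t hinj ⟨fun h => absurd h hnn, fun h => absurd h ht⟩ ?_
      have h5 : (c - push Option.join h) (sgl K (some ∘ T)) =
          c (sgl K (some ∘ T)) - push Option.join h (sgl K (some ∘ T)) := rfl
      rw [h5, hh2, sub_self]
    · refine ⟨0, KC_zero, fun t ht => ?_⟩
      refine sgl_eq_zero _ _ fun hinj => hkp ?_
      exact card_le_of_injective hU hinj ht
  obtain ⟨h₁, hh₁, hz⟩ := step1
  have hcz := KZ_sub hc (BND hh₁)
  generalize hc' : c - push Option.join h₁ = c' at hz hcz
  -- second step
  have step2 : ∃ h : SA K (Option (Option U)) v k, KC (Option U) v d d r k h ∧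
      c' = push Option.join h := by
    by_cases hkp : k ≤ p + 1
    · rcases r with _ | r'
      · refine ⟨0, KC_zero, ?_⟩
        rw [push_zero]
        refine SA_ext fun t => ?_
        have h5 : (0 : SA K (Option U) v k) (sgl K t) = 0 := rfl
        rw [h5]
        by_cases ht : ∃ i, t i = none
        · obtain ⟨i, hi⟩ := ht
          rw [← MvPolynomial.support_eq_empty, Finset.eq_empty_iff_forall_notMem]
          intro m hm
          have h6 := (hcz.1.deg t m hm).2
          have h7 : 0 < (Finset.univ.filter fun i => t i = none).card :=
            Finset.card_pos.2 ⟨i, by simp [hi]⟩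
          omega
        · exact hz t ht
      · obtain ⟨k', rfl⟩ : ∃ k', k = k' + 1 := ⟨k - 1, by omega⟩
        obtain ⟨T, hT⟩ := exists_tuple hU (show k' ≤ p by omega)
        have hinj : Function.Injective (Fin.cons none (some ∘ T) : Fin (k' + 1) → Option U) := by
          rw [Fin.cons_injective_iff]
          exact ⟨by simp, (Option.some_injective _).comp hT⟩
        have h0 : ∃ i, (Fin.cons none (some ∘ T) : Fin (k' + 1) → Option U) i = none :=
          ⟨0, rfl⟩
        have hcn : (Finset.univ.filter fun i =>
            (Fin.cons none (some ∘ T) : Fin (k' + 1) → Option U) i = none).card = 1 := by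
          rw [Finset.card_eq_one]
          refine ⟨0, ?_⟩
          ext i
          simp only [Finset.mem_filter, Finset.mem_univ, true_and, Finset.mem_singleton]
          exact ⟨fun h => hinj (h.trans rfl), fun h => by rw [h]; rfl⟩
        have hrest := card_rest hU hinj
        rw [hcn] at hrest
        obtain ⟨h, hh1, hh2, hh3⟩ := STEP (q := p + 1 - (k' + 1)) (r'' := r') h1 hd hcz hinj
          (fun _ => hz) (by rw [hcn]) (by omega) (hP2 hkp r' rfl)
        refine ⟨h, hh1, ?_⟩
        have hcz2 := KZ_sub hcz (BND hh1)
        refine SA_ext fun t => ?_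
        have h5 : (c' - push Option.join h) (sgl K t) =
          c' (sgl K t) - push Option.join h (sgl K t) := rfl
        by_cases ht : ∃ i, t i = none
        · rw [← sub_eq_zero, ← h5]
          refine h2 K U v _ _ hcz2.1.alt _ t hinj ⟨fun _ => ht, fun _ => h0⟩ ?_
          have h6 : (c' - push Option.join h)
              (sgl K (Fin.cons none (some ∘ T) : Fin (k' + 1) → Option U)) =
            c' (sgl K (Fin.cons none (some ∘ T) : Fin (k' + 1) → Option U)) -
              push Option.join h
                (sgl K (Fin.cons none (some ∘ T) : Fin (k' + 1) → Option U)) := rfl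
          rw [h6, hh2, sub_self]
        · rw [hz t ht, push_sgl]
          refine (Finset.sum_eq_zero fun s hs => ?_).symm
          rw [Finset.mem_filter] at hs
          have h6 : h (sgl K s) = 0 := by
            by_contra hne
            obtain ⟨i, hi⟩ := (hh3 s hne).2 h0
            apply ht
            refine ⟨i, ?_⟩
            rw [← hs.2, Function.comp_apply, hi]
            rfl
          rw [h6, map_zero]
    · refine ⟨0, KC_zero, ?_⟩
      rw [push_zero]
      refine SA_ext fun t => ?_
      have h5 : (0 : SA K (Option U) v k) (sgl K t) = 0 := rfl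
      rw [h5]
      exact sgl_eq_zero _ _ fun hinj => hkp (card_le_of_injective' hU hinj)
  obtain ⟨h₂, hh₂, hc₂⟩ := step2
  refine ⟨h₁ + h₂, KC_add hh₁ hh₂, ?_⟩
  rw [push_add, ← hc₂, ← hc']
  abel

end Pool.Agent.VSY
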