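import Pool.Agent.VSY.StmtsB
import Pool.Agent.VSY.EX

/-!
# Veronese syzygies (MP_deb8da_ag): module EXA, the first step of the exactness
-/

namespace Pool.Agent.VSY

open MvPolynomial

open EX in
/-- The first step of the exactness of the super Koszul complex. -/
theorem EXA_thm (h1 : Stmt_IND) (h2 : Stmt_UNI) : Stmt_EXA := by
  intro K _ _ v d p r k hd hk hP1 U _ _ hU c hc
  have step1 : ∃ h : SA K (Option (Option U)) v k, KC (Option U) v d d r k h ∧
      ∀ t, (¬ ∃ i, t i = none) → (c - push Option.join h) (sgl K t) = 0 := by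
    by_cases hkp : k ≤ p
    · obtain ⟨T, hT⟩ := exists_tuple hU hkp
      have hinj : Function.Injective (some ∘ T) := (Option.some_injective _).comp hT
      have hnn : ¬ ∃ i, (some ∘ T) i = none := by simp
      have hcn : (Finset.univ.filter fun i => (some ∘ T) i = none).card = 0 := by simp
      have hrest := card_rest hU hinj
      rw [hcn] at hrest
      obtain ⟨h, hh1, hh2, -⟩ := STEP (q := p - k) (r'' := r) h1 hd hc hinj
        (fun h => absurd h hnn) (by rw [hcn, add_zero]) (by omega) (hP1 hkp)
      refine ⟨h, hh1, fun t ht => ?_⟩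
      have hcz := KZ_sub hc (BND hh1)
      refine h2 K U v k _ hcz.1.alt _ t hinj ⟨fun h => absurd h hnn, fun h => absurd h ht⟩ ?_
      have h5 : (c - push Option.join h) (sgl K (some ∘ T)) =
          c (sgl K (some ∘ T)) - push Option.join h (sgl K (some ∘ T)) := rfl
      rw [h5, hh2, sub_self]
    · refine ⟨0, KC_zero, fun t ht => ?_⟩
      refine sgl_eq_zero _ _ fun hinj => hkp ?_
      exact card_le_of_injective hU hinj ht
  obtain ⟨h, hh, hz⟩ := step1
  refine ⟨c - push Option.join h, KZ_sub hc (BND hh), ⟨h, hh, ?_⟩, fun t ht => hz t ?_⟩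
  · rw [sub_sub_cancel]
  · rintro ⟨i, hi⟩
    exact ht i hi

end Pool.Agent.VSY
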