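import Pool.Agent.VSY.QI

/-!
# Veronese syzygies (MP_deb8da_ag): the induction step for the property `(G_i)`
-/

namespace Pool.Agent.VSY

open MvPolynomial

namespace GI

variable {K : Type} [Field K]

theorem InI_ren {U V : Type} {v d i : ℕ} [Fintype U] [DecidableEq V] {φ : Option U → Option V}
    (hφ : φ none = none) {f : PX K (Option U) v} (hf : InI d i f) : InI d i (ren φ f) := by
  intro m hm
  obtain ⟨m', hm', rfl⟩ := exists_of_mem_support_ren _ _ hm
  obtain ⟨l, h1, h2⟩ := hf m' hm'
  refine ⟨l, h1, le_trans h2 ?_⟩
  rw [mapDomain_deg]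
  exact Finset.single_le_sum (f := fun a => m' (a, l)) (fun _ _ => Nat.zero_le _)
    (by simp [hφ])

/-- Substitutions which agree on the points that occur. -/
theorem ren_congr_support {A B : Type} {v : ℕ} {φ ψ : A → B} (f : PX K A v)
    (h : ∀ m ∈ f.support, ∀ x, (∃ j, m (x, j) ≠ 0) → φ x = ψ x) : ren φ f = ren ψ f := by
  have h1 : ∀ θ : A → B, ren θ f = ∑ m ∈ f.support, ren θ (monomial m (coeff m f)) := by
    intro θ
    conv_lhs => rw [f.as_sum]
    rw [map_sum]
  rw [h1, h1]
  refine Finset.sum_congr rfl fun m hm => ?_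
  rw [ren_monomial, ren_monomial]
  have h2 : m.mapDomain (Prod.map φ id) = m.mapDomain (Prod.map ψ (id : Fin v → Fin v)) := by
    refine Finsupp.mapDomain_congr fun x hx => ?_
    obtain ⟨x, j⟩ := x
    rw [Finsupp.mem_support_iff] at hx
    rw [Prod.map_apply, Prod.map_apply, h m hm x ⟨j, hx⟩]
  rw [h2]

/-- The projection which forgets the point `u₀`. -/
def κ {U : Type} [DecidableEq U] (u₀ : U) : Option U → Option {u : U // u ≠ u₀}
  | none => none
  | some u => if h : u ≠ u₀ then some ⟨u, h⟩ else none

theorem κ_some {U : Type} [DecidableEq U] {u₀ u : U} (h : u ≠ u₀) : κ u₀ (some u) = some ⟨u, h⟩ := by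
  simp [κ, h]

end GI

open GI QI in
theorem GI_thm : Stmt_GI := by
  intro K _ _ v d s P i _ hi hP hP1 U _ _ hU f hf hbd
  classical
  refine hP1 U hU f hf fun u₀ => ?_
  set i' : Fin v := ⟨i, hi⟩ with hi'
  set ρ := ren (mg u₀) f with hρ
  set δ : Option U × Fin v →₀ ℕ := Finsupp.single (none, i') d with hδ
  set τ : PX K (Option U) v := divMonomial ρ δ with hτ
  have hcτ : ∀ t, coeff t τ = coeff (δ + t) ρ := by
    intro t
    rw [hτ, coeff_divMonomial]
  have hX : (X (none, i') : PX K (Option U) v) ^ d = monomial δ 1 := by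
    rw [hδ, X_pow_eq_monomial]
  set e' := ρ - X (none, i') ^ d * τ with he'
  have hee : ρ = X (none, i') ^ d * τ + e' := by rw [he']; ring
  have he'I : InI d i e' := by
    intro m hm
    rw [mem_support_iff, he', coeff_sub, hX, coeff_monomial_mul', hcτ] at hm
    by_cases hle : δ ≤ m
    · rw [if_pos hle, one_mul, add_tsub_cancel_of_le hle, sub_self] at hm
      exact absurd rfl hm
    · rw [if_neg hle, sub_zero] at hm
      obtain ⟨l, h1, h2⟩ := hbd u₀ m (by rwa [mem_support_iff])
      rcases Nat.lt_succ_iff_lt_or_eq.1 h1 with h3 | h3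
      · exact ⟨l, h3, h2⟩
      · exfalso
        apply hle
        have : l = i' := Fin.ext h3
        subst this
        rw [hδ, Finsupp.single_le_iff]
        exact h2
  -- the alternation of `ρ`
  have hρalt : ∀ π : Equiv.Perm U, π u₀ = u₀ →
      ren (Option.map π) ρ = ((Equiv.Perm.sign π : ℤˣ) : ℤ) • ρ := by
    intro π hπ
    have h1 : Option.map π ∘ mg u₀ = mg u₀ ∘ Option.map π := by
      funext x
      rcases x with _ | x
      · simp [mg]
      · by_cases hx : x = u₀
        · subst hx
          simp [mg, hπ]
        · have h2 : π x ≠ u₀ := fun h => hx (π.injective (h.trans hπ.symm))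
          simp [mg, hx, h2]
    rw [hρ, ren_ren, h1, ← ren_ren, hf.alt, map_zsmul]
  have hτalt : ∀ π : Equiv.Perm U, π u₀ = u₀ →
      ren (Option.map π) τ = ((Equiv.Perm.sign π : ℤˣ) : ℤ) • τ := by
    intro π hπ
    ext t
    rw [coeff_ren_perm, hcτ]
    have h1 : δ + t.mapDomain (Prod.map (Option.map π.symm) id) =
        (δ + t).mapDomain (Prod.map (Option.map π.symm) id) := by
      rw [Finsupp.mapDomain_add, hδ, Finsupp.mapDomain_single]
      rfl
    rw [h1, ← coeff_ren_perm, hρalt π hπ]
    have h3 : coeff t (((Equiv.Perm.sign π : ℤˣ) : ℤ) • τ) =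
        ((Equiv.Perm.sign π : ℤˣ) : ℤ) • coeff t τ := by
      rw [← coeff_smul]
    rw [h3, hcτ, ← coeff_smul]
  -- the degrees of `ρ` and `τ`
  have hf0 : (Finset.univ.filter fun a : Option U => mg u₀ a = none) = {none, some u₀} := by
    ext a
    simp only [Finset.mem_filter, Finset.mem_univ, true_and, Finset.mem_insert,
      Finset.mem_singleton]
    rcases a with _ | a
    · simp [mg]
    · by_cases ha : a = u₀
      · subst ha; simp [mg]
      · simp [mg, ha]
  have hf1 : ∀ u : U, u ≠ u₀ → (Finset.univ.filter fun a : Option U => mg u₀ a = some u) =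
      {some u} := by
    intro u hu
    ext a
    simp only [Finset.mem_filter, Finset.mem_univ, true_and, Finset.mem_singleton]
    rcases a with _ | a
    · simp [mg]
    · by_cases ha : a = u₀
      · subst ha
        simp [mg, Ne.symm hu]
      · simp [mg, ha]
  have hf2 : (Finset.univ.filter fun a : Option U => mg u₀ a = some u₀) = ∅ := by
    ext a
    simp only [Finset.mem_filter, Finset.mem_univ, true_and, Finset.notMem_empty, iff_false]
    rcases a with _ | a
    · simp [mg]
    · by_cases ha : a = u₀
      · subst ha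
        simp [mg]
      · simp [mg, ha]
  have hρdeg : ∀ m ∈ ρ.support, (∀ u : U, u ≠ u₀ → ∑ j, m (some u, j) = d) ∧
      ∑ j, m (none, j) = s + d ∧ ∑ j, m (some u₀, j) = 0 := by
    intro m hm
    obtain ⟨m', hm', rfl⟩ := exists_of_mem_support_ren _ _ hm
    have h := hf.deg m' hm'
    refine ⟨fun u hu => ?_, ?_, ?_⟩
    · rw [mapDomain_sum, hf1 u hu, Finset.sum_singleton]
      exact h.1 u
    · rw [mapDomain_sum, hf0, Finset.sum_pair (by simp), h.1 u₀]
      have := h.2
      omega
    · rw [mapDomain_sum, hf2, Finset.sum_empty]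
  have hτdeg : ∀ m ∈ τ.support, (∀ u : U, u ≠ u₀ → ∑ j, m (some u, j) = d) ∧
      ∑ j, m (none, j) = s ∧ ∑ j, m (some u₀, j) = 0 := by
    intro m hm
    rw [mem_support_iff, hcτ] at hm
    have h := hρdeg (δ + m) (by rwa [mem_support_iff])
    have h0 : ∀ u : U, ∑ j, (δ + m) (some u, j) = ∑ j, m (some u, j) := by
      intro u
      refine Finset.sum_congr rfl fun j _ => ?_
      rw [Finsupp.add_apply, hδ, Finsupp.single_eq_of_ne (by simp), zero_add]
    refine ⟨fun u hu => ?_, ?_, ?_⟩
    · rw [← h0]
      exact h.1 u hu
    · have h2 := h.2.1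
      simp only [Finsupp.add_apply, Finset.sum_add_distrib] at h2
      have : ∑ j : Fin v, δ (none, j) = d := by
        rw [hδ]
        simp [Finsupp.single_apply]
      rw [this] at h2
      omega
    · rw [← h0]
      exact h.2.2
  -- merging
  have hmg : ∀ u : U, u ≠ u₀ → InI d i (ren (mg u) τ) := by
    intro u hu
    have h1 : ren (mg u) ρ = 0 := by
      have h2 : (mg u ∘ mg u₀) ∘ Option.map (Equiv.swap u u₀) = mg u ∘ mg u₀ := by
        funext x
        rcases x with _ | x
        · rfl
        · by_cases hx : x = u
          · subst hx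
            simp [mg, hu]
          · by_cases hx0 : x = u₀
            · subst hx0
              simp [mg, hu]
            · simp [Equiv.swap_apply_of_ne_of_ne hx hx0]
      have h3 : ren (mg u) ρ = -ren (mg u) ρ := by
        conv_lhs => rw [hρ, ren_ren, ← h2, ← ren_ren, hf.alt]
        rw [Equiv.Perm.sign_swap hu]
        simp [hρ, ren_ren]
      have h4 : (2 : K) • ren (mg u) ρ = 0 := by
        rw [two_smul]
        nth_rewrite 2 [h3]
        exact add_neg_cancel _
      rcases smul_eq_zero.1 h4 with h | h
      · exact absurd h two_ne_zero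
      · exact h
    have h2 : X (none, i') ^ d * ren (mg u) τ = - ren (mg u) e' := by
      have h3 : mg u none = none := by simp [mg]
      have h4 : ren (mg u) ρ = X (none, i') ^ d * ren (mg u) τ + ren (mg u) e' := by
        conv_lhs => rw [hee]
        rw [map_add, map_mul, map_pow, ren_X, h3]
      rw [h1] at h4
      rw [eq_neg_iff_add_eq_zero]
      exact h4.symm
    have h3 : InI d i (X (none, i') ^ d * ren (mg u) τ) := by
      rw [h2]
      exact QI.InI.neg (InI_ren (by simp [mg]) he'I)
    intro m hm
    have hm2 : δ + m ∈ (X (none, i') ^ d * ren (mg u) τ).support := by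
      rw [mem_support_iff, hX, coeff_monomial_mul, one_mul]
      rwa [mem_support_iff] at hm
    obtain ⟨l, h4, h5⟩ := h3 _ hm2
    refine ⟨l, h4, ?_⟩
    have h6 : l ≠ i' := by
      intro h
      rw [h] at h4
      exact lt_irrefl _ h4
    rw [Finsupp.add_apply, hδ, Finsupp.single_eq_of_ne (by simpa using h6), zero_add] at h5
    exact h5
  -- the chain on the other points
  have hno : ∀ m ∈ τ.support, ∀ x, (∃ j, m (x, j) ≠ 0) → x ≠ some u₀ := by
    rintro m hm x ⟨j, hj⟩ rfl
    have h := (hτdeg m hm).2.2
    rw [Finset.sum_eq_zero_iff] at h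
    exact hj (h j (Finset.mem_univ _))
  set τ' : PX K (Option {u : U // u ≠ u₀}) v := ren (κ u₀) τ with hτ'
  have hback : ren (Option.map Subtype.val) τ' = τ := by
    rw [hτ', ren_ren]
    have h1 : ren (Option.map Subtype.val ∘ κ u₀) τ = ren id τ := by
      refine ren_congr_support τ fun m hm x hx => ?_
      have h2 := hno m hm x hx
      rcases x with _ | x
      · rfl
      · have h3 : x ≠ u₀ := fun h => h2 (by rw [h])
        simp [κ_some h3]
    rw [h1, ren_id]
  have hC : InC {u : U // u ≠ u₀} v d 0 s τ' := by
    refine ⟨fun π => ?_, fun m hm => ?_⟩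
    · have h1 : ren (Option.map π ∘ κ u₀) τ =
          ren (κ u₀ ∘ Option.map (Equiv.Perm.ofSubtype π)) τ := by
        refine ren_congr_support τ fun m hm x hx => ?_
        have h2 := hno m hm x hx
        rcases x with _ | x
        · rfl
        · have h3 : x ≠ u₀ := fun h => h2 (by rw [h])
          have h4 : Equiv.Perm.ofSubtype π x = ((π ⟨x, h3⟩ : {u : U // u ≠ u₀}) : U) :=
            Equiv.Perm.ofSubtype_apply_of_mem π h3
          rw [Function.comp_apply, Function.comp_apply, κ_some h3, Option.map_some,
            Option.map_some, h4, κ_some (π ⟨x, h3⟩).2]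
      have h5 : Equiv.Perm.ofSubtype π u₀ = u₀ :=
        Equiv.Perm.ofSubtype_apply_of_not_mem π (by simp)
      rw [hτ', ren_ren, h1, ← ren_ren, hτalt _ h5, map_zsmul, Equiv.Perm.sign_ofSubtype]
    · obtain ⟨m', hm', rfl⟩ := exists_of_mem_support_ren _ _ hm
      have h := hτdeg m' hm'
      refine ⟨fun u => ?_, ?_⟩
      · have hfl : (Finset.univ.filter fun a : Option U => κ u₀ a = some u) = {some u.1} := by
          ext a
          simp only [Finset.mem_filter, Finset.mem_univ, true_and, Finset.mem_singleton]
          rcases a with _ | a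
          · simp [κ]
          · by_cases ha : a = u₀
            · subst ha
              have := u.2
              simp [κ, Ne.symm this]
            · rw [κ_some ha]
              simp [Subtype.ext_iff]
        rw [mapDomain_sum, hfl, Finset.sum_singleton]
        exact h.1 u.1 u.2
      · have hfl : (Finset.univ.filter fun a : Option U => κ u₀ a = none) = {none, some u₀} := by
          ext a
          simp only [Finset.mem_filter, Finset.mem_univ, true_and, Finset.mem_insert,
            Finset.mem_singleton]
          rcases a with _ | a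
          · simp [κ]
          · by_cases ha : a = u₀
            · subst ha
              simp [κ]
            · rw [κ_some ha]
              simp [ha]
        rw [mapDomain_sum, hfl, Finset.sum_pair (by simp), h.2.1, h.2.2]
        omega
  have hcard : Fintype.card {u : U // u ≠ u₀} = P := by
    rw [Fintype.card_subtype_compl, hU, Fintype.card_subtype_eq]
    rfl
  have hz : τ' = 0 := by
    refine hP _ hcard τ' hC fun u => ?_
    have h1 : mg u ∘ κ u₀ = κ u₀ ∘ mg u.1 := by
      funext x
      rcases x with _ | x
      · simp [mg, κ]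
      · by_cases hx : x = u₀
        · subst hx
          have := u.2
          simp [mg, κ, Ne.symm this]
        · rw [Function.comp_apply, κ_some hx]
          by_cases hx2 : x = u.1
          · subst hx2
            simp [mg, κ]
          · have h2 : (⟨x, hx⟩ : {u : U // u ≠ u₀}) ≠ u := fun h => hx2 (by rw [← h])
            have h3 : (some (⟨x, hx⟩ : {u : U // u ≠ u₀})) ≠ some u := by simpa using h2
            have h4 : (some x : Option U) ≠ some u.1 := by simpa using hx2
            simp only [mg, Function.comp_apply]
            rw [Function.update_of_ne h3, Function.update_of_ne h4, id, id, κ_some hx]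
    rw [hτ', ren_ren, h1, ← ren_ren]
    exact InI_ren rfl (hmg u.1 u.2)
  have hz0 : τ = 0 := by
    rw [← hback, hz, map_zero]
  rw [hee, hz0, mul_zero, zero_add]
  exact he'I

end Pool.Agent.VSY
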