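import Pool.Agent.VSY.StmtsB

/-!
# HWL: highest weight vectors with at least three rows are boundaries
-/

namespace Pool.Agent.VSY

open MvPolynomial

theorem HWL_thm (h1 : Stmt_CAPM) (h2 : Stmt_OPS) (h3 : Stmt_PAR) (h4 : Stmt_EX) (h5 : Stmt_LOW)
    (h6 : Stmt_WB) : Stmt_HWL := by
  intro K _ _ N m hN ν y hy hν hj hhw
  obtain ⟨j, hj, hνj⟩ := hj
  have hm : 2 < m := by omega
  obtain ⟨a1, a2, a3, a4, -⟩ := h2 K (Fin N) m (N + 1) (2 * N)
  obtain ⟨-, -, -, -, hW, -⟩ := h6 K (Option (Fin N)) (Option (Fin N)) m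
  have hL : ([⟨0, by omega⟩, ⟨1, by omega⟩, j] : List (Fin m)).Pairwise (· < ·) := by
    have e1 : (⟨0, by omega⟩ : Fin m) < ⟨1, by omega⟩ := by
      rw [Fin.lt_def]
      exact Nat.zero_lt_one
    have e2 : (⟨0, by omega⟩ : Fin m) < j := by
      rw [Fin.lt_def]
      exact lt_of_lt_of_le (by norm_num) hj
    have e3 : (⟨1, by omega⟩ : Fin m) < j := by
      rw [Fin.lt_def]
      exact lt_of_lt_of_le (by norm_num) hj
    simp [e1, e2, e3]
  have hc := h1 K (Option (Fin N)) m (BB K (Fin N) m (N + 1) (2 * N))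
    (fun i j f hf => a2 i j f hf) ν y (fun i => hW ν y i hν) (fun i j hij => hhw i j hij) _ hL
  have hk := a3 [⟨0, by omega⟩, ⟨1, by omega⟩, j] y hy
  have hb := h4 K m (N + 1) N (2 * N) 3 (by omega) (by norm_num)
    (fun h => h3 K m (N + 1) (N - 3) (2 * N) (h5 K m (N + 1) (N - 3) (2 * N) (by omega) (by omega)))
    (fun h r' hr' => h3 K m (N + 1) (N + 1 - 3) r'
      (h5 K m (N + 1) (N + 1 - 3) r' (by omega) (by omega)))
    (Fin N) (Fintype.card_fin N) _ hk
  have hcap := a4 [⟨0, by omega⟩, ⟨1, by omega⟩, j] _ hb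
  have hsm : (capc ν [⟨0, by omega⟩, ⟨1, by omega⟩, j] : K) • y ∈
      BB K (Fin N) m (N + 1) (2 * N) := by
    have h7 := Submodule.sub_mem _ (mem_BB.2 hcap) hc
    rwa [sub_sub_cancel] at h7
  have hne : (capc ν [⟨0, by omega⟩, ⟨1, by omega⟩, j] : K) ≠ 0 := by
    rw [Nat.cast_ne_zero]
    simp only [capc, List.length_cons, List.length_nil]
    have h8 : 0 < ν j := hνj
    positivity
  exact mem_BB.1 ((Submodule.smul_mem_iff _ hne).1 hsm)

end Pool.Agent.VSY
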