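import Mathlib
import Pool.Agent.VSY.Stmts

/-!
# Veronese syzygies: an alternating super polynomial with a prescribed component
-/

namespace Pool.Agent.VSY

open MvPolynomial

namespace IND

variable {K : Type} [Field K] {U : Type} {v k : ℕ}

theorem map_map_inv (π : Equiv.Perm U) (x : Option U) :
    Option.map π (Option.map (π⁻¹ : Equiv.Perm U) x) = x := by
  cases x <;> simp

theorem map_inv_map (π : Equiv.Perm U) (x : Option U) :
    Option.map (π⁻¹ : Equiv.Perm U) (Option.map π x) = x := by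
  cases x <;> simp

theorem ai {ι : Type} (σ : Equiv.Perm ι) (i : ι) : σ ((σ⁻¹ : Equiv.Perm ι) i) = i :=
  σ.apply_symm_apply i

theorem map_mul' (π π' : Equiv.Perm U) :
    Option.map (π : U → U) ∘ Option.map (π' : U → U) = Option.map ((π * π' : Equiv.Perm U) : U → U) := by
  funext x
  cases x <;> rfl

/-- The determinant form. -/
noncomputable def c0 (t₁ : Fin k → Option U) (G : PX K (Option U) v) : SA K (Option U) v k :=
  (LinearMap.toSpanSingleton K (PX K (Option U) v) G).compAlternatingMap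
    ((Matrix.detRowAlternating (n := Fin k) (R := K)).compLinearMap (LinearMap.funLeft K K t₁))

theorem c0_apply (t₁ : Fin k → Option U) (G : PX K (Option U) v) (ξ : Fin k → Option U → K) :
    c0 t₁ G ξ = (Matrix.det (Matrix.of fun i j => ξ i (t₁ j))) • G := rfl

/-- Substitution is additive. -/
noncomputable def pushHom {A B : Type} (φ : A → B) : SA K A v k →+ SA K B v k :=
  AddMonoidHom.mk' (push φ) (push_add φ)

theorem push_sum {A B ι : Type} (φ : A → B) (s : Finset ι) (f : ι → SA K A v k) :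
    push φ (∑ i ∈ s, f i) = ∑ i ∈ s, push φ (f i) :=
  map_sum (pushHom φ) f s

theorem eval_sum {A ι : Type} (s : Finset ι) (f : ι → SA K A v k) (ξ : Fin k → A → K) :
    (∑ i ∈ s, f i) ξ = ∑ i ∈ s, f i ξ :=
  map_sum (AddMonoidHom.mk' (fun c : SA K A v k => c ξ) (fun _ _ => rfl)) f s

variable [DecidableEq U] {t₁ : Fin k → Option U} {G : PX K (Option U) v}

theorem c0_self (h : Function.Injective t₁) : c0 t₁ G (sgl K t₁) = G := by
  rw [c0_apply]
  have h1 : (Matrix.of fun i j => sgl K t₁ i (t₁ j)) = (1 : Matrix (Fin k) (Fin k) K) := by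
    ext i j
    rw [Matrix.of_apply, sgl, Pi.single_apply, Matrix.one_apply]
    by_cases hij : i = j
    · rw [if_pos hij, if_pos (by rw [hij])]
    · rw [if_neg hij, if_neg (fun h2 => hij (h h2).symm)]
  rw [h1, Matrix.det_one, one_smul]

theorem c0_comp (h : Function.Injective t₁) (σ : Equiv.Perm (Fin k)) :
    c0 t₁ G (sgl K (t₁ ∘ σ)) = ((Equiv.Perm.sign σ : ℤˣ) : ℤ) • G := by
  rw [sgl_perm, c0_self h]

theorem c0_ne {t : Fin k → Option U} (ht : c0 t₁ G (sgl K t) ≠ 0) :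
    ∃ σ : Equiv.Perm (Fin k), t = t₁ ∘ σ := by
  rw [c0_apply, Matrix.det_apply] at ht
  have h1 : (∑ σ : Equiv.Perm (Fin k), Equiv.Perm.sign σ •
      ∏ i, (Matrix.of fun i j => sgl K t i (t₁ j)) (σ i) i) ≠ 0 := by
    intro h0
    apply ht
    rw [h0, zero_smul]
  obtain ⟨σ, -, hσ⟩ := Finset.exists_ne_zero_of_sum_ne_zero h1
  have h2 : ∏ i, (Matrix.of fun i j => sgl K t i (t₁ j)) (σ i) i ≠ 0 := by
    intro h0
    apply hσ
    rw [h0, smul_zero]
  rw [Finset.prod_ne_zero_iff] at h2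
  refine ⟨σ⁻¹, ?_⟩
  funext i
  have h3 := h2 (σ⁻¹ i) (Finset.mem_univ _)
  rw [Matrix.of_apply, ai, sgl, Pi.single_apply] at h3
  by_contra hne
  apply h3
  rw [if_neg (fun h4 => hne h4.symm)]

theorem push_map (π : Equiv.Perm U) (c : SA K (Option U) v k) (t : Fin k → Option U) :
    push (Option.map π) c (sgl K t) =
      ren (Option.map π) (c (sgl K (Option.map (π⁻¹ : Equiv.Perm U) ∘ t))) := by
  rw [push_apply]
  congr 2
  funext i a
  show (Pi.single (t i) (1 : K) : Option U → K) (Option.map π a) =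
    (Pi.single (Option.map (π⁻¹ : Equiv.Perm U) (t i)) (1 : K) : Option U → K) a
  rw [Pi.single_apply, Pi.single_apply]
  by_cases h : Option.map π a = t i
  · rw [if_pos h, if_pos (by rw [← h, map_inv_map])]
  · rw [if_neg h, if_neg (fun h2 => h (by rw [h2, map_map_inv]))]

variable [Fintype U]

/-- The antisymmetrisation. -/
noncomputable def c1 (t₁ : Fin k → Option U) (G : PX K (Option U) v) : SA K (Option U) v k :=
  ∑ π : Equiv.Perm U, ((Equiv.Perm.sign π : ℤˣ) : ℤ) • push (Option.map π) (c0 t₁ G)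

theorem c1_alt (π : Equiv.Perm U) :
    push (Option.map π) (c1 t₁ G) = ((Equiv.Perm.sign π : ℤˣ) : ℤ) • c1 t₁ G := by
  rw [c1, push_sum, Finset.smul_sum]
  refine Fintype.sum_equiv (Equiv.mulLeft π) _ _ fun ρ => ?_
  rw [push_zsmul, push_push, map_mul', Equiv.coe_mulLeft, smul_smul, map_mul, Units.val_mul,
    ← mul_assoc, ← Units.val_mul (Equiv.Perm.sign π) (Equiv.Perm.sign π),
    ← sq (Equiv.Perm.sign π), Int.units_sq, Units.val_one, one_mul]

theorem c1_apply (t : Fin k → Option U) :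
    c1 t₁ G (sgl K t) = ∑ π : Equiv.Perm U, ((Equiv.Perm.sign π : ℤˣ) : ℤ) •
      ren (Option.map π) (c0 t₁ G (sgl K (Option.map (π⁻¹ : Equiv.Perm U) ∘ t))) := by
  rw [c1, eval_sum]
  refine Finset.sum_congr rfl fun π _ => ?_
  rw [AlternatingMap.smul_apply, push_map]

open Classical in
theorem c1_self (h : Function.Injective t₁)
    (hG : ∀ (π : Equiv.Perm U) (σ : Equiv.Perm (Fin k)), Option.map π ∘ t₁ = t₁ ∘ σ →
      ren (Option.map π) G = ((Equiv.Perm.sign π * Equiv.Perm.sign σ : ℤˣ) : ℤ) • G) :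
    c1 t₁ G (sgl K t₁) = (Finset.univ.filter fun π : Equiv.Perm U =>
      ∃ σ : Equiv.Perm (Fin k), Option.map π ∘ t₁ = t₁ ∘ σ).card • G := by
  rw [c1_apply, ← Finset.sum_const, Finset.sum_filter]
  refine Finset.sum_congr rfl fun π _ => ?_
  split_ifs with hπ
  · obtain ⟨σ, hσ⟩ := hπ
    have h1 : Option.map (π⁻¹ : Equiv.Perm U) ∘ t₁ = t₁ ∘ (σ⁻¹ : Equiv.Perm (Fin k)) := by
      funext i
      have h2 := congrFun hσ (σ⁻¹ i)
      simp only [Function.comp_apply, ai] at h2 ⊢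
      rw [← h2, map_inv_map]
    rw [h1, c0_comp h, map_zsmul, hG π σ hσ, smul_smul, smul_smul, Equiv.Perm.sign_inv]
    have h3 : ((Equiv.Perm.sign π : ℤˣ) : ℤ) * ((Equiv.Perm.sign σ : ℤˣ) : ℤ) *
        ((Equiv.Perm.sign π * Equiv.Perm.sign σ : ℤˣ) : ℤ) = 1 := by
      rw [← Units.val_mul, ← Units.val_mul, ← sq, Int.units_sq, Units.val_one]
    rw [h3, one_smul]
  · have h1 : c0 t₁ G (sgl K (Option.map (π⁻¹ : Equiv.Perm U) ∘ t₁)) = 0 := by
      by_contra hne
      obtain ⟨σ, hσ⟩ := c0_ne hne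
      apply hπ
      refine ⟨σ⁻¹, ?_⟩
      funext i
      have h2 := congrFun hσ (σ⁻¹ i)
      simp only [Function.comp_apply, ai] at h2 ⊢
      rw [← h2, map_map_inv]
    rw [h1, map_zero, smul_zero]

theorem c1_comp (c : SA K (Option U) v k)
    (hc : ∀ π : Equiv.Perm U, push (Option.map π) c = ((Equiv.Perm.sign π : ℤˣ) : ℤ) • c)
    (t₁ : Fin k → Option U) (π : Equiv.Perm U) (σ : Equiv.Perm (Fin k)) :
    c (sgl K (Option.map π ∘ t₁ ∘ σ)) =
      ((Equiv.Perm.sign π * Equiv.Perm.sign σ : ℤˣ) : ℤ) • ren (Option.map π) (c (sgl K t₁)) := by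
  have h1 := push_map π c (Option.map π ∘ t₁)
  have h2 : Option.map (π⁻¹ : Equiv.Perm U) ∘ Option.map π ∘ t₁ = t₁ := by
    funext i
    exact map_inv_map π (t₁ i)
  rw [h2, hc π, AlternatingMap.smul_apply] at h1
  have h3 := sgl_perm c (Option.map π ∘ t₁) σ
  have h4 : c (sgl K (Option.map π ∘ t₁)) =
      ((Equiv.Perm.sign π : ℤˣ) : ℤ) • ren (Option.map π) (c (sgl K t₁)) := by
    rw [← h1, smul_smul, ← Units.val_mul, ← sq, Int.units_sq, Units.val_one, one_smul]
  rw [← Function.comp_assoc, h3, h4, smul_smul, ← Units.val_mul, mul_comm (Equiv.Perm.sign σ)]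

end IND

/-- IND: an alternating super polynomial with a prescribed component. -/
theorem IND_thm : Stmt_IND := by
  classical
  intro K _ _ U _ _ v k t₁ ht G hG
  set N := (Finset.univ.filter fun π : Equiv.Perm U =>
      ∃ σ : Equiv.Perm (Fin k), Option.map π ∘ t₁ = t₁ ∘ σ).card with hN
  have hN0 : (N : K) ≠ 0 := by
    rw [Nat.cast_ne_zero, hN, Finset.card_ne_zero]
    refine ⟨1, ?_⟩
    rw [Finset.mem_filter]
    refine ⟨Finset.mem_univ _, 1, ?_⟩
    funext i
    simp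
  have h1 : ∀ π : Equiv.Perm U, push (Option.map π) ((N : K)⁻¹ • IND.c1 t₁ G) =
      ((Equiv.Perm.sign π : ℤˣ) : ℤ) • ((N : K)⁻¹ • IND.c1 t₁ G) := by
    intro π
    rw [push_smul, IND.c1_alt, smul_comm]
  have h2 : ((N : K)⁻¹ • IND.c1 t₁ G) (sgl K t₁) = G := by
    rw [AlternatingMap.smul_apply, IND.c1_self ht hG, ← hN, ← Nat.cast_smul_eq_nsmul K, smul_smul,
      inv_mul_cancel₀ hN0, one_smul]
  refine ⟨(N : K)⁻¹ • IND.c1 t₁ G, h1, h2, fun t => ?_⟩
  by_cases h3 : IND.c1 t₁ G (sgl K t) = 0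
  · left
    rw [AlternatingMap.smul_apply, h3, smul_zero]
  · right
    rw [IND.c1_apply] at h3
    obtain ⟨π, -, hπ⟩ := Finset.exists_ne_zero_of_sum_ne_zero h3
    have h4 : IND.c0 t₁ G (sgl K (Option.map (π⁻¹ : Equiv.Perm U) ∘ t)) ≠ 0 := by
      intro h0
      apply hπ
      rw [h0, map_zero, smul_zero]
    obtain ⟨σ, hσ⟩ := IND.c0_ne h4
    have h5 : t = Option.map π ∘ t₁ ∘ σ := by
      funext i
      have h6 := congrFun hσ i
      simp only [Function.comp_apply] at h6 ⊢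
      rw [← h6, IND.map_map_inv]
    refine ⟨π, σ, h5, ?_⟩
    have h7 := IND.c1_comp _ h1 t₁ π σ
    rw [h2, ← h5] at h7
    exact h7

end Pool.Agent.VSY
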