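import Pool.Agent.VSY.DefsB
import Pool.Agent.VSY.Stmts

/-!
# Veronese syzygies (MP_deb8da_ag): the statements of the modules for Theorem B
-/

namespace Pool.Agent.VSY

open MvPolynomial

/-- LOW: vanishing for `r ≥ d + p`. -/
def Stmt_LOW : Prop :=
  ∀ (K : Type) [Field K] [CharZero K] (v d p r : ℕ), 1 ≤ d → d + p ≤ r → Van K v d p r

/-- VU: it suffices to prove the vanishing for one set of alternating points. -/
def Stmt_VU : Prop :=
  ∀ (K : Type) [Field K] (v d p r : ℕ) (U : Type) [Fintype U] [DecidableEq U],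
    Fintype.card U = p → (∀ f : PX K (Option U) v, InZ U v d r f → InB U v d r f) → Van K v d p r

/-- QIE: the induction step for `(Q_i)`, one element. -/
def Stmt_QIE : Prop :=
  ∀ (K : Type) [Field K] [CharZero K] (v d r i : ℕ), i < v →
    ∀ (U : Type) [Fintype U] [DecidableEq U] (f : PX K (Option U) v), InC U v d 0 r f →
      (∀ u, InI d i (ren (mg u) f)) →
      (∃ g : PX K (Option (Option U)) v, InC (Option U) v d d r g ∧
        InI d (i + 1) (f - ren Option.join g)) →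
      ∃ g : PX K (Option (Option U)) v, InC (Option U) v d d r g ∧ InI d i (f - ren Option.join g)

/-- WB: weights, and the operators as derivations. -/
def Stmt_WB : Prop :=
  ∀ (K : Type) [Field K] (A B : Type) [Fintype A] [DecidableEq A] [Fintype B] [DecidableEq B]
    (v : ℕ),
    (∀ (ν : Fin v → ℕ) (f g : PX K A v), HasW ν f → HasW ν g → HasW ν (f + g)) ∧
    (∀ (ν : Fin v → ℕ) (a : K) (f : PX K A v), HasW ν f → HasW ν (a • f)) ∧
    (∀ (ν μ : Fin v → ℕ) (f g : PX K A v), HasW ν f → HasW μ g → HasW (ν + μ) (f * g)) ∧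
    (∀ (ν : Fin v → ℕ) (φ : A → B) (f : PX K A v), HasW ν f → HasW ν (ren φ f)) ∧
    (∀ (ν : Fin v → ℕ) (f : PX K A v) (i : Fin v), HasW ν f → Eij i i f = (ν i : K) • f) ∧
    (∀ (ν ν' : Fin v → ℕ) (f : PX K A v) (i j : Fin v), HasW ν f →
      (∀ l, ν' l + (if l = j then 1 else 0) = ν l + (if l = i then 1 else 0)) →
      HasW ν' (Eij i j f)) ∧
    (∀ (ν : Fin v → ℕ) (f : PX K A v) (i j : Fin v), HasW ν f → ν j = 0 → Eij i j f = 0) ∧
    (∀ (ν : Fin v → ℕ) (f : PX K A v),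
      HasW ν (weightedHomogeneousComponent
        (fun x : A × Fin v => (Pi.single x.2 1 : _ → ℕ)) ν f)) ∧
    (∀ (ν μ : Fin v → ℕ) (f : PX K A v), HasW ν f →
      weightedHomogeneousComponent (fun x : A × Fin v => (Pi.single x.2 1 : _ → ℕ)) μ f =
        if μ = ν then f else 0) ∧
    (∀ (i j : Fin v) (f g : PX K A v), Eij i j (f * g) = f * Eij i j g + Eij i j f * g) ∧
    (∀ (i j : Fin v) (x : A) (l : Fin v),
      Eij i j (X (x, l) : PX K A v) = if j = l then X (x, i) else 0) ∧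
    (∀ (i j k l : Fin v) (f : PX K A v), Eij i j (Eij k l f) = Eij k l (Eij i j f) +
      (if j = k then Eij i l f else 0) - (if l = i then Eij k j f else 0)) ∧
    (∀ (i j : Fin v) (x : A) (a : MvPolynomial (Fin v) K),
      Eij i j (atp x a) = atp x (E1 i j a))

/-- OPW: boundaries are closed under weight components, products with forms in `w`, permutations
of the coordinates. -/
def Stmt_OPW : Prop :=
  ∀ (K : Type) [Field K] (U : Type) [Fintype U] [DecidableEq U] (v d r : ℕ),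
    (∀ (f : PX K (Option U) v) (ν : Fin v → ℕ), InB U v d r f →
      InB U v d r (weightedHomogeneousComponent
        (fun x : Option U × Fin v => (Pi.single x.2 1 : _ → ℕ)) ν f)) ∧
    (∀ (s : ℕ) (a : MvPolynomial (Fin v) K) (f : PX K (Option U) v), a.IsHomogeneous s →
      InB U v d r f → InB U v d (r + s) (atp none a * f)) ∧
    (∀ (s : ℕ) (a : MvPolynomial (Fin v) K) (f : PX K (Option U) v), a.IsHomogeneous s →
      InZ U v d r f → InZ U v d (r + s) (atp none a * f)) ∧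
    (∀ (σ : Equiv.Perm (Fin v)) (f : PX K (Option U) v), InB U v d r f →
      InB U v d r (sw σ f)) ∧
    (∀ (σ : Equiv.Perm (Fin v)) (f : PX K (Option U) v), InZ U v d r f →
      InZ U v d r (sw σ f)) ∧
    (∀ (σ : Equiv.Perm (Fin v)) (f : PX K (Option U) v), sw σ⁻¹ (sw σ f) = f)

/-- Z1C: the cycles `z_1` and `τ`. -/
def Stmt_Z1C : Prop :=
  ∀ (K : Type) [Field K] [CharZero K] (N v : ℕ) (i j : Fin v), i ≠ j →
    InZ (Fin N) v (N + 1) N (z1 K N v i j) ∧
    InZ (Fin N) v (N + 1) (2 * N) (tau K N v i j) ∧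
    HasW (Pi.single i (cN N) + Pi.single j (eN N)) (z1 K N v i j) ∧
    HasW (Pi.single i (cN N) + Pi.single j (cN N)) (tau K N v i j) ∧
    InB (Fin N) v (N + 1) (N + 1) (X (none, i) * z1 K N v i j) ∧
    (∀ (m : ℕ) (h : v ≤ m), up h (tau K N v i j) = tau K N m (Fin.castLE h i) (Fin.castLE h j)) ∧
    (∀ σ : Equiv.Perm (Fin v), sw σ (tau K N v i j) = tau K N v (σ i) (σ j))

/-- T2V: two variables. -/
def Stmt_T2V : Prop :=
  ∀ (K : Type) [Field K] [CharZero K] (N : ℕ), 1 ≤ N →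
    ∀ f : PX K (Option (Fin N)) 2, InZ (Fin N) 2 (N + 1) (2 * N) f →
      ∃ a : K, InB (Fin N) 2 (N + 1) (2 * N) (f - a • tau K N 2 0 1)

/-- TGEN: the space of cycles is generated by `τ` modulo boundaries. -/
def Stmt_TGEN : Prop :=
  ∀ (K : Type) [Field K] [CharZero K] (N v : ℕ), 1 ≤ N →
    ∀ M : Submodule K (PX K (Option (Fin N)) (v + 2)),
      (∀ f, InB (Fin N) (v + 2) (N + 1) (2 * N) f → f ∈ M) →
      (∀ i j, ∀ f ∈ M, Eij i j f ∈ M) → tau K N (v + 2) 0 1 ∈ M →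
      ∀ f, InZ (Fin N) (v + 2) (N + 1) (2 * N) f → f ∈ M

/-- HWL: highest weight vectors with at least three rows are boundaries. -/
def Stmt_HWL : Prop :=
  ∀ (K : Type) [Field K] [CharZero K] (N m : ℕ), 1 ≤ N →
    ∀ (ν : Fin m → ℕ) (y : PX K (Option (Fin N)) m), InZ (Fin N) m (N + 1) (2 * N) y →
      HasW ν y → (∃ j : Fin m, 2 ≤ j.val ∧ 1 ≤ ν j) →
      (∀ i j : Fin m, i < j → InB (Fin N) m (N + 1) (2 * N) (Eij i j y)) →
      InB (Fin N) m (N + 1) (2 * N) y

/-- TMX: vectors of weight `ν` with `ν_0 > c` are boundaries. -/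
def Stmt_TMX : Prop :=
  ∀ (K : Type) [Field K] [CharZero K] (N v : ℕ), 1 ≤ N →
    ∀ (ν : Fin (v + 2) → ℕ) (y : PX K (Option (Fin N)) (v + 2)),
      InZ (Fin N) (v + 2) (N + 1) (2 * N) y → HasW ν y → cN N < ν 0 →
      InB (Fin N) (v + 2) (N + 1) (2 * N) y

/-- T3M -/
def Stmt_T3M : Prop :=
  ∀ (K : Type) [Field K] [CharZero K] (N a b : ℕ) (p : MvPolynomial (Fin 4) K), 1 ≤ N →
    p.IsHomogeneous (N - 1) →
    InB (Fin N) 4 (N + 1) (2 * N) (atp none (X 0 * p) * EE a b (z1 K N 4 0 1))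

/-- T4M -/
def Stmt_T4M : Prop :=
  ∀ (K : Type) [Field K] [CharZero K] (N a b : ℕ), 1 ≤ N → a + b ≤ eN N →
    InB (Fin N) 4 (N + 1) (2 * N)
      (X (none, 1) ^ N * EE a b (z1 K N 4 0 1) - rho K N (a + b) 0 • EE a b (tau K N 4 0 1))

/-- T5M -/
def Stmt_T5M : Prop :=
  ∀ (K : Type) [Field K] [CharZero K] (N i l a b : ℕ), 3 ≤ N → i + l ≤ N →
    a + b + (i + l) ≤ 2 * N →
    InB (Fin N) 4 (N + 1) (2 * N)
      (atp none (X 1 ^ (N - (i + l)) * X 2 ^ i * X 3 ^ l) * EE a b (z1 K N 4 0 1) -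
        rho K N (a + b) (i + l) • EE (a + i) (b + l) (tau K N 4 0 1))

/-- ASM: alternating sums. -/
def Stmt_ASM : Prop :=
  ∀ (K : Type) [Field K] (U : Type) [Fintype U] [DecidableEq U] (v : ℕ),
    (∀ (d s r : ℕ) (F : PX K (Option U) v),
      (∀ m ∈ F.support, (∀ u : U, ∑ j, m (some u, j) = d) ∧ ∑ j, m (none, j) + s = r) →
      InC U v d s r
        (∑ π : Equiv.Perm U, ((Equiv.Perm.sign π : ℤˣ) : ℤ) • ren (Option.map π) F)) ∧
    (∀ F : PX K (Option (Option U)) v,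
      ren Option.join
        (∑ π : Equiv.Perm (Option U), ((Equiv.Perm.sign π : ℤˣ) : ℤ) • ren (Option.map π) F) =
      ∑ σ : Equiv.Perm U, ((Equiv.Perm.sign σ : ℤˣ) : ℤ) • ren (Option.map σ)
        (ren Option.join F -
          ∑ u : U, ren (Option.join ∘ Option.map (Equiv.swap none (some u))) F))

/-- LLN: linearity, symmetry and equivariance of `Λ`. -/
def Stmt_LLN : Prop :=
  ∀ (K : Type) [Field K] [CharZero K] (N : ℕ),
    (∀ (a a' b c : MvPolynomial (Fin 4) K) (z : PX K (Option (Fin N)) 4),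
      Lam N (a + a') b c z = Lam N a b c z + Lam N a' b c z) ∧
    (∀ (t : K) (a b c : MvPolynomial (Fin 4) K) (z : PX K (Option (Fin N)) 4),
      Lam N (t • a) b c z = t • Lam N a b c z) ∧
    (∀ (a b c : MvPolynomial (Fin 4) K) (z z' : PX K (Option (Fin N)) 4),
      Lam N a b c (z + z') = Lam N a b c z + Lam N a b c z') ∧
    (∀ (t : K) (a b c : MvPolynomial (Fin 4) K) (z : PX K (Option (Fin N)) 4),
      Lam N a b c (t • z) = t • Lam N a b c z) ∧
    (∀ (a b c : MvPolynomial (Fin 4) K) (z : PX K (Option (Fin N)) 4),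
      Lam N b a c z = Lam N a b c z) ∧
    (∀ (a b c : MvPolynomial (Fin 4) K) (z : PX K (Option (Fin N)) 4),
      Lam N a c b z = Lam N a b c z) ∧
    (∀ (i j : Fin 4) (a b c : MvPolynomial (Fin 4) K) (z : PX K (Option (Fin N)) 4),
      Eij i j (Lam N a b c z) = Lam N (E1 i j a) b c z + Lam N a (E1 i j b) c z +
        Lam N a b (E1 i j c) z + Lam N a b c (Eij i j z) +
        (if i = j then (1 : K) else 0) • Lam N a b c z) ∧
    (∀ (σ : Equiv.Perm (Fin 4)) (a b c : MvPolynomial (Fin 4) K)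
      (z : PX K (Option (Fin N)) 4),
      sw σ (Lam N a b c z) = ((Equiv.Perm.sign σ : ℤˣ) : ℤ) •
        Lam N (rename σ a) (rename σ b) (rename σ c) (sw σ z))

/-- L1M -/
def Stmt_L1M : Prop :=
  ∀ (K : Type) [Field K] [CharZero K] (N : ℕ) (a b c : MvPolynomial (Fin 4) K),
    a.IsHomogeneous N → b.IsHomogeneous N → c.IsHomogeneous N →
    ∀ z : PX K (Option (Fin N)) 4, InB (Fin N) 4 (N + 1) (2 * N) z →
      InB (QU N) 4 (N + 1) (2 * N + 1) (Lam N a b c z)

/-- L2M -/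
def Stmt_L2M : Prop :=
  ∀ (K : Type) [Field K] [CharZero K] (N : ℕ) (a b c e : MvPolynomial (Fin 4) K),
    a.IsHomogeneous N → b.IsHomogeneous N → c.IsHomogeneous N → e.IsHomogeneous N →
    ∀ z : PX K (Option (Fin N)) 4, InZ (Fin N) 4 (N + 1) N z →
      InB (QU N) 4 (N + 1) (2 * N + 1)
        (Lam N b c e (atp none a * z) + Lam N a c e (atp none b * z) +
          Lam N a b e (atp none c * z) + Lam N a b c (atp none e * z))

/-- L4M: `Λ(abc; τ) = 0` if `x_0` divides `a`. -/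
def Stmt_L4M : Prop :=
  ∀ (K : Type) [Field K] [CharZero K] (N : ℕ), 3 ≤ N → ∀ a b c : MvPolynomial (Fin 4) K,
    a.IsHomogeneous (N - 1) → b.IsHomogeneous N → c.IsHomogeneous N →
    InB (QU N) 4 (N + 1) (2 * N + 1) (Lam N (X 0 * a) b c (tau K N 4 0 1))

/-- L4S: `Λ(abc; τ) = 0` if `x_1` divides `a`. -/
def Stmt_L4S : Prop :=
  ∀ (K : Type) [Field K] [CharZero K] (N : ℕ), 3 ≤ N → ∀ a b c : MvPolynomial (Fin 4) K,
    a.IsHomogeneous (N - 1) → b.IsHomogeneous N → c.IsHomogeneous N →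
    InB (QU N) 4 (N + 1) (2 * N + 1) (Lam N (X 1 * a) b c (tau K N 4 0 1))

/-- L5M: monomials in `x_2, x_3`. -/
def Stmt_L5M : Prop :=
  ∀ (K : Type) [Field K] [CharZero K] (N i l i' l' i'' l'' : ℕ), 3 ≤ N → i + l = N →
    i' + l' = N → i'' + l'' = N →
    InB (QU N) 4 (N + 1) (2 * N + 1)
      (Lam N (X 2 ^ i * X 3 ^ l) (X 2 ^ i' * X 3 ^ l') (X 2 ^ i'' * X 3 ^ l'') (tau K N 4 0 1))

/-- LALL: `Λ(abc; z) = 0`. -/
def Stmt_LALL : Prop :=
  ∀ (K : Type) [Field K] [CharZero K] (N : ℕ), 3 ≤ N → ∀ a b c : MvPolynomial (Fin 4) K,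
    a.IsHomogeneous N → b.IsHomogeneous N → c.IsHomogeneous N →
    ∀ z : PX K (Option (Fin N)) 4, InZ (Fin N) 4 (N + 1) (2 * N) z →
      InB (QU N) 4 (N + 1) (2 * N + 1) (Lam N a b c z)

/-- CAPS: the value of `capL`. -/
def Stmt_CAPS : Prop :=
  ∀ (K : Type) [Field K] (A : Type) [Fintype A] [DecidableEq A] (v : ℕ) (L : List (Fin v))
    (c : SA K A v L.length),
    capL L c = ∑ t : Fin L.length → A, (∏ i, X (t i, L.get i)) * c (sgl K t)

/-- EXA: the first step of the exactness. -/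
def Stmt_EXA : Prop :=
  ∀ (K : Type) [Field K] [CharZero K] (v d p r k : ℕ), 1 ≤ d → 1 ≤ k →
    (k ≤ p → PVan K v d (p - k) r) →
    ∀ (U : Type) [Fintype U] [DecidableEq U], Fintype.card U = p →
      ∀ c : SA K (Option U) v k, KZ U v d r k c →
        ∃ c' : SA K (Option U) v k, KZ U v d r k c' ∧ KB U v d r k (c - c') ∧
          ∀ t : Fin k → Option U, (∀ i, t i ≠ none) → c' (sgl K t) = 0

/-- L0B: the Capelli element as an alternating sum. -/
def Stmt_L0B : Prop :=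
  ∀ (K : Type) [Field K] [CharZero K] (N : ℕ)
    (c : SA K (Option (QU N)) 4 (List.finRange 4).length),
    (∀ π : Equiv.Perm (QU N),
      push (Option.map π) c = ((Equiv.Perm.sign π : ℤˣ) : ℤ) • c) →
    (∀ t, (∀ i, t i ≠ none) → c (sgl K t) = 0) →
    ∃ a : K, capL (List.finRange 4) c = a • ∑ π : Equiv.Perm (QU N),
      ((Equiv.Perm.sign π : ℤˣ) : ℤ) • ren (Option.map π)
        (DD4 K N * c (sgl K fun i => q4 N (Fin.cast (List.length_finRange (n := 4)) i)))

/-- L0C: the coefficient of the Capelli element in terms of `Λ`. -/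
def Stmt_L0C : Prop :=
  ∀ (K : Type) [Field K] [CharZero K] (N : ℕ) (M : Submodule K (PX K (Option (QU N)) 4)),
    (∀ a b c : MvPolynomial (Fin 4) K, a.IsHomogeneous N → b.IsHomogeneous N →
      c.IsHomogeneous N → ∀ z : PX K (Option (Fin N)) 4, InZ (Fin N) 4 (N + 1) (2 * N) z →
      Lam N a b c z ∈ M) →
    ∀ H : PX K (Option (QU N)) 4,
      (∀ π : Equiv.Perm (Fin N),
        ren (Option.map (Sum.map id π)) H = ((Equiv.Perm.sign π : ℤˣ) : ℤ) • H) →
      (∀ m ∈ H.support, (∀ i : Fin 3, ∑ j, m (some (Sum.inl i), j) = N) ∧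
        (∀ i : Fin N, ∑ j, m (some (Sum.inr i), j) = N + 1) ∧ ∑ j, m (none, j) = 2 * N) →
      (∀ i : Fin N, ren (mg (Sum.inr i)) H = 0) →
      ∑ π : Equiv.Perm (QU N), ((Equiv.Perm.sign π : ℤˣ) : ℤ) • ren (Option.map π)
        (DD4 K N * H) ∈ M

/-- L0M: the Capelli element is a boundary. -/
def Stmt_L0M : Prop :=
  ∀ (K : Type) [Field K] [CharZero K] (N : ℕ), 3 ≤ N →
    ∀ f : PX K (Option (QU N)) 4, InZ (QU N) 4 (N + 1) (2 * N + 1) f →
      InB (QU N) 4 (N + 1) (2 * N + 1) (capL (List.finRange 4) (yL (List.finRange 4) f))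

end Pool.Agent.VSY
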