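import Pool.Agent.VSY.StmtsB

/-!
# Veronese syzygies (MP_deb8da_ag): module L0C
-/

namespace Pool.Agent.VSY

open MvPolynomial

namespace L0C

variable {K : Type} [Field K] {N : ℕ}

/-- The variables at the three points. -/
noncomputable def fx (K : Type) [Field K] (N : ℕ) :
    Option (QU N) × Fin 4 → MvPolynomial (Fin 3 × Fin 4) (PX K (Option (Fin N)) 4)
  | (none, j) => C (X (none, j))
  | (some (Sum.inl i), j) => X (i, j)
  | (some (Sum.inr k), j) => C (X (some k, j))

/-- The polynomials with the variables at the three points separated. -/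
noncomputable def Ph (K : Type) [Field K] (N : ℕ) :
    PX K (Option (QU N)) 4 →ₐ[K] MvPolynomial (Fin 3 × Fin 4) (PX K (Option (Fin N)) 4) :=
  aeval (fx K N)

/-- The inverse. -/
noncomputable def Ps (K : Type) [Field K] (N : ℕ) :
    MvPolynomial (Fin 3 × Fin 4) (PX K (Option (Fin N)) 4) →+* PX K (Option (QU N)) 4 :=
  eval₂Hom (ren (Option.map Sum.inr)).toRingHom fun x => X (some (Sum.inl x.1), x.2)

theorem Ps_Ph (H : PX K (Option (QU N)) 4) : Ps K N (Ph K N H) = H := by
  induction H using MvPolynomial.induction_on with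
  | C a =>
    have h1 : Ph K N (C a) = C (C a) := by
      rw [Ph, aeval_C]
      rfl
    rw [h1, Ps, eval₂Hom_C]
    simp
  | add p q hp hq => rw [map_add, map_add, hp, hq]
  | mul_X p x hp =>
    rw [map_mul, map_mul, hp]
    congr 1
    obtain ⟨x, j⟩ := x
    rw [Ph, aeval_X]
    match x with
    | none => simp [fx, Ps]
    | some (Sum.inl i) => simp [fx, Ps]
    | some (Sum.inr k) => simp [fx, Ps]

/-- Operations on the other points act on the coefficients. -/
theorem Ph_ren (φ : Option (QU N) → Option (QU N)) (ψ : Option (Fin N) → Option (Fin N))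
    (h1 : ∀ i, φ (some (Sum.inl i)) = some (Sum.inl i))
    (h2 : ∀ x, φ (Option.map Sum.inr x) = Option.map Sum.inr (ψ x))
    (H : PX K (Option (QU N)) 4) :
    Ph K N (ren φ H) = map (ren ψ).toRingHom (Ph K N H) := by
  induction H using MvPolynomial.induction_on with
  | C a =>
    have h1 : Ph K N (C a) = C (C a) := by
      rw [Ph, aeval_C]
      rfl
    rw [ren_C, h1, map_C]
    simp
  | add p q hp hq => rw [map_add, map_add, map_add, map_add, hp, hq]
  | mul_X p x hp =>
    rw [map_mul, map_mul, map_mul, map_mul, hp]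
    congr 1
    obtain ⟨x, j⟩ := x
    rw [ren_X, Ph, aeval_X, aeval_X]
    have h5 : ∀ x : Option (Fin N), fx K N (Option.map Sum.inr x, j) = C (X (x, j)) := by
      intro x
      cases x <;> rfl
    match x with
    | none =>
      have h3 := h2 none
      rw [Option.map_none] at h3
      rw [h3, h5]
      simp [fx]
    | some (Sum.inl i) =>
      rw [h1]
      simp [fx]
    | some (Sum.inr k) =>
      have h3 := h2 (some k)
      rw [Option.map_some] at h3
      rw [h3, h5]
      simp [fx]

/-- The part of the exponent at the three points. -/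
noncomputable def pa (m : Option (QU N) × Fin 4 →₀ ℕ) : Fin 3 × Fin 4 →₀ ℕ :=
  Finsupp.equivFunOnFinite.symm fun x => m (some (Sum.inl x.1), x.2)

/-- The other part of the exponent. -/
noncomputable def pb (m : Option (QU N) × Fin 4 →₀ ℕ) : Option (Fin N) × Fin 4 →₀ ℕ :=
  Finsupp.equivFunOnFinite.symm fun x => m (Option.map Sum.inr x.1, x.2)

theorem pa_add (m m' : Option (QU N) × Fin 4 →₀ ℕ) : pa (m + m') = pa m + pa m' := by
  ext x
  simp [pa]

theorem pb_add (m m' : Option (QU N) × Fin 4 →₀ ℕ) : pb (m + m') = pb m + pb m' := by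
  ext x
  simp [pb]

theorem Ph_monomial (m : Option (QU N) × Fin 4 →₀ ℕ) (a : K) :
    Ph K N (monomial m a) = monomial (pa m) (monomial (pb m) a) := by
  induction m using Finsupp.induction_linear generalizing a with
  | zero =>
    have h1 : Ph K N (C a) = C (C a) := by
      rw [Ph, aeval_C]
      rfl
    have h2 : pa (0 : Option (QU N) × Fin 4 →₀ ℕ) = 0 := by
      ext x
      simp [pa]
    have h3 : pb (0 : Option (QU N) × Fin 4 →₀ ℕ) = 0 := by
      ext x
      simp [pb]
    rw [h2, h3]
    exact h1
  | add m m' hm hm' =>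
    have h : monomial (m + m') a = monomial m a * monomial m' (1 : K) := by
      rw [monomial_mul, mul_one]
    rw [h, map_mul, hm, hm', monomial_mul, monomial_mul, mul_one, pa_add, pb_add]
  | single x n =>
    have h : monomial (Finsupp.single x n) a = C a * X x ^ n := by
      rw [X_pow_eq_monomial, C_mul_monomial, mul_one]
    have h1 : Ph K N (C a) = C (C a) := by
      rw [Ph, aeval_C]
      rfl
    rw [h, map_mul, map_pow, h1]
    obtain ⟨x, j⟩ := x
    have h4 : Ph K N (X (x, j)) = fx K N (x, j) := by rw [Ph, aeval_X]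
    rw [h4]
    have key : ∀ y : Option (Fin N), x = Option.map Sum.inr y →
        C (C a) * fx K N (x, j) ^ n =
        monomial (pa (Finsupp.single (x, j) n)) (monomial (pb (Finsupp.single (x, j) n)) a) := by
      rintro y rfl
      have h5 : fx K N (Option.map Sum.inr y, j) = C (X (y, j)) := by
        cases y <;> rfl
      have h6 : pa (Finsupp.single (Option.map Sum.inr y, j) n) = (0 : Fin 3 × Fin 4 →₀ ℕ) := by
        ext x
        simp only [pa, Finsupp.equivFunOnFinite_symm_apply_apply, Finsupp.coe_zero, Pi.zero_apply]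
        rw [Finsupp.single_apply, if_neg]
        cases y <;> simp
      have h7 : pb (Finsupp.single (Option.map Sum.inr y, j) n) = Finsupp.single (y, j) n := by
        ext x
        simp only [pb, Finsupp.equivFunOnFinite_symm_apply_apply]
        rw [Finsupp.single_apply, Finsupp.single_apply]
        refine if_congr ?_ rfl rfl
        rw [Prod.ext_iff, Prod.ext_iff]
        refine and_congr ?_ Iff.rfl
        exact (Option.map_injective Sum.inr_injective).eq_iff
      rw [h5, h6, h7, ← map_pow, ← map_mul, X_pow_eq_monomial, C_mul_monomial, mul_one]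
      rfl
    match x, h4, key with
    | none, h4, key => exact key none rfl
    | some (Sum.inr k), h4, key => exact key (some k) rfl
    | some (Sum.inl i), h4, key =>
      have h5 : fx K N (some (Sum.inl i), j) = X (i, j) := rfl
      have h6 : pa (Finsupp.single ((some (Sum.inl i) : Option (QU N)), j) n) =
          Finsupp.single (i, j) n := by
        ext x
        simp only [pa, Finsupp.equivFunOnFinite_symm_apply_apply]
        rw [Finsupp.single_apply, Finsupp.single_apply]
        refine if_congr ?_ rfl rfl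
        rw [Prod.ext_iff, Prod.ext_iff]
        simp
      have h7 : pb (Finsupp.single ((some (Sum.inl i) : Option (QU N)), j) n) = 0 := by
        ext x
        simp only [pb, Finsupp.equivFunOnFinite_symm_apply_apply, Finsupp.coe_zero, Pi.zero_apply]
        rw [Finsupp.single_apply, if_neg]
        obtain ⟨y, l⟩ := x
        cases y <;> simp
      rw [h5, h6, h7, X_pow_eq_monomial, C_mul_monomial, mul_one]
      rfl

theorem exists_of_coeff {H : PX K (Option (QU N)) 4} {α : Fin 3 × Fin 4 →₀ ℕ}
    {m : Option (Fin N) × Fin 4 →₀ ℕ} (hm : m ∈ (coeff α (Ph K N H)).support) :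
    ∃ n ∈ H.support, pa n = α ∧ pb n = m := by
  rw [mem_support_iff] at hm
  have h : Ph K N H = ∑ n ∈ H.support, monomial (pa n) (monomial (pb n) (coeff n H)) := by
    conv_lhs => rw [H.as_sum]
    rw [map_sum]
    exact Finset.sum_congr rfl fun n _ => Ph_monomial n _
  rw [h, coeff_sum, coeff_sum] at hm
  obtain ⟨n, hn, hne⟩ := Finset.exists_ne_zero_of_sum_ne_zero hm
  refine ⟨n, hn, ?_⟩
  by_contra hcon
  apply hne
  rw [coeff_monomial]
  by_cases h1 : pa n = α
  · rw [if_pos h1, coeff_monomial, if_neg]
    exact fun h2 => hcon ⟨h1, h2⟩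
  · rw [if_neg h1, coeff_zero]

/-- The monomial of the exponent `α` at the `i`-th point. -/
noncomputable def mo (K : Type) [Field K] (α : Fin 3 × Fin 4 →₀ ℕ) (i : Fin 3) :
    MvPolynomial (Fin 4) K :=
  ∏ j, X j ^ α (i, j)

theorem mo_hom (α : Fin 3 × Fin 4 →₀ ℕ) (i : Fin 3) {d : ℕ} (h : ∑ j, α (i, j) = d) :
    (mo K α i).IsHomogeneous d := by
  rw [← h, mo]
  exact IsHomogeneous.prod _ _ _ fun j _ => isHomogeneous_X_pow _ _

theorem decomp (H : PX K (Option (QU N)) 4) :
    H = ∑ α ∈ (Ph K N H).support,
      (atp (some (Sum.inl 0)) (mo K α 0) * atp (some (Sum.inl 1)) (mo K α 1) *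
        atp (some (Sum.inl 2)) (mo K α 2)) * ren (Option.map Sum.inr) (coeff α (Ph K N H)) := by
  conv_lhs => rw [← Ps_Ph H, Ps, coe_eval₂Hom, eval₂_eq']
  refine Finset.sum_congr rfl fun α _ => ?_
  rw [mul_comm]
  refine congrArg₂ (· * ·) ?_ rfl
  rw [Fintype.prod_prod_type, Fin.prod_univ_three]
  have h : ∀ i : Fin 3, atp (some (Sum.inl i) : Option (QU N)) (mo K α i) =
      ∏ j, X (some (Sum.inl i), j) ^ α (i, j) := by
    intro i
    rw [mo, map_prod]
    refine Finset.prod_congr rfl fun j _ => ?_
    rw [map_pow, atp, rename_X]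
  rw [h, h, h]

end L0C

open L0C in
theorem L0C_thm : Stmt_L0C := by
  intro K _ _ N M hM H halt hdeg hcyc
  rw [decomp H]
  simp only [Finset.mul_sum, map_sum, Finset.smul_sum]
  rw [Finset.sum_comm]
  refine Submodule.sum_mem _ fun α hα => ?_
  have hne : (coeff α (Ph K N H)).support.Nonempty := by
    exact Finset.nonempty_iff_ne_empty.2 fun h => mem_support_iff.1 hα (support_eq_empty.1 h)
  obtain ⟨m0, hm0⟩ := hne
  obtain ⟨n0, hn0, ha0, -⟩ := exists_of_coeff hm0
  have hd : ∀ i, ∑ j, α (i, j) = N := by
    intro i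
    rw [← ha0]
    exact (hdeg n0 hn0).1 i
  have hZ : InZ (Fin N) 4 (N + 1) (2 * N) (coeff α (Ph K N H)) := by
    refine ⟨⟨fun π => ?_, fun m hm => ?_⟩, fun u => ?_⟩
    · have h1 := Ph_ren (K := K) (Option.map (Sum.map id π)) (Option.map π) (fun i => rfl)
        (fun x => by cases x <;> rfl) H
      rw [halt, map_zsmul] at h1
      have h2 := congrArg (coeff α) h1
      rw [coeff_map, coeff_smul] at h2
      exact h2.symm
    · obtain ⟨n, hn, -, hb⟩ := exists_of_coeff hm
      obtain ⟨-, h2, h3⟩ := hdeg n hn
      rw [← hb]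
      exact ⟨fun u => h2 u, h3⟩
    · have h1 := Ph_ren (K := K) (mg (Sum.inr u)) (mg u) (fun i => by simp [mg])
        (fun x => by
          cases x with
          | none => simp [mg]
          | some x =>
            by_cases h : x = u
            · subst h
              simp [mg]
            · simp [mg, h]) H
      rw [hcyc, map_zero] at h1
      have h2 := congrArg (coeff α) h1
      rw [coeff_map, coeff_zero] at h2
      exact h2.symm
  have := hM (mo K α 0) (mo K α 1) (mo K α 2) (mo_hom α 0 (hd 0)) (mo_hom α 1 (hd 1))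
    (mo_hom α 2 (hd 2)) _ hZ
  rw [Lam] at this
  simp only [mul_assoc] at this ⊢
  exact this

end Pool.Agent.VSY
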