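import Pool.Agent.VSY.StmtsB

/-!
# L4S: `Λ(abc; τ)` is a boundary if `x_1` divides `a`
-/

namespace Pool.Agent.VSY

open MvPolynomial

namespace L4S

/-- `τ` with the first two coordinates exchanged is a multiple of `τ` modulo boundaries. -/
theorem swap_tau (h3 : Stmt_T2V) (h4 : Stmt_VAR) (h5 : Stmt_Z1C) (K : Type) [Field K]
    [CharZero K] (N : ℕ) (hN : 1 ≤ N) :
    ∃ t : K, InB (Fin N) 4 (N + 1) (2 * N)
      (sw (Equiv.swap (0 : Fin 4) 1) (tau K N 4 0 1) - t • tau K N 4 0 1) := by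
  obtain ⟨t, ht⟩ := h3 K N hN _ (h5 K N 2 1 0 (by decide)).2.1
  have h24 : (2 : ℕ) ≤ 4 := by norm_num
  have h := (h4 K 2 4 h24).2.2.2.2 (Fin N) (N + 1) (2 * N)
  have hu := h.2.1 _ ht
  rw [map_sub, map_smul, (h5 K N 2 1 0 (by decide)).2.2.2.2.2.1 4 h24,
    (h5 K N 2 0 1 (by decide)).2.2.2.2.2.1 4 h24] at hu
  refine ⟨t, ?_⟩
  rw [(h5 K N 4 0 1 (by decide)).2.2.2.2.2.2 (Equiv.swap (0 : Fin 4) 1), Equiv.swap_apply_left,
    Equiv.swap_apply_right]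
  exact hu

end L4S

theorem L4S_thm (h1 : Stmt_L4M) (h2 : Stmt_OPW) (h3 : Stmt_T2V) (h4 : Stmt_VAR) (h5 : Stmt_Z1C)
    (h6 : Stmt_L1M) (h7 : Stmt_LLN) : Stmt_L4S := by
  intro K _ _ N hN a b c ha hb hc
  obtain ⟨t, ht⟩ := L4S.swap_tau h3 h4 h5 K N (by omega)
  obtain ⟨σ, hσ⟩ : ∃ σ : Equiv.Perm (Fin 4), σ = Equiv.swap 0 1 := ⟨_, rfl⟩
  rw [← hσ] at ht
  have hs1 : σ 1 = 0 := by rw [hσ, Equiv.swap_apply_right]
  have hsg : Equiv.Perm.sign σ = -1 := by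
    rw [hσ]
    exact Equiv.Perm.sign_swap (by decide)
  have ha' : (rename σ a).IsHomogeneous (N - 1) := ha.rename_isHomogeneous
  have hb' : (rename σ b).IsHomogeneous N := hb.rename_isHomogeneous
  have hc' : (rename σ c).IsHomogeneous N := hc.rename_isHomogeneous
  have hX : (X 0 * rename σ a : MvPolynomial (Fin 4) K).IsHomogeneous N := by
    have h := (isHomogeneous_X K (0 : Fin 4)).mul ha'
    rwa [show 1 + (N - 1) = N by omega] at h
  have e : sw σ (Lam N (X 1 * a) b c (tau K N 4 0 1)) =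
      (-1 : K) • (Lam N (X 0 * rename σ a) (rename σ b) (rename σ c)
        (sw σ (tau K N 4 0 1) - t • tau K N 4 0 1) +
        t • Lam N (X 0 * rename σ a) (rename σ b) (rename σ c) (tau K N 4 0 1)) := by
    rw [(h7 K N).2.2.2.2.2.2.2 σ, hsg, map_mul, rename_X, hs1, ← (h7 K N).2.2.2.1,
      ← (h7 K N).2.2.1, sub_add_cancel]
    simp
  have hB : InB (QU N) 4 (N + 1) (2 * N + 1) (sw σ (Lam N (X 1 * a) b c (tau K N 4 0 1))) := by
    rw [e]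
    exact ((h6 K N _ _ _ hX hb' hc' _ ht).add ((h1 K N hN _ _ _ ha' hb' hc').smul t)).smul _
  have h := h2 K (QU N) 4 (N + 1) (2 * N + 1)
  have hf := h.2.2.2.1 σ⁻¹ _ hB
  rwa [h.2.2.2.2.2 σ] at hf

end Pool.Agent.VSY
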