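import Pool.Agent.VSY.Stmts

/-!
# Veronese syzygies: the relations of `gl(v|1)`
-/

namespace Pool.Agent.VSY

open MvPolynomial

namespace REL

variable {K : Type} [Field K]

theorem pd_comm {σ : Type} (a b : σ) (f : MvPolynomial σ K) :
    pderiv a (pderiv b f) = pderiv b (pderiv a f) := by
  classical
  have hs : ∀ (u w n : σ), pderiv u ((Pi.single w 1 : σ → MvPolynomial σ K) n) = 0 := by
    intro u w n
    rw [Pi.single_apply]
    split_ifs
    · exact pderiv_one
    · exact map_zero _
  induction f using MvPolynomial.induction_on with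
  | C r => simp
  | add p q hp hq => rw [map_add, map_add, map_add, map_add, hp, hq]
  | mul_X p n hp =>
    simp only [pderiv_mul, pderiv_X, map_add, hp, hs, mul_zero, add_zero]
    ring

variable {A : Type} [Fintype A] {v : ℕ}

theorem Eij_apply (i j : Fin v) (f : PX K A v) :
    Eij i j f = ∑ x : A, X (x, i) * pderiv (x, j) f := by
  unfold Eij
  rw [LinearMap.sum_apply]
  rfl

theorem dd_apply (j : Fin v) (ξ : A → K) (f : PX K A v) :
    dd j ξ f = ∑ x : A, ξ x • pderiv (x, j) f := by
  unfold dd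
  rw [LinearMap.sum_apply, LinearMap.sum_apply]
  rfl

theorem dd_single [DecidableEq A] (j : Fin v) (x : A) (f : PX K A v) :
    dd j (Pi.single x (1 : K)) f = pderiv (x, j) f := by
  rw [dd_apply, Finset.sum_eq_single x]
  · rw [Pi.single_eq_same, one_smul]
  · intro y _ hy
    rw [Pi.single_eq_of_ne hy, zero_smul]
  · intro h
    exact absurd (Finset.mem_univ x) h

theorem EA_apply {k : ℕ} (i j : Fin v) (c : SA K A v k) (ξ : Fin k → A → K) :
    EA i j c ξ = Eij i j (c ξ) := rfl

theorem Dop_apply {k : ℕ} (j : Fin v) (c : SA K A v k) (ξ : Fin (k + 1) → A → K) :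
    Dop j c ξ = ∑ p : Fin (k + 1), (-1 : ℤ) ^ (p : ℕ) • dd j (ξ p) (c (p.removeNth ξ)) := by
  unfold Dop
  rw [AlternatingMap.alternatizeUncurryFin_apply]
  rfl

omit [Fintype A] in
theorem sum_ap {ι : Type} {k : ℕ} (s : Finset ι) (c : ι → SA K A v k) (ξ : Fin k → A → K) :
    (∑ i ∈ s, c i) ξ = ∑ i ∈ s, c i ξ := by
  classical
  induction s using Finset.induction_on with
  | empty => rfl
  | insert a s ha ih => rw [Finset.sum_insert ha, Finset.sum_insert ha, AlternatingMap.add_apply, ih]

theorem Est_apply [DecidableEq A] {k : ℕ} (i : Fin v) (c : SA K A v (k + 1))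
    (ξ : Fin k → A → K) :
    Est i c ξ = ∑ x : A, X (x, i) * c (Matrix.vecCons (Pi.single x 1) ξ) := by
  unfold Est
  rw [sum_ap]
  rfl

omit [Fintype A] in
theorem pd_X_mul [DecidableEq A] (x y : A) (i j : Fin v) (f : PX K A v) :
    pderiv (y, j) (X (x, i) * f) =
      (if y = x then (if i = j then f else 0) else 0) + X (x, i) * pderiv (y, j) f := by
  rw [pderiv_mul, pderiv_X, Pi.single_apply]
  congr 1
  by_cases h1 : y = x
  · subst h1
    by_cases h2 : i = j
    · subst h2
      simp
    · rw [if_pos rfl, if_neg h2, if_neg (by simpa using h2), zero_mul]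
  · rw [if_neg h1, if_neg (by
      intro h
      exact h1 (congrArg Prod.fst h).symm), zero_mul]

theorem dd_X_mul [DecidableEq A] (i j : Fin v) (ξ : A → K) (x : A) (f : PX K A v) :
    dd j ξ (X (x, i) * f) = (if i = j then ξ x • f else 0) + X (x, i) * dd j ξ f := by
  rw [dd_apply, dd_apply, Finset.mul_sum]
  have e : ∀ y : A, ξ y • pderiv (y, j) (X (x, i) * f) =
      (if y = x then (if i = j then ξ y • f else 0) else 0) + X (x, i) * ξ y • pderiv (y, j) f := by
    intro y
    rw [pd_X_mul, smul_add, mul_smul_comm]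
    congr 1
    split_ifs
    · rfl
    · exact smul_zero _
    · exact smul_zero _
  rw [Finset.sum_congr rfl fun y _ => e y, Finset.sum_add_distrib, Finset.sum_ite_eq',
    if_pos (Finset.mem_univ x)]

theorem Eij_X_mul [DecidableEq A] (i j l : Fin v) (x : A) (f : PX K A v) :
    Eij i j (X (x, l) * f) = (if j = l then X (x, i) * f else 0) + X (x, l) * Eij i j f := by
  rw [Eij_apply, Eij_apply, Finset.mul_sum]
  have e : ∀ y : A, X (y, i) * pderiv (y, j) (X (x, l) * f) =
      (if y = x then (if j = l then X (y, i) * f else 0) else 0) +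
        X (x, l) * (X (y, i) * pderiv (y, j) f) := by
    intro y
    rw [pd_X_mul, mul_add]
    congr 1
    · by_cases h1 : y = x
      · rw [if_pos h1, if_pos h1]
        by_cases h2 : j = l
        · rw [if_pos h2, if_pos h2.symm]
        · rw [if_neg h2, if_neg (fun h => h2 h.symm), mul_zero]
      · rw [if_neg h1, if_neg h1, mul_zero]
    · ring
  rw [Finset.sum_congr rfl fun y _ => e y, Finset.sum_add_distrib, Finset.sum_ite_eq',
    if_pos (Finset.mem_univ x)]

theorem dd_pderiv (l : Fin v) (ξ : A → K) (a : A × Fin v) (f : PX K A v) :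
    dd l ξ (pderiv a f) = pderiv a (dd l ξ f) := by
  rw [dd_apply, dd_apply, map_sum]
  refine Finset.sum_congr rfl fun x _ => ?_
  rw [Derivation.map_smul, pd_comm]

theorem dd_Eij [DecidableEq A] (i j l : Fin v) (ξ : A → K) (f : PX K A v) :
    dd l ξ (Eij i j f) = Eij i j (dd l ξ f) + (if l = i then dd j ξ f else 0) := by
  rw [Eij_apply, map_sum, Eij_apply]
  have e : ∀ x : A, dd l ξ (X (x, i) * pderiv (x, j) f) =
      X (x, i) * pderiv (x, j) (dd l ξ f) + (if l = i then ξ x • pderiv (x, j) f else 0) := by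
    intro x
    rw [dd_X_mul, dd_pderiv, add_comm]
    congr 1
    by_cases h : l = i
    · rw [if_pos h, if_pos h.symm]
    · rw [if_neg h, if_neg (fun h' => h h'.symm)]
  rw [Finset.sum_congr rfl fun x _ => e x, Finset.sum_add_distrib]
  congr 1
  split_ifs
  · rw [dd_apply]
  · exact Finset.sum_const_zero

theorem removeNth_cons {M : Type} {k : ℕ} (a : M) (ξ : Fin (k + 1) → M) (q : Fin (k + 1)) :
    q.succ.removeNth (Matrix.vecCons a ξ) = Matrix.vecCons a (q.removeNth ξ) := by
  funext t
  refine Fin.cases ?_ (fun t => ?_) t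
  · simp [Fin.removeNth, Matrix.vecCons]
  · simp [Fin.removeNth, Matrix.vecCons]

theorem removeNth_zero_cons {M : Type} {k : ℕ} (a : M) (ξ : Fin k → M) :
    (0 : Fin (k + 1)).removeNth (Matrix.vecCons a ξ) = ξ := by
  funext t
  simp [Fin.removeNth, Matrix.vecCons]

/-- The value of `Est i (Dop j c)`: the first summand. -/
theorem Est_Dop [DecidableEq A] {k : ℕ} (i j : Fin v) (c : SA K A v k) (ξ : Fin k → A → K) :
    Est i (Dop j c) ξ = Eij i j (c ξ) + ∑ x : A, X (x, i) *
      ∑ q : Fin k, (-1 : ℤ) ^ ((q : ℕ) + 1) • dd j (ξ q)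
        (c (q.succ.removeNth (Matrix.vecCons (Pi.single x 1) ξ))) := by
  rw [Est_apply, Eij_apply, ← Finset.sum_add_distrib]
  refine Finset.sum_congr rfl fun x _ => ?_
  rw [Dop_apply, Fin.sum_univ_succ, mul_add]
  congr 2
  rw [removeNth_zero_cons]
  show (-1 : ℤ) ^ 0 • dd j (Pi.single x (1 : K)) (c ξ) = _
  rw [pow_zero, one_smul, dd_single]

/-- The sum over the coordinate vectors. -/
theorem sum_single [DecidableEq A] {k : ℕ} (c : SA K A v (k + 1)) (ζ : A → K)
    (ξ : Fin k → A → K) :
    ∑ x : A, ζ x • c (Matrix.vecCons (Pi.single x 1) ξ) = c (Matrix.vecCons ζ ξ) := by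
  have h1 : c.curryLeft ζ = ∑ x : A, ζ x • c.curryLeft (Pi.single x 1) := by
    have h2 : ζ = ∑ x : A, ζ x • (Pi.single x (1 : K) : A → K) := by
      funext y
      rw [Finset.sum_apply, Finset.sum_eq_single y]
      · simp
      · intro x _ hx
        simp [Pi.single_eq_of_ne hx.symm]
      · intro h
        exact absurd (Finset.mem_univ y) h
    conv_lhs => rw [h2]
    rw [map_sum]
    exact Finset.sum_congr rfl fun x _ => map_smul _ _ _
  rw [← AlternatingMap.curryLeft_apply_apply, h1, sum_ap]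
  rfl

omit [Fintype A] in
theorem sum_sign {k : ℕ} (c : SA K A v (k + 1)) (ξ : Fin (k + 1) → A → K) :
    ∑ q : Fin (k + 1), (-1 : ℤ) ^ (q : ℕ) • c (Matrix.vecCons (ξ q) (q.removeNth ξ)) =
      ((k + 1 : ℕ) : K) • c ξ := by
  have e : ∀ q : Fin (k + 1),
      (-1 : ℤ) ^ (q : ℕ) • c (Matrix.vecCons (ξ q) (q.removeNth ξ)) = c ξ := by
    intro q
    rw [← AlternatingMap.neg_one_pow_smul_map_insertNth, Fin.insertNth_self_removeNth, smul_smul,
      ← pow_add, Even.neg_one_pow ⟨_, rfl⟩, one_smul]
  rw [Finset.sum_congr rfl fun q _ => e q, Finset.sum_const, Finset.card_univ, Fintype.card_fin,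
    Nat.cast_smul_eq_nsmul]

end REL

/-- The relations of `gl(v|1)`. -/
theorem REL_thm : Stmt_REL := by
  intro K _ A _ _ v i j l
  refine ⟨fun c => ?_, fun k c => ?_, fun k c => ?_, fun k c => ?_⟩
  · ext1 ξ
    rw [REL.Est_Dop, REL.EA_apply, add_eq_left]
    refine Finset.sum_eq_zero fun x _ => ?_
    rw [Finset.univ_eq_empty, Finset.sum_empty, mul_zero]
  · ext1 ξ
    rw [AlternatingMap.add_apply, AlternatingMap.add_apply, REL.Est_Dop, REL.EA_apply, add_assoc]
    congr 1
    rw [REL.Dop_apply, AlternatingMap.smul_apply]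
    have e1 : ∀ q : Fin (k + 1), (-1 : ℤ) ^ (q : ℕ) • dd j (ξ q) (Est i c (q.removeNth ξ)) =
        (if i = j then (-1 : ℤ) ^ (q : ℕ) • c (Matrix.vecCons (ξ q) (q.removeNth ξ)) else 0) +
        ∑ x : A, X (x, i) * (-1 : ℤ) ^ (q : ℕ) • dd j (ξ q)
          (c (Matrix.vecCons (Pi.single x 1) (q.removeNth ξ))) := by
      intro q
      rw [REL.Est_apply, map_sum, Finset.sum_congr rfl fun x _ => REL.dd_X_mul i j (ξ q) x _,
        Finset.sum_add_distrib, smul_add]
      congr 1
      · split_ifs
        · rw [REL.sum_single]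
        · rw [Finset.sum_const_zero, smul_zero]
      · rw [Finset.smul_sum]
        exact Finset.sum_congr rfl fun x _ => (mul_smul_comm _ _ _).symm
    rw [Finset.sum_congr rfl fun q _ => e1 q, Finset.sum_add_distrib]
    have e2 : ∑ x : A, X (x, i) *
        ∑ q : Fin (k + 1), (-1 : ℤ) ^ ((q : ℕ) + 1) • dd j (ξ q)
          (c (q.succ.removeNth (Matrix.vecCons (Pi.single x 1) ξ))) =
        - ∑ q : Fin (k + 1), ∑ x : A, X (x, i) * (-1 : ℤ) ^ (q : ℕ) • dd j (ξ q)
          (c (Matrix.vecCons (Pi.single x 1) (q.removeNth ξ))) := by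
      rw [Finset.sum_comm, ← Finset.sum_neg_distrib]
      refine Finset.sum_congr rfl fun x _ => ?_
      rw [Finset.mul_sum, ← Finset.sum_neg_distrib]
      refine Finset.sum_congr rfl fun q _ => ?_
      rw [REL.removeNth_cons, pow_succ, mul_neg_one, neg_smul, mul_neg]
    rw [e2, add_comm, add_assoc, add_neg_cancel, add_zero]
    split_ifs
    · rw [REL.sum_sign]
    · rw [Finset.sum_const_zero, zero_smul]
  · ext1 ξ
    rw [AlternatingMap.add_apply, AlternatingMap.smul_apply, REL.EA_apply, REL.Est_apply, map_sum,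
      Finset.sum_congr rfl fun x _ => REL.Eij_X_mul i j l x _, Finset.sum_add_distrib, add_comm,
      REL.Est_apply, REL.Est_apply]
    congr 1
    split_ifs
    · rw [one_smul]
    · rw [Finset.sum_const_zero, zero_smul]
  · ext1 ξ
    rw [AlternatingMap.add_apply, AlternatingMap.smul_apply, REL.EA_apply, REL.Dop_apply,
      REL.Dop_apply, REL.Dop_apply, map_sum, Finset.smul_sum, ← Finset.sum_add_distrib]
    refine Finset.sum_congr rfl fun p _ => ?_
    rw [REL.EA_apply, REL.dd_Eij, smul_add, map_zsmul]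
    congr 1
    split_ifs
    · rw [one_smul]
    · rw [smul_zero, zero_smul]

end Pool.Agent.VSY
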