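import Pool.Agent.VSY.StmtsB
import Pool.Agent.VSY.REL

/-!
# L5M: the monomials in `x_2`, `x_3`
-/

namespace Pool.Agent.VSY

open MvPolynomial

namespace L5M

variable {K : Type} [Field K]

theorem pd_X {A : Type} {v : ℕ} (x y : A) (i j : Fin v) (hij : i ≠ j) :
    pderiv (x, j) (X (y, i) : PX K A v) = 0 := by
  classical
  rw [pderiv_X, Pi.single_apply, if_neg]
  rintro h
  exact hij (congrArg Prod.snd h)

theorem Eij_comm {A : Type} [Fintype A] (f : PX K A 4) :
    Eij (2 : Fin 4) 1 (Eij (3 : Fin 4) 1 f) = Eij (3 : Fin 4) 1 (Eij (2 : Fin 4) 1 f) := by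
  have h : ∀ (i j : Fin 4), j ≠ 1 → Eij i 1 (Eij j 1 f) =
      ∑ x : A, ∑ y : A, X (x, i) * (X (y, j) * pderiv (x, 1) (pderiv (y, 1) f)) := by
    intro i j hj
    rw [REL.Eij_apply]
    refine Finset.sum_congr rfl fun x _ => ?_
    rw [REL.Eij_apply, map_sum, Finset.mul_sum]
    refine Finset.sum_congr rfl fun y _ => ?_
    rw [pderiv_mul, pd_X x y j 1 hj, zero_mul, zero_add]
  rw [h 2 3 (by decide), h 3 2 (by decide), Finset.sum_comm]
  refine Finset.sum_congr rfl fun x _ => Finset.sum_congr rfl fun y _ => ?_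
  rw [REL.pd_comm (y, (1 : Fin 4)) (x, 1) f]
  ring

theorem EE_left {A : Type} [Fintype A] (p q : ℕ) (f : PX K A 4) :
    Eij (2 : Fin 4) 1 (EE p q f) = EE (p + 1) q f := by
  unfold EE
  induction q with
  | zero => simp only [Function.iterate_zero, id_eq, Function.iterate_succ_apply']
  | succ q ih =>
    rw [Function.iterate_succ_apply' (⇑(Eij 3 1)) q, Eij_comm, ih,
      Function.iterate_succ_apply' (⇑(Eij 3 1)) q]

theorem EE_right {A : Type} [Fintype A] (p q : ℕ) (f : PX K A 4) :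
    Eij (3 : Fin 4) 1 (EE p q f) = EE p (q + 1) f := by
  unfold EE
  rw [Function.iterate_succ_apply']

theorem EE_zero {A : Type} [Fintype A] (f : PX K A 4) : EE 0 0 f = f := rfl

theorem pd1 (i j : Fin 4) (hij : i ≠ j) (n : ℕ) :
    pderiv j (X i ^ n : MvPolynomial (Fin 4) K) = 0 := by
  classical
  rw [pderiv_pow, pderiv_X, Pi.single_apply, if_neg hij, mul_zero]

theorem E1_zero (j : Fin 4) (i l : ℕ) : E1 j 1 (X 2 ^ i * X 3 ^ l : MvPolynomial (Fin 4) K) = 0 := by
  unfold E1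
  rw [pderiv_mul, pd1 2 1 (by decide), pd1 3 1 (by decide), zero_mul, mul_zero, add_zero, mul_zero]

theorem E1_mon (j : Fin 4) (n s t : ℕ) :
    E1 j 1 (X 1 ^ (n + 1) * X 2 ^ s * X 3 ^ t : MvPolynomial (Fin 4) K) =
      ((n : K) + 1) • (X j * (X 1 ^ n * X 2 ^ s * X 3 ^ t)) := by
  classical
  unfold E1
  rw [pderiv_mul, pderiv_mul, pd1 2 1 (by decide), pd1 3 1 (by decide), pderiv_pow, pderiv_X,
    Pi.single_eq_same, smul_eq_C_mul, map_add, map_natCast, map_one]
  push_cast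
  ring

/-- `Λ(a b x_1^(N-s-t) x_2^s x_3^t; E^(p,q) τ)`. -/
noncomputable def G (N : ℕ) (a b : MvPolynomial (Fin 4) K) (s t p q : ℕ) :
    PX K (Option (QU N)) 4 :=
  Lam N a b (X 1 ^ (N - (s + t)) * X 2 ^ s * X 3 ^ t) (EE p q (tau K N 4 0 1))

variable [CharZero K]

theorem G2 (h4 : Stmt_LLN) (N : ℕ) (a b : MvPolynomial (Fin 4) K) (ha : E1 2 1 a = 0)
    (hb : E1 2 1 b = 0) (s t p q n : ℕ) (hn : s + t + (n + 1) = N) :
    Eij 2 1 (G N a b s t p q) = ((n : K) + 1) • G N a b (s + 1) t p q + G N a b s t (p + 1) q := by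
  obtain ⟨l1, l2, l3, l4, l5, l6, l7, -⟩ := h4 K N
  have hz : ∀ (c c' : MvPolynomial (Fin 4) K) (z : PX K (Option (Fin N)) 4),
      Lam N 0 c c' z = 0 := by
    intro c c' z
    have := l2 0 0 c c' z
    rwa [zero_smul, zero_smul] at this
  have hl : ∀ (x : K) (c c' c'' : MvPolynomial (Fin 4) K) (z : PX K (Option (Fin N)) 4),
      Lam N c c' (x • c'') z = x • Lam N c c' c'' z := by
    intro x c c' c'' z
    rw [l6, l5, l2, l5, l6]
  have e1 : N - (s + t) = n + 1 := by omega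
  have e2 : N - (s + 1 + t) = n := by omega
  unfold G
  rw [l7, ha, hb, EE_left, e1, e2, E1_mon, hl, hz, l5 0 a, hz, if_neg (by decide), zero_smul,
    zero_add, zero_add, add_zero]
  congr 3
  ring

theorem G3 (h4 : Stmt_LLN) (N : ℕ) (a b : MvPolynomial (Fin 4) K) (ha : E1 3 1 a = 0)
    (hb : E1 3 1 b = 0) (s t p q n : ℕ) (hn : s + t + (n + 1) = N) :
    Eij 3 1 (G N a b s t p q) = ((n : K) + 1) • G N a b s (t + 1) p q + G N a b s t p (q + 1) := by
  obtain ⟨l1, l2, l3, l4, l5, l6, l7, -⟩ := h4 K N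
  have hz : ∀ (c c' : MvPolynomial (Fin 4) K) (z : PX K (Option (Fin N)) 4),
      Lam N 0 c c' z = 0 := by
    intro c c' z
    have := l2 0 0 c c' z
    rwa [zero_smul, zero_smul] at this
  have hl : ∀ (x : K) (c c' c'' : MvPolynomial (Fin 4) K) (z : PX K (Option (Fin N)) 4),
      Lam N c c' (x • c'') z = x • Lam N c c' c'' z := by
    intro x c c' c'' z
    rw [l6, l5, l2, l5, l6]
  have e1 : N - (s + t) = n + 1 := by omega
  have e2 : N - (s + (t + 1)) = n := by omega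
  unfold G
  rw [l7, ha, hb, EE_right, e1, e2, E1_mon, hl, hz, l5 0 a, hz, if_neg (by decide), zero_smul,
    zero_add, zero_add, add_zero]
  congr 3
  ring

theorem A1 (h2 : Stmt_L4S) (h4 : Stmt_LLN) (h7 : Stmt_OPS) (N : ℕ) (hN : 3 ≤ N)
    (a b : MvPolynomial (Fin 4) K) (ha : ∀ j, E1 j 1 a = 0) (hb : ∀ j, E1 j 1 b = 0)
    (haN : a.IsHomogeneous N) (hbN : b.IsHomogeneous N) (m : ℕ) :
    ∀ p q, p + q = m → ∀ s t, s + t + (p + q) < N →
      G N a b s t p q ∈ BB K (QU N) 4 (N + 1) (2 * N + 1) := by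
  obtain ⟨-, o2, -⟩ := h7 K (QU N) 4 (N + 1) (2 * N + 1)
  induction m with
  | zero =>
    intro p q hpq s t hst
    obtain ⟨rfl, rfl⟩ : p = 0 ∧ q = 0 := by omega
    obtain ⟨l1, l2, l3, l4, l5, l6, l7, -⟩ := h4 K N
    obtain ⟨n, hn⟩ : ∃ n, s + t + (n + 1) = N := ⟨N - 1 - (s + t), by omega⟩
    have e1 : N - (s + t) = n + 1 := by omega
    unfold G
    rw [EE_zero, e1, l6, l5]
    have e3 : (X 1 ^ (n + 1) * X 2 ^ s * X 3 ^ t : MvPolynomial (Fin 4) K) =
        X 1 * (X 1 ^ n * X 2 ^ s * X 3 ^ t) := by ring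
    rw [e3]
    refine h2 K N hN _ a b ?_ haN hbN
    have e4 : N - 1 = n + s + t := by omega
    rw [e4]
    exact ((isHomogeneous_X_pow 1 n).mul (isHomogeneous_X_pow 2 s)).mul (isHomogeneous_X_pow 3 t)
  | succ m ih =>
    intro p q hpq s t hst
    obtain ⟨n, hn⟩ : ∃ n, s + t + (n + 1) = N := ⟨N - 1 - (s + t), by omega⟩
    rcases p with _ | p
    · obtain ⟨q, rfl⟩ : ∃ q', q = q' + 1 := ⟨q - 1, by omega⟩
      have h := G3 h4 N a b (ha 3) (hb 3) s t 0 q n hn
      have e : G N a b s t 0 (q + 1) = Eij 3 1 (G N a b s t 0 q) -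
          ((n : K) + 1) • G N a b s (t + 1) 0 q := by
        rw [h, add_sub_cancel_left]
      rw [e]
      exact Submodule.sub_mem _ (o2 3 1 _ (ih 0 q (by omega) s t (by omega)))
        (Submodule.smul_mem _ _ (ih 0 q (by omega) s (t + 1) (by omega)))
    · have h := G2 h4 N a b (ha 2) (hb 2) s t p q n hn
      have e : G N a b s t (p + 1) q = Eij 2 1 (G N a b s t p q) -
          ((n : K) + 1) • G N a b (s + 1) t p q := by
        rw [h, add_sub_cancel_left]
      rw [e]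
      exact Submodule.sub_mem _ (o2 2 1 _ (ih p q (by omega) s t (by omega)))
        (Submodule.smul_mem _ _ (ih p q (by omega) (s + 1) t (by omega)))

theorem A2 (h2 : Stmt_L4S) (h4 : Stmt_LLN) (h7 : Stmt_OPS) (N : ℕ) (hN : 3 ≤ N)
    (a b : MvPolynomial (Fin 4) K) (ha : ∀ j, E1 j 1 a = 0) (hb : ∀ j, E1 j 1 b = 0)
    (haN : a.IsHomogeneous N) (hbN : b.IsHomogeneous N) (m : ℕ) :
    ∀ p q, p + q = m → ∀ s t, s + t + (p + q) = N →
      G N a b s t p q - ((-1 : K) ^ m * (m.factorial : K)) • G N a b (s + p) (t + q) 0 0 ∈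
        BB K (QU N) 4 (N + 1) (2 * N + 1) := by
  obtain ⟨-, o2, -⟩ := h7 K (QU N) 4 (N + 1) (2 * N + 1)
  induction m with
  | zero =>
    intro p q hpq s t hst
    obtain ⟨rfl, rfl⟩ : p = 0 ∧ q = 0 := by omega
    simp
  | succ m ih =>
    intro p q hpq s t hst
    rcases p with _ | p
    · obtain ⟨q, rfl⟩ : ∃ q', q = q' + 1 := ⟨q - 1, by omega⟩
      have h := G3 h4 N a b (ha 3) (hb 3) s t 0 q m (by omega)
      have e : G N a b s t 0 (q + 1) - ((-1 : K) ^ (m + 1) * ((m + 1).factorial : K)) •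
            G N a b (s + 0) (t + (q + 1)) 0 0 = Eij 3 1 (G N a b s t 0 q) -
          ((m : K) + 1) • (G N a b s (t + 1) 0 q - ((-1 : K) ^ m * (m.factorial : K)) •
            G N a b (s + 0) (t + 1 + q) 0 0) := by
        rw [h, show t + (q + 1) = t + 1 + q by ring, Nat.factorial_succ, smul_sub, smul_smul]
        push_cast
        rw [show ((m : K) + 1) * ((-1 : K) ^ m * (m.factorial : K)) =
          -((-1 : K) ^ (m + 1) * (((m : K) + 1) * (m.factorial : K))) by ring, neg_smul]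
        abel
      rw [e]
      exact Submodule.sub_mem _
        (o2 3 1 _ (A1 h2 h4 h7 N hN a b ha hb haN hbN m 0 q (by omega) s t (by omega)))
        (Submodule.smul_mem _ _ (ih 0 q (by omega) s (t + 1) (by omega)))
    · have h := G2 h4 N a b (ha 2) (hb 2) s t p q m (by omega)
      have e : G N a b s t (p + 1) q - ((-1 : K) ^ (m + 1) * ((m + 1).factorial : K)) •
            G N a b (s + (p + 1)) (t + q) 0 0 = Eij 2 1 (G N a b s t p q) -
          ((m : K) + 1) • (G N a b (s + 1) t p q - ((-1 : K) ^ m * (m.factorial : K)) •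
            G N a b (s + 1 + p) (t + q) 0 0) := by
        rw [h, show s + (p + 1) = s + 1 + p by ring, Nat.factorial_succ, smul_sub, smul_smul]
        push_cast
        rw [show ((m : K) + 1) * ((-1 : K) ^ m * (m.factorial : K)) =
          -((-1 : K) ^ (m + 1) * (((m : K) + 1) * (m.factorial : K))) by ring, neg_smul]
        abel
      rw [e]
      exact Submodule.sub_mem _
        (o2 2 1 _ (A1 h2 h4 h7 N hN a b ha hb haN hbN m p q (by omega) s t (by omega)))
        (Submodule.smul_mem _ _ (ih p q (by omega) (s + 1) t (by omega)))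

theorem fac_lt (N : ℕ) (hN : 3 ≤ N) : 3 * N.factorial < (cN N).descFactorial N := by
  have h1 := Nat.pow_sub_le_descFactorial (cN N) N
  have h2 : 2 * N ≤ cN N + 1 - N := by
    unfold cN eN
    have h3 : 2 * N ≤ N * (N + 1) / 2 := by
      rw [Nat.le_div_iff_mul_le (by norm_num)]
      nlinarith
    omega
  have h3 : (2 * N) ^ N ≤ (cN N + 1 - N) ^ N := Nat.pow_le_pow_left h2 N
  have h4 : N.factorial ≤ N ^ N := Nat.factorial_le_pow N
  have h5 : 2 ^ 3 ≤ 2 ^ N := Nat.pow_le_pow_right (by norm_num) hN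
  have h6 : 0 < N.factorial := Nat.factorial_pos N
  rw [mul_pow] at h3
  have h7 : 2 ^ 3 * N.factorial ≤ 2 ^ N * N ^ N := Nat.mul_le_mul h5 h4
  omega

theorem fac_ne (N : ℕ) (hN : 3 ≤ N) :
    1 + 3 * (rho K N 0 N * ((-1 : K) ^ N * (N.factorial : K))) ≠ 0 := by
  have hD := fac_lt N hN
  have hD0 : ((cN N).descFactorial N : K) ≠ 0 := by
    rw [Nat.cast_ne_zero]
    omega
  unfold rho
  rw [Nat.descFactorial_zero, Nat.cast_one, zero_add]
  intro h
  field_simp at h
  rcases neg_one_pow_eq_or K N with h1 | h1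
  · rw [h1] at h
    have h2 : (((cN N).descFactorial N + 3 * N.factorial : ℕ) : K) = 0 := by
      push_cast
      linear_combination h
    rw [Nat.cast_eq_zero] at h2
    omega
  · rw [h1] at h
    have h2 : (((cN N).descFactorial N : ℕ) : K) = ((3 * N.factorial : ℕ) : K) := by
      push_cast
      linear_combination h
    rw [Nat.cast_inj] at h2
    omega

end L5M

theorem L5M_thm (h1 : Stmt_L4M) (h2 : Stmt_L4S) (h3 : Stmt_L2M) (h4 : Stmt_LLN) (h5 : Stmt_T5M)
    (h6 : Stmt_L1M) (h7 : Stmt_OPS) (h8 : Stmt_Z1C) : Stmt_L5M := by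
  intro K _ _ N i l i' l' i'' l'' hN hil hil' hil''
  obtain ⟨l1, l2, l3, l4, l5, l6, l7, -⟩ := h4 K N
  -- the third factor
  have key : ∀ (a b : MvPolynomial (Fin 4) K) (i l : ℕ), (∀ j, E1 j 1 a = 0) →
      (∀ j, E1 j 1 b = 0) → a.IsHomogeneous N → b.IsHomogeneous N → i + l = N →
      Lam N a b (X 1 ^ N) (atp none (X 2 ^ i * X 3 ^ l) * z1 K N 4 0 1) -
        (rho K N 0 N * ((-1 : K) ^ N * (N.factorial : K))) •
          Lam N a b (X 2 ^ i * X 3 ^ l) (tau K N 4 0 1) ∈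
        BB K (QU N) 4 (N + 1) (2 * N + 1) := by
    intro a b i l ha hb haN hbN hil
    have t5 := h5 K N i l 0 0 hN hil.le (by omega)
    rw [hil, Nat.sub_self, pow_zero, one_mul, L5M.EE_zero, zero_add, zero_add, zero_add] at t5
    have k1 := h6 K N a b (X 1 ^ N) haN hbN (isHomogeneous_X_pow 1 N) _ t5
    have k2 := L5M.A2 h2 h4 h7 N hN a b ha hb haN hbN N i l hil 0 0 (by omega)
    unfold L5M.G at k2
    simp only [zero_add, hil, Nat.sub_self, pow_zero, one_mul, Nat.sub_zero, mul_one,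
      L5M.EE_zero] at k2
    have e : Lam N a b (X 1 ^ N) (atp none (X 2 ^ i * X 3 ^ l) * z1 K N 4 0 1) -
        (rho K N 0 N * ((-1 : K) ^ N * (N.factorial : K))) •
          Lam N a b (X 2 ^ i * X 3 ^ l) (tau K N 4 0 1) =
        Lam N a b (X 1 ^ N) (atp none (X 2 ^ i * X 3 ^ l) * z1 K N 4 0 1 -
          rho K N 0 N • EE i l (tau K N 4 0 1)) +
        rho K N 0 N • (Lam N a b (X 1 ^ N) (EE i l (tau K N 4 0 1)) -
          ((-1 : K) ^ N * (N.factorial : K)) •
            Lam N a b (X 2 ^ i * X 3 ^ l) (tau K N 4 0 1)) := by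
      rw [sub_eq_add_neg (atp none (X 2 ^ i * X 3 ^ l) * z1 K N 4 0 1), ← neg_smul, l3, l4,
        smul_sub, smul_smul, neg_smul]
      abel
    rw [e]
    exact Submodule.add_mem _ k1 (Submodule.smul_mem _ _ k2)
  have hom : ∀ i l : ℕ, i + l = N →
      (X 2 ^ i * X 3 ^ l : MvPolynomial (Fin 4) K).IsHomogeneous N := by
    intro i l h
    rw [← h]
    exact (isHomogeneous_X_pow 2 i).mul (isHomogeneous_X_pow 3 l)
  set a : MvPolynomial (Fin 4) K := X 2 ^ i * X 3 ^ l with hadef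
  set b : MvPolynomial (Fin 4) K := X 2 ^ i' * X 3 ^ l' with hbdef
  set c : MvPolynomial (Fin 4) K := X 2 ^ i'' * X 3 ^ l'' with hcdef
  have za : ∀ j, E1 j 1 a = 0 := fun j => L5M.E1_zero j i l
  have zb : ∀ j, E1 j 1 b = 0 := fun j => L5M.E1_zero j i' l'
  have zc : ∀ j, E1 j 1 c = 0 := fun j => L5M.E1_zero j i'' l''
  have k1 := key a b i'' l'' za zb (hom i l hil) (hom i' l' hil') hil''
  have k2 := key a c i' l' za zc (hom i l hil) (hom i'' l'' hil'') hil'
  have k3 := key b c i l zb zc (hom i' l' hil') (hom i'' l'' hil'') hil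
  rw [← hcdef] at k1
  rw [← hbdef, l6 a b c] at k2
  rw [← hadef, l6 b a c, l5 a b c] at k3
  have k4 := h3 K N a b c (X 1 ^ N) (hom i l hil) (hom i' l' hil') (hom i'' l'' hil'')
    (isHomogeneous_X_pow 1 N) _ (h8 K N 4 0 1 (by decide)).1
  have ht : atp none (X 1 ^ N) * z1 K N 4 0 1 = tau K N 4 0 1 := by
    unfold tau
    simp [atp]
  rw [ht] at k4
  set T := Lam N a b c (tau K N 4 0 1) with hT
  set ρ : K := rho K N 0 N * ((-1 : K) ^ N * (N.factorial : K)) with hρ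
  have k5 : (1 + 3 * ρ) • T ∈ BB K (QU N) 4 (N + 1) (2 * N + 1) := by
    have h := Submodule.sub_mem _ (Submodule.sub_mem _ (Submodule.sub_mem _ (mem_BB.2 k4) k1) k2) k3
    have e : Lam N b c (X 1 ^ N) (atp none a * z1 K N 4 0 1) +
          Lam N a c (X 1 ^ N) (atp none b * z1 K N 4 0 1) +
          Lam N a b (X 1 ^ N) (atp none c * z1 K N 4 0 1) + T -
        (Lam N a b (X 1 ^ N) (atp none c * z1 K N 4 0 1) - ρ • T) -
        (Lam N a c (X 1 ^ N) (atp none b * z1 K N 4 0 1) - ρ • T) -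
        (Lam N b c (X 1 ^ N) (atp none a * z1 K N 4 0 1) - ρ • T) = (1 + 3 * ρ) • T := by
      rw [add_smul, one_smul, show (3 : K) * ρ = ρ + ρ + ρ by ring, add_smul, add_smul]
      abel
    rwa [e] at h
  exact mem_BB.1 ((Submodule.smul_mem_iff _ (L5M.fac_ne N hN)).1 k5)

end Pool.Agent.VSY
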