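import Pool.Agent.VSY.StmtsB

/-!
# LALL: the elements `Λ(abc; z)` are boundaries
-/

namespace Pool.Agent.VSY

open MvPolynomial

namespace LALL

variable {K : Type} [Field K]

/-- A property of homogeneous polynomials which is stable under linear combinations holds if it
holds for the monomials. -/
theorem hom_ind {N : ℕ} {P : MvPolynomial (Fin 4) K → Prop} (h0 : P 0)
    (hadd : ∀ a b, P a → P b → P (a + b)) (hsmul : ∀ (t : K) a, P a → P (t • a))
    (hm : ∀ m : Fin 4 →₀ ℕ, (monomial m (1 : K)).IsHomogeneous N → P (monomial m 1))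
    (a : MvPolynomial (Fin 4) K) (ha : a.IsHomogeneous N) : P a := by
  rw [a.as_sum]
  refine Finset.sum_induction _ P hadd h0 fun m hmem => ?_
  have h1 : monomial m (coeff m a) = coeff m a • (monomial m 1 : MvPolynomial (Fin 4) K) := by
    rw [smul_monomial, smul_eq_mul, mul_one]
  rw [h1]
  refine hsmul _ _ (hm m ?_)
  refine isHomogeneous_monomial _ ?_
  have h2 := ha (mem_support_iff.1 hmem)
  rw [Finsupp.degree_eq_weight_one]
  exact h2

/-- Division of a monomial by a variable. -/
theorem div_X {N : ℕ} (m : Fin 4 →₀ ℕ) (i : Fin 4) (hi : m i ≠ 0)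
    (hm : (monomial m (1 : K)).IsHomogeneous N) :
    ∃ a : MvPolynomial (Fin 4) K, a.IsHomogeneous (N - 1) ∧ monomial m 1 = X i * a := by
  have h1 : m = Finsupp.single i 1 + (m - Finsupp.single i 1) := by
    ext j
    rw [Finsupp.add_apply, Finsupp.tsub_apply, Finsupp.single_apply]
    split_ifs with h
    · subst h
      omega
    · omega
  refine ⟨monomial (m - Finsupp.single i 1) 1, ?_, ?_⟩
  · refine isHomogeneous_monomial _ ?_
    have h2 : m.degree = N := by
      rw [Finsupp.degree_eq_weight_one]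
      apply hm
      rw [coeff_monomial, if_pos rfl]
      exact one_ne_zero
    have h3 : m.degree = 1 + (m - Finsupp.single i 1).degree := by
      conv_lhs => rw [h1]
      rw [map_add, Finsupp.degree_single]
    omega
  · conv_lhs => rw [h1]
    rw [X, monomial_mul, one_mul]

/-- The three types of monomials. -/
theorem mono_cases {N : ℕ} (m : Fin 4 →₀ ℕ) (hm : (monomial m (1 : K)).IsHomogeneous N) :
    (∃ a : MvPolynomial (Fin 4) K, a.IsHomogeneous (N - 1) ∧ monomial m 1 = X 0 * a) ∨
    (∃ a : MvPolynomial (Fin 4) K, a.IsHomogeneous (N - 1) ∧ monomial m 1 = X 1 * a) ∨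
    ∃ i l, i + l = N ∧ (monomial m 1 : MvPolynomial (Fin 4) K) = X 2 ^ i * X 3 ^ l := by
  by_cases h0 : m 0 = 0
  · by_cases h1 : m 1 = 0
    · refine Or.inr (Or.inr ⟨m 2, m 3, ?_, ?_⟩)
      · have h2 : m.degree = N := by
          rw [Finsupp.degree_eq_weight_one]
          apply hm
          rw [coeff_monomial, if_pos rfl]
          exact one_ne_zero
        rw [Finsupp.degree_eq_sum, Fin.sum_univ_four, h0, h1] at h2
        omega
      · rw [monomial_eq, C_1, one_mul, Finsupp.prod_fintype _ _ (by simp), Fin.prod_univ_four,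
          h0, h1, pow_zero, pow_zero, one_mul, one_mul]
    · exact Or.inr (Or.inl (div_X m 1 h1 hm))
  · exact Or.inl (div_X m 0 h0 hm)

end LALL

theorem LALL_thm (h1 : Stmt_L4M) (h2 : Stmt_L4S) (h3 : Stmt_L5M) (h4 : Stmt_LLN)
    (h5 : Stmt_L1M) (h6 : Stmt_TGEN) (h7 : Stmt_OPS) : Stmt_LALL := by
  intro K _ _ N hN
  obtain ⟨hadd, hsmul, hzadd, hzsmul, hs1, hs2, hE, _⟩ := h4 K N
  obtain ⟨_, hEB, _, _, _⟩ := h7 K (QU N) 4 (N + 1) (2 * N + 1)
  -- linearity in the first form
  have hlin : ∀ (b c : MvPolynomial (Fin 4) K) (z : PX K (Option (Fin N)) 4),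
      (∀ m : Fin 4 →₀ ℕ, (monomial m (1 : K)).IsHomogeneous N →
        InB (QU N) 4 (N + 1) (2 * N + 1) (Lam N (monomial m 1) b c z)) →
      ∀ a : MvPolynomial (Fin 4) K, a.IsHomogeneous N →
        InB (QU N) 4 (N + 1) (2 * N + 1) (Lam N a b c z) := by
    intro b c z hm a ha
    refine LALL.hom_ind (P := fun a => InB (QU N) 4 (N + 1) (2 * N + 1) (Lam N a b c z))
      ?_ ?_ ?_ hm a ha
    · have := hsmul 0 0 b c z
      rw [zero_smul, zero_smul] at this
      show InB (QU N) 4 (N + 1) (2 * N + 1) (Lam N 0 b c z)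
      rw [this]
      exact InB.zero
    · intro a a' h h'
      show InB (QU N) 4 (N + 1) (2 * N + 1) (Lam N (a + a') b c z)
      rw [hadd]
      exact h.add h'
    · intro t a h
      show InB (QU N) 4 (N + 1) (2 * N + 1) (Lam N (t • a) b c z)
      rw [hsmul]
      exact h.smul t
  -- the case that one of the forms is divisible by `x_0` or `x_1`
  have hx0 : ∀ a a' b c : MvPolynomial (Fin 4) K, a'.IsHomogeneous (N - 1) → a = X 0 * a' →
      b.IsHomogeneous N → c.IsHomogeneous N →
      InB (QU N) 4 (N + 1) (2 * N + 1) (Lam N a b c (tau K N 4 0 1)) := by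
    intro a a' b c ha' ha hb hc
    rw [ha]
    exact h1 K N hN a' b c ha' hb hc
  have hx1 : ∀ a a' b c : MvPolynomial (Fin 4) K, a'.IsHomogeneous (N - 1) → a = X 1 * a' →
      b.IsHomogeneous N → c.IsHomogeneous N →
      InB (QU N) 4 (N + 1) (2 * N + 1) (Lam N a b c (tau K N 4 0 1)) := by
    intro a a' b c ha' ha hb hc
    rw [ha]
    exact h2 K N hN a' b c ha' hb hc
  have h13 : ∀ (a b c : MvPolynomial (Fin 4) K) (z : PX K (Option (Fin N)) 4),
      Lam N a b c z = Lam N c b a z := by
    intro a b c z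
    rw [hs1 b a c z, hs2 b c a z, hs1 c b a z]
  -- monomials
  have hmono : ∀ m m' m'' : Fin 4 →₀ ℕ, (monomial m (1 : K)).IsHomogeneous N →
      (monomial m' (1 : K)).IsHomogeneous N → (monomial m'' (1 : K)).IsHomogeneous N →
      InB (QU N) 4 (N + 1) (2 * N + 1) (Lam N (monomial m 1) (monomial m' 1) (monomial m'' 1)
        (tau K N 4 0 1)) := by
    intro m m' m'' hm hm' hm''
    rcases LALL.mono_cases m hm with ⟨a, ha, ha'⟩ | ⟨a, ha, ha'⟩ | ⟨i, l, hil, he⟩
    · exact hx0 _ a _ _ ha ha' hm' hm''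
    · exact hx1 _ a _ _ ha ha' hm' hm''
    rcases LALL.mono_cases m' hm' with ⟨a, ha, ha'⟩ | ⟨a, ha, ha'⟩ | ⟨i', l', hil', he'⟩
    · rw [← hs1]
      exact hx0 _ a _ _ ha ha' hm hm''
    · rw [← hs1]
      exact hx1 _ a _ _ ha ha' hm hm''
    rcases LALL.mono_cases m'' hm'' with ⟨a, ha, ha'⟩ | ⟨a, ha, ha'⟩ | ⟨i'', l'', hil'', he''⟩
    · rw [h13]
      exact hx0 _ a _ _ ha ha' hm' hm
    · rw [h13]
      exact hx1 _ a _ _ ha ha' hm' hm
    rw [he, he', he'']
    exact h3 K N i l i' l' i'' l'' hN hil hil' hil''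
  -- all forms, the cycle `τ`
  have htau : ∀ a b c : MvPolynomial (Fin 4) K, a.IsHomogeneous N → b.IsHomogeneous N →
      c.IsHomogeneous N →
      InB (QU N) 4 (N + 1) (2 * N + 1) (Lam N a b c (tau K N 4 0 1)) := by
    intro a b c ha hb hc
    refine hlin b c _ (fun m hm => ?_) a ha
    rw [← hs1]
    refine hlin _ c _ (fun m' hm' => ?_) b hb
    rw [h13]
    refine hlin _ _ _ (fun m'' hm'' => ?_) c hc
    exact hmono m'' m m' hm'' hm hm'
  -- the submodule
  let M : Submodule K (PX K (Option (Fin N)) 4) :=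
    { carrier := {z | ∀ a b c : MvPolynomial (Fin 4) K, a.IsHomogeneous N → b.IsHomogeneous N →
        c.IsHomogeneous N → InB (QU N) 4 (N + 1) (2 * N + 1) (Lam N a b c z)}
      add_mem' := fun {z z'} hz hz' a b c ha hb hc => by
        rw [hzadd]
        exact (hz a b c ha hb hc).add (hz' a b c ha hb hc)
      zero_mem' := fun a b c ha hb hc => by
        have := hzsmul 0 a b c 0
        rw [zero_smul, zero_smul] at this
        rw [this]
        exact InB.zero
      smul_mem' := fun t z hz a b c ha hb hc => by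
        rw [hzsmul]
        exact (hz a b c ha hb hc).smul t }
  have hE1 : ∀ (i j : Fin 4) (a : MvPolynomial (Fin 4) K), a.IsHomogeneous N →
      (E1 i j a).IsHomogeneous N := by
    intro i j a ha
    have h := (isHomogeneous_X K i).mul (ha.pderiv (i := j))
    have hd : 1 + (N - 1) = N := by omega
    rw [hd] at h
    exact h
  have hMB : ∀ f, InB (Fin N) 4 (N + 1) (2 * N) f → f ∈ M := by
    intro f hf a b c ha hb hc
    exact h5 K N a b c ha hb hc f hf
  have hME : ∀ i j, ∀ f ∈ M, Eij i j f ∈ M := by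
    intro i j f hf a b c ha hb hc
    have h8 := hE i j a b c f
    have h9 : Lam N a b c (Eij i j f) = Eij i j (Lam N a b c f) + (-1 : K) • (Lam N (E1 i j a) b c f) +
        (-1 : K) • Lam N a (E1 i j b) c f + (-1 : K) • Lam N a b (E1 i j c) f +
        (-1 : K) • ((if i = j then (1 : K) else 0) • Lam N a b c f) := by
      rw [h8]
      simp only [neg_one_smul]
      ring
    rw [h9]
    refine InB.add (InB.add (InB.add (InB.add ?_ ?_) ?_) ?_) ?_
    · exact hEB i j _ (hf a b c ha hb hc)
    · exact (hf _ b c (hE1 i j a ha) hb hc).smul _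
    · exact (hf a _ c ha (hE1 i j b hb) hc).smul _
    · exact (hf a b _ ha hb (hE1 i j c hc)).smul _
    · exact ((hf a b c ha hb hc).smul _).smul _
  have hMt : tau K N 4 0 1 ∈ M := fun a b c ha hb hc => htau a b c ha hb hc
  intro a b c ha hb hc z hz
  exact h6 K N 2 (by omega) M hMB hME hMt z hz a b c ha hb hc

end Pool.Agent.VSY
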