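import Pool.Agent.VSY.StmtsB

/-!
# Veronese syzygies (MP_deb8da_ag): linearity, symmetry and equivariance of `Λ`
-/

namespace Pool.Agent.VSY

open MvPolynomial

namespace LLN

variable {K : Type} [Field K]

/-- The summand of `Λ`. -/
noncomputable def TT (N : ℕ) (a b c : MvPolynomial (Fin 4) K) (z : PX K (Option (Fin N)) 4) :
    PX K (Option (QU N)) 4 :=
  DD4 K N * (atp (some (Sum.inl 0)) a * atp (some (Sum.inl 1)) b * atp (some (Sum.inl 2)) c) *
    ren (Option.map Sum.inr) z

theorem Lam_eq (N : ℕ) (a b c : MvPolynomial (Fin 4) K) (z : PX K (Option (Fin N)) 4) :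
    Lam N a b c z = ∑ π : Equiv.Perm (QU N), ((Equiv.Perm.sign π : ℤˣ) : ℤ) •
      ren (Option.map π) (TT N a b c z) := rfl

/-- The alternating sum. -/
noncomputable def Alt (N : ℕ) : PX K (Option (QU N)) 4 →ₗ[K] PX K (Option (QU N)) 4 :=
  ∑ π : Equiv.Perm (QU N), ((Equiv.Perm.sign π : ℤˣ) : ℤ) • (ren (Option.map π)).toLinearMap

theorem Alt_apply (N : ℕ) (F : PX K (Option (QU N)) 4) :
    Alt N F = ∑ π : Equiv.Perm (QU N), ((Equiv.Perm.sign π : ℤˣ) : ℤ) • ren (Option.map π) F := by
  simp [Alt, LinearMap.sum_apply]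

theorem Lam_alt (N : ℕ) (a b c : MvPolynomial (Fin 4) K) (z : PX K (Option (Fin N)) 4) :
    Lam N a b c z = Alt N (TT N a b c z) := by
  rw [Lam_eq, Alt_apply]

theorem ren_atp {A B : Type} {v : ℕ} (φ : A → B) (x : A) (a : MvPolynomial (Fin v) K) :
    ren φ (atp x a) = atp (φ x) a := by
  simp only [ren, atp, rename_rename]
  rfl

theorem sw_atp {A : Type} {v : ℕ} (σ : Equiv.Perm (Fin v)) (x : A) (a : MvPolynomial (Fin v) K) :
    sw σ (atp x a) = atp x (rename σ a) := by
  simp only [sw, atp, rename_rename]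
  rfl

theorem sw_ren {A B : Type} {v : ℕ} (σ : Equiv.Perm (Fin v)) (φ : A → B) (f : PX K A v) :
    sw σ (ren φ f) = ren φ (sw σ f) := by
  simp only [sw, ren, rename_rename, Prod.map_comp_map, Function.comp_id, Function.id_comp]

theorem ren_DD4 (N : ℕ) (φ : Option (QU N) → Option (QU N)) (σ : Equiv.Perm (Fin 4))
    (h : ∀ i, φ (q4 N i) = q4 N (σ i)) :
    ren φ (DD4 K N) = ((Equiv.Perm.sign σ : ℤˣ) : ℤ) • DD4 K N := by
  unfold DD4
  rw [AlgHom.map_det]
  have h1 : (ren φ).mapMatrix (Matrix.of fun i j : Fin 4 =>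
      (X (q4 N i, j) : PX K (Option (QU N)) 4)) = (Matrix.of fun i j : Fin 4 =>
      (X (q4 N i, j) : PX K (Option (QU N)) 4)).submatrix σ id := by
    ext1 i j
    simp [h]
  rw [h1, Matrix.det_permute, zsmul_eq_mul]

theorem sw_DD4 (N : ℕ) (σ : Equiv.Perm (Fin 4)) :
    sw σ (DD4 K N) = ((Equiv.Perm.sign σ : ℤˣ) : ℤ) • DD4 K N := by
  unfold DD4
  rw [AlgHom.map_det]
  have h1 : (sw σ).mapMatrix (Matrix.of fun i j : Fin 4 =>
      (X (q4 N i, j) : PX K (Option (QU N)) 4)) = (Matrix.of fun i j : Fin 4 =>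
      (X (q4 N i, j) : PX K (Option (QU N)) 4)).submatrix id σ := by
    ext1 i j
    simp [sw]
  rw [h1, Matrix.det_permute', zsmul_eq_mul]

/-- The action of an exchange on the alternating sum. -/
theorem Alt_swap (N : ℕ) (x y : QU N) (hxy : x ≠ y) (F : PX K (Option (QU N)) 4) :
    Alt N (ren (Option.map (Equiv.swap x y)) F) = -Alt N F := by
  rw [Alt_apply, Alt_apply, ← Finset.sum_neg_distrib]
  refine Fintype.sum_equiv (Equiv.mulRight (Equiv.swap x y)) _ _ fun π => ?_
  rw [ren_ren, Equiv.coe_mulRight, Equiv.Perm.sign_mul, Equiv.Perm.sign_swap hxy]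
  have h1 : Option.map π ∘ Option.map (Equiv.swap x y) = Option.map (π * Equiv.swap x y) := by
    funext o
    cases o <;> rfl
  rw [h1, mul_neg_one, Units.val_neg, neg_smul, neg_neg]

theorem TT_swap1 (N : ℕ) (a b c : MvPolynomial (Fin 4) K) (z : PX K (Option (Fin N)) 4) :
    ren (Option.map (Equiv.swap (Sum.inl 0 : QU N) (Sum.inl 1))) (TT N b a c z) =
      -TT N a b c z := by
  have h1 : ren (Option.map (Equiv.swap (Sum.inl 0 : QU N) (Sum.inl 1))) (DD4 K N) =
      -DD4 K N := by
    rw [ren_DD4 N _ (Equiv.swap 1 2), Equiv.Perm.sign_swap (by decide)]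
    · simp
    · intro i
      fin_cases i
      · rfl
      · change some (Equiv.swap (Sum.inl 0 : QU N) (Sum.inl 1) (Sum.inl 0)) = _
        rw [Equiv.swap_apply_left]
        rfl
      · change some (Equiv.swap (Sum.inl 0 : QU N) (Sum.inl 1) (Sum.inl 1)) = _
        rw [Equiv.swap_apply_right]
        rfl
      · change some (Equiv.swap (Sum.inl 0 : QU N) (Sum.inl 1) (Sum.inl 2)) = _
        rw [Equiv.swap_apply_of_ne_of_ne (by simp) (by simp)]
        rfl
  have h2 : ren (Option.map (Equiv.swap (Sum.inl 0 : QU N) (Sum.inl 1)))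
      (ren (Option.map Sum.inr) z) = ren (Option.map Sum.inr) z := by
    rw [ren_ren]
    refine ren_congr (fun o => ?_) z
    cases o with
    | none => rfl
    | some k =>
      change some (Equiv.swap (Sum.inl 0 : QU N) (Sum.inl 1) (Sum.inr k)) = _
      rw [Equiv.swap_apply_of_ne_of_ne (by simp) (by simp)]
      rfl
  unfold TT
  rw [map_mul, map_mul, map_mul, map_mul, h1, h2, ren_atp, ren_atp, ren_atp]
  have e0 : Option.map (Equiv.swap (Sum.inl 0 : QU N) (Sum.inl 1)) (some (Sum.inl 0)) =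
      some (Sum.inl 1) := by
    rw [Option.map_some, Equiv.swap_apply_left]
  have e1 : Option.map (Equiv.swap (Sum.inl 0 : QU N) (Sum.inl 1)) (some (Sum.inl 1)) =
      some (Sum.inl 0) := by
    rw [Option.map_some, Equiv.swap_apply_right]
  have e2 : Option.map (Equiv.swap (Sum.inl 0 : QU N) (Sum.inl 1)) (some (Sum.inl 2)) =
      some (Sum.inl 2) := by
    rw [Option.map_some, Equiv.swap_apply_of_ne_of_ne (by simp) (by simp)]
  rw [e0, e1, e2]
  ring

theorem TT_swap2 (N : ℕ) (a b c : MvPolynomial (Fin 4) K) (z : PX K (Option (Fin N)) 4) :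
    ren (Option.map (Equiv.swap (Sum.inl 1 : QU N) (Sum.inl 2))) (TT N a c b z) =
      -TT N a b c z := by
  have h1 : ren (Option.map (Equiv.swap (Sum.inl 1 : QU N) (Sum.inl 2))) (DD4 K N) =
      -DD4 K N := by
    rw [ren_DD4 N _ (Equiv.swap 2 3), Equiv.Perm.sign_swap (by decide)]
    · simp
    · intro i
      fin_cases i
      · rfl
      · change some (Equiv.swap (Sum.inl 1 : QU N) (Sum.inl 2) (Sum.inl 0)) = _
        rw [Equiv.swap_apply_of_ne_of_ne (by simp) (by simp)]
        rfl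
      · change some (Equiv.swap (Sum.inl 1 : QU N) (Sum.inl 2) (Sum.inl 1)) = _
        rw [Equiv.swap_apply_left]
        rfl
      · change some (Equiv.swap (Sum.inl 1 : QU N) (Sum.inl 2) (Sum.inl 2)) = _
        rw [Equiv.swap_apply_right]
        rfl
  have h2 : ren (Option.map (Equiv.swap (Sum.inl 1 : QU N) (Sum.inl 2)))
      (ren (Option.map Sum.inr) z) = ren (Option.map Sum.inr) z := by
    rw [ren_ren]
    refine ren_congr (fun o => ?_) z
    cases o with
    | none => rfl
    | some k =>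
      change some (Equiv.swap (Sum.inl 1 : QU N) (Sum.inl 2) (Sum.inr k)) = _
      rw [Equiv.swap_apply_of_ne_of_ne (by simp) (by simp)]
      rfl
  unfold TT
  rw [map_mul, map_mul, map_mul, map_mul, h1, h2, ren_atp, ren_atp, ren_atp]
  have e0 : Option.map (Equiv.swap (Sum.inl 1 : QU N) (Sum.inl 2)) (some (Sum.inl 0)) =
      some (Sum.inl 0) := by
    rw [Option.map_some, Equiv.swap_apply_of_ne_of_ne (by simp) (by simp)]
  have e1 : Option.map (Equiv.swap (Sum.inl 1 : QU N) (Sum.inl 2)) (some (Sum.inl 1)) =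
      some (Sum.inl 2) := by
    rw [Option.map_some, Equiv.swap_apply_left]
  have e2 : Option.map (Equiv.swap (Sum.inl 1 : QU N) (Sum.inl 2)) (some (Sum.inl 2)) =
      some (Sum.inl 1) := by
    rw [Option.map_some, Equiv.swap_apply_right]
  rw [e0, e1, e2]
  ring

/-- `E_ij` of the determinant. -/
theorem Eij_DD4 (N : ℕ) (i j : Fin 4)
    (hmul : ∀ f g : PX K (Option (QU N)) 4, Eij i j (f * g) = f * Eij i j g + Eij i j f * g)
    (hX : ∀ (x : Option (QU N)) (l : Fin 4),
      Eij i j (X (x, l) : PX K (Option (QU N)) 4) = if j = l then X (x, i) else 0) :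
    Eij i j (DD4 K N) = (if i = j then (1 : K) else 0) • DD4 K N := by
  have h1 : Eij i j (DD4 K N) = ((Matrix.of fun i j : Fin 4 =>
      (X (q4 N i, j) : PX K (Option (QU N)) 4)).updateCol j fun k => X (q4 N k, i)).det := by
    unfold DD4
    rw [Matrix.det_apply, Matrix.det_apply, map_sum]
    refine Finset.sum_congr rfl fun σ _ => ?_
    rw [Units.smul_def, Units.smul_def, map_zsmul]
    congr 1
    simp only [Fin.prod_univ_four, Matrix.of_apply, hmul, hX]
    fin_cases j <;> simp
  rw [h1]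
  by_cases hij : i = j
  · subst hij
    rw [if_pos rfl, one_smul]
    unfold DD4
    congr 1
    ext1 k l
    rw [Matrix.updateCol_apply]
    split_ifs with h
    · rw [h]
      rfl
    · rfl
  · rw [if_neg hij, zero_smul]
    refine Matrix.det_zero_of_column_eq hij fun k => ?_
    rw [Matrix.updateCol_self, Matrix.updateCol_ne hij]
    rfl

end LLN

open LLN in
/-- LLN: linearity, symmetry and equivariance of `Λ`. -/
theorem LLN_thm (h1 : Stmt_NAT) (h2 : Stmt_WB) : Stmt_LLN := by
  intro K _ _ N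
  refine ⟨?_, ?_, ?_, ?_, ?_, ?_, ?_, ?_⟩
  · intro a a' b c z
    rw [Lam_alt, Lam_alt, Lam_alt, ← map_add]
    congr 1
    unfold TT
    rw [map_add]
    ring
  · intro t a b c z
    rw [Lam_alt, Lam_alt, ← map_smul]
    congr 1
    unfold TT
    rw [map_smul]
    simp only [smul_mul_assoc, mul_smul_comm]
  · intro a b c z z'
    rw [Lam_alt, Lam_alt, Lam_alt, ← map_add]
    congr 1
    unfold TT
    rw [map_add]
    ring
  · intro t a b c z
    rw [Lam_alt, Lam_alt, ← map_smul]
    congr 1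
    unfold TT
    rw [map_smul, mul_smul_comm]
  · intro a b c z
    rw [Lam_alt, Lam_alt]
    have h := Alt_swap N (Sum.inl 0) (Sum.inl 1) (by simp) (TT N b a c z)
    rw [TT_swap1, map_neg] at h
    exact (neg_injective h).symm
  · intro a b c z
    rw [Lam_alt, Lam_alt]
    have h := Alt_swap N (Sum.inl 1) (Sum.inl 2) (by simp) (TT N a c b z)
    rw [TT_swap2, map_neg] at h
    exact (neg_injective h).symm
  · intro i j a b c z
    obtain ⟨-, -, -, -, -, -, -, -, -, w10, w11, -, w13⟩ :=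
      h2 K (Option (QU N)) (Option (QU N)) 4
    have hA : ∀ F : PX K (Option (QU N)) 4, Eij i j (Alt N F) = Alt N (Eij i j F) := by
      intro F
      rw [Alt_apply, Alt_apply, map_sum]
      refine Finset.sum_congr rfl fun π _ => ?_
      rw [map_zsmul, ← (h1 K _ _ 4 (Option.map π)).1]
    have hD := Eij_DD4 (K := K) N i j (w10 i j) (w11 i j)
    rw [Lam_alt, Lam_alt, Lam_alt, Lam_alt, Lam_alt, hA, ← map_smul, ← map_add, ← map_add,
      ← map_add, ← map_add]
    congr 1
    unfold TT
    rw [w10, w10, w10, w10, w13, w13, w13, hD, ← (h1 K _ _ 4 (Option.map Sum.inr)).1]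
    simp only [smul_eq_C_mul]
    ring
  · intro σ a b c z
    have hA : ∀ F : PX K (Option (QU N)) 4, sw σ (Alt N F) = Alt N (sw σ F) := by
      intro F
      rw [Alt_apply, Alt_apply, map_sum]
      refine Finset.sum_congr rfl fun π _ => ?_
      rw [map_zsmul, sw_ren]
    rw [Lam_alt, Lam_alt, hA, ← map_zsmul]
    congr 1
    unfold TT
    rw [map_mul, map_mul, map_mul, map_mul, sw_DD4, sw_atp, sw_atp, sw_atp, sw_ren]
    simp only [smul_mul_assoc]

end Pool.Agent.VSY
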