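import Pool.Agent.VSY.StmtsB

/-!
# LOW: vanishing in high degree
-/

set_option autoImplicit false

namespace Pool.Agent.VSY

theorem LOW_thm (h1 : Stmt_TR) (h2 : Stmt_TG) (h3 : Stmt_RED) : Stmt_LOW := by
  intro K _ _ v d p r hd
  induction p using Nat.strong_induction_on generalizing v r with
  | _ p ih =>
    intro hr
    have hone : Van K 1 d p r := h2 K 0 d p r hd (by omega) (Or.inl (by omega))
    rcases Nat.eq_zero_or_pos v with hv | hv
    · subst hv
      exact h3 K 0 1 d p r (by omega) hone
    · refine h1 K d 1 p r hd hone (fun v' hv' => ⟨fun hp => ?_, fun hp r' hr' => ?_⟩) v hv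
      · exact ih (p - v') (by omega) v' r (by omega)
      · exact ih (p + 1 - v') (by omega) v' r' (by omega)

end Pool.Agent.VSY
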