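import Pool.Agent.VSY.Stmts

/-!
# OFF: the points model computes Koszul cohomology
-/

namespace Pool.Agent.VSY

open MvPolynomial TensorProduct

namespace OFF

variable {K : Type} [Field K]

/-! ### Polynomials placed at a point -/

/-- The polynomial placed at the point `x`. -/
noncomputable def pl {A : Type} {v : ℕ} (x : A) : MvPolynomial (Fin v) K →ₐ[K] PX K A v :=
  rename fun j => (x, j)

theorem ren_pl {A B : Type} {v : ℕ} (φ : A → B) (x : A) (s : MvPolynomial (Fin v) K) :
    ren φ (pl x s) = pl (φ x) s := by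
  simp only [ren, pl, rename_rename]
  rfl

/-- Forms as polynomials. -/
noncomputable def fv (n m : ℕ) : Forms K n m →ₗ[K] MvPolynomial (Fin (n + 1)) K :=
  (homogeneousSubmodule (Fin (n + 1)) K m).subtype

theorem fv_apply {n m : ℕ} (s : Forms K n m) : fv n m s = s.1 := rfl

/-- The homogeneous components. -/
noncomputable def hc (n m : ℕ) : MvPolynomial (Fin (n + 1)) K →ₗ[K] Forms K n m :=
  LinearMap.codRestrict (homogeneousSubmodule (Fin (n + 1)) K m) (homogeneousComponent m)
    fun f => homogeneousComponent_isHomogeneous m f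

theorem hc_fv {n m : ℕ} (s : Forms K n m) : hc n m (fv n m s) = s := by
  apply Subtype.ext
  show homogeneousComponent m s.1 = s.1
  rw [homogeneousComponent_of_mem s.2, if_pos rfl]

theorem fv_hc {n m : ℕ} {f : MvPolynomial (Fin (n + 1)) K} (hf : f.IsHomogeneous m) :
    fv n m (hc n m f) = f := by
  show homogeneousComponent m f = f
  rw [homogeneousComponent_of_mem hf, if_pos rfl]

theorem fv_mul {n a m m' : ℕ} (h : m + a = m') (s : Forms K n a) (t : Forms K n m) :
    fv n m' (mulForms K h s t) = fv n a s * fv n m t := rfl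

/-! ### The map to polynomials -/

/-- `s ↦ ∏ s_i(u_i)`. -/
noncomputable def Mp (v p : ℕ) : MultilinearMap K (fun _ : Fin p => MvPolynomial (Fin v) K)
    (PX K (Option (Fin p)) v) :=
  (MultilinearMap.mkPiAlgebra K (Fin p) (PX K (Option (Fin p)) v)).compLinearMap fun i =>
    (pl (some i)).toLinearMap

theorem Mp_apply {v p : ℕ} (s : Fin p → MvPolynomial (Fin v) K) :
    Mp v p s = ∏ i, pl (some i) (s i) := rfl

/-- `s ↦ (t ↦ (∏ s_i(u_i)) t(w))`. -/
noncomputable def Mu (n d m p : ℕ) : MultilinearMap K (fun _ : Fin p => Forms K n d)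
    (Forms K n m →ₗ[K] PX K (Option (Fin p)) (n + 1)) :=
  ((LinearMap.mul K (PX K (Option (Fin p)) (n + 1))).compl₂
    ((pl none).toLinearMap ∘ₗ fv n m)).compMultilinearMap
    ((Mp (n + 1) p).compLinearMap fun _ => fv n d)

theorem Mu_apply {n d m p : ℕ} (s : Fin p → Forms K n d) (t : Forms K n m) :
    Mu n d m p s t = (∏ i, pl (some i) (fv n d (s i))) * pl none (fv n m t) := rfl

/-- The comparison map. -/
noncomputable def Phi (n d m p : ℕ) : KT K n d p m →ₗ[K] PX K (Option (Fin p)) (n + 1) :=
  TensorProduct.lift (Ext.lift (MultilinearMap.alternatization (Mu n d m p)))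

theorem Phi_apply {n d m p : ℕ} (s : Fin p → Forms K n d) (t : Forms K n m) :
    Phi n d m p (wedge K (Forms K n d) p s ⊗ₜ[K] t) =
      ∑ σ : Equiv.Perm (Fin p), ((Equiv.Perm.sign σ : ℤˣ) : ℤ) •
        ((∏ i, pl (some i) (fv n d (s (σ i)))) * pl none (fv n m t)) := by
  rw [Phi, TensorProduct.lift.tmul, Ext.lift_wedge, MultilinearMap.alternatization_apply,
    LinearMap.sum_apply]
  refine Finset.sum_congr rfl fun σ _ => ?_
  rw [Units.smul_def, LinearMap.smul_apply]
  rfl

theorem Phi_det {n d m p : ℕ} (s : Fin p → Forms K n d) (t : Forms K n m) :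
    Phi n d m p (wedge K (Forms K n d) p s ⊗ₜ[K] t) =
      (Matrix.of fun i j : Fin p => pl (some j) (fv n d (s i))).det *
        pl (none : Option (Fin p)) (fv n m t) := by
  rw [Phi_apply, Matrix.det_apply, Finset.sum_mul]
  refine Finset.sum_congr rfl fun σ _ => ?_
  rw [Units.smul_def, smul_mul_assoc]
  rfl

/-- Induction on the tensors. -/
theorem KT_ind {n d p m : ℕ} {P : KT K n d p m → Prop} (h0 : P 0)
    (hadd : ∀ x y, P x → P y → P (x + y)) (hsmul : ∀ (c : K) x, P x → P (c • x))
    (hp : ∀ s t, P (wedge K (Forms K n d) p s ⊗ₜ[K] t)) (x : KT K n d p m) : P x := by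
  induction x using TensorProduct.induction_on with
  | zero => exact h0
  | add x y hx hy => exact hadd x y hx hy
  | tmul w t =>
    have hw : w ∈ Submodule.span K (Set.range (wedge K (Forms K n d) p)) := by
      rw [Ext.span_wedge]
      trivial
    induction hw using Submodule.span_induction with
    | mem w hw =>
      obtain ⟨s, rfl⟩ := hw
      exact hp s t
    | zero =>
      rw [TensorProduct.zero_tmul]
      exact h0
    | add w w' _ _ h1 h2 =>
      rw [TensorProduct.add_tmul]
      exact hadd _ _ h1 h2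
    | smul c w _ h1 =>
      rw [← TensorProduct.smul_tmul']
      exact hsmul c _ h1

/-! ### The image consists of chains -/

/-- The weights: the degrees at the points. -/
def wt (A : Type) [DecidableEq A] (v : ℕ) : A × Fin v → (A → ℕ) := fun x => Pi.single x.1 1

theorem weight_wt {A : Type} [Fintype A] [DecidableEq A] {v : ℕ} (M : A × Fin v →₀ ℕ) (x : A) :
    Finsupp.weight (wt A v) M x = ∑ j, M (x, j) := by
  rw [Finsupp.weight_apply, Finsupp.sum_fintype _ _ (by simp), Finset.sum_apply,
    Fintype.sum_prod_type, Finset.sum_eq_single x]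
  · refine Finset.sum_congr rfl fun j _ => ?_
    simp [wt]
  · intro y _ hy
    refine Finset.sum_eq_zero fun j _ => ?_
    simp [wt, hy.symm]
  · intro h
    exact absurd (Finset.mem_univ x) h

theorem pl_wt {A : Type} [Fintype A] [DecidableEq A] {n m : ℕ} (x : A) (s : Forms K n m) :
    IsWeightedHomogeneous (wt A (n + 1)) (pl x (fv n m s)) (Pi.single x m) := by
  intro M hM
  obtain ⟨M', h1, h2⟩ := coeff_rename_ne_zero _ _ _ hM
  have h3 : Finsupp.weight (1 : Fin (n + 1) → ℕ) M' = m := s.2 h2
  have h4 : ∑ j, M' j = m := by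
    rw [← h3, Finsupp.weight_apply, Finsupp.sum_fintype _ _ (by simp)]
    simp
  funext y
  rw [weight_wt, ← h1]
  by_cases hy : y = x
  · subst hy
    rw [Pi.single_eq_same, ← h4]
    refine Finset.sum_congr rfl fun j _ => ?_
    exact Finsupp.mapDomain_apply (fun a b hab => (Prod.mk.inj hab).2) M' j
  · rw [Pi.single_eq_of_ne hy]
    refine Finset.sum_eq_zero fun j _ => ?_
    refine Finsupp.mapDomain_notin_range _ _ ?_
    rintro ⟨i, hi⟩
    exact hy (Prod.mk.inj hi).1.symm

theorem Phi_InC {n d m p : ℕ} (x : KT K n d p m) :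
    InC (Fin p) (n + 1) d 0 m (Phi n d m p x) := by
  induction x using KT_ind with
  | h0 =>
    rw [map_zero]
    exact InC.zero
  | hadd x y hx hy =>
    rw [map_add]
    exact hx.add hy
  | hsmul c x hx =>
    rw [map_smul]
    exact hx.smul c
  | hp s t =>
    constructor
    · intro π
      rw [Phi_det, map_mul, ren_pl, AlgHom.map_det, zsmul_eq_mul, ← mul_assoc,
        ← Matrix.det_permute']
      congr 2
      ext1 i j
      exact ren_pl _ _ _
    · intro M hM
      have h1 : IsWeightedHomogeneous (wt (Option (Fin p)) (n + 1))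
          (Phi n d m p (wedge K (Forms K n d) p s ⊗ₜ[K] t))
          ((∑ i : Fin p, Pi.single (some i) d) + Pi.single none m) := by
        rw [Phi_apply]
        refine IsWeightedHomogeneous.sum _ _ _ fun σ _ => ?_
        rw [← mem_weightedHomogeneousSubmodule]
        refine zsmul_mem ?_ _
        rw [mem_weightedHomogeneousSubmodule]
        refine IsWeightedHomogeneous.mul ?_ (pl_wt _ _)
        exact IsWeightedHomogeneous.prod _ _ _ fun i _ => pl_wt _ _
      have h2 := h1 (mem_support_iff.1 hM)
      refine ⟨fun u => ?_, ?_⟩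
      · rw [← weight_wt, h2, Pi.add_apply, Finset.sum_apply, Finset.sum_eq_single u]
        · simp
        · intro i _ hi
          rw [Pi.single_eq_of_ne]
          intro h
          exact hi (Option.some.inj h).symm
        · intro h
          exact absurd (Finset.mem_univ u) h
      · rw [← weight_wt, h2, Pi.add_apply, Finset.sum_apply, Finset.sum_eq_zero]
        · simp
        · intro i _
          rw [Pi.single_eq_of_ne]
          exact fun h => Option.some_ne_none _ h.symm

/-! ### The map from polynomials -/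

/-- The part of the exponent at the point `x`. -/
noncomputable def res {A : Type} {v : ℕ} (M : A × Fin v →₀ ℕ) (x : A) : Fin v →₀ ℕ :=
  Finsupp.equivFunOnFinite.symm fun j => M (x, j)

theorem res_apply {A : Type} {v : ℕ} (M : A × Fin v →₀ ℕ) (x : A) (j : Fin v) :
    res M x j = M (x, j) := rfl

/-- The exponent which is `α` at the point `x`. -/
noncomputable def em {A : Type} {v : ℕ} (x : A) (α : Fin v →₀ ℕ) : A × Fin v →₀ ℕ :=
  α.mapDomain fun j => (x, j)

theorem em_same {A : Type} {v : ℕ} (x : A) (α : Fin v →₀ ℕ) (j : Fin v) : em x α (x, j) = α j :=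
  Finsupp.mapDomain_apply (fun _ _ hab => (Prod.mk.inj hab).2) α j

theorem em_ne {A : Type} {v : ℕ} {x y : A} (h : y ≠ x) (α : Fin v →₀ ℕ) (j : Fin v) :
    em x α (y, j) = 0 := by
  refine Finsupp.mapDomain_notin_range _ _ ?_
  rintro ⟨i, hi⟩
  exact h (Prod.mk.inj hi).1.symm

theorem pl_monomial {A : Type} {v : ℕ} (x : A) (α : Fin v →₀ ℕ) :
    pl x (monomial α (1 : K)) = monomial (em x α) 1 := rename_monomial _ _ _

/-- The exponent with prescribed parts. -/
noncomputable def tot {v p : ℕ} (α : Fin p → Fin v →₀ ℕ) (β : Fin v →₀ ℕ) :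
    Option (Fin p) × Fin v →₀ ℕ := (∑ i, em (some i) (α i)) + em none β

theorem tot_some {v p : ℕ} (α : Fin p → Fin v →₀ ℕ) (β : Fin v →₀ ℕ) (i : Fin p) (j : Fin v) :
    tot α β (some i, j) = α i j := by
  rw [tot, Finsupp.add_apply, Finsupp.finset_sum_apply, Finset.sum_eq_single i, em_same,
    em_ne (by simp), add_zero]
  · intro k _ hk
    exact em_ne (fun h => hk (Option.some.inj h).symm) _ _
  · intro h
    exact absurd (Finset.mem_univ i) h

theorem tot_none {v p : ℕ} (α : Fin p → Fin v →₀ ℕ) (β : Fin v →₀ ℕ) (j : Fin v) :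
    tot α β (none, j) = β j := by
  rw [tot, Finsupp.add_apply, Finsupp.finset_sum_apply, Finset.sum_eq_zero, em_same, zero_add]
  intro k _
  exact em_ne (by simp) _ _

theorem tot_res {v p : ℕ} (M : Option (Fin p) × Fin v →₀ ℕ) :
    tot (fun i => res M (some i)) (res M none) = M := by
  ext ⟨x, j⟩
  cases x with
  | none => exact tot_none _ _ _
  | some i => exact tot_some _ _ _ _

theorem res_tot_some {v p : ℕ} (α : Fin p → Fin v →₀ ℕ) (β : Fin v →₀ ℕ) (i : Fin p) :
    res (tot α β) (some i) = α i := by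
  ext j
  exact tot_some _ _ _ _

theorem res_tot_none {v p : ℕ} (α : Fin p → Fin v →₀ ℕ) (β : Fin v →₀ ℕ) :
    res (tot α β) none = β := by
  ext j
  exact tot_none _ _ _

theorem prod_monomial {v p : ℕ} (α : Fin p → Fin v →₀ ℕ) (β : Fin v →₀ ℕ) :
    (∏ i, pl (some i) (monomial (α i) (1 : K))) * pl none (monomial β 1) =
      monomial (tot α β) 1 := by
  simp only [pl_monomial]
  rw [← monomial_sum_one, monomial_mul, one_mul]
  rfl

/-- The values of the map from polynomials on the monomials. -/
noncomputable def psi (K : Type) [Field K] (n d m p : ℕ) (M : Option (Fin p) × Fin (n + 1) →₀ ℕ) :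
    KT K n d p m :=
  wedge K (Forms K n d) p (fun i => hc n d (monomial (res M (some i)) (1 : K))) ⊗ₜ[K]
    hc n m (monomial (res M none) (1 : K))

/-- The map from polynomials. -/
noncomputable def Psi (n d m p : ℕ) : PX K (Option (Fin p)) (n + 1) →ₗ[K] KT K n d p m :=
  (basisMonomials (Option (Fin p) × Fin (n + 1)) K).constr K (psi K n d m p)

theorem Psi_monomial {n d m p : ℕ} (M : Option (Fin p) × Fin (n + 1) →₀ ℕ) :
    Psi n d m p (monomial M (1 : K)) = psi K n d m p M := by
  have h := (basisMonomials (Option (Fin p) × Fin (n + 1)) K).constr_basis K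
    (psi K n d m p) M
  rw [coe_basisMonomials] at h
  exact h

/-- The left-hand side of `Psi_prod`. -/
noncomputable def L1 (n d m p : ℕ) (t : MvPolynomial (Fin (n + 1)) K) :
    MultilinearMap K (fun _ : Fin p => MvPolynomial (Fin (n + 1)) K) (KT K n d p m) :=
  (Psi n d m p ∘ₗ LinearMap.mulRight K (pl none t)).compMultilinearMap (Mp (n + 1) p)

theorem L1_apply {n d m p : ℕ} (t : MvPolynomial (Fin (n + 1)) K)
    (s : Fin p → MvPolynomial (Fin (n + 1)) K) :
    L1 n d m p t s = Psi n d m p ((∏ i, pl (some i) (s i)) * pl none t) := by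
  rw [L1, LinearMap.compMultilinearMap_apply, LinearMap.comp_apply, LinearMap.mulRight_apply,
    Mp_apply]

/-- The right-hand side of `Psi_prod`. -/
noncomputable def L2 (n d m p : ℕ) (t : MvPolynomial (Fin (n + 1)) K) :
    MultilinearMap K (fun _ : Fin p => MvPolynomial (Fin (n + 1)) K) (KT K n d p m) :=
  ((TensorProduct.mk K (Ext K (Forms K n d) p) (Forms K n m)).flip
    (hc n m t)).compMultilinearMap
    ((wedge K (Forms K n d) p).toMultilinearMap.compLinearMap fun _ => hc n d)

theorem L2_apply {n d m p : ℕ} (t : MvPolynomial (Fin (n + 1)) K)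
    (s : Fin p → MvPolynomial (Fin (n + 1)) K) :
    L2 n d m p t s = wedge K (Forms K n d) p (fun i => hc n d (s i)) ⊗ₜ[K] hc n m t := rfl

theorem Psi_prod_aux {n d m p : ℕ} (α : Fin p → Fin (n + 1) →₀ ℕ)
    (t : MvPolynomial (Fin (n + 1)) K) :
    Psi n d m p ((∏ i, pl (some i) (monomial (α i) (1 : K))) * pl none t) =
      wedge K (Forms K n d) p (fun i => hc n d (monomial (α i) (1 : K))) ⊗ₜ[K] hc n m t := by
  induction t using MvPolynomial.induction_on' with
  | monomial β a =>
    have h1 : (monomial β a : MvPolynomial (Fin (n + 1)) K) = a • monomial β 1 := by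
      rw [smul_monomial, smul_eq_mul, mul_one]
    rw [h1, map_smul, map_smul, mul_smul_comm, map_smul, prod_monomial, Psi_monomial, psi,
      res_tot_none, TensorProduct.tmul_smul]
    simp only [res_tot_some]
  | add t t' h1 h2 =>
    rw [map_add, map_add, mul_add, map_add, h1, h2, TensorProduct.tmul_add]

theorem Psi_prod {n d m p : ℕ} (s : Fin p → MvPolynomial (Fin (n + 1)) K)
    (t : MvPolynomial (Fin (n + 1)) K) :
    Psi n d m p ((∏ i, pl (some i) (s i)) * pl none t) =
      wedge K (Forms K n d) p (fun i => hc n d (s i)) ⊗ₜ[K] hc n m t := by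
  have h1 : L1 n d m p t = L2 n d m p t := by
    refine Module.Basis.ext_multilinear (fun _ => basisMonomials (Fin (n + 1)) K) fun α => ?_
    rw [L1_apply, L2_apply]
    simp only [coe_basisMonomials]
    exact Psi_prod_aux α t
  rw [← L1_apply, ← L2_apply, h1]

theorem Psi_Phi {n d m p : ℕ} (x : KT K n d p m) :
    Psi n d m p (Phi n d m p x) = (p.factorial : K) • x := by
  induction x using KT_ind with
  | h0 => simp
  | hadd x y hx hy => rw [map_add, map_add, hx, hy, smul_add]
  | hsmul c x hx => rw [map_smul, map_smul, hx, smul_comm]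
  | hp s t =>
    rw [Phi_apply, map_sum]
    have h1 : ∀ σ : Equiv.Perm (Fin p), Psi n d m p (((Equiv.Perm.sign σ : ℤˣ) : ℤ) •
        ((∏ i, pl (some i) (fv n d (s (σ i)))) * pl none (fv n m t))) =
        wedge K (Forms K n d) p s ⊗ₜ[K] t := by
      intro σ
      rw [map_zsmul, Psi_prod]
      simp only [hc_fv]
      have h2 := (wedge K (Forms K n d) p).map_perm s σ
      have h3 : (fun i => s (σ i)) = s ∘ σ := rfl
      rw [h3, h2, Units.smul_def, ← TensorProduct.smul_tmul', smul_smul, ← Units.val_mul,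
        Int.units_mul_self, Units.val_one, one_smul]
    rw [Finset.sum_congr rfl fun σ _ => h1 σ, Finset.sum_const, Finset.card_univ,
      Fintype.card_perm, Fintype.card_fin, Nat.cast_smul_eq_nsmul]

theorem Phi_Psi_monomial {n d m p : ℕ} (M : Option (Fin p) × Fin (n + 1) →₀ ℕ)
    (h1 : ∀ i : Fin p, ∑ j, M (some i, j) = d) (h2 : ∑ j, M (none, j) = m) :
    Phi n d m p (Psi n d m p (monomial M (1 : K))) =
      ∑ σ : Equiv.Perm (Fin p), ((Equiv.Perm.sign σ : ℤˣ) : ℤ) •
        ren (Option.map σ.symm) (monomial M 1) := by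
  have hh : ∀ (x : Option (Fin p)) (k : ℕ), ∑ j, M (x, j) = k →
      (monomial (res M x) (1 : K)).IsHomogeneous k := by
    intro x k hk
    refine isHomogeneous_monomial _ ?_
    rw [Finsupp.degree_eq_sum]
    exact hk
  rw [Psi_monomial, psi, Phi_apply]
  refine Finset.sum_congr rfl fun σ _ => ?_
  congr 1
  rw [fv_hc (hh _ _ h2)]
  simp only [fv_hc (hh _ _ (h1 _))]
  conv_rhs => rw [← tot_res M, ← prod_monomial]
  rw [map_mul, map_prod, ren_pl]
  simp only [ren_pl, Option.map_some, Option.map_none]
  congr 1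
  refine Fintype.prod_equiv σ _ _ fun i => ?_
  rw [Equiv.symm_apply_apply]

theorem Phi_Psi {n d m p : ℕ} {f : PX K (Option (Fin p)) (n + 1)}
    (hf : InC (Fin p) (n + 1) d 0 m f) : Phi n d m p (Psi n d m p f) = (p.factorial : K) • f := by
  have h1 : Phi n d m p (Psi n d m p f) = ∑ σ : Equiv.Perm (Fin p),
      ((Equiv.Perm.sign σ : ℤˣ) : ℤ) • ren (Option.map σ.symm) f := by
    conv_lhs => rw [f.as_sum]
    conv_rhs => rw [f.as_sum]
    simp only [map_sum]
    simp only [Finset.smul_sum]
    rw [Finset.sum_comm]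
    refine Finset.sum_congr rfl fun M hM => ?_
    have h3 := hf.deg M hM
    have h2 : monomial M (coeff M f) = coeff M f • (monomial M 1 : PX K (Option (Fin p)) (n + 1)) := by
      rw [smul_monomial, smul_eq_mul, mul_one]
    rw [h2]
    simp only [map_smul]
    rw [Phi_Psi_monomial M h3.1 h3.2, Finset.smul_sum]
    refine Finset.sum_congr rfl fun σ _ => ?_
    rw [smul_comm]
  rw [h1]
  have h4 : ∀ σ : Equiv.Perm (Fin p), ((Equiv.Perm.sign σ : ℤˣ) : ℤ) •
      ren (Option.map σ.symm) f = f := by
    intro σ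
    rw [hf.alt σ.symm, Equiv.Perm.sign_symm, smul_smul, ← Units.val_mul, Int.units_mul_self,
      Units.val_one, one_smul]
  rw [Finset.sum_congr rfl fun σ _ => h4 σ, Finset.sum_const, Finset.card_univ,
    Fintype.card_perm, Fintype.card_fin, Nat.cast_smul_eq_nsmul]

theorem Phi_injective [CharZero K] {n d m p : ℕ} {x : KT K n d p m}
    (h : Phi n d m p x = 0) : x = 0 := by
  have h1 := Psi_Phi x
  rw [h, map_zero] at h1
  exact (smul_eq_zero.1 h1.symm).resolve_left (Nat.cast_ne_zero.2 (Nat.factorial_ne_zero p))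

theorem Phi_surj [CharZero K] {n d m p : ℕ} {f : PX K (Option (Fin p)) (n + 1)}
    (hf : InC (Fin p) (n + 1) d 0 m f) : ∃ y : KT K n d p m, Phi n d m p y = f := by
  refine ⟨(p.factorial : K)⁻¹ • Psi n d m p f, ?_⟩
  rw [map_smul, Phi_Psi hf, smul_smul,
    inv_mul_cancel₀ (Nat.cast_ne_zero.2 (Nat.factorial_ne_zero p)), one_smul]

/-! ### The differential -/

theorem Phi_koszulD {n d m m' p : ℕ} (h : m + d = m') (x : KT K n d (p + 1) m) :
    ren Option.join (ren (Option.map (finSuccEquiv p)) (Phi n d m (p + 1) x)) =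
      - Phi n d m' p (koszulD K p h x) := by
  induction x using KT_ind with
  | h0 => simp
  | hadd x y hx hy =>
    rw [map_add, map_add, map_add, map_add, map_add, hx, hy, neg_add]
  | hsmul c x hx =>
    rw [map_smul, map_smul, map_smul, map_smul, map_smul, hx, smul_neg]
  | hp s t =>
    rw [Phi_det, koszulD_apply, map_mul, map_mul, ren_pl, ren_pl, AlgHom.map_det, AlgHom.map_det,
      Matrix.det_succ_column_zero, map_sum, Finset.sum_mul, ← Finset.sum_neg_distrib]
    refine Finset.sum_congr rfl fun i _ => ?_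
    rw [map_smul, Phi_det, fv_mul, map_mul]
    have h1 : ∀ a b, ((ren (K := K) (v := n + 1) Option.join).mapMatrix
        ((ren (Option.map (finSuccEquiv p))).mapMatrix
          (Matrix.of fun i j : Fin (p + 1) => pl (some j) (fv n d (s i))))) a b =
        pl (finSuccEquiv p b) (fv n d (s a)) := by
      intro a b
      show ren Option.join (ren (Option.map (finSuccEquiv p)) (pl (some b) (fv n d (s a)))) = _
      rw [ren_pl, ren_pl]
      rfl
    have h2 : (((ren (K := K) (v := n + 1) Option.join).mapMatrix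
        ((ren (Option.map (finSuccEquiv p))).mapMatrix
          (Matrix.of fun i j : Fin (p + 1) => pl (some j) (fv n d (s i))))).submatrix
            i.succAbove Fin.succ) =
        Matrix.of fun a b : Fin p => pl (some b) (fv n d (s (i.succAbove a))) := by
      ext1 a b
      rw [Matrix.submatrix_apply, h1, finSuccEquiv_succ]
      rfl
    rw [h1, h2, finSuccEquiv_zero]
    show _ * pl none (fv n m t) = _
    rw [pow_succ, mul_neg_one, neg_smul, neg_neg, Algebra.smul_def, map_pow, map_neg, map_one]
    ring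

/-! ### The comparison -/

theorem InC_shift {U : Type} [Fintype U] [DecidableEq U] {v d m m' : ℕ} (h : m + d = m')
    {f : PX K (Option U) v} (hf : InC U v d d m' f) : InC U v d 0 m f :=
  ⟨hf.alt, fun M hM => ⟨(hf.deg M hM).1, by
    have := (hf.deg M hM).2
    omega⟩⟩

theorem mg_eq {p : ℕ} (u : Fin (p + 1)) :
    mg u = Option.map (fun a : Fin p => (Equiv.swap u 0) ((finSuccEquiv p).symm (some a))) ∘
      Option.join ∘ Option.map (finSuccEquiv p) ∘ Option.map (Equiv.swap u 0) := by
  funext o
  cases o with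
  | none =>
    rw [mg, Function.update_of_ne (by simp)]
    rfl
  | some a =>
    by_cases ha : a = u
    · subst ha
      rw [mg, Function.update_self]
      simp
    · rw [mg, Function.update_of_ne (by simpa using ha)]
      have h1 : Equiv.swap u 0 a ≠ 0 := by
        intro h
        apply ha
        apply (Equiv.swap u 0).injective
        rw [h, Equiv.swap_apply_left]
      obtain ⟨b, hb⟩ := Fin.exists_succ_eq.2 h1
      simp only [id_eq, Function.comp_apply, Option.map_some, Option.join_some]
      rw [← hb, finSuccEquiv_succ, Option.map_some, finSuccEquiv_symm_some, hb,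
        Equiv.swap_apply_self]

theorem Phi_InZ {n d m : ℕ} : (p : ℕ) → (x : KT K n d p m) → IsCycle K p x →
    InZ (Fin p) (n + 1) d m (Phi n d m p x)
  | 0, x, _ => ⟨Phi_InC x, fun u => u.elim0⟩
  | p + 1, x, hx => by
    refine ⟨Phi_InC x, fun u => ?_⟩
    have hx' : koszulD K p (rfl : m + d = m + d) x = 0 := hx
    rw [mg_eq u, ← ren_ren, ← ren_ren, ← ren_ren, (Phi_InC x).alt, map_zsmul, map_zsmul,
      Phi_koszulD rfl, hx', map_zero, neg_zero, smul_zero, map_zero]

end OFF

theorem OFF_thm : Stmt_OFF := by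
  intro K _ _ n b d p q hd hvan x hx
  have hz := OFF.Phi_InZ p x hx
  obtain ⟨g, hg, hgx⟩ := hvan (Fin p) (Fintype.card_fin p) _ hz
  by_cases hlt : q * d + b < d
  · left
    apply OFF.Phi_injective
    have hg0 : g = 0 := by
      rw [← support_eq_empty]
      by_contra h
      obtain ⟨M, hM⟩ := Finset.nonempty_iff_ne_empty.2 h
      have := (hg.deg M hM).2
      omega
    rw [← hgx, hg0, map_zero]
  · right
    obtain ⟨m, hm⟩ : ∃ m, m + d = q * d + b := ⟨q * d + b - d, by omega⟩
    have hg' := (OFF.InC_shift hm hg).equiv (finSuccEquiv p).symm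
    obtain ⟨y, hy⟩ := OFF.Phi_surj hg'
    refine ⟨m, hm, -y, ?_⟩
    have h1 := OFF.Phi_koszulD hm y
    have h2 : Option.map (finSuccEquiv p) ∘ Option.map (finSuccEquiv p).symm = id := by
      funext o
      cases o <;> simp
    rw [hy, ren_ren (Option.map (finSuccEquiv p).symm), h2, ren_id, hgx] at h1
    rw [← sub_eq_zero]
    apply OFF.Phi_injective
    rw [map_sub, map_neg, map_neg, h1, sub_neg_eq_add, neg_add_cancel]

end Pool.Agent.VSY
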