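import Pool.Agent.VSY.Stmts

/-!
# Veronese syzygies: the operators preserve cycles and boundaries
-/

set_option linter.unusedSectionVars false

namespace Pool.Agent.VSY

open MvPolynomial

namespace OPS

variable {K : Type} [Field K]

section lin

variable {A : Type} [Fintype A] [DecidableEq A] {v : ℕ}

theorem SA_sum_apply {D : Type} {k : ℕ} {ι : Type} (s : Finset ι) (c : ι → SA K D v k)
    (ξ : Fin k → D → K) : (∑ x ∈ s, c x) ξ = ∑ x ∈ s, c x ξ := by
  classical
  induction s using Finset.induction_on with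
  | empty => rfl
  | insert a s ha ih =>
    rw [Finset.sum_insert ha, Finset.sum_insert ha, AlternatingMap.add_apply, ih]

theorem Dop_apply {k : ℕ} (j : Fin v) (c : SA K A v k) (ξ : Fin (k + 1) → A → K) :
    Dop j c ξ = ∑ i : Fin (k + 1), (-1) ^ (i : ℕ) • dd j (ξ i) (c (i.removeNth ξ)) := by
  rw [Dop, AlternatingMap.alternatizeUncurryFin_apply]
  rfl

theorem Est_apply {k : ℕ} (i : Fin v) (c : SA K A v (k + 1)) (ξ : Fin k → A → K) :
    Est i c ξ = ∑ x : A, X (x, i) * c (Fin.cons (Pi.single x 1) ξ) := by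
  rw [Est, SA_sum_apply]
  rfl

theorem Dop_zsmul {k : ℕ} (j : Fin v) (z : ℤ) (c : SA K A v k) :
    Dop j (z • c) = z • Dop j c := by
  ext1 ξ
  rw [Dop_apply, AlternatingMap.smul_apply, Dop_apply, Finset.smul_sum]
  refine Finset.sum_congr rfl fun i _ => ?_
  rw [AlternatingMap.smul_apply, map_zsmul, smul_comm]

theorem Est_zsmul {k : ℕ} (i : Fin v) (z : ℤ) (c : SA K A v (k + 1)) :
    Est i (z • c) = z • Est i c := by
  ext1 ξ
  rw [Est_apply, AlternatingMap.smul_apply, Est_apply, Finset.smul_sum]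
  refine Finset.sum_congr rfl fun x _ => ?_
  rw [AlternatingMap.smul_apply, mul_smul_comm]

theorem yL_zsmul (z : ℤ) (L : List (Fin v)) (g : PX K A v) :
    yL L (z • g) = z • yL L g := by
  induction L with
  | nil =>
    ext1 ξ
    rfl
  | cons j L ih =>
    change Dop j (yL L (z • g)) = z • Dop j (yL L g)
    rw [ih, Dop_zsmul]

theorem capL_zsmul (z : ℤ) (L : List (Fin v)) : ∀ c : SA K A v L.length,
    capL L (z • c) = z • capL L c := by
  induction L with
  | nil =>
    intro c
    rfl
  | cons j L ih =>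
    intro c
    change capL L (Est j (z • c)) = z • capL L (Est j c)
    rw [← ih]
    congr 1
    exact Est_zsmul j z c

theorem yL_zero (L : List (Fin v)) : yL L (0 : PX K A v) = 0 := by
  have h := yL_zsmul (K := K) (A := A) 0 L (0 : PX K A v)
  rwa [zero_smul, zero_smul] at h

end lin

section wt

/-- The weights. -/
abbrev wt (A : Type) (v : ℕ) : A × Fin v → (Fin v → ℕ) := fun x => Pi.single x.2 1

theorem coeff_whc {A : Type} {v : ℕ} (ν : Fin v → ℕ) (f : PX K A v) (m : A × Fin v →₀ ℕ) :
    coeff m (weightedHomogeneousComponent (wt A v) ν f) =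
      if Finsupp.weight (wt A v) m = ν then coeff m f else 0 := by
  classical
  rw [coeff_weightedHomogeneousComponent]

theorem supp_whc {A : Type} {v : ℕ} (ν : Fin v → ℕ) (f : PX K A v) {m : A × Fin v →₀ ℕ}
    (hm : m ∈ (weightedHomogeneousComponent (wt A v) ν f).support) : m ∈ f.support := by
  rw [mem_support_iff, coeff_whc] at hm
  rw [mem_support_iff]
  intro h
  apply hm
  rw [h]
  simp

theorem whc_monomial {A : Type} {v : ℕ} (ν : Fin v → ℕ) (m : A × Fin v →₀ ℕ) (a : K) :
    weightedHomogeneousComponent (wt A v) ν (monomial m a) =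
      if Finsupp.weight (wt A v) m = ν then monomial m a else 0 := by
  classical
  ext d
  rw [coeff_whc, coeff_monomial]
  by_cases h : m = d
  · subst h
    rw [if_pos rfl]
    by_cases h1 : Finsupp.weight (wt A v) m = ν
    · rw [if_pos h1, if_pos h1, coeff_monomial, if_pos rfl]
    · rw [if_neg h1, if_neg h1, coeff_zero]
  · rw [if_neg h, ite_self]
    by_cases h1 : Finsupp.weight (wt A v) m = ν
    · rw [if_pos h1, coeff_monomial, if_neg h]
    · rw [if_neg h1, coeff_zero]

theorem weight_map {A B : Type} {v : ℕ} (φ : A → B) (m : A × Fin v →₀ ℕ) :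
    Finsupp.weight (wt B v) (m.mapDomain (Prod.map φ id)) = Finsupp.weight (wt A v) m := by
  rw [Finsupp.weight_apply, Finsupp.weight_apply, Finsupp.sum_mapDomain_index]
  · rfl
  · intro b
    simp
  · intro b m₁ m₂
    rw [add_smul]

theorem whc_ren {A B : Type} {v : ℕ} (φ : A → B) (ν : Fin v → ℕ) (f : PX K A v) :
    weightedHomogeneousComponent (wt B v) ν (ren φ f) =
      ren φ (weightedHomogeneousComponent (wt A v) ν f) := by
  induction f using MvPolynomial.induction_on' with
  | monomial m a =>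
    rw [ren_monomial, whc_monomial, whc_monomial, weight_map]
    split_ifs
    · rw [ren_monomial]
    · rw [map_zero]
  | add p q hp hq => rw [map_add, map_add, hp, hq, map_add, map_add]

end wt

/-- The shift and the degrees of the points for chains. -/
def shf {U : Type} (s : ℕ) : Option U → ℕ := fun x => x.elim s fun _ => 0

/-- The degrees. -/
def ef {U : Type} (r d : ℕ) : Option U → ℕ := fun x => x.elim r fun _ => d

section chains

variable {U : Type} [Fintype U] [DecidableEq U] {v d s r : ℕ}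

theorem deg_iff (f : PX K (Option U) v) :
    (∀ m ∈ f.support, (∀ u : U, ∑ j, m (some u, j) = d) ∧ ∑ j, m (none, j) + s = r) ↔
      ∀ m ∈ f.support, ∀ x, ∑ l, m (x, l) + shf (U := U) s x = ef (U := U) r d x := by
  constructor
  · intro h m hm x
    cases x with
    | none => exact (h m hm).2
    | some u => exact (h m hm).1 u
  · intro h m hm
    exact ⟨fun u => h m hm (some u), h m hm none⟩

theorem InC_Eij (h1 : Stmt_NAT) (h2 : Stmt_DEG) (i j : Fin v) {f : PX K (Option U) v}
    (hf : InC U v d s r f) : InC U v d s r (Eij i j f) := by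
  refine ⟨fun π => ?_, ?_⟩
  · rw [(h1 K (Option U) (Option U) v (Option.map π)).1, hf.alt, map_zsmul]
  · rw [deg_iff]
    exact (h2 K (Option U) v (shf s) (ef r d)).1 i j f ((deg_iff f).1 hf.deg)

theorem KC_yL (h1 : Stmt_NAT) (h2 : Stmt_DEG) (L : List (Fin v)) {f : PX K (Option U) v}
    (hf : InC U v d s r f) : KC U v d s r L.length (yL L f) := by
  refine ⟨fun π => ?_, fun t m hm => ?_⟩
  · rw [(h1 K (Option U) (Option U) v (Option.map π)).2.2.2.2.1, hf.alt, yL_zsmul]
  · have h3 := (h2 K (Option U) v (shf s) (ef r d)).2.1 L f ((deg_iff f).1 hf.deg) t m hm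
    exact ⟨fun u => h3 (some u), h3 none⟩

theorem InC_capL (h1 : Stmt_NAT) (h2 : Stmt_DEG) (L : List (Fin v))
    {c : SA K (Option U) v L.length} (hc : KC U v d s r L.length c) :
    InC U v d s r (capL L c) := by
  refine ⟨fun π => ?_, ?_⟩
  · rw [(h1 K (Option U) (Option U) v (Option.map π)).2.2.2.2.2, hc.alt, capL_zsmul]
  · rw [deg_iff]
    refine (h2 K (Option U) v (shf s) (ef r d)).2.2 L c fun t m hm x => ?_
    cases x with
    | none => exact (hc.deg t m hm).2
    | some u => exact (hc.deg t m hm).1 u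

theorem whc_InC (ν : Fin v → ℕ) {f : PX K (Option U) v} (hf : InC U v d s r f) :
    InC U v d s r (weightedHomogeneousComponent (wt (Option U) v) ν f) := by
  refine ⟨fun π => ?_, fun m hm => hf.deg m (supp_whc ν f hm)⟩
  rw [← whc_ren, hf.alt, map_zsmul]

end chains

end OPS

open OPS in
theorem OPS_thm (h1 : Stmt_NAT) (h2 : Stmt_DEG) : Stmt_OPS := by
  intro K _ U _ _ v d r
  refine ⟨?_, ?_, ?_, ?_, ?_⟩
  · intro i j f hf
    refine ⟨InC_Eij h1 h2 i j hf.1, fun u => ?_⟩
    rw [(h1 K (Option U) (Option U) v (mg u)).1, hf.2, map_zero]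
  · rintro i j f ⟨g, hg, rfl⟩
    exact ⟨Eij i j g, InC_Eij h1 h2 i j hg,
      (h1 K (Option (Option U)) (Option U) v Option.join).1 i j g⟩
  · intro L f hf
    refine ⟨KC_yL h1 h2 L hf.1, fun u => ?_⟩
    rw [(h1 K (Option U) (Option U) v (mg u)).2.2.2.2.1, hf.2, yL_zero]
  · rintro L c ⟨h, hh, rfl⟩
    exact ⟨capL L h, InC_capL h1 h2 L hh,
      (h1 K (Option (Option U)) (Option U) v Option.join).2.2.2.2.2 L h⟩
  · intro f ν hf
    refine ⟨whc_InC ν hf.1, fun u => ?_⟩
    have h3 := whc_ren (K := K) (v := v) (mg u) ν f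
    rw [hf.2, map_zero] at h3
    exact h3.symm

end Pool.Agent.VSY
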