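import Pool.Agent.VSY.StmtsB

/-!
# Veronese syzygies: boundaries are closed under weight components, products with forms in `w`,
permutations of the coordinates
-/

set_option linter.unusedSectionVars false

namespace Pool.Agent.VSY

open MvPolynomial

namespace OPW

variable {K : Type} [Field K]

/-- The weights. -/
abbrev wt (A : Type) (v : ℕ) : A × Fin v → (Fin v → ℕ) := fun x => Pi.single x.2 1

theorem coeff_whc {A : Type} {v : ℕ} (ν : Fin v → ℕ) (f : PX K A v) (m : A × Fin v →₀ ℕ) :
    coeff m (weightedHomogeneousComponent (wt A v) ν f) =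
      if Finsupp.weight (wt A v) m = ν then coeff m f else 0 := by
  classical
  rw [coeff_weightedHomogeneousComponent]

theorem supp_whc {A : Type} {v : ℕ} (ν : Fin v → ℕ) (f : PX K A v) {m : A × Fin v →₀ ℕ}
    (hm : m ∈ (weightedHomogeneousComponent (wt A v) ν f).support) : m ∈ f.support := by
  rw [mem_support_iff, coeff_whc] at hm
  rw [mem_support_iff]
  intro h
  apply hm
  rw [h]
  simp

theorem whc_monomial {A : Type} {v : ℕ} (ν : Fin v → ℕ) (m : A × Fin v →₀ ℕ) (a : K) :
    weightedHomogeneousComponent (wt A v) ν (monomial m a) =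
      if Finsupp.weight (wt A v) m = ν then monomial m a else 0 := by
  classical
  ext d
  rw [coeff_whc, coeff_monomial]
  by_cases h : m = d
  · subst h
    rw [if_pos rfl]
    by_cases h1 : Finsupp.weight (wt A v) m = ν
    · rw [if_pos h1, if_pos h1, coeff_monomial, if_pos rfl]
    · rw [if_neg h1, if_neg h1, coeff_zero]
  · rw [if_neg h, ite_self]
    by_cases h1 : Finsupp.weight (wt A v) m = ν
    · rw [if_pos h1, coeff_monomial, if_neg h]
    · rw [if_neg h1, coeff_zero]

theorem weight_map {A B : Type} {v : ℕ} (φ : A → B) (m : A × Fin v →₀ ℕ) :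
    Finsupp.weight (wt B v) (m.mapDomain (Prod.map φ id)) = Finsupp.weight (wt A v) m := by
  rw [Finsupp.weight_apply, Finsupp.weight_apply, Finsupp.sum_mapDomain_index]
  · rfl
  · intro b
    simp
  · intro b m₁ m₂
    rw [add_smul]

theorem whc_ren {A B : Type} {v : ℕ} (φ : A → B) (ν : Fin v → ℕ) (f : PX K A v) :
    weightedHomogeneousComponent (wt B v) ν (ren φ f) =
      ren φ (weightedHomogeneousComponent (wt A v) ν f) := by
  induction f using MvPolynomial.induction_on' with
  | monomial m a =>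
    rw [ren_monomial, whc_monomial, whc_monomial, weight_map]
    split_ifs
    · rw [ren_monomial]
    · rw [map_zero]
  | add p q hp hq => rw [map_add, map_add, hp, hq, map_add, map_add]

section

variable {U : Type} [Fintype U] [DecidableEq U] {v d s r : ℕ}

theorem whc_InC (ν : Fin v → ℕ) {f : PX K (Option U) v} (hf : InC U v d s r f) :
    InC U v d s r (weightedHomogeneousComponent (wt (Option U) v) ν f) := by
  refine ⟨fun π => ?_, fun m hm => hf.deg m (supp_whc ν f hm)⟩
  rw [← whc_ren, hf.alt, map_zsmul]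

theorem ren_atp {A B : Type} (φ : A → B) (x : A) (a : MvPolynomial (Fin v) K) :
    ren φ (atp x a) = atp (φ x) a := by
  rw [ren, atp, atp, rename_rename]
  rfl

theorem mul_InC {t : ℕ} {a : MvPolynomial (Fin v) K} (ha : a.IsHomogeneous t)
    {f : PX K (Option U) v} (hf : InC U v d s r f) : InC U v d s (r + t) (atp none a * f) := by
  classical
  refine ⟨fun π => ?_, fun m hm => ?_⟩
  · rw [map_mul, ren_atp, hf.alt, Option.map_none, mul_smul_comm]
  · obtain ⟨m1, h1, m2, h2, rfl⟩ := Finset.mem_add.1 (support_mul _ _ hm)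
    obtain ⟨h3, h4⟩ := hf.deg m2 h2
    rw [atp] at h1
    rw [mem_support_iff] at h1
    obtain ⟨m', h5, h6⟩ := coeff_rename_ne_zero _ _ _ h1
    have h7 : ∀ j, m1 (none, j) = m' j := by
      intro j
      rw [← h5]
      exact Finsupp.mapDomain_apply (fun i j h => (Prod.mk.inj h).2) m' j
    have h8 : ∀ (u : U) j, m1 (some u, j) = 0 := by
      intro u j
      rw [← h5]
      refine Finsupp.mapDomain_of_notMem_range _ _ ?_
      rintro ⟨i, hi⟩
      exact absurd (Prod.mk.inj hi).1 (by simp)
    have h9 : ∑ j, m' j = t := by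
      have h10 := ha h6
      rw [Finsupp.weight_apply, Finsupp.sum_fintype _ _ (by simp)] at h10
      simpa using h10
    refine ⟨fun u => ?_, ?_⟩
    · simp only [Finsupp.add_apply, h8, zero_add]
      exact h3 u
    · simp only [Finsupp.add_apply, h7, Finset.sum_add_distrib, h9]
      omega

theorem sw_ren {A B : Type} (φ : A → B) (σ : Equiv.Perm (Fin v)) (f : PX K A v) :
    ren φ (sw σ f) = sw σ (ren φ f) := by
  rw [ren, sw, sw, rename_rename, rename_rename]
  rfl

theorem sw_InC (σ : Equiv.Perm (Fin v)) {f : PX K (Option U) v} (hf : InC U v d s r f) :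
    InC U v d s r (sw σ f) := by
  refine ⟨fun π => ?_, fun m hm => ?_⟩
  · rw [sw_ren, hf.alt, map_zsmul]
  · rw [mem_support_iff, sw] at hm
    obtain ⟨m', h1, h2⟩ := coeff_rename_ne_zero _ _ _ hm
    obtain ⟨h3, h4⟩ := hf.deg m' (mem_support_iff.2 h2)
    have h5 : ∀ (x : Option U) j, m (x, j) = m' (x, σ⁻¹ j) := by
      intro x j
      rw [← h1]
      have h6 : (x, j) = Prod.map id σ (x, σ⁻¹ j) := by simp
      rw [h6]
      exact Finsupp.mapDomain_apply (Function.Injective.prodMap Function.injective_id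
        σ.injective) m' _
    have h7 : ∀ x : Option U, ∑ j, m (x, j) = ∑ j, m' (x, j) := by
      intro x
      simp only [h5]
      exact Equiv.sum_comp σ⁻¹ fun j => m' (x, j)
    refine ⟨fun u => ?_, ?_⟩
    · rw [h7]
      exact h3 u
    · rw [h7]
      exact h4

theorem mg_none (u : U) : mg u none = none := by
  rw [mg, Function.update_of_ne (by simp)]
  rfl

end

end OPW

open OPW in
theorem OPW_thm : Stmt_OPW := by
  intro K _ U _ _ v d r
  refine ⟨?_, ?_, ?_, ?_, ?_, ?_⟩
  · rintro f ν ⟨g, hg, rfl⟩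
    exact ⟨_, whc_InC ν hg, (whc_ren _ ν g).symm⟩
  · rintro s a f ha ⟨g, hg, rfl⟩
    refine ⟨atp none a * g, mul_InC ha hg, ?_⟩
    rw [map_mul, ren_atp]
    rfl
  · intro s a f ha hf
    refine ⟨mul_InC ha hf.1, fun u => ?_⟩
    rw [map_mul, hf.2, mul_zero]
  · rintro σ f ⟨g, hg, rfl⟩
    exact ⟨sw σ g, sw_InC σ hg, sw_ren _ σ g⟩
  · intro σ f hf
    exact ⟨sw_InC σ hf.1, fun u => by rw [sw_ren, hf.2, map_zero]⟩
  · intro σ f
    rw [sw, sw, rename_rename]
    have h : (Prod.map id ⇑σ⁻¹ ∘ Prod.map id ⇑σ : Option U × Fin v → Option U × Fin v) = id := by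
      funext x
      exact Prod.ext rfl (σ.symm_apply_apply x.2)
    rw [h, rename_id]
    rfl

end Pool.Agent.VSY
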