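import Pool.Agent.VSY.Stmts

/-!
# Veronese syzygies (MP_deb8da_ag): the induction step for the property `(Q_i)`
-/

namespace Pool.Agent.VSY

open MvPolynomial

namespace QI

variable {K : Type} [Field K]

section fil

variable {σ : Type}

/-- The part of `f` with monomials satisfying `P`. -/
noncomputable def fil (P : (σ →₀ ℕ) → Prop) [DecidablePred P] (f : MvPolynomial σ K) :
    MvPolynomial σ K :=
  ∑ m ∈ f.support.filter P, monomial m (coeff m f)

theorem coeff_fil (P : (σ →₀ ℕ) → Prop) [DecidablePred P] (f : MvPolynomial σ K) (m : σ →₀ ℕ) :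
    coeff m (fil P f) = if P m then coeff m f else 0 := by
  classical
  rw [fil, coeff_sum]
  simp only [coeff_monomial]
  rw [Finset.sum_ite_eq']
  simp only [Finset.mem_filter, mem_support_iff]
  by_cases hP : P m <;> by_cases h0 : coeff m f = 0 <;> simp [hP, h0]

end fil

section InI

variable {U : Type} {v d i : ℕ}

theorem InI.mono {i' : ℕ} (h : i ≤ i') {f : PX K (Option U) v} (hf : InI d i f) : InI d i' f := by
  intro m hm
  obtain ⟨l, h1, h2⟩ := hf m hm
  exact ⟨l, lt_of_lt_of_le h1 h, h2⟩

theorem InI.add {f g : PX K (Option U) v} (hf : InI d i f) (hg : InI d i g) :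
    InI d i (f + g) := by
  classical
  intro m hm
  rcases Finset.mem_union.1 (support_add hm) with h | h
  · exact hf m h
  · exact hg m h

theorem InI.neg {f : PX K (Option U) v} (hf : InI d i f) : InI d i (-f) := by
  intro m hm
  rw [support_neg] at hm
  exact hf m hm

theorem InI.sub {f g : PX K (Option U) v} (hf : InI d i f) (hg : InI d i g) :
    InI d i (f - g) := by
  rw [sub_eq_add_neg]
  exact InI.add hf (InI.neg hg)

theorem InI.zero : InI d i (0 : PX K (Option U) v) := by
  intro m hm
  simp at hm

theorem InI.sum {ι : Type} (s : Finset ι) (f : ι → PX K (Option U) v)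
    (hf : ∀ x ∈ s, InI d i (f x)) : InI d i (∑ x ∈ s, f x) := by
  classical
  induction s using Finset.induction_on with
  | empty => simpa using InI.zero
  | insert a s ha ih =>
    rw [Finset.sum_insert ha]
    exact InI.add (hf a (Finset.mem_insert_self _ _))
      (ih fun x hx => hf x (Finset.mem_insert_of_mem hx))

theorem InI.mul_left (g : PX K (Option U) v) {f : PX K (Option U) v} (hf : InI d i f) :
    InI d i (g * f) := by
  classical
  intro m hm
  have h1 := support_mul g f hm
  rw [Finset.mem_add] at h1
  obtain ⟨a, _, b, hb, rfl⟩ := h1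
  obtain ⟨l, h1, h2⟩ := hf b hb
  refine ⟨l, h1, le_trans h2 ?_⟩
  rw [Finsupp.add_apply]
  omega

theorem InI.ren_none [Fintype U] [DecidableEq U] {φ : Option U → Option U} (hφ : φ none = none)
    {f : PX K (Option U) v} (hf : InI d i f) : InI d i (ren φ f) := by
  intro m hm
  obtain ⟨m', hm', rfl⟩ := exists_of_mem_support_ren _ _ hm
  obtain ⟨l, h1, h2⟩ := hf m' hm'
  refine ⟨l, h1, le_trans h2 ?_⟩
  rw [mapDomain_deg]
  exact Finset.single_le_sum (f := fun a => m' (a, l)) (fun _ _ => Nat.zero_le _)
    (by simp [hφ])

end InI

section bd

variable {U : Type} [Fintype U] [DecidableEq U] {v d s r : ℕ}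

theorem join_map (π : Equiv.Perm U) :
    Option.map π ∘ (Option.join : Option (Option U) → Option U) =
      Option.join ∘ Option.map (Equiv.optionCongr π) := by
  funext x
  rcases x with _ | x
  · rfl
  · rcases x with _ | x <;> rfl

theorem inC_bd {g : PX K (Option (Option U)) v} (hg : InC (Option U) v d d r g) :
    InC U v d 0 r (ren Option.join g) := by
  refine ⟨fun π => ?_, fun m hm => ?_⟩
  · rw [ren_ren, join_map, ← ren_ren]
    have h1 := hg.alt (Equiv.optionCongr π)
    rw [h1, map_zsmul, Equiv.optionCongr_sign]
  · obtain ⟨m', hm', rfl⟩ := exists_of_mem_support_ren _ _ hm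
    have h := hg.deg m' hm'
    have hf1 : ∀ u : U, (Finset.univ.filter fun a : Option (Option U) => Option.join a = some u) =
        {some (some u)} := by
      intro u
      ext a
      simp only [Finset.mem_filter, Finset.mem_univ, true_and, Finset.mem_singleton]
      rcases a with _ | a
      · simp
      · rcases a with _ | a <;> simp
    have hf2 : (Finset.univ.filter fun a : Option (Option U) => Option.join a = none) =
        {none, some none} := by
      ext a
      simp only [Finset.mem_filter, Finset.mem_univ, true_and, Finset.mem_insert,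
        Finset.mem_singleton]
      rcases a with _ | a
      · simp
      · rcases a with _ | a <;> simp
    refine ⟨fun u => ?_, ?_⟩
    · rw [mapDomain_sum, hf1, Finset.sum_singleton]
      exact h.1 _
    · rw [mapDomain_sum, hf2, Finset.sum_pair (by simp), h.1 none]
      have := h.2
      omega

theorem ren_mg_bd [CharZero K] {g : PX K (Option (Option U)) v} (hg : InC (Option U) v d s r g)
    (u : U) : ren (mg u) (ren Option.join g) = 0 := by
  have h1 := hg.alt (Equiv.swap none (some u))
  have hφ : (mg u ∘ Option.join) ∘ Option.map (Equiv.swap (none : Option U) (some u)) =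
      mg u ∘ Option.join := by
    funext x
    rcases x with _ | x
    · rfl
    · rcases x with _ | x
      · simp [mg]
      · by_cases hx : x = u
        · subst hx
          simp [mg]
        · have hx2 : (some x : Option U) ≠ some u := by simpa using hx
          simp [mg, Equiv.swap_apply_of_ne_of_ne (by simp : (some x : Option U) ≠ none) hx2]
  have h2 : ren (mg u) (ren Option.join g) = -ren (mg u) (ren Option.join g) := by
    conv_lhs => rw [ren_ren, ← hφ, ← ren_ren, h1]
    rw [Equiv.Perm.sign_swap (by simp)]
    simp [ren_ren]
  have h3 : (2 : K) • ren (mg u) (ren Option.join g) = 0 := by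
    rw [two_smul]
    nth_rewrite 2 [h2]
    exact add_neg_cancel _
  rcases smul_eq_zero.1 h3 with h | h
  · exact absurd h two_ne_zero
  · exact h

/-- The antisymmetrisation with respect to one new point of a polynomial which is alternating in
the other points. -/
theorem inC_anti [CharZero K] (F : PX K (Option (Option U)) v)
    (hF : ∀ π : Equiv.Perm U, ren (Option.map (Equiv.optionCongr π)) F =
      ((Equiv.Perm.sign π : ℤˣ) : ℤ) • F)
    (hd : ∀ m ∈ F.support, (∀ x : Option U, ∑ j, m (some x, j) = d) ∧ ∑ j, m (none, j) + s = r) :
    InC (Option U) v d s r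
      (F - ∑ u : U, ren (Option.map (Equiv.swap (none : Option U) (some u))) F) := by
  set G := F - ∑ u : U, ren (Option.map (Equiv.swap (none : Option U) (some u))) F with hG
  -- degrees
  have hren : ∀ π : Equiv.Perm (Option U), ∀ m ∈ (ren (Option.map π) F).support,
      (∀ x : Option U, ∑ j, m (some x, j) = d) ∧ ∑ j, m (none, j) + s = r := by
    intro π m hm
    obtain ⟨m', hm', rfl⟩ := exists_of_mem_support_ren _ _ hm
    have h := hd m' hm'
    have hfil : ∀ y : Option (Option U),
        (Finset.univ.filter fun a : Option (Option U) => Option.map π a = y) =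
        {Option.map π.symm y} := by
      intro y
      ext a
      simp only [Finset.mem_filter, Finset.mem_univ, true_and, Finset.mem_singleton]
      constructor
      · rintro rfl
        cases a <;> simp
      · rintro rfl
        cases y <;> simp
    refine ⟨fun u => ?_, ?_⟩
    · rw [mapDomain_sum, hfil, Finset.sum_singleton]
      exact h.1 _
    · rw [mapDomain_sum, hfil, Finset.sum_singleton]
      exact h.2
  -- the sum over all permutations
  set N : K := ((Fintype.card (Equiv.Perm U) : ℕ) : K) with hN
  have hN0 : N ≠ 0 := by
    rw [hN]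
    exact_mod_cast Fintype.card_ne_zero
  have hsum : N • G = ∑ π : Equiv.Perm (Option U),
      ((Equiv.Perm.sign π : ℤˣ) : ℤ) • ren (Option.map π) F := by
    rw [← Equiv.sum_comp (Equiv.Perm.decomposeOption (α := U)).symm
      (fun π => ((Equiv.Perm.sign π : ℤˣ) : ℤ) • ren (Option.map π) F), Fintype.sum_prod_type]
    have h1 : ∀ x : Option U, ∀ π : Equiv.Perm U,
        ((Equiv.Perm.sign (Equiv.Perm.decomposeOption.symm (x, π)) : ℤˣ) : ℤ) •
          ren (Option.map (Equiv.Perm.decomposeOption.symm (x, π))) F =
        ((Equiv.Perm.sign (Equiv.swap none x) : ℤˣ) : ℤ) •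
          ren (Option.map (Equiv.swap none x)) F := by
      intro x π
      rw [Equiv.Perm.decomposeOption_symm_apply]
      have h2 : Option.map (⇑(Equiv.swap none x * Equiv.optionCongr π)) =
          Option.map (Equiv.swap none x) ∘ Option.map (Equiv.optionCongr π) := by
        rw [Equiv.Perm.coe_mul, Option.map_comp_map]
      rw [h2, ← ren_ren, hF, map_zsmul, Equiv.Perm.sign_mul, Equiv.optionCongr_sign, smul_smul,
        Units.val_mul, mul_assoc, ← Units.val_mul, Int.units_mul_self]
      simp
    simp only [h1, Finset.sum_const, Finset.card_univ]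
    rw [Fintype.sum_option, Equiv.swap_self]
    have h3 : ∀ u : U, ((Equiv.Perm.sign (Equiv.swap (none : Option U) (some u)) : ℤˣ) : ℤ) •
        ren (Option.map (Equiv.swap (none : Option U) (some u))) F =
        - ren (Option.map (Equiv.swap (none : Option U) (some u))) F := by
      intro u
      rw [Equiv.Perm.sign_swap (by simp)]
      simp
    simp only [h3]
    have h4 : Option.map (⇑(Equiv.refl (Option U))) = id := by
      funext x
      cases x <;> rfl
    rw [h4, ren_id, Equiv.Perm.sign_refl, Units.val_one, one_smul, ← Finset.smul_sum,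
      Finset.sum_neg_distrib, ← smul_add, ← sub_eq_add_neg, ← hG, hN, Nat.cast_smul_eq_nsmul]
  refine ⟨fun τ => ?_, fun m hm => ?_⟩
  · have h1 : N • ren (Option.map τ) G = N • (((Equiv.Perm.sign τ : ℤˣ) : ℤ) • G) := by
      rw [← map_smul, hsum, smul_comm, hsum, map_sum, Finset.smul_sum,
        ← Equiv.sum_comp (Equiv.mulLeft τ)
          (fun π => ((Equiv.Perm.sign τ : ℤˣ) : ℤ) • ((Equiv.Perm.sign π : ℤˣ) : ℤ) •
            ren (Option.map π) F)]
      refine Finset.sum_congr rfl fun π _ => ?_
      have h2 : Option.map (⇑(Equiv.mulLeft τ π)) = Option.map τ ∘ Option.map π := by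
        rw [Equiv.coe_mulLeft, Equiv.Perm.coe_mul, Option.map_comp_map]
      rw [h2, ← ren_ren, map_zsmul, Equiv.coe_mulLeft, Equiv.Perm.sign_mul, smul_smul,
        Units.val_mul, ← mul_assoc, ← Units.val_mul, Int.units_mul_self]
      simp
    exact smul_right_injective _ hN0 h1
  · have hcl : ∀ (t : Finset U), ∀ m ∈ (∑ u ∈ t,
        ren (Option.map (Equiv.swap (none : Option U) (some u))) F).support,
        (∀ x : Option U, ∑ j, m (some x, j) = d) ∧ ∑ j, m (none, j) + s = r := by
      intro t
      induction t using Finset.induction_on with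
      | empty =>
        intro m hm
        simp at hm
      | insert a t ha ih =>
        intro m hm
        rw [Finset.sum_insert ha] at hm
        rcases Finset.mem_union.1 (support_add hm) with h | h
        · exact hren _ m h
        · exact ih m h
    rw [hG, sub_eq_add_neg] at hm
    rcases Finset.mem_union.1 (support_add hm) with h | h
    · exact hd m h
    · rw [support_neg] at h
      exact hcl _ m h

end bd

section perm

variable {U : Type} [Fintype U] [DecidableEq U] {v : ℕ}

theorem coeff_ren_perm (π : Equiv.Perm U) (f : PX K (Option U) v) (m : Option U × Fin v →₀ ℕ) :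
    coeff m (ren (Option.map π) f) =
      coeff (m.mapDomain (Prod.map (Option.map π.symm) id)) f := by
  have h1 : m = (m.mapDomain (Prod.map (Option.map π.symm) id)).mapDomain
      (Prod.map (Option.map π) id) := by
    rw [← Finsupp.mapDomain_comp]
    have : (Prod.map (Option.map π) id ∘ Prod.map (Option.map π.symm) id :
        Option U × Fin v → Option U × Fin v) = id := by
      funext x
      rcases x with ⟨x, j⟩
      cases x <;> simp
    rw [this, Finsupp.mapDomain_id]
  conv_lhs => rw [h1]
  rw [ren]
  refine coeff_rename_mapDomain _ ?_ _ _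
  exact Function.Injective.prodMap (Option.map_injective π.injective) Function.injective_id

theorem mapDomain_perm_none (π : Equiv.Perm U) (m : Option U × Fin v →₀ ℕ) (l : Fin v) :
    m.mapDomain (Prod.map (Option.map π) id) (none, l) = m (none, l) := by
  have h := Finsupp.mapDomain_apply (f := Prod.map (Option.map π) (id : Fin v → Fin v))
    (Function.Injective.prodMap (Option.map_injective π.injective) Function.injective_id)
    m (none, l)
  simpa using h

end perm

end QI

open QI in
theorem QI_thm : Stmt_QI := by
  intro K _ _ v d p r i hi hQ U _ _ hU f hf hbd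
  classical
  obtain ⟨g, hg, hg2⟩ := hQ U hU f hf fun u => InI.mono (Nat.le_succ i) (hbd u)
  set e := f - ren Option.join g with he
  have heC : InC U v d 0 r e := hf.sub (inC_bd hg)
  set i' : Fin v := ⟨i, hi⟩ with hi'
  -- the good monomials
  let P : (Option U × Fin v →₀ ℕ) → Prop := fun m => ∀ l : Fin v, l.val < i → m (none, l) < d
  set δ : Option U × Fin v →₀ ℕ := Finsupp.single (none, i') d with hδ
  set τ : PX K (Option U) v := divMonomial (fil P e) δ with hτ
  have hcτ : ∀ t, coeff t τ = if P (δ + t) then coeff (δ + t) e else 0 := by
    intro t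
    rw [hτ, coeff_divMonomial, coeff_fil]
  have hX : (X (none, i') : PX K (Option U) v) ^ d = monomial δ 1 := by
    rw [hδ, X_pow_eq_monomial]
  -- `e' = e - X^d τ`
  set e' := e - X (none, i') ^ d * τ with he'
  have he'I : InI d i e' := by
    intro m hm
    rw [mem_support_iff, he', coeff_sub, hX, coeff_monomial_mul', hcτ] at hm
    by_contra hcon
    push Not at hcon
    have hP : P m := fun l hl => hcon l hl
    by_cases hle : δ ≤ m
    · rw [if_pos hle, one_mul, add_tsub_cancel_of_le hle, if_pos hP, sub_self] at hm
      exact hm rfl
    · rw [if_neg hle, sub_zero] at hm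
      obtain ⟨l, h1, h2⟩ := hg2 m (by rwa [mem_support_iff])
      rcases Nat.lt_succ_iff_lt_or_eq.1 h1 with h3 | h3
      · exact absurd h2 (not_le.2 (hP l h3))
      · apply hle
        have : l = i' := Fin.ext h3
        subst this
        rw [hδ, Finsupp.single_le_iff]
        exact h2
  have hee : e = X (none, i') ^ d * τ + e' := by rw [he']; ring
  -- `τ` is a chain
  have hτalt : ∀ π : Equiv.Perm U, ren (Option.map π) τ = ((Equiv.Perm.sign π : ℤˣ) : ℤ) • τ := by
    intro π
    ext t
    rw [coeff_ren_perm, hcτ]
    have h1 : δ + t.mapDomain (Prod.map (Option.map π.symm) id) =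
        (δ + t).mapDomain (Prod.map (Option.map π.symm) id) := by
      rw [Finsupp.mapDomain_add, hδ, Finsupp.mapDomain_single]
      rfl
    rw [h1, ← coeff_ren_perm, heC.alt]
    have h2 : P ((δ + t).mapDomain (Prod.map (Option.map π.symm) id)) ↔ P (δ + t) := by
      simp only [P, mapDomain_perm_none π.symm (δ + t)]
    have h3 : coeff t (((Equiv.Perm.sign π : ℤˣ) : ℤ) • τ) =
        ((Equiv.Perm.sign π : ℤˣ) : ℤ) • coeff t τ := by
      rw [← coeff_smul]
    rw [h3, hcτ]
    simp only [h2]
    split_ifs
    · rw [← coeff_smul]
    · simp
  have hτdeg : ∀ m ∈ τ.support, (∀ u : U, ∑ j, m (some u, j) = d) ∧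
      ∑ j, m (none, j) + d = r := by
    intro m hm
    rw [mem_support_iff, hcτ] at hm
    have hm2 : coeff (δ + m) e ≠ 0 := by
      intro h
      rw [h, ite_self] at hm
      exact hm rfl
    have h := heC.deg (δ + m) (by rwa [mem_support_iff])
    refine ⟨fun u => ?_, ?_⟩
    · rw [← h.1 u]
      refine Finset.sum_congr rfl fun j _ => ?_
      rw [Finsupp.add_apply, hδ, Finsupp.single_eq_of_ne (by simp), zero_add]
    · rw [← h.2, add_zero]
      simp only [Finsupp.add_apply, Finset.sum_add_distrib]
      have : ∑ j : Fin v, δ (none, j) = d := by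
        rw [hδ]
        simp [Finsupp.single_apply]
      rw [this]
      omega
  -- merging
  have hmg : ∀ u : U, InI d i (ren (mg u) τ) := by
    intro u
    have h1 : ren (mg u) f = X (none, i') ^ d * ren (mg u) τ + ren (mg u) e' := by
      have h2 : f = ren Option.join g + e := by rw [he]; ring
      have h3 : mg u none = none := by simp [mg]
      rw [h2, map_add, ren_mg_bd hg, zero_add]
      conv_lhs => rw [hee]
      rw [map_add, map_mul, map_pow, ren_X, h3]
    have h2 : InI d i (X (none, i') ^ d * ren (mg u) τ) := by
      have h3 : X (none, i') ^ d * ren (mg u) τ = ren (mg u) f - ren (mg u) e' := by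
        rw [h1]; ring
      rw [h3]
      exact InI.sub (hbd u) (InI.ren_none (by simp [mg]) he'I)
    intro m hm
    have hm2 : δ + m ∈ (X (none, i') ^ d * ren (mg u) τ).support := by
      rw [mem_support_iff, hX, coeff_monomial_mul, one_mul]
      rwa [mem_support_iff] at hm
    obtain ⟨l, h4, h5⟩ := h2 _ hm2
    refine ⟨l, h4, ?_⟩
    have h6 : l ≠ i' := by
      intro h
      rw [h] at h4
      exact lt_irrefl _ h4
    rw [Finsupp.add_apply, hδ, Finsupp.single_eq_of_ne (by simpa using h6), zero_add] at h5
    exact h5
  -- the homotopy
  set F : PX K (Option (Option U)) v :=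
    X (some none, i') ^ d * ren (Option.map some) τ with hF
  have hFalt : ∀ π : Equiv.Perm U, ren (Option.map (Equiv.optionCongr π)) F =
      ((Equiv.Perm.sign π : ℤˣ) : ℤ) • F := by
    intro π
    have h1 : Option.map (Equiv.optionCongr π) ∘ (Option.map some : Option U → _) =
        Option.map some ∘ Option.map π := by
      funext x
      cases x <;> rfl
    rw [hF, map_mul, map_pow, ren_X, ren_ren, h1, ← ren_ren, hτalt, map_zsmul, mul_smul_comm]
    rfl
  have hFdeg : ∀ m ∈ F.support, (∀ x : Option U, ∑ j, m (some x, j) = d) ∧
      ∑ j, m (none, j) + d = r := by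
    intro m hm
    have hX2 : (X (some none, i') : PX K (Option (Option U)) v) ^ d =
        monomial (Finsupp.single (some none, i') d) 1 := by
      rw [X_pow_eq_monomial]
    rw [hF, hX2] at hm
    have h1 := support_mul _ _ hm
    rw [Finset.mem_add] at h1
    obtain ⟨a, ha, b, hb, rfl⟩ := h1
    have ha2 : a = Finsupp.single (some none, i') d := by
      have := support_monomial_subset ha
      simpa using this
    subst ha2
    obtain ⟨b', hb', rfl⟩ := exists_of_mem_support_ren _ _ hb
    have h := hτdeg b' hb'
    have hf0 : (Finset.univ.filter fun a : Option U => Option.map some a =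
        (none : Option (Option U))) = {none} := by
      ext a
      simp
    have hf1 : (Finset.univ.filter fun a : Option U => Option.map some a =
        (some none : Option (Option U))) = ∅ := by
      ext a
      cases a <;> simp
    have hf2 : ∀ u : U, (Finset.univ.filter fun a : Option U => Option.map some a =
        (some (some u) : Option (Option U))) = {some u} := by
      intro u
      ext a
      cases a <;> simp
    simp only [Finsupp.add_apply, Finset.sum_add_distrib]
    refine ⟨fun x => ?_, ?_⟩
    · rw [mapDomain_sum]
      rcases x with _ | u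
      · rw [hf1, Finset.sum_empty, add_zero]
        simp [Finsupp.single_apply]
      · rw [hf2, Finset.sum_singleton, h.1 u]
        simp
    · rw [mapDomain_sum, hf0, Finset.sum_singleton, ← h.2]
      simp
  set G := F - ∑ u : U, ren (Option.map (Equiv.swap (none : Option U) (some u))) F with hG
  have hGC : InC (Option U) v d d r G := inC_anti F hFalt hFdeg
  have hjF : ren Option.join F = X (none, i') ^ d * τ := by
    have h1 : (Option.join ∘ Option.map some : Option U → Option U) = id := by
      funext x
      cases x <;> rfl
    rw [hF, map_mul, map_pow, ren_X, ren_ren, h1, ren_id]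
    rfl
  have hjS : ∀ u : U, ren Option.join (ren (Option.map (Equiv.swap (none : Option U) (some u))) F) =
      X (some u, i') ^ d * ren (mg u) τ := by
    intro u
    have h1 : (Option.join ∘ Option.map (Equiv.swap (none : Option U) (some u))) ∘
        (Option.map some : Option U → Option (Option U)) = mg u := by
      funext x
      rcases x with _ | x
      · rfl
      · by_cases hx : x = u
        · subst hx
          simp [mg]
        · have hx2 : (some x : Option U) ≠ some u := by simpa using hx
          simp [mg, Equiv.swap_apply_of_ne_of_ne (by simp : (some x : Option U) ≠ none) hx2, hx]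
    rw [ren_ren, hF, map_mul, map_pow, ren_X, ren_ren, h1]
    have h2 : (Option.join ∘ Option.map (Equiv.swap (none : Option U) (some u))) (some none) =
        some u := by
      simp
    rw [h2]
  refine ⟨g + G, hg.add hGC, ?_⟩
  have hfin : f - ren Option.join (g + G) =
      e' + ∑ u : U, X (some u, i') ^ d * ren (mg u) τ := by
    rw [map_add, hG, map_sub, map_sum, hjF, Finset.sum_congr rfl fun u _ => hjS u, he', he]
    ring
  rw [hfin]
  refine InI.add he'I (InI.sum _ _ fun u _ => InI.mul_left _ (hmg u))

end Pool.Agent.VSY
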