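import Pool.Agent.VSY.StmtsB
import Pool.Agent.VSY.QI

/-!
# Veronese syzygies (MP_deb8da_ag): the induction step for `(Q_i)`, one element (helper68)
-/

namespace Pool.Agent.VSY

open MvPolynomial

open QI in
theorem QIE_thm : Stmt_QIE := by
  intro K _ _ v d r i hi U _ _ f hf hbd hQ
  classical
  obtain ⟨g, hg, hg2⟩ := hQ
  set e := f - ren Option.join g with he
  have heC : InC U v d 0 r e := hf.sub (inC_bd hg)
  set i' : Fin v := ⟨i, hi⟩ with hi'
  -- the good monomials
  let P : (Option U × Fin v →₀ ℕ) → Prop := fun m => ∀ l : Fin v, l.val < i → m (none, l) < d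
  set δ : Option U × Fin v →₀ ℕ := Finsupp.single (none, i') d with hδ
  set τ : PX K (Option U) v := divMonomial (fil P e) δ with hτ
  have hcτ : ∀ t, coeff t τ = if P (δ + t) then coeff (δ + t) e else 0 := by
    intro t
    rw [hτ, coeff_divMonomial, coeff_fil]
  have hX : (X (none, i') : PX K (Option U) v) ^ d = monomial δ 1 := by
    rw [hδ, X_pow_eq_monomial]
  -- `e' = e - X^d τ`
  set e' := e - X (none, i') ^ d * τ with he'
  have he'I : InI d i e' := by
    intro m hm
    rw [mem_support_iff, he', coeff_sub, hX, coeff_monomial_mul', hcτ] at hm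
    by_contra hcon
    push Not at hcon
    have hP : P m := fun l hl => hcon l hl
    by_cases hle : δ ≤ m
    · rw [if_pos hle, one_mul, add_tsub_cancel_of_le hle, if_pos hP, sub_self] at hm
      exact hm rfl
    · rw [if_neg hle, sub_zero] at hm
      obtain ⟨l, h1, h2⟩ := hg2 m (by rwa [mem_support_iff])
      rcases Nat.lt_succ_iff_lt_or_eq.1 h1 with h3 | h3
      · exact absurd h2 (not_le.2 (hP l h3))
      · apply hle
        have : l = i' := Fin.ext h3
        subst this
        rw [hδ, Finsupp.single_le_iff]
        exact h2
  have hee : e = X (none, i') ^ d * τ + e' := by rw [he']; ring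
  -- `τ` is a chain
  have hτalt : ∀ π : Equiv.Perm U, ren (Option.map π) τ = ((Equiv.Perm.sign π : ℤˣ) : ℤ) • τ := by
    intro π
    ext t
    rw [coeff_ren_perm, hcτ]
    have h1 : δ + t.mapDomain (Prod.map (Option.map π.symm) id) =
        (δ + t).mapDomain (Prod.map (Option.map π.symm) id) := by
      rw [Finsupp.mapDomain_add, hδ, Finsupp.mapDomain_single]
      rfl
    rw [h1, ← coeff_ren_perm, heC.alt]
    have h2 : P ((δ + t).mapDomain (Prod.map (Option.map π.symm) id)) ↔ P (δ + t) := by
      simp only [P, mapDomain_perm_none π.symm (δ + t)]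
    have h3 : coeff t (((Equiv.Perm.sign π : ℤˣ) : ℤ) • τ) =
        ((Equiv.Perm.sign π : ℤˣ) : ℤ) • coeff t τ := by
      rw [← coeff_smul]
    rw [h3, hcτ]
    simp only [h2]
    split_ifs
    · rw [← coeff_smul]
    · simp
  have hτdeg : ∀ m ∈ τ.support, (∀ u : U, ∑ j, m (some u, j) = d) ∧
      ∑ j, m (none, j) + d = r := by
    intro m hm
    rw [mem_support_iff, hcτ] at hm
    have hm2 : coeff (δ + m) e ≠ 0 := by
      intro h
      rw [h, ite_self] at hm
      exact hm rfl
    have h := heC.deg (δ + m) (by rwa [mem_support_iff])
    refine ⟨fun u => ?_, ?_⟩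
    · rw [← h.1 u]
      refine Finset.sum_congr rfl fun j _ => ?_
      rw [Finsupp.add_apply, hδ, Finsupp.single_eq_of_ne (by simp), zero_add]
    · rw [← h.2, add_zero]
      simp only [Finsupp.add_apply, Finset.sum_add_distrib]
      have : ∑ j : Fin v, δ (none, j) = d := by
        rw [hδ]
        simp [Finsupp.single_apply]
      rw [this]
      omega
  -- merging
  have hmg : ∀ u : U, InI d i (ren (mg u) τ) := by
    intro u
    have h1 : ren (mg u) f = X (none, i') ^ d * ren (mg u) τ + ren (mg u) e' := by
      have h2 : f = ren Option.join g + e := by rw [he]; ring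
      have h3 : mg u none = none := by simp [mg]
      rw [h2, map_add, ren_mg_bd hg, zero_add]
      conv_lhs => rw [hee]
      rw [map_add, map_mul, map_pow, ren_X, h3]
    have h2 : InI d i (X (none, i') ^ d * ren (mg u) τ) := by
      have h3 : X (none, i') ^ d * ren (mg u) τ = ren (mg u) f - ren (mg u) e' := by
        rw [h1]; ring
      rw [h3]
      exact InI.sub (hbd u) (InI.ren_none (by simp [mg]) he'I)
    intro m hm
    have hm2 : δ + m ∈ (X (none, i') ^ d * ren (mg u) τ).support := by
      rw [mem_support_iff, hX, coeff_monomial_mul, one_mul]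
      rwa [mem_support_iff] at hm
    obtain ⟨l, h4, h5⟩ := h2 _ hm2
    refine ⟨l, h4, ?_⟩
    have h6 : l ≠ i' := by
      intro h
      rw [h] at h4
      exact lt_irrefl _ h4
    rw [Finsupp.add_apply, hδ, Finsupp.single_eq_of_ne (by simpa using h6), zero_add] at h5
    exact h5
  -- the homotopy
  set F : PX K (Option (Option U)) v :=
    X (some none, i') ^ d * ren (Option.map some) τ with hF
  have hFalt : ∀ π : Equiv.Perm U, ren (Option.map (Equiv.optionCongr π)) F =
      ((Equiv.Perm.sign π : ℤˣ) : ℤ) • F := by
    intro π
    have h1 : Option.map (Equiv.optionCongr π) ∘ (Option.map some : Option U → _) =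
        Option.map some ∘ Option.map π := by
      funext x
      cases x <;> rfl
    rw [hF, map_mul, map_pow, ren_X, ren_ren, h1, ← ren_ren, hτalt, map_zsmul, mul_smul_comm]
    rfl
  have hFdeg : ∀ m ∈ F.support, (∀ x : Option U, ∑ j, m (some x, j) = d) ∧
      ∑ j, m (none, j) + d = r := by
    intro m hm
    have hX2 : (X (some none, i') : PX K (Option (Option U)) v) ^ d =
        monomial (Finsupp.single (some none, i') d) 1 := by
      rw [X_pow_eq_monomial]
    rw [hF, hX2] at hm
    have h1 := support_mul _ _ hm
    rw [Finset.mem_add] at h1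
    obtain ⟨a, ha, b, hb, rfl⟩ := h1
    have ha2 : a = Finsupp.single (some none, i') d := by
      have := support_monomial_subset ha
      simpa using this
    subst ha2
    obtain ⟨b', hb', rfl⟩ := exists_of_mem_support_ren _ _ hb
    have h := hτdeg b' hb'
    have hf0 : (Finset.univ.filter fun a : Option U => Option.map some a =
        (none : Option (Option U))) = {none} := by
      ext a
      simp
    have hf1 : (Finset.univ.filter fun a : Option U => Option.map some a =
        (some none : Option (Option U))) = ∅ := by
      ext a
      cases a <;> simp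
    have hf2 : ∀ u : U, (Finset.univ.filter fun a : Option U => Option.map some a =
        (some (some u) : Option (Option U))) = {some u} := by
      intro u
      ext a
      cases a <;> simp
    simp only [Finsupp.add_apply, Finset.sum_add_distrib]
    refine ⟨fun x => ?_, ?_⟩
    · rw [mapDomain_sum]
      rcases x with _ | u
      · rw [hf1, Finset.sum_empty, add_zero]
        simp [Finsupp.single_apply]
      · rw [hf2, Finset.sum_singleton, h.1 u]
        simp
    · rw [mapDomain_sum, hf0, Finset.sum_singleton, ← h.2]
      simp
  set G := F - ∑ u : U, ren (Option.map (Equiv.swap (none : Option U) (some u))) F with hG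
  have hGC : InC (Option U) v d d r G := inC_anti F hFalt hFdeg
  have hjF : ren Option.join F = X (none, i') ^ d * τ := by
    have h1 : (Option.join ∘ Option.map some : Option U → Option U) = id := by
      funext x
      cases x <;> rfl
    rw [hF, map_mul, map_pow, ren_X, ren_ren, h1, ren_id]
    rfl
  have hjS : ∀ u : U, ren Option.join (ren (Option.map (Equiv.swap (none : Option U) (some u))) F) =
      X (some u, i') ^ d * ren (mg u) τ := by
    intro u
    have h1 : (Option.join ∘ Option.map (Equiv.swap (none : Option U) (some u))) ∘
        (Option.map some : Option U → Option (Option U)) = mg u := by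
      funext x
      rcases x with _ | x
      · rfl
      · by_cases hx : x = u
        · subst hx
          simp [mg]
        · have hx2 : (some x : Option U) ≠ some u := by simpa using hx
          simp [mg, Equiv.swap_apply_of_ne_of_ne (by simp : (some x : Option U) ≠ none) hx2, hx]
    rw [ren_ren, hF, map_mul, map_pow, ren_X, ren_ren, h1]
    have h2 : (Option.join ∘ Option.map (Equiv.swap (none : Option U) (some u))) (some none) =
        some u := by
      simp
    rw [h2]
  refine ⟨g + G, hg.add hGC, ?_⟩
  have hfin : f - ren Option.join (g + G) =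
      e' + ∑ u : U, X (some u, i') ^ d * ren (mg u) τ := by
    rw [map_add, hG, map_sub, map_sum, hjF, Finset.sum_congr rfl fun u _ => hjS u, he', he]
    ring
  rw [hfin]
  refine InI.add he'I (InI.sum _ _ fun u _ => InI.mul_left _ (hmg u))

end Pool.Agent.VSY
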