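import Pool.Agent.VSY.StmtsB

/-!
# T2V: the cycles modulo boundaries in two variables
-/

namespace Pool.Agent.VSY

open MvPolynomial

namespace T2V

variable {K : Type} [Field K]

/-- The alternating sum. -/
noncomputable def Alt (U : Type) [Fintype U] [DecidableEq U] (v : ℕ) :
    PX K (Option U) v →ₗ[K] PX K (Option U) v :=
  ∑ π : Equiv.Perm U, ((Equiv.Perm.sign π : ℤˣ) : ℤ) • (ren (Option.map π)).toLinearMap

theorem Alt_apply {U : Type} [Fintype U] [DecidableEq U] {v : ℕ} (F : PX K (Option U) v) :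
    Alt U v F = ∑ π : Equiv.Perm U, ((Equiv.Perm.sign π : ℤˣ) : ℤ) • ren (Option.map π) F := by
  simp [Alt, LinearMap.sum_apply]

theorem Alt_ren {U : Type} [Fintype U] [DecidableEq U] {v : ℕ} (ρ : Equiv.Perm U)
    (F : PX K (Option U) v) :
    Alt U v (ren (Option.map ρ) F) = ((Equiv.Perm.sign ρ : ℤˣ) : ℤ) • Alt U v F := by
  rw [Alt_apply, Alt_apply, Finset.smul_sum]
  refine Fintype.sum_equiv (Equiv.mulRight ρ) _ _ fun π => ?_
  rw [ren_ren, smul_smul, ← Units.val_mul]
  have h1 : Option.map π ∘ Option.map ρ = Option.map (Equiv.mulRight ρ π) := by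
    funext x
    cases x <;> simp
  rw [h1]
  congr 2
  simp only [Equiv.coe_mulRight, Equiv.Perm.sign_mul]
  rw [mul_comm, mul_assoc, Int.units_mul_self, mul_one]

theorem Alt_alt {U : Type} [Fintype U] [DecidableEq U] {v : ℕ} (F : PX K (Option U) v)
    (h : ∀ π : Equiv.Perm U, ren (Option.map π) F = ((Equiv.Perm.sign π : ℤˣ) : ℤ) • F) :
    Alt U v F = ((Fintype.card (Equiv.Perm U) : ℕ) : K) • F := by
  rw [Alt_apply]
  have h1 : ∀ π : Equiv.Perm U,
      ((Equiv.Perm.sign π : ℤˣ) : ℤ) • ren (Option.map π) F = F := by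
    intro π
    rw [h π, smul_smul, ← Units.val_mul, Int.units_mul_self]
    simp
  rw [Finset.sum_congr rfl fun π _ => h1 π, Finset.sum_const, Finset.card_univ, Nat.cast_smul_eq_nsmul]

section II

variable {U : Type} {v d i : ℕ}

theorem I_zero : InI d i (0 : PX K (Option U) v) := fun m hm => by simp at hm

theorem I_add {f g : PX K (Option U) v} (hf : InI d i f) (hg : InI d i g) : InI d i (f + g) := by
  classical
  intro m hm
  rcases Finset.mem_union.1 (support_add hm) with h | h
  · exact hf m h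
  · exact hg m h

theorem I_smul (a : K) {f : PX K (Option U) v} (hf : InI d i f) : InI d i (a • f) :=
  fun m hm => hf m (support_smul hm)

theorem I_mul (g : PX K (Option U) v) {f : PX K (Option U) v} (hf : InI d i f) :
    InI d i (g * f) := by
  classical
  intro m hm
  obtain ⟨m1, h1, m2, h2, rfl⟩ := Finset.mem_add.1 (support_mul g f hm)
  obtain ⟨l, hl, h3⟩ := hf m2 h2
  refine ⟨l, hl, ?_⟩
  rw [Finsupp.add_apply]
  omega

theorem I_X {n : ℕ} (l : Fin v) (hl : l.val < i) (h : d ≤ n) (g : PX K (Option U) v) :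
    InI d i (X (none, l) ^ n * g) := by
  rw [mul_comm]
  apply I_mul
  classical
  intro m hm
  rw [X_pow_eq_monomial] at hm
  have h1 := support_monomial_subset hm
  rw [Finset.mem_singleton] at h1
  refine ⟨l, hl, ?_⟩
  rw [h1, Finsupp.single_eq_same]
  exact h

theorem I_X2 {a b : ℕ} (l : Fin v) (hl : l.val < i) (h : d ≤ a + b)
    (P Q S R : PX K (Option U) v) :
    InI d i (X (none, l) ^ a * P * (Q * (X (none, l) ^ b * S * R))) := by
  have h1 : X (none, l) ^ a * P * (Q * (X (none, l) ^ b * S * R)) =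
      X (none, l) ^ (a + b) * (P * (Q * (S * R))) := by
    rw [pow_add]
    ring
  rw [h1]
  exact I_X l hl h _

theorem I_X3 {a b : ℕ} (l : Fin v) (hl : l.val < i) (h : d ≤ a + b)
    (P Q S R : PX K (Option U) v) :
    InI d i (P * X (none, l) ^ a * (Q * (S * X (none, l) ^ b * R))) := by
  have h1 : P * X (none, l) ^ a * (Q * (S * X (none, l) ^ b * R)) =
      X (none, l) ^ (a + b) * (P * (Q * (S * R))) := by
    rw [pow_add]
    ring
  rw [h1]
  exact I_X l hl h _

theorem I_ren [Fintype U] [DecidableEq U] (π : Equiv.Perm U) {f : PX K (Option U) v}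
    (hf : InI d i f) : InI d i (ren (Option.map π) f) := by
  intro m hm
  obtain ⟨m', hm', rfl⟩ := exists_of_mem_support_ren _ _ hm
  obtain ⟨l, hl, h⟩ := hf m' hm'
  refine ⟨l, hl, ?_⟩
  rw [mapDomain_deg]
  refine le_trans h (Finset.single_le_sum (f := fun a => m' (a, l)) (fun _ _ => Nat.zero_le _) ?_)
  simp

variable (K U v d i) in
/-- The ideal as a submodule. -/
def JJ : Submodule K (PX K (Option U) v) where
  carrier := {f | InI d i f}
  add_mem' := fun ha hb => I_add ha hb
  zero_mem' := I_zero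
  smul_mem' := fun a _ hf => I_smul a hf

theorem mem_JJ {f : PX K (Option U) v} : f ∈ JJ K U v d i ↔ InI d i f := Iff.rfl

theorem Alt_mem [Fintype U] [DecidableEq U] {f : PX K (Option U) v} (hf : f ∈ JJ K U v d i) :
    Alt U v f ∈ JJ K U v d i := by
  rw [Alt_apply]
  refine Submodule.sum_mem _ fun π _ => ?_
  rw [← Int.cast_smul_eq_zsmul K]
  exact Submodule.smul_mem _ _ (I_ren π hf)

end II

section mk

/-- The monomial with the exponents `e0, e1`. -/
noncomputable def mk {A : Type} [Fintype A] (e0 e1 : A → ℕ) : PX K A 2 :=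
  ∏ x : A, (X (x, 0) ^ e0 x * X (x, 1) ^ e1 x)

theorem monomial_eq_mk {A : Type} [Fintype A] (m : A × Fin 2 →₀ ℕ) :
    (monomial m (1 : K) : PX K A 2) = mk (fun x => m (x, 0)) (fun x => m (x, 1)) := by
  rw [monomial_eq, map_one, one_mul, Finsupp.prod_fintype _ _ (fun _ => pow_zero _),
    Fintype.prod_prod_type]
  simp only [Fin.prod_univ_two]
  rfl

theorem mk_support {A : Type} [Fintype A] (e0 e1 : A → ℕ) (m : A × Fin 2 →₀ ℕ)
    (hm : m ∈ (mk e0 e1 : PX K A 2).support) : ∀ x, m (x, 0) = e0 x ∧ m (x, 1) = e1 x := by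
  classical
  have h1 : (mk e0 e1 : PX K A 2) = monomial (Finsupp.equivFunOnFinite.symm
      (fun q : A × Fin 2 => if q.2 = 0 then e0 q.1 else e1 q.1)) 1 := by
    rw [monomial_eq_mk]
    simp
  rw [h1] at hm
  have h2 := support_monomial_subset hm
  rw [Finset.mem_singleton] at h2
  intro x
  rw [h2]
  simp

theorem ren_mk {A B : Type} [Fintype A] (φ : A → B) (e0 e1 : A → ℕ) :
    ren φ (mk e0 e1 : PX K A 2) = ∏ x : A, (X (φ x, 0) ^ e0 x * X (φ x, 1) ^ e1 x) := by
  rw [mk, map_prod]
  simp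

end mk

/-- The monomial `x^N y^N ∏ b_{β k}(u_k)`. -/
noncomputable def PP (N : ℕ) (β : Fin N → ℕ) : PX K (Option (Fin N)) 2 :=
  X (none, 0) ^ N * X (none, 1) ^ N *
    ∏ k : Fin N, (X (some k, 0) ^ (N + 1 - β k) * X (some k, 1) ^ β k)

theorem ren_PP (N : ℕ) (β : Fin N → ℕ) (π : Equiv.Perm (Fin N)) :
    ren (Option.map π) (PP N β : PX K (Option (Fin N)) 2) =
      X (none, 0) ^ N * X (none, 1) ^ N *
        ∏ k : Fin N, (X (some (π k), 0) ^ (N + 1 - β k) * X (some (π k), 1) ^ β k) := by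
  rw [PP]
  simp [map_prod]

/-- The standard exponents. -/
def std (N : ℕ) (l : Fin N) : ℕ := N - l.val

theorem tau_eq (N : ℕ) :
    tau K N 2 0 1 - (-1 : K) ^ N • Alt (Fin N) 2 (PP N (std N)) ∈ JJ K (Fin N) 2 (N + 1) 2 := by
  have h1 : tau K N 2 0 1 = ∑ j : Fin N, (X (none, 1) ^ (N + (N - j.val)) *
      ((-1) ^ j.val * X (none, 0) ^ j.val * (∏ k : Fin N, X (some k, 0)) *
        ((Matrix.of fun a l : Fin (N + 1) => (X (pt N a, 1) ^ (N - l.val) * X (pt N a, 0) ^ l.val :
          PX K (Option (Fin N)) 2)).submatrix Fin.succ (j.castSucc).succAbove).det)) +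
      (-1 : K) ^ N • Alt (Fin N) 2 (PP N (std N)) := by
    rw [tau, z1, Matrix.det_succ_row_zero, Fin.sum_univ_castSucc, mul_add, mul_add]
    congr 1
    · rw [Finset.mul_sum, Finset.mul_sum]
      refine Finset.sum_congr rfl fun j _ => ?_
      simp only [Matrix.of_apply, pt, Fin.cons_zero, Fin.val_castSucc]
      rw [pow_add]
      ring
    · simp only [Matrix.of_apply, pt, Fin.cons_zero, Fin.val_last, Nat.sub_self, pow_zero, one_mul]
      rw [Matrix.det_apply, Alt_apply, Finset.mul_sum, Finset.mul_sum, Finset.mul_sum,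
        Finset.smul_sum]
      refine Finset.sum_congr rfl fun π _ => ?_
      rw [ren_PP, Units.smul_def]
      simp only [Matrix.submatrix_apply, Matrix.of_apply, Fin.cons_succ, Fin.succAbove_last,
        Fin.val_castSucc, std]
      have h2 : ∏ k : Fin N, (X (some k, 0) : PX K (Option (Fin N)) 2) =
          ∏ k : Fin N, X (some (π k), 0) := (Equiv.prod_comp π fun k => X (some k, 0)).symm
      rw [h2]
      have h3 : ∏ k : Fin N, ((X (some (π k), 0) : PX K (Option (Fin N)) 2) ^ (N + 1 - (N - k.val)) *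
          X (some (π k), 1) ^ (N - k.val)) = (∏ k : Fin N, X (some (π k), 0)) *
            ∏ k : Fin N, (X (some (π k), 1) ^ (N - k.val) * X (some (π k), 0) ^ k.val) := by
        rw [← Finset.prod_mul_distrib]
        refine Finset.prod_congr rfl fun k _ => ?_
        have h4 : N + 1 - (N - k.val) = 1 + k.val := by have := k.isLt; omega
        rw [h4, pow_add]
        ring
      rw [h3]
      rw [← Int.cast_smul_eq_zsmul K, ← Int.cast_smul_eq_zsmul K, smul_eq_C_mul, smul_eq_C_mul,
        smul_eq_C_mul]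
      simp only [map_pow, map_neg, map_one]
      ring
  rw [h1, add_sub_cancel_right]
  refine Submodule.sum_mem _ fun j _ => I_X 1 (by simp) ?_ _
  have := j.isLt
  omega

variable (K) in
/-- The chains which are a multiple of `τ` modulo boundaries and the ideal. -/
def WW (N : ℕ) : Submodule K (PX K (Option (Fin N)) 2) where
  carrier := {f | ∃ (a : K) (g : PX K (Option (Option (Fin N))) 2),
    InC (Option (Fin N)) 2 (N + 1) (N + 1) (2 * N) g ∧
      f - a • tau K N 2 0 1 - ren Option.join g ∈ JJ K (Fin N) 2 (N + 1) 2}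
  zero_mem' := ⟨0, 0, InC.zero, by simp⟩
  add_mem' := by
    rintro f f' ⟨a, g, h1, h2⟩ ⟨a', g', h1', h2'⟩
    refine ⟨a + a', g + g', h1.add h1', ?_⟩
    have h3 := Submodule.add_mem _ h2 h2'
    have h4 : f + f' - (a + a') • tau K N 2 0 1 - ren Option.join (g + g') =
        (f - a • tau K N 2 0 1 - ren Option.join g) +
          (f' - a' • tau K N 2 0 1 - ren Option.join g') := by
      rw [map_add, add_smul]
      abel
    rw [h4]
    exact h3
  smul_mem' := by
    rintro c f ⟨a, g, h1, h2⟩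
    refine ⟨c * a, c • g, h1.smul c, ?_⟩
    have h3 := Submodule.smul_mem _ c h2
    have h4 : c • f - (c * a) • tau K N 2 0 1 - ren Option.join (c • g) =
        c • (f - a • tau K N 2 0 1 - ren Option.join g) := by
      rw [map_smul, smul_sub, smul_sub, smul_smul]
    rw [h4]
    exact h3

theorem J_le (N : ℕ) : JJ K (Fin N) 2 (N + 1) 2 ≤ WW K N := by
  intro f hf
  exact ⟨0, 0, InC.zero, by simpa using hf⟩

theorem tau_mem (N : ℕ) : tau K N 2 0 1 ∈ WW K N :=
  ⟨1, 0, InC.zero, by simp⟩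

theorem join_mem (N : ℕ) {g : PX K (Option (Option (Fin N))) 2}
    (hg : InC (Option (Fin N)) 2 (N + 1) (N + 1) (2 * N) g) : ren Option.join g ∈ WW K N :=
  ⟨0, g, hg, by simp⟩

theorem std_mem (N : ℕ) : Alt (Fin N) 2 (PP N (std N)) ∈ WW K N := by
  have h1 := J_le N (tau_eq (K := K) N)
  have h2 := Submodule.sub_mem _ (tau_mem (K := K) N) h1
  rw [sub_sub_cancel] at h2
  have h3 := Submodule.smul_mem _ ((-1 : K) ^ N) h2
  rwa [smul_smul, ← mul_pow, neg_one_mul, neg_neg, one_pow, one_smul] at h3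

/-- The case of a bijection. -/
theorem bij_mem (N : ℕ) (β : Fin N → ℕ)
    (hβ : ∀ i, 1 ≤ i → i ≤ N → ∃ k, β k = i) : Alt (Fin N) 2 (PP N β) ∈ WW K N := by
  have h1 : ∀ l : Fin N, ∃ k, β k = std N l := fun l =>
    hβ _ (by unfold std; have := l.isLt; omega) (by unfold std; omega)
  choose c hc using h1
  have hinj : Function.Injective c := by
    intro l l' h
    have h2 : std N l = std N l' := by rw [← hc, ← hc, h]
    unfold std at h2
    have := l.isLt
    have := l'.isLt
    exact Fin.ext (by omega)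
  have hbij : Function.Bijective c := Finite.injective_iff_bijective.1 hinj
  have h3 : (PP N β : PX K (Option (Fin N)) 2) =
      ren (Option.map (Equiv.ofBijective c hbij)) (PP N (std N)) := by
    rw [ren_PP, PP]
    congr 1
    rw [← Equiv.prod_comp (Equiv.ofBijective c hbij)]
    refine Finset.prod_congr rfl fun k _ => ?_
    rw [Equiv.ofBijective_apply, hc]
  rw [h3, Alt_ren, ← Int.cast_smul_eq_zsmul K]
  exact Submodule.smul_mem _ _ (std_mem N)

/-- The case of a missing index. -/
theorem miss_mem (h3 : Stmt_ASM) (N : ℕ) (β : Fin N → ℕ) (hb : ∀ k, β k ≤ N + 1) (i : ℕ)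
    (hi1 : 1 ≤ i) (hiN : i ≤ N) (hi : ∀ k, β k ≠ i) : Alt (Fin N) 2 (PP N β) ∈ WW K N := by
  obtain ⟨hA, hJ⟩ := h3 K (Option (Fin N)) 2
  obtain ⟨_, hJ'⟩ := h3 K (Fin N) 2
  let e0 : Option (Option (Fin N)) → ℕ := fun x => x.elim (i - 1) fun y =>
    y.elim (N + 1 - i) fun k => N + 1 - β k
  let e1 : Option (Option (Fin N)) → ℕ := fun x => x.elim (N - i) fun y =>
    y.elim i fun k => β k
  let G : PX K (Option (Option (Fin N))) 2 := mk e0 e1
  let g : PX K (Option (Option (Fin N))) 2 := ∑ π : Equiv.Perm (Option (Fin N)),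
    ((Equiv.Perm.sign π : ℤˣ) : ℤ) • ren (Option.map π) G
  have hg : InC (Option (Fin N)) 2 (N + 1) (N + 1) (2 * N) g := by
    refine hA (N + 1) (N + 1) (2 * N) G fun m hm => ?_
    have h4 := mk_support _ _ m hm
    refine ⟨fun u => ?_, ?_⟩
    · rw [Fin.sum_univ_two, (h4 _).1, (h4 _).2]
      cases u with
      | none => simp only [e0, e1, Option.elim]; omega
      | some k => have := hb k; simp only [e0, e1, Option.elim]; omega
    · rw [Fin.sum_univ_two, (h4 _).1, (h4 _).2]
      simp only [e0, e1, Option.elim]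
      omega
  have hj : ren Option.join g = Alt (Fin N) 2 (ren Option.join G -
      ∑ u : Fin N, ren (Option.join ∘ Option.map (Equiv.swap none (some u))) G) := by
    rw [hJ' G, Alt_apply]
  have hP : ren Option.join G = PP N β := by
    rw [ren_mk, PP, Fintype.prod_option, Fintype.prod_option]
    simp only [e0, e1, Option.elim, Option.join_none, Option.join_some]
    have e3 : N = (i - 1) + (N + 1 - i) := by omega
    have e4 : N = (N - i) + i := by omega
    have e5 : (X (none, 0) : PX K (Option (Fin N)) 2) ^ N =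
      X (none, 0) ^ (i - 1) * X (none, 0) ^ (N + 1 - i) := by rw [← pow_add, ← e3]
    have e6 : (X (none, 1) : PX K (Option (Fin N)) 2) ^ N =
      X (none, 1) ^ (N - i) * X (none, 1) ^ i := by rw [← pow_add, ← e4]
    rw [e5, e6]
    ring
  have hu : ∀ u : Fin N, ren (Option.join ∘ Option.map (Equiv.swap none (some u))) G ∈
      JJ K (Fin N) 2 (N + 1) 2 := by
    intro u
    rw [ren_mk, Fintype.prod_option, Fintype.prod_option,
      ← Finset.mul_prod_erase Finset.univ _ (Finset.mem_univ u)]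
    simp only [e0, e1, Option.elim, Function.comp_apply, Option.map_none, Option.map_some,
      Equiv.swap_apply_left, Equiv.swap_apply_right, Option.join_none, Option.join_some]
    rcases lt_or_gt_of_ne (hi u) with h | h
    · exact I_X2 0 (by simp) (by have := hb u; omega) _ _ _ _
    · exact I_X3 1 (by simp) (by omega) _ _ _ _
  have h5 : Alt (Fin N) 2 (PP N β) = ren Option.join g +
      Alt (Fin N) 2 (∑ u : Fin N, ren (Option.join ∘ Option.map (Equiv.swap none (some u))) G) := by
    rw [hj, hP, map_sub, sub_add_cancel]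
  rw [h5]
  exact Submodule.add_mem _ (join_mem N hg)
    (J_le N (Alt_mem (Submodule.sum_mem _ fun u _ => hu u)))

/-- Monomials. -/
theorem mon_mem (h3 : Stmt_ASM) (N : ℕ) (m : Option (Fin N) × Fin 2 →₀ ℕ)
    (hm : (∀ u : Fin N, ∑ j, m (some u, j) = N + 1) ∧ ∑ j, m (none, j) = 2 * N) :
    Alt (Fin N) 2 (monomial m 1) ∈ WW K N := by
  obtain ⟨h1, h2⟩ := hm
  rw [Fin.sum_univ_two] at h2
  by_cases hJ : N + 1 ≤ m (none, 0) ∨ N + 1 ≤ m (none, 1)
  · apply J_le N
    apply Alt_mem
    intro m' hm'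
    have h4 := support_monomial_subset hm'
    rw [Finset.mem_singleton] at h4
    rw [h4]
    rcases hJ with h | h
    · exact ⟨0, by simp, h⟩
    · exact ⟨1, by simp, h⟩
  · push Not at hJ
    have e0 : m (none, 0) = N := by omega
    have e1 : m (none, 1) = N := by omega
    have hP : (monomial m (1 : K) : PX K (Option (Fin N)) 2) = PP N fun k => m (some k, 1) := by
      rw [monomial_eq_mk, mk, PP, Fintype.prod_option, e0, e1]
      congr 1
      refine Finset.prod_congr rfl fun k _ => ?_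
      have h4 := h1 k
      rw [Fin.sum_univ_two] at h4
      have h5 : m (some k, 0) = N + 1 - m (some k, 1) := by omega
      rw [h5]
    rw [hP]
    by_cases hb : ∀ i, 1 ≤ i → i ≤ N → ∃ k, m (some k, 1) = i
    · exact bij_mem N _ hb
    · push Not at hb
      obtain ⟨i, hi1, hiN, hi⟩ := hb
      refine miss_mem h3 N _ (fun k => ?_) i hi1 hiN hi
      have h4 := h1 k
      rw [Fin.sum_univ_two] at h4
      omega

theorem all_mem [CharZero K] (h3 : Stmt_ASM) (N : ℕ) (f : PX K (Option (Fin N)) 2)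
    (hf : InC (Fin N) 2 (N + 1) 0 (2 * N) f) : f ∈ WW K N := by
  have h1 := Alt_alt f hf.alt
  have h2 : Alt (Fin N) 2 f ∈ WW K N := by
    rw [f.as_sum, map_sum]
    refine Submodule.sum_mem _ fun m hm => ?_
    have h4 : (monomial m (coeff m f) : PX K (Option (Fin N)) 2) = coeff m f • monomial m 1 := by
      rw [smul_monomial, smul_eq_mul, mul_one]
    rw [h4, map_smul]
    exact Submodule.smul_mem _ _ (mon_mem h3 N m (by simpa using hf.deg m hm))
  rw [h1] at h2
  have h5 : ((Fintype.card (Equiv.Perm (Fin N)) : ℕ) : K) ≠ 0 := by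
    rw [Nat.cast_ne_zero]
    exact Fintype.card_ne_zero
  have h6 := Submodule.smul_mem _ (((Fintype.card (Equiv.Perm (Fin N)) : ℕ) : K)⁻¹) h2
  rwa [smul_smul, inv_mul_cancel₀ h5, one_smul] at h6

end T2V

theorem T2V_thm (h1 : Stmt_QIE) (h2 : Stmt_Z1C) (h3 : Stmt_ASM) : Stmt_T2V := by
  intro K _ _ N _ f hf
  obtain ⟨a, g, hg, hJ⟩ := T2V.all_mem h3 N f hf.1
  have htau : InZ (Fin N) 2 (N + 1) (2 * N) (tau K N 2 0 1) := (h2 K N 2 0 1 (by simp)).2.1
  have hf' : InZ (Fin N) 2 (N + 1) (2 * N) (f - a • tau K N 2 0 1) := by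
    rw [sub_eq_add_neg, ← neg_smul]
    exact hf.add (htau.smul _)
  refine ⟨a, ?_⟩
  have hz : ∀ i : ℕ, ∀ u, InI (N + 1) i (ren (mg u) (f - a • tau K N 2 0 1)) := by
    intro i u
    rw [hf'.2 u]
    exact T2V.I_zero
  have s1 := h1 K 2 (N + 1) (2 * N) 1 (by norm_num) (Fin N) (f - a • tau K N 2 0 1) hf'.1 (hz 1)
    ⟨g, hg, hJ⟩
  obtain ⟨g', hg', hJ'⟩ := h1 K 2 (N + 1) (2 * N) 0 (by norm_num) (Fin N)
    (f - a • tau K N 2 0 1) hf'.1 (hz 0) s1
  refine ⟨g', hg', ?_⟩
  have h4 : f - a • tau K N 2 0 1 - ren Option.join g' = 0 := by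
    rw [← support_eq_empty, Finset.eq_empty_iff_forall_notMem]
    intro m hm
    obtain ⟨l, hl, _⟩ := hJ' m hm
    exact absurd hl (Nat.not_lt_zero _)
  exact (sub_eq_zero.1 h4).symm

end Pool.Agent.VSY
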