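import Pool.Agent.VSY.StmtsB

/-!
# T3M: products of a form divisible by the first coordinate with the translates of the cycle
-/

namespace Pool.Agent.VSY

open MvPolynomial

namespace T3M

variable {K : Type} [Field K] {N : ℕ}

theorem iter_mul (i : Fin 4) (x : PX K (Option (Fin N)) 4)
    (h : ∀ f : PX K (Option (Fin N)) 4, Eij i 1 (x * f) = x * Eij i 1 f) (b : ℕ)
    (f : PX K (Option (Fin N)) 4) :
    (Eij (A := Option (Fin N)) (K := K) i 1)^[b] (x * f) = x * (Eij i 1)^[b] f := by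
  induction b with
  | zero => rfl
  | succ b ih => rw [Function.iterate_succ_apply', Function.iterate_succ_apply', ih, h]

theorem iter_InB {r : ℕ} (i : Fin 4)
    (h : ∀ f : PX K (Option (Fin N)) 4, InB (Fin N) 4 (N + 1) r f →
      InB (Fin N) 4 (N + 1) r (Eij i 1 f)) (b : ℕ)
    (f : PX K (Option (Fin N)) 4) (hf : InB (Fin N) 4 (N + 1) r f) :
    InB (Fin N) 4 (N + 1) r ((Eij (A := Option (Fin N)) (K := K) i 1)^[b] f) := by
  induction b with
  | zero => exact hf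
  | succ b ih =>
    rw [Function.iterate_succ_apply']
    exact h _ ih

end T3M

theorem T3M_thm (h1 : Stmt_Z1C) (h2 : Stmt_OPS) (h3 : Stmt_OPW) (h4 : Stmt_WB) : Stmt_T3M := by
  intro K _ _ N a b p hN hp
  obtain ⟨_, _, _, _, hz, _, _⟩ := h1 K N 4 0 1 (by decide)
  obtain ⟨_, hE, _, _, _⟩ := h2 K (Fin N) 4 (N + 1) (N + 1)
  obtain ⟨_, hM, _, _, _, _⟩ := h3 K (Fin N) 4 (N + 1) (N + 1)
  obtain ⟨_, _, _, _, _, _, _, _, _, hmul, hX, _, _⟩ :=
    h4 K (Option (Fin N)) (Option (Fin N)) 4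
  have hk : ∀ (i : Fin 4) (f : PX K (Option (Fin N)) 4),
      Eij i 1 (X (none, 0) * f) = X (none, 0) * Eij i 1 f := by
    intro i f
    rw [hmul, hX, if_neg (by decide), zero_mul, add_zero]
  have hEE : EE a b (X (none, 0) * z1 K N 4 0 1) = X (none, 0) * EE a b (z1 K N 4 0 1) := by
    rw [EE, EE, T3M.iter_mul 2 _ (hk 2), T3M.iter_mul 3 _ (hk 3)]
  have hB : InB (Fin N) 4 (N + 1) (N + 1) (X (none, 0) * EE a b (z1 K N 4 0 1)) := by
    rw [← hEE, EE]
    exact T3M.iter_InB 3 (hE 3 1) b _ (T3M.iter_InB 2 (hE 2 1) a _ hz)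
  have h5 := hM (N - 1) p _ hp hB
  have h6 : N + 1 + (N - 1) = 2 * N := by omega
  have h7 : (atp none (X 0) : PX K (Option (Fin N)) 4) = X (none, 0) := rename_X _ _
  rw [h6] at h5
  rw [map_mul, h7, mul_comm (X (none, 0)), mul_assoc]
  exact h5

end Pool.Agent.VSY
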