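import Pool.Agent.VSY.StmtsB

/-!
# T4M
-/

namespace Pool.Agent.VSY

open MvPolynomial

namespace T4M

section EE

variable {K : Type} [Field K] {A : Type} [Fintype A] [DecidableEq A]

/-- The commutator relations. -/
theorem comm (h3 : Stmt_WB) (i j k l : Fin 4) (f : PX K A 4) :
    Eij i j (Eij k l f) = Eij k l (Eij i j f) +
      (if j = k then Eij i l f else 0) - (if l = i then Eij k j f else 0) := by
  obtain ⟨-, -, -, -, -, -, -, -, -, -, -, h, -⟩ := h3 K A A 4
  exact h i j k l f

theorem wadd (h3 : Stmt_WB) {ν : Fin 4 → ℕ} {f g : PX K A 4} (hf : HasW ν f) (hg : HasW ν g) :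
    HasW ν (f + g) := by
  obtain ⟨h, -⟩ := h3 K A A 4
  exact h ν f g hf hg

theorem wsmul (h3 : Stmt_WB) {ν : Fin 4 → ℕ} {f : PX K A 4} (a : K) (hf : HasW ν f) :
    HasW ν (a • f) := by
  obtain ⟨-, h, -⟩ := h3 K A A 4
  exact h ν a f hf

theorem wmul (h3 : Stmt_WB) {ν μ : Fin 4 → ℕ} {f g : PX K A 4} (hf : HasW ν f)
    (hg : HasW μ g) : HasW (ν + μ) (f * g) := by
  obtain ⟨-, -, h, -⟩ := h3 K A A 4
  exact h ν μ f g hf hg

theorem weul (h3 : Stmt_WB) {ν : Fin 4 → ℕ} {f : PX K A 4} (i : Fin 4) (hf : HasW ν f) :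
    Eij i i f = (ν i : K) • f := by
  obtain ⟨-, -, -, -, h, -⟩ := h3 K A A 4
  exact h ν f i hf

theorem wE (h3 : Stmt_WB) {ν : Fin 4 → ℕ} (ν' : Fin 4 → ℕ) {f : PX K A 4} (i j : Fin 4)
    (hf : HasW ν f)
    (h : ∀ l, ν' l + (if l = j then 1 else 0) = ν l + (if l = i then 1 else 0)) :
    HasW ν' (Eij i j f) := by
  obtain ⟨-, -, -, -, -, h', -⟩ := h3 K A A 4
  exact h' ν ν' f i j hf h

theorem wE0 (h3 : Stmt_WB) {ν : Fin 4 → ℕ} {f : PX K A 4} (i j : Fin 4)
    (hf : HasW ν f) (h : ν j = 0) : Eij i j f = 0 := by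
  obtain ⟨-, -, -, -, -, -, h', -⟩ := h3 K A A 4
  exact h' ν f i j hf h

theorem leib (h3 : Stmt_WB) (i j : Fin 4) (f g : PX K A 4) :
    Eij i j (f * g) = f * Eij i j g + Eij i j f * g := by
  obtain ⟨-, -, -, -, -, -, -, -, -, h, -⟩ := h3 K A A 4
  exact h i j f g

theorem EE31 (a b : ℕ) (f : PX K A 4) : Eij 3 1 (EE a b f) = EE a (b + 1) f := by
  rw [EE, EE, Function.iterate_succ_apply']

theorem EE21 (h3 : Stmt_WB) (a b : ℕ) (f : PX K A 4) : Eij 2 1 (EE a b f) = EE (a + 1) b f := by
  induction b with
  | zero =>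
    rw [EE, EE, Function.iterate_zero_apply, Function.iterate_zero_apply,
      Function.iterate_succ_apply']
  | succ b ih =>
    rw [← EE31, ← EE31, comm h3, ih]
    simp

theorem EE00 (f : PX K A 4) : EE 0 0 f = f := rfl

variable {p q : ℕ} {z : PX K A 4}

/-- The weight of `EE a b z`. -/
def wt (p q a b : ℕ) : Fin 4 → ℕ := ![p, q - (a + b), a, b]

theorem wt0 (hz : HasW (Pi.single 0 p + Pi.single 1 q) z) : HasW (wt p q 0 0) z := by
  have : (Pi.single 0 p + Pi.single 1 q : Fin 4 → ℕ) = wt p q 0 0 := by
    funext i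
    fin_cases i <;> simp [wt]
  rwa [this] at hz

theorem wEE (h3 : Stmt_WB) (hz : HasW (Pi.single 0 p + Pi.single 1 q) z) (a b : ℕ)
    (h : a + b ≤ q) : HasW (wt p q a b) (EE a b z) := by
  induction a with
  | zero =>
    induction b with
    | zero => exact wt0 hz
    | succ b ih =>
      rw [← EE31]
      refine wE h3 _ 3 1 (ih (by omega)) fun l => ?_
      fin_cases l <;> simp [wt] <;> omega
  | succ a ih =>
    rw [← EE21 h3]
    refine wE h3 _ 2 1 (ih (by omega)) fun l => ?_
    fin_cases l <;> simp [wt] <;> omega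

theorem H11 (h3 : Stmt_WB) (hz : HasW (Pi.single 0 p + Pi.single 1 q) z) (a b : ℕ) :
    Eij 1 1 (EE a b z) = ((q : K) - a - b) • EE a b z := by
  induction a with
  | zero =>
    induction b with
    | zero =>
      rw [EE00, weul h3 1 hz]
      simp
    | succ b ih =>
      rw [← EE31, comm h3, ih]
      simp only [map_smul]
      simp only [Fin.isValue, Fin.reduceEq, if_false, if_true, add_zero]
      rw [EE31, sub_eq_add_neg, ← neg_one_smul K (EE 0 (b + 1) z), ← add_smul]
      congr 1
      push_cast
      ring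
  | succ a ih =>
    rw [← EE21 h3, comm h3, ih]
    simp only [map_smul]
    simp only [Fin.isValue, Fin.reduceEq, if_false, if_true, add_zero]
    rw [EE21 h3, sub_eq_add_neg, ← neg_one_smul K (EE (a + 1) b z), ← add_smul]
    congr 1
    push_cast
    ring

theorem H22 (h3 : Stmt_WB) (hz : HasW (Pi.single 0 p + Pi.single 1 q) z) (a b : ℕ) :
    Eij 2 2 (EE a b z) = (a : K) • EE a b z := by
  induction a with
  | zero =>
    induction b with
    | zero =>
      rw [EE00, weul h3 2 hz]
      simp
    | succ b ih =>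
      rw [← EE31, comm h3, ih]
      simp
  | succ a ih =>
    rw [← EE21 h3, comm h3, ih]
    simp [add_smul]

theorem H33 (h3 : Stmt_WB) (hz : HasW (Pi.single 0 p + Pi.single 1 q) z) (a b : ℕ) :
    Eij 3 3 (EE a b z) = (b : K) • EE a b z := by
  induction b with
  | zero =>
    induction a with
    | zero =>
      rw [EE00, weul h3 3 hz]
      simp
    | succ b ih =>
      rw [← EE21 h3, comm h3, ih]
      simp
  | succ b ih =>
    rw [← EE31, comm h3, ih]
    simp [add_smul]

theorem G32 (h3 : Stmt_WB) (hz : HasW (Pi.single 0 p + Pi.single 1 q) z) (a b : ℕ) :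
    Eij 3 2 (EE a b z) = (a : K) • EE (a - 1) (b + 1) z := by
  induction a with
  | zero =>
    induction b with
    | zero =>
      rw [EE00, wE0 h3 3 2 hz (by simp)]
      simp
    | succ b ih =>
      rw [← EE31, comm h3, ih]
      simp
  | succ a ih =>
    rw [← EE21 h3, comm h3, ih]
    cases a with
    | zero => simp [EE31]
    | succ a => simp [EE31, EE21 h3, add_smul]

theorem G23 (h3 : Stmt_WB) (hz : HasW (Pi.single 0 p + Pi.single 1 q) z) (a b : ℕ) :
    Eij 2 3 (EE a b z) = (b : K) • EE (a + 1) (b - 1) z := by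
  induction b with
  | zero =>
    induction a with
    | zero =>
      rw [EE00, wE0 h3 2 3 hz (by simp)]
      simp
    | succ b ih =>
      rw [← EE21 h3, comm h3, ih]
      simp
  | succ b ih =>
    rw [← EE31, comm h3, ih]
    cases b with
    | zero => simp [EE21 h3]
    | succ b => simp [EE31, EE21 h3, add_smul]

theorem F12 (h3 : Stmt_WB) (hz : HasW (Pi.single 0 p + Pi.single 1 q) z) (a b : ℕ) :
    Eij 1 2 (EE a b z) = ((a : K) * ((q : K) - a - b + 1)) • EE (a - 1) b z := by
  induction a with
  | zero =>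
    induction b with
    | zero =>
      rw [EE00, wE0 h3 1 2 hz (by simp)]
      simp
    | succ b ih =>
      rw [← EE31, comm h3, ih]
      simp [G32 h3 hz]
  | succ a ih =>
    rw [← EE21 h3, comm h3, ih]
    simp only [Fin.isValue, if_true, H11 h3 hz, H22 h3 hz,
      add_tsub_cancel_right]
    cases a with
    | zero =>
      simp only [Nat.cast_zero, zero_mul, zero_smul, map_zero, zero_add, sub_zero]
      congr 1
      push_cast
      ring
    | succ a =>
      rw [map_smul, EE21 h3]
      simp only [add_tsub_cancel_right]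
      rw [← add_smul, ← sub_smul]
      congr 1
      push_cast
      ring

theorem F13 (h3 : Stmt_WB) (hz : HasW (Pi.single 0 p + Pi.single 1 q) z) (a b : ℕ) :
    Eij 1 3 (EE a b z) = ((b : K) * ((q : K) - a - b + 1)) • EE a (b - 1) z := by
  induction b with
  | zero =>
    induction a with
    | zero =>
      rw [EE00, wE0 h3 1 3 hz (by simp)]
      simp
    | succ b ih =>
      rw [← EE21 h3, comm h3, ih]
      simp [G23 h3 hz]
  | succ b ih =>
    rw [← EE31, comm h3, ih]
    simp only [Fin.isValue, if_true, H11 h3 hz, H33 h3 hz,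
      add_tsub_cancel_right]
    cases b with
    | zero =>
      simp
    | succ b =>
      rw [map_smul, EE31]
      simp only [add_tsub_cancel_right]
      rw [← add_smul, ← sub_smul]
      congr 1
      push_cast
      ring

end EE

section main

variable {K : Type} [Field K]

theorem atp_X1 (N : ℕ) : (atp none (X 1 ^ N) : PX K (Option (Fin N)) 4) = X (none, 1) ^ N := by
  rw [map_pow, atp, rename_X]

theorem wX (N : ℕ) : HasW (Pi.single 1 N) (X (none, 1) ^ N : PX K (Option (Fin N)) 4) := by
  classical
  intro m hm j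
  rw [X_pow_eq_monomial] at hm
  have := support_monomial_subset hm
  rw [Finset.mem_singleton] at this
  subst this
  have : ∀ x : Option (Fin N), (Finsupp.single ((none : Option (Fin N)), (1 : Fin 4)) N) (x, j) =
      if none = x then (if 1 = j then N else 0) else 0 := by
    intro x
    rw [Finsupp.single_apply]
    by_cases h1 : none = x
    · by_cases h2 : 1 = j
      · simp [h1, h2]
      · simp [h2]
    · simp [h1]
  simp only [this]
  rw [Finset.sum_ite_eq]
  simp [Pi.single_apply, eq_comm]

variable (K) in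
/-- The element `y(a, b)`. -/
noncomputable def yy (N a b : ℕ) : PX K (Option (Fin N)) 4 :=
  X (none, 1) ^ N * EE a b (z1 K N 4 0 1) - rho K N (a + b) 0 • EE a b (tau K N 4 0 1)

theorem cN_pos {N : ℕ} (h : 1 ≤ N) : eN N < cN N := by
  unfold cN
  omega

theorem rho_succ [CharZero K] {N j : ℕ} (h : 1 ≤ N) (hj : j + 1 ≤ eN N) :
    rho K N (j + 1) 0 * ((cN N : K) - j) = rho K N j 0 * ((eN N : K) - j) := by
  have hc := cN_pos h
  have h1 : ((cN N - j : ℕ) : K) ≠ 0 := by
    rw [Nat.cast_ne_zero]
    omega
  have h2 : (((cN N).descFactorial j : ℕ) : K) ≠ 0 := by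
    rw [Nat.cast_ne_zero, Ne, Nat.descFactorial_eq_zero_iff_lt]
    omega
  have h3 : ((cN N - j : ℕ) : K) = (cN N : K) - j := by
    rw [Nat.cast_sub (by omega)]
  have h4 : ((eN N - j : ℕ) : K) = (eN N : K) - j := by
    rw [Nat.cast_sub (by omega)]
  rw [rho, rho, add_zero, add_zero, Nat.descFactorial_succ, Nat.descFactorial_succ, Nat.cast_mul,
    Nat.cast_mul, ← h3, ← h4]
  field_simp

end main

end T4M

open T4M in
/-- T4M -/
theorem T4M_thm (h1 : Stmt_HWL) (h2 : Stmt_TMX) (h3 : Stmt_WB) (h4 : Stmt_Z1C) (h5 : Stmt_OPS)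
    (h6 : Stmt_OPW) : Stmt_T4M := by
  intro K _ _ N a b hN hab
  obtain ⟨hz1, hz2, hw1, hw2, -⟩ := h4 K N 4 0 1 (by decide)
  have hZ1 : ∀ a b, InZ (Fin N) 4 (N + 1) N (EE a b (z1 K N 4 0 1)) := by
    intro a b
    have hE := (h5 K (Fin N) 4 (N + 1) N).1
    induction b with
    | zero =>
      induction a with
      | zero => exact hz1
      | succ a ih =>
        rw [← EE21 h3]
        exact hE _ _ _ ih
    | succ b ih =>
      rw [← EE31]
      exact hE _ _ _ ih
  have hZ2 : ∀ a b, InZ (Fin N) 4 (N + 1) (2 * N) (EE a b (tau K N 4 0 1)) := by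
    intro a b
    have hE := (h5 K (Fin N) 4 (N + 1) (2 * N)).1
    induction b with
    | zero =>
      induction a with
      | zero => exact hz2
      | succ a ih =>
        rw [← EE21 h3]
        exact hE _ _ _ ih
    | succ b ih =>
      rw [← EE31]
      exact hE _ _ _ ih
  have hY : ∀ a b, InZ (Fin N) 4 (N + 1) (2 * N) (yy K N a b) := by
    intro a b
    rw [yy, sub_eq_add_neg, ← neg_smul]
    refine InZ.add ?_ ((hZ2 a b).smul _)
    have h := (h6 K (Fin N) 4 (N + 1) N).2.2.1 N (X 1 ^ N) _ (by
      have := (isHomogeneous_X K (1 : Fin 4)).pow N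
      rwa [one_mul] at this) (hZ1 a b)
    rwa [atp_X1, ← two_mul] at h
  have hW : ∀ a b, a + b ≤ eN N → HasW (wt (cN N) (cN N) a b) (yy K N a b) := by
    intro a b h
    rw [yy, sub_eq_add_neg, ← neg_smul]
    refine wadd h3 ?_ (wsmul h3 _ (wEE h3 hw2 a b (h.trans (cN_pos hN).le)))
    have := wmul h3 (wX N) (wEE h3 hw1 a b h)
    have e : Pi.single 1 N + wt (cN N) (eN N) a b = wt (cN N) (cN N) a b := by
      funext i
      fin_cases i <;> simp [wt]
      have : cN N = eN N + N := rfl
      omega
    rwa [e] at this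
  have hX : ∀ i j : Fin 4, j ≠ 1 → ∀ f : PX K (Option (Fin N)) 4,
      Eij i j (X (none, 1) ^ N * f) = X (none, 1) ^ N * Eij i j f := by
    intro i j hj f
    rw [leib h3, wE0 h3 i j (wX N) (by simp [hj]), zero_mul, add_zero]
  -- the action of the raising operators
  have hrho : ∀ a b, a + b + 1 ≤ eN N →
      rho K N (a + b + 1) 0 * ((cN N : K) - a - b) = rho K N (a + b) 0 * ((eN N : K) - a - b) := by
    intro a b h
    have := rho_succ (K := K) hN h
    push_cast at this
    rw [sub_sub, sub_sub]
    exact this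
  have y12 : ∀ a b, a + 1 + b ≤ eN N →
      Eij 1 2 (yy K N (a + 1) b) = ((a + 1 : K) * ((eN N : K) - a - b)) • yy K N a b := by
    intro a b h
    have hr := hrho a b (by omega)
    have e : a + 1 + b = a + b + 1 := by ring
    rw [yy, map_sub, map_smul, hX 1 2 (by decide), F12 h3 hw1, F12 h3 hw2, yy, smul_sub,
      smul_smul, smul_smul, mul_smul_comm, add_tsub_cancel_right, e]
    push_cast
    have e1 : (eN N : K) - (a + 1) - b + 1 = (eN N : K) - a - b := by ring
    have e2 : (cN N : K) - (a + 1) - b + 1 = (cN N : K) - a - b := by ring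
    rw [e1, e2]
    congr 2
    linear_combination ((a : K) + 1) * hr
  have y12' : ∀ b, Eij 1 2 (yy K N 0 b) = 0 := by
    intro b
    rw [yy, map_sub, map_smul, hX 1 2 (by decide), F12 h3 hw1, F12 h3 hw2]
    simp
  have y13 : ∀ a b, a + (b + 1) ≤ eN N →
      Eij 1 3 (yy K N a (b + 1)) = ((b + 1 : K) * ((eN N : K) - a - b)) • yy K N a b := by
    intro a b h
    have hr := hrho a b (by omega)
    have e : a + (b + 1) = a + b + 1 := by ring
    rw [yy, map_sub, map_smul, hX 1 3 (by decide), F13 h3 hw1, F13 h3 hw2, yy, smul_sub,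
      smul_smul, smul_smul, mul_smul_comm, add_tsub_cancel_right, e]
    push_cast
    have e1 : (eN N : K) - a - (b + 1) + 1 = (eN N : K) - a - b := by ring
    have e2 : (cN N : K) - a - (b + 1) + 1 = (cN N : K) - a - b := by ring
    rw [e1, e2]
    congr 2
    linear_combination ((b : K) + 1) * hr
  have y13' : ∀ a, Eij 1 3 (yy K N a 0) = 0 := by
    intro b
    rw [yy, map_sub, map_smul, hX 1 3 (by decide), F13 h3 hw1, F13 h3 hw2]
    simp
  have y23 : ∀ a b, Eij 2 3 (yy K N a (b + 1)) = (b + 1 : K) • yy K N (a + 1) b := by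
    intro a b
    have e : a + (b + 1) = a + 1 + b := by ring
    rw [yy, map_sub, map_smul, hX 2 3 (by decide), G23 h3 hw1, G23 h3 hw2, yy, smul_sub,
      smul_smul, smul_smul, mul_smul_comm, add_tsub_cancel_right, e]
    push_cast
    congr 2
    ring
  have y23' : ∀ a, Eij 2 3 (yy K N a 0) = 0 := by
    intro b
    rw [yy, map_sub, map_smul, hX 2 3 (by decide), G23 h3 hw1, G23 h3 hw2]
    simp
  have y0 : ∀ (j : Fin 4) (a b : ℕ), a + b ≤ eN N → j ≠ 0 →
      InB (Fin N) 4 (N + 1) (2 * N) (Eij 0 j (yy K N a b)) := by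
    intro j a b h hj
    have hw := hW a b h
    by_cases h0 : wt (cN N) (cN N) a b j = 0
    · rw [wE0 h3 0 j hw h0]
      exact InB.zero
    · have hw' : HasW (Function.update (Function.update (wt (cN N) (cN N) a b) 0 (cN N + 1)) j
          (wt (cN N) (cN N) a b j - 1)) (Eij 0 j (yy K N a b)) := by
        refine wE h3 _ 0 j hw fun l => ?_
        by_cases hl : l = j
        · subst hl
          simp [hj]
          omega
        · by_cases hl0 : l = 0
          · subst hl0
            rw [Function.update_of_ne hl, Function.update_self]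
            simp [hl, wt]
          · rw [Function.update_of_ne hl, Function.update_of_ne hl0]
            simp [hl, hl0]
      refine h2 K N 2 hN _ _ ((h5 K (Fin N) 4 (N + 1) (2 * N)).1 0 j _ (hY a b)) hw' ?_
      rw [Function.update_of_ne (Ne.symm hj), Function.update_self]
      omega
  have key : ∀ j, ∀ b a, a + b = j → j ≤ eN N →
      InB (Fin N) 4 (N + 1) (2 * N) (yy K N a b) := by
    intro j
    induction j with
    | zero =>
      intro b a hab _
      have ha : a = 0 := by omega
      have hb : b = 0 := by omega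
      subst ha
      subst hb
      have : yy K N 0 0 = 0 := by
        rw [yy, EE00, EE00, tau, rho]
        simp
      rw [this]
      exact InB.zero
    | succ j ihj =>
      intro b
      induction b with
      | zero =>
        intro a hab hj
        have ha : a = j + 1 := by omega
        subst ha
        refine h1 K N 4 hN _ _ (hY _ _) (hW _ _ hj) ⟨2, by decide, by simp [wt]⟩ ?_
        intro i k hik
        by_cases hi : i = 0
        · subst hi
          exact y0 k _ _ hj (ne_of_gt hik)
        · have hcase : (i = 1 ∧ k = 2) ∨ (i = 1 ∧ k = 3) ∨ (i = 2 ∧ k = 3) := by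
            revert i k
            decide
          rcases hcase with ⟨rfl, rfl⟩ | ⟨rfl, rfl⟩ | ⟨rfl, rfl⟩
          · rw [y12 j 0 hj]
            exact (ihj 0 j (by omega) (by omega)).smul _
          · rw [y13']
            exact InB.zero
          · rw [y23']
            exact InB.zero
      | succ b ihb =>
        intro a hab hj
        have hab' : a + (b + 1) ≤ eN N := by omega
        refine h1 K N 4 hN _ _ (hY _ _) (hW _ _ hab') ⟨3, by decide, by simp [wt]⟩ ?_
        intro i k hik
        by_cases hi : i = 0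
        · subst hi
          exact y0 k _ _ hab' (ne_of_gt hik)
        · have hcase : (i = 1 ∧ k = 2) ∨ (i = 1 ∧ k = 3) ∨ (i = 2 ∧ k = 3) := by
            revert i k
            decide
          rcases hcase with ⟨rfl, rfl⟩ | ⟨rfl, rfl⟩ | ⟨rfl, rfl⟩
          · cases a with
            | zero =>
              rw [y12']
              exact InB.zero
            | succ a =>
              rw [y12 a (b + 1) hab']
              exact (ihj (b + 1) a (by omega) (by omega)).smul _
          · rw [y13 a b hab']
            exact (ihj b a (by omega) (by omega)).smul _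
          · rw [y23]
            exact (ihb (a + 1) (by omega) hj).smul _
  exact key (a + b) b a rfl hab

end Pool.Agent.VSY
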