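import Pool.Agent.VSY.StmtsB

/-!
# Veronese syzygies: the module T5M
-/

namespace Pool.Agent.VSY

open MvPolynomial

namespace T5M

variable {K : Type} [Field K]

theorem eN_ge {N : ℕ} (hN : 3 ≤ N) : 2 * N ≤ eN N := by
  unfold eN
  rw [Nat.le_div_iff_mul_le (by norm_num)]
  nlinarith

theorem InB.sub' {U : Type} [Fintype U] [DecidableEq U] {v d r : ℕ} {f g : PX K (Option U) v}
    (hf : InB U v d r f) (hg : InB U v d r g) : InB U v d r (f - g) := by
  have := hf.add (hg.smul (-1))
  rwa [neg_one_smul, ← sub_eq_add_neg] at this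

theorem rho_step [CharZero K] {N j k : ℕ} (hk : k < N) (hj : j + (k + 1) ≤ 2 * N)
    (hN : 3 ≤ N) :
    rho K N j k - rho K N (j + 1) k = ((N - k : ℕ) : K) * rho K N j (k + 1) := by
  have he := eN_ge hN
  have hc : cN N = eN N + N := rfl
  have h1 : ((cN N).descFactorial (j + k) : K) ≠ 0 := by
    rw [Nat.cast_ne_zero]
    exact (Nat.descFactorial_eq_zero_iff_lt.not).2 (by omega)
  have h2 : ((cN N - (j + k) : ℕ) : K) ≠ 0 := by
    rw [Nat.cast_ne_zero]
    omega
  unfold rho
  have e1 : j + 1 + k = (j + k) + 1 := by ring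
  have e2 : j + (k + 1) = (j + k) + 1 := by ring
  rw [e1, e2, Nat.descFactorial_succ, Nat.descFactorial_succ]
  have h3 : ((cN N - (j + k) : ℕ) : K) = ((eN N - j : ℕ) : K) + ((N - k : ℕ) : K) := by
    rw [← Nat.cast_add]
    congr 1
    omega
  push_cast
  rw [h3] at h2 ⊢
  field_simp
  ring

theorem EE_succ_right (a b : ℕ) {A : Type} [Fintype A] (f : PX K A 4) :
    Eij (3 : Fin 4) 1 (EE a b f) = EE a (b + 1) f := by
  unfold EE
  rw [Function.iterate_succ_apply']

theorem EE_succ_left (h2 : Stmt_WB) (a b : ℕ) {A : Type} [Fintype A] [DecidableEq A]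
    (f : PX K A 4) : Eij (2 : Fin 4) 1 (EE a b f) = EE (a + 1) b f := by
  have hcomm : ∀ g : PX K A 4, Eij (2 : Fin 4) 1 (Eij (3 : Fin 4) 1 g) =
      Eij (3 : Fin 4) 1 (Eij (2 : Fin 4) 1 g) := by
    intro g
    obtain ⟨-, -, -, -, -, -, -, -, -, -, -, h, -⟩ := h2 K A A 4
    rw [h 2 1 3 1 g]
    simp
  unfold EE
  rw [Function.iterate_succ_apply']
  induction b with
  | zero => rfl
  | succ b ih =>
    rw [Function.iterate_succ_apply', Function.iterate_succ_apply', hcomm, ih]

/-- The form `x_1^n x_2^i x_3^l`. -/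
noncomputable def mo (K : Type) [Field K] (n i l : ℕ) : MvPolynomial (Fin 4) K :=
  X 1 ^ n * X 2 ^ i * X 3 ^ l

theorem E1_mo2 (n i l : ℕ) : E1 2 1 (mo K n i l) = (n : K) • mo K (n - 1) (i + 1) l := by
  unfold E1 mo
  have h21 : (2 : Fin 4) ≠ 1 := by decide
  have h31 : (3 : Fin 4) ≠ 1 := by decide
  simp only [Derivation.leibniz, Derivation.leibniz_pow, pderiv_X_self, pderiv_X_of_ne h21,
    pderiv_X_of_ne h31, smul_zero, smul_eq_mul, mul_zero, zero_add, mul_one, add_zero,
    nsmul_eq_mul, MvPolynomial.smul_eq_C_mul, map_natCast]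
  ring

theorem E1_mo3 (n i l : ℕ) : E1 3 1 (mo K n i l) = (n : K) • mo K (n - 1) i (l + 1) := by
  unfold E1 mo
  have h21 : (2 : Fin 4) ≠ 1 := by decide
  have h31 : (3 : Fin 4) ≠ 1 := by decide
  simp only [Derivation.leibniz, Derivation.leibniz_pow, pderiv_X_self, pderiv_X_of_ne h21,
    pderiv_X_of_ne h31, smul_zero, smul_eq_mul, mul_zero, zero_add, mul_one, add_zero,
    nsmul_eq_mul, MvPolynomial.smul_eq_C_mul, map_natCast]
  ring

end T5M

open T5M in
theorem T5M_thm (h1 : Stmt_T4M) (h2 : Stmt_WB) (h3 : Stmt_OPS) : Stmt_T5M := by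
  intro K _ _ N i l a b hN
  have he := eN_ge hN
  obtain ⟨-, -, -, -, -, -, -, -, -, hmul, -, -, hatp⟩ :=
    h2 K (Option (Fin N)) (Option (Fin N)) 4
  obtain ⟨-, hst, -⟩ := h3 K (Fin N) 4 (N + 1) (2 * N)
  set z : PX K (Option (Fin N)) 4 := z1 K N 4 0 1 with hz
  set τ : PX K (Option (Fin N)) 4 := tau K N 4 0 1 with hτ
  have key : ∀ k : ℕ, ∀ i l a b : ℕ, i + l = k → k ≤ N → a + b + k ≤ 2 * N →
      InB (Fin N) 4 (N + 1) (2 * N)
        (atp none (mo K (N - k) i l) * EE a b z - rho K N (a + b) k • EE (a + i) (b + l) τ) := by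
    intro k
    induction k with
    | zero =>
      intro i l a b hil _ hab
      obtain ⟨rfl, rfl⟩ : i = 0 ∧ l = 0 := by omega
      have := h1 K N a b (by omega) (by omega)
      simpa [mo, atp] using this
    | succ k ih =>
      intro i l a b hil hkN hab
      have hne : ((N - k : ℕ) : K) ≠ 0 := by
        rw [Nat.cast_ne_zero]
        omega
      have hr := rho_step (K := K) (N := N) (j := a + b) (k := k) (by omega) (by omega) hN
      have hNk : N - k - 1 = N - (k + 1) := by omega
      rcases Nat.eq_zero_or_pos i with hi | hi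
      · obtain ⟨l', rfl⟩ : ∃ l', l = l' + 1 := ⟨l - 1, by omega⟩
        have e1 := hst 3 1 _ (ih i l' a b (by omega) (by omega) (by omega))
        have e2 := ih i l' a (b + 1) (by omega) (by omega) (by omega)
        rw [map_sub, hmul, map_smul, hatp, E1_mo3, EE_succ_right, EE_succ_right, map_smul] at e1
        have e3 := (InB.sub' e1 e2).smul (((N - k : ℕ) : K)⁻¹)
        have e4 : ((N - k : ℕ) : K)⁻¹ •
            (atp none (mo K (N - k) i l') * EE a (b + 1) z +
              ((N - k : ℕ) : K) • atp none (mo K (N - k - 1) i (l' + 1)) * EE a b z -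
              rho K N (a + b) k • EE (a + i) (b + l' + 1) τ -
            (atp none (mo K (N - k) i l') * EE a (b + 1) z -
              rho K N (a + (b + 1)) k • EE (a + i) (b + 1 + l') τ)) =
            atp none (mo K (N - (k + 1)) i (l' + 1)) * EE a b z -
              rho K N (a + b) (k + 1) • EE (a + i) (b + (l' + 1)) τ := by
          have f1 : b + l' + 1 = b + (l' + 1) := by ring
          have f2 : b + 1 + l' = b + (l' + 1) := by ring
          have f3 : a + (b + 1) = a + b + 1 := by ring
          rw [f1, f2, f3, hNk]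
          have f4 : rho K N (a + b) (k + 1) =
              ((N - k : ℕ) : K)⁻¹ * (rho K N (a + b) k - rho K N (a + b + 1) k) := by
            rw [hr, ← mul_assoc, inv_mul_cancel₀ hne, one_mul]
          rw [f4, mul_smul, sub_smul, smul_mul_assoc]
          rw [show ∀ p q x y : PX K (Option (Fin N)) 4,
            p + ((N - k : ℕ) : K) • q - x - (p - y) = ((N - k : ℕ) : K) • q - (x - y) from
            fun p q x y => by ring, smul_sub, smul_smul, inv_mul_cancel₀ hne, one_smul]
        rw [e4] at e3
        exact e3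
      · obtain ⟨i', rfl⟩ : ∃ i', i = i' + 1 := ⟨i - 1, by omega⟩
        have e1 := hst 2 1 _ (ih i' l a b (by omega) (by omega) (by omega))
        have e2 := ih i' l (a + 1) b (by omega) (by omega) (by omega)
        rw [map_sub, hmul, map_smul, hatp, E1_mo2, EE_succ_left h2, EE_succ_left h2,
          map_smul] at e1
        have e3 := (InB.sub' e1 e2).smul (((N - k : ℕ) : K)⁻¹)
        have e4 : ((N - k : ℕ) : K)⁻¹ •
            (atp none (mo K (N - k) i' l) * EE (a + 1) b z +
              ((N - k : ℕ) : K) • atp none (mo K (N - k - 1) (i' + 1) l) * EE a b z -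
              rho K N (a + b) k • EE (a + i' + 1) (b + l) τ -
            (atp none (mo K (N - k) i' l) * EE (a + 1) b z -
              rho K N (a + 1 + b) k • EE (a + 1 + i') (b + l) τ)) =
            atp none (mo K (N - (k + 1)) (i' + 1) l) * EE a b z -
              rho K N (a + b) (k + 1) • EE (a + (i' + 1)) (b + l) τ := by
          have f1 : a + i' + 1 = a + (i' + 1) := by ring
          have f2 : a + 1 + i' = a + (i' + 1) := by ring
          have f3 : a + 1 + b = a + b + 1 := by ring
          rw [f1, f2, f3, hNk]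
          have f4 : rho K N (a + b) (k + 1) =
              ((N - k : ℕ) : K)⁻¹ * (rho K N (a + b) k - rho K N (a + b + 1) k) := by
            rw [hr, ← mul_assoc, inv_mul_cancel₀ hne, one_mul]
          rw [f4, mul_smul, sub_smul, smul_mul_assoc]
          rw [show ∀ p q x y : PX K (Option (Fin N)) 4,
            p + ((N - k : ℕ) : K) • q - x - (p - y) = ((N - k : ℕ) : K) • q - (x - y) from
            fun p q x y => by ring, smul_sub, smul_smul, inv_mul_cancel₀ hne, one_smul]
        rw [e4] at e3
        exact e3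
  intro hil hab
  exact key (i + l) i l a b rfl hil hab

end Pool.Agent.VSY
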