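import Pool.Agent.VSY.Stmts

/-!
# Theorem G
-/

namespace Pool.Agent.VSY

open MvPolynomial

namespace TG

variable {K : Type} [Field K]

theorem gp_all (h1 : Stmt_CRA) (h2 : Stmt_GI) [CharZero K] (v d s : ℕ) (hs : s < d) :
    ∀ i, i ≤ v + 1 → ∀ P, (s + v).choose v + i ≤ P → GP K (v + 1) d s P i := by
  intro i
  induction i with
  | zero =>
    intro _ P hP
    exact h1 K v d s P (by omega)
  | succ i ih =>
    intro hi P hP
    obtain ⟨P', rfl⟩ : ∃ P', P = P' + 1 := ⟨P - 1, by omega⟩
    exact h2 K (v + 1) d s P' i hs (by omega) (ih (by omega) P' (by omega))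
      (ih (by omega) (P' + 1) (by omega))

theorem qp_zero (h3 : Stmt_QI) [CharZero K] (v d p r : ℕ) (h : QP K v d p r v) :
    ∀ j, j ≤ v → QP K v d p r (v - j) := by
  intro j
  induction j with
  | zero => intro _; exact h
  | succ j ih =>
    intro hj
    refine h3 K v d p r (v - (j + 1)) (by omega) ?_
    have := ih (by omega)
    rwa [show v - (j + 1) + 1 = v - j by omega]

theorem van_of_qp {v d p r : ℕ} (h : QP K v d p r 0) : Van K v d p r := by
  intro U _ _ hU f hf
  obtain ⟨g, hg, hI⟩ := h U hU f hf.1 (fun u => by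
    rw [hf.2 u]
    intro m hm
    simp at hm)
  refine ⟨g, hg, ?_⟩
  have h0 : f - ren Option.join g = 0 := by
    rw [← support_eq_empty]
    rw [Finset.eq_empty_iff_forall_notMem]
    intro m hm
    obtain ⟨l, hl, -⟩ := hI m hm
    omega
  exact (sub_eq_zero.1 h0).symm

theorem exists_ge {v d r : ℕ} (h : (v + 1) * (d - 1) < r) (a : Fin (v + 1) → ℕ)
    (ha : ∑ j, a j = r) : ∃ l : Fin (v + 1), d ≤ a l := by
  by_contra hcon
  push Not at hcon
  have h1 : ∑ j, a j ≤ ∑ _j : Fin (v + 1), (d - 1) :=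
    Finset.sum_le_sum fun j _ => by have := hcon j; omega
  rw [Finset.sum_const, Finset.card_univ, Fintype.card_fin, smul_eq_mul, ha] at h1
  omega

end TG

open TG in
theorem TG_thm (h1 : Stmt_CRA) (h2 : Stmt_GI) (h3 : Stmt_QI) (h4 : Stmt_DUAL) : Stmt_TG := by
  intro K _ _ v d p r hd hr hcase
  have key : QP K (v + 1) d p r (v + 1) := by
    rcases hcase with hlt | ⟨s, hs, hp⟩
    · intro U _ _ _ f hf _
      refine ⟨0, InC.zero, ?_⟩
      rw [map_zero, sub_zero]
      intro m hm
      have h5 := (hf.deg m hm).2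
      rw [add_zero] at h5
      obtain ⟨l, hl⟩ := exists_ge hlt _ h5
      exact ⟨l, l.2, hl⟩
    · have hsd : s < d := by omega
      refine h4 K v d p r s ((d + v).choose v - p) hd hs hsd (by omega) ?_
      exact gp_all h1 h2 v d s hsd (v + 1) le_rfl _ (by omega)
  have h0 := qp_zero h3 (v + 1) d p r key (v + 1) le_rfl
  rw [Nat.sub_self] at h0
  exact van_of_qp h0

end Pool.Agent.VSY
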