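import Pool.Agent.VSY.StmtsB

/-!
# Veronese syzygies, module TGEN: the cycles are generated by `τ` modulo boundaries
-/

namespace Pool.Agent.VSY

open MvPolynomial

namespace TGEN

variable {K : Type} [Field K]

theorem up_X {A : Type} {v m : ℕ} (h : v ≤ m) (x : A) (j : Fin v) :
    up h (X (x, j) : PX K A v) = X (x, Fin.castLE h j) := by
  rw [up, rename_X]
  rfl

theorem up_inj {A : Type} {v m : ℕ} (h : v ≤ m) :
    Function.Injective (Prod.map id (Fin.castLE h) : A × Fin v → A × Fin m) :=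
  Function.Injective.prodMap Function.injective_id (Fin.castLE_injective h)

theorem pderiv_up {A : Type} {v m : ℕ} (h : v ≤ m) (x : A) (j : Fin v) (f : PX K A v) :
    pderiv (x, Fin.castLE h j) (up h f) = up h (pderiv (x, j) f) :=
  pderiv_rename (up_inj h) (x, j) f

theorem up_Eij {A : Type} [Fintype A] {v m : ℕ} (h : v ≤ m) (i j : Fin v) (f : PX K A v) :
    up h (Eij i j f) = Eij (Fin.castLE h i) (Fin.castLE h j) (up h f) := by
  simp only [Eij, LinearMap.sum_apply, LinearMap.comp_apply, LinearMap.mulLeft_apply, map_sum]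
  refine Finset.sum_congr rfl fun x _ => ?_
  change up h (X (x, i) * pderiv (x, j) f) =
    X (x, Fin.castLE h i) * pderiv (x, Fin.castLE h j) (up h f)
  rw [map_mul, up_X, pderiv_up]

/-- The total degree of a monomial of a chain. -/
theorem deg_bound {N v : ℕ} {f : PX K (Option (Fin N)) v}
    (hf : InZ (Fin N) v (N + 1) (2 * N) f) : ∀ m ∈ f.support,
      ∑ x, m x ≤ 2 * N + N * (N + 1) := by
  intro m hm
  obtain ⟨h1, h2⟩ := hf.1.deg m hm
  rw [Fintype.sum_prod_type, Fintype.sum_option]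
  simp only [h1, Finset.sum_const, Finset.card_univ, Fintype.card_fin, smul_eq_mul]
  omega

/-- The Capelli element is a boundary. -/
theorem cap_mem (h3 : Stmt_OPS) (h5 : Stmt_PAR) (h6 : Stmt_EX) (h7 : Stmt_LOW) [CharZero K]
    {N v : ℕ} (L : List (Fin v)) (hL : 3 ≤ L.length) {f : PX K (Option (Fin N)) v}
    (hf : InZ (Fin N) v (N + 1) (2 * N) f) :
    InB (Fin N) v (N + 1) (2 * N) (capL L (yL L f)) := by
  obtain ⟨-, -, o3, o4, -⟩ := h3 K (Fin N) v (N + 1) (2 * N)
  refine o4 L _ ?_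
  refine h6 K v (N + 1) N (2 * N) L.length (by omega) (by omega) ?_ ?_ (Fin N)
    (Fintype.card_fin N) _ (o3 L f hf)
  · intro hk
    exact h5 K v (N + 1) (N - L.length) (2 * N)
      (h7 K v (N + 1) (N - L.length) (2 * N) (by omega) (by omega))
  · intro hk r' hr'
    exact h5 K v (N + 1) (N + 1 - L.length) r'
      (h7 K v (N + 1) (N + 1 - L.length) r' (by omega) (by omega))

theorem base (h1 : Stmt_T2V) [CharZero K] (N : ℕ) (hN : 1 ≤ N)
    (M : Submodule K (PX K (Option (Fin N)) 2))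
    (hB : ∀ f, InB (Fin N) 2 (N + 1) (2 * N) f → f ∈ M)
    (ht : tau K N 2 0 1 ∈ M) (f : PX K (Option (Fin N)) 2)
    (hf : InZ (Fin N) 2 (N + 1) (2 * N) f) : f ∈ M := by
  obtain ⟨a, ha⟩ := h1 K N hN f hf
  have e : f = (f - a • tau K N 2 0 1) + a • tau K N 2 0 1 := by abel
  rw [e]
  exact M.add_mem (hB _ ha) (M.smul_mem a ht)

theorem step (h2 : Stmt_WT) (h3 : Stmt_OPS) (h4 : Stmt_VAR) (h5 : Stmt_PAR) (h6 : Stmt_EX)
    (h7 : Stmt_LOW) (h8 : Stmt_Z1C) [CharZero K] (N v : ℕ)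
    (IH : ∀ M : Submodule K (PX K (Option (Fin N)) (v + 2)),
      (∀ f, InB (Fin N) (v + 2) (N + 1) (2 * N) f → f ∈ M) →
      (∀ i j, ∀ f ∈ M, Eij i j f ∈ M) → tau K N (v + 2) 0 1 ∈ M →
      ∀ f, InZ (Fin N) (v + 2) (N + 1) (2 * N) f → f ∈ M)
    (M : Submodule K (PX K (Option (Fin N)) (v + 2 + 1)))
    (hB : ∀ f, InB (Fin N) (v + 2 + 1) (N + 1) (2 * N) f → f ∈ M)
    (hE : ∀ i j, ∀ f ∈ M, Eij i j f ∈ M) (ht : tau K N (v + 2 + 1) 0 1 ∈ M)
    (f : PX K (Option (Fin N)) (v + 2 + 1))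
    (hf : InZ (Fin N) (v + 2 + 1) (N + 1) (2 * N) f) : f ∈ M := by
  have hle : v + 2 ≤ v + 2 + 1 := Nat.le_succ _
  obtain ⟨v1, v2, v3, v4, v5⟩ := h4 K (v + 2) (v + 2 + 1) hle
  obtain ⟨w1, w2, w3, w4⟩ := v5 (Fin N) (N + 1) (2 * N)
  obtain ⟨o1, o2, o3, o4, o5⟩ := h3 K (Fin N) (v + 2 + 1) (N + 1) (2 * N)
  have key := h2 K (Option (Fin N)) (v + 2) (2 * N + N * (N + 1))
    (ZZ K (Fin N) (v + 2 + 1) (N + 1) (2 * N)) M
    (fun g hg ν => o5 g ν hg) (fun i j g hg => o1 i j g hg) hE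
    (fun g hg => deg_bound hg) ?_ ?_
  · exact key hf
  · intro g hg hg0
    have e1 : up hle (down (v := v + 2) g) = g := by
      refine v2 _ g ?_
      intro μ hμ x j hj
      have hj' : j = Fin.last (v + 2) := by
        apply Fin.ext
        rw [Fin.val_last]
        omega
      rw [hj']
      exact hg0 μ hμ x
    have hd : InZ (Fin N) (v + 2) (N + 1) (2 * N) (down (v := v + 2) g) := w3 g hg
    have hM : down (v := v + 2) g ∈
        M.comap (up hle : PX K (Option (Fin N)) (v + 2) →ₐ[K] _).toLinearMap := by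
      refine IH _ ?_ ?_ ?_ _ hd
      · intro q hq
        exact hB _ (w2 q hq)
      · intro i j q hq
        change up hle (Eij i j q) ∈ M
        rw [up_Eij]
        exact hE _ _ _ hq
      · obtain ⟨-, -, -, -, -, z6, -⟩ := h8 K N (v + 2) 0 1 (by
          intro h
          have := congrArg Fin.val h
          simp at this)
        change up hle (tau K N (v + 2) 0 1) ∈ M
        rw [z6 (v + 2 + 1) hle]
        exact ht
    rw [← e1]
    exact hM
  · intro g hg
    refine hB _ (cap_mem h3 h5 h6 h7 _ ?_ hg)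
    rw [List.length_finRange]
    omega

end TGEN

/-- TGEN: the space of cycles is generated by `τ` modulo boundaries. -/
theorem TGEN_thm (h1 : Stmt_T2V) (h2 : Stmt_WT) (h3 : Stmt_OPS) (h4 : Stmt_VAR)
    (h5 : Stmt_PAR) (h6 : Stmt_EX) (h7 : Stmt_LOW) (h8 : Stmt_Z1C) : Stmt_TGEN := by
  intro K _ _ N v hN
  induction v with
  | zero =>
    intro M hB _ ht f hf
    exact TGEN.base h1 N hN M hB ht f hf
  | succ v ih =>
    intro M hB hE ht f hf
    exact TGEN.step h2 h3 h4 h5 h6 h7 h8 N v ih M hB hE ht f hf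

end Pool.Agent.VSY
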