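import Pool.Agent.VSY.StmtsB

/-!
# Veronese syzygies (MP_deb8da_ag): TMX, vectors of weight `ν` with `ν_0 > c` are boundaries
-/

namespace Pool.Agent.VSY

open MvPolynomial

namespace TMX

/-- The total weight of a cycle. -/
theorem sum_weight {K : Type} [Field K] {N m : ℕ} {ν : Fin m → ℕ} {y : PX K (Option (Fin N)) m}
    (hy : InZ (Fin N) m (N + 1) (2 * N) y) (hw : HasW ν y) (h0 : y ≠ 0) :
    ∑ j, ν j = N * (N + 1) + 2 * N := by
  obtain ⟨μ, hμ⟩ := Finset.nonempty_iff_ne_empty.2 (fun h => h0 (support_eq_empty.1 h))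
  have h1 : ∑ j, ν j = ∑ j, ∑ x, μ (x, j) := Finset.sum_congr rfl fun j _ => (hw μ hμ j).symm
  obtain ⟨h2, h3⟩ := hy.1.deg μ hμ
  rw [h1, Finset.sum_comm, Fintype.sum_option, Finset.sum_congr rfl fun u _ => h2 u,
    Finset.sum_const, Finset.card_univ, Fintype.card_fin, smul_eq_mul]
  omega

/-- The height of a weight. -/
def ht {v : ℕ} (ν : Fin (v + 2) → ℕ) : ℕ := ∑ j, (v + 1 - j.val) * ν j

theorem ht_le {v : ℕ} (ν : Fin (v + 2) → ℕ) : ht ν ≤ (v + 1) * ∑ j, ν j := by
  rw [ht, Finset.mul_sum]
  exact Finset.sum_le_sum fun j _ => Nat.mul_le_mul_right _ (Nat.sub_le _ _)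

theorem ht_lt {v : ℕ} {ν ν' : Fin (v + 2) → ℕ} {i j : Fin (v + 2)} (hij : i < j)
    (h : ∀ l, ν' l + (if l = j then 1 else 0) = ν l + (if l = i then 1 else 0)) :
    ht ν < ht ν' := by
  have h1 : ht ν' + (v + 1 - j.val) = ht ν + (v + 1 - i.val) := by
    have e1 : ∑ l : Fin (v + 2), (v + 1 - l.val) * (ν' l + (if l = j then 1 else 0)) =
        ht ν' + (v + 1 - j.val) := by
      simp only [mul_add, Finset.sum_add_distrib, mul_ite, mul_one, mul_zero,
        Finset.sum_ite_eq', Finset.mem_univ, if_true]
      rfl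
    have e2 : ∑ l : Fin (v + 2), (v + 1 - l.val) * (ν l + (if l = i then 1 else 0)) =
        ht ν + (v + 1 - i.val) := by
      simp only [mul_add, Finset.sum_add_distrib, mul_ite, mul_one, mul_zero,
        Finset.sum_ite_eq', Finset.mem_univ, if_true]
      rfl
    rw [← e1, ← e2]
    exact Finset.sum_congr rfl fun l _ => by rw [h l]
  have h2 : i.val < j.val := hij
  have h3 := j.isLt
  omega

end TMX

theorem TMX_thm (h1 : Stmt_HWL) (h2 : Stmt_T2V) (h3 : Stmt_WB) (h4 : Stmt_VAR) (h5 : Stmt_OPS)
    (h6 : Stmt_Z1C) (h7 : Stmt_OPW) : Stmt_TMX := by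
  intro K _ _ N v hN
  have key : ∀ (n : ℕ) (ν : Fin (v + 2) → ℕ) (y : PX K (Option (Fin N)) (v + 2)),
      InZ (Fin N) (v + 2) (N + 1) (2 * N) y → HasW ν y → cN N < ν 0 →
      (v + 1) * (N * (N + 1) + 2 * N) + 1 ≤ n + TMX.ht ν →
      InB (Fin N) (v + 2) (N + 1) (2 * N) y := by
    intro n
    induction n with
    | zero =>
      intro ν y hy hw hc hn
      by_cases hy0 : y = 0
      · rw [hy0]
        exact InB.zero
      · have e1 := TMX.sum_weight hy hw hy0
        have e2 := TMX.ht_le ν
        rw [e1] at e2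
        omega
    | succ n ih =>
      intro ν y hy hw hc hn
      have hwb := h3 K (Option (Fin N)) (Option (Fin N)) (v + 2)
      obtain ⟨-, -, -, -, -, hE, hE0, -, hcomp, -⟩ := hwb
      have hup : ∀ i j : Fin (v + 2), i < j →
          InB (Fin N) (v + 2) (N + 1) (2 * N) (Eij i j y) := by
        intro i j hij
        by_cases hj : ν j = 0
        · rw [hE0 ν y i j hw hj]
          exact InB.zero
        · have hne : i ≠ j := hij.ne
          obtain ⟨ν', hν⟩ : ∃ ν' : Fin (v + 2) → ℕ, ∀ l, ν' l + (if l = j then 1 else 0) =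
              ν l + (if l = i then 1 else 0) := by
            refine ⟨fun l => if l = i then ν l + 1 else if l = j then ν l - 1 else ν l,
              fun l => ?_⟩
            by_cases hli : l = i
            · have hlj : l ≠ j := fun h => hne (hli.symm.trans h)
              simp only [if_pos hli, if_neg hlj, add_zero]
            · by_cases hlj : l = j
              · simp only [if_neg hli, if_pos hlj]
                rw [hlj]
                omega
              · simp only [if_neg hli, if_neg hlj]
          refine ih ν' (Eij i j y) ((h5 K (Fin N) (v + 2) (N + 1) (2 * N)).1 i j y hy)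
            (hE ν ν' y i j hw hν) ?_ ?_
          · have e1 := hν 0
            have e2 : (0 : Fin (v + 2)) ≠ j := by
              intro h
              rw [← h] at hij
              exact absurd hij (Fin.not_lt_zero i)
            rw [if_neg e2, add_zero] at e1
            rw [e1]
            omega
          · have e1 := TMX.ht_lt hij hν
            omega
      by_cases hex : ∃ j : Fin (v + 2), 2 ≤ j.val ∧ 1 ≤ ν j
      · exact h1 K N (v + 2) hN ν y hy hw hex hup
      · push Not at hex
        have hle : 2 ≤ v + 2 := Nat.le_add_left 2 v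
        obtain ⟨-, hud, -, -, hv⟩ := h4 K 2 (v + 2) hle
        obtain ⟨-, hvB, hvZ, -⟩ := hv (Fin N) (N + 1) (2 * N)
        have hy2 : up hle (down (v := 2) y) = y := by
          refine hud _ y fun μ hμ x j hj => ?_
          have e1 := hw μ hμ j
          have e2 := hex j hj
          have e3 : ∑ x, μ (x, j) = 0 := by omega
          exact (Finset.sum_eq_zero_iff.1 e3) x (Finset.mem_univ x)
        obtain ⟨a, ha⟩ := h2 K N hN (down (v := 2) y) (hvZ y hy)
        have hb := hvB _ ha
        obtain ⟨-, -, -, -, -, htau, -⟩ := h6 K N 2 0 1 (by decide)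
        rw [map_sub, map_smul, hy2, htau (v + 2) hle] at hb
        have hne : Fin.castLE hle 0 ≠ Fin.castLE hle 1 := by
          intro h
          have := congrArg Fin.val h
          simp at this
        obtain ⟨-, -, -, htw, -⟩ := h6 K N (v + 2) (Fin.castLE hle 0) (Fin.castLE hle 1) hne
        have hc2 := (h7 K (Fin N) (v + 2) (N + 1) (2 * N)).1 _ ν hb
        rw [map_sub, map_smul, hcomp ν ν y hw, if_pos rfl, hcomp _ ν _ htw, if_neg, smul_zero,
          sub_zero] at hc2
        · exact hc2
        · intro h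
          have e1 := congrFun h 0
          have e2 : (Fin.castLE hle 0 : Fin (v + 2)) = 0 := rfl
          have e3 : (0 : Fin (v + 2)) ≠ Fin.castLE hle 1 := fun h' => hne (e2.trans h')
          rw [Pi.add_apply, e2, Pi.single_eq_same, Pi.single_eq_of_ne e3, add_zero] at e1
          omega
  intro ν y hy hw hc
  exact key ((v + 1) * (N * (N + 1) + 2 * N) + 1) ν y hy hw hc (Nat.le_add_right _ _)

end Pool.Agent.VSY
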