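import Pool.Agent.VSY.Stmts

/-!
# Veronese syzygies: an alternating super polynomial is determined by two components
-/

namespace Pool.Agent.VSY

open MvPolynomial

/-- The permutation group acts transitively on injective tuples. -/
theorem UNI.exists_perm {X : Type} {k : ℕ} (a b : Fin k → X) (ha : Function.Injective a)
    (hb : Function.Injective b) : ∃ g : Equiv.Perm X, ∀ i, g (a i) = b i := by
  have h1 : MulAction.IsMultiplyPretransitive (Equiv.Perm X) X k :=
    Equiv.Perm.isMultiplyPretransitive X k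
  obtain ⟨g, hg⟩ := MulAction.exists_smul_eq (Equiv.Perm X) (⟨a, ha⟩ : Fin k ↪ X) ⟨b, hb⟩
  exact ⟨g, fun i => DFunLike.congr_fun hg i⟩

/-- Two injective tuples of points in the same position with respect to `none`. -/
theorem UNI.exists_map {U : Type} {k : ℕ} (s t : Fin k → Option U) (hs : Function.Injective s)
    (ht : Function.Injective t) (h : (∀ i, s i ≠ none ∧ t i ≠ none) ∨ ∃ i, s i = none ∧ t i = none) :
    ∃ π : Equiv.Perm U, Option.map π ∘ s = t := by
  rcases h with h | ⟨i, hsi, hti⟩
  · choose a ha using fun i => Option.ne_none_iff_exists'.1 (h i).1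
    choose b hb using fun i => Option.ne_none_iff_exists'.1 (h i).2
    have ha' : Function.Injective a := fun i j hij => hs (by rw [ha, ha, hij])
    have hb' : Function.Injective b := fun i j hij => ht (by rw [hb, hb, hij])
    obtain ⟨g, hg⟩ := UNI.exists_perm a b ha' hb'
    refine ⟨g, funext fun i => ?_⟩
    rw [Function.comp_apply, ha, hb, Option.map_some, hg]
  · obtain ⟨g, hg⟩ := UNI.exists_perm s t hs ht
    have hg0 : g none = none := by
      rw [← hsi, hg, hti, hsi]
    refine ⟨Equiv.removeNone g, funext fun j => ?_⟩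
    rw [Function.comp_apply, ← hg j]
    rcases hj : s j with _ | x
    · rw [Option.map_none, hg0]
    · rw [Option.map_some]
      apply Equiv.removeNone_some
      rw [← Option.ne_none_iff_exists']
      intro hx
      rw [← hg0] at hx
      exact absurd (g.injective hx) (by simp)

theorem UNI_thm : Stmt_UNI := by
  intro K _ U _ _ v k c halt t₁ t ht₁ hnone h0
  by_cases ht : Function.Injective t
  swap
  · exact sgl_eq_zero c t ht
  -- a tuple `s`, a permutation of `t₁`, in the same position as `t`
  obtain ⟨σ, hσ⟩ : ∃ σ : Equiv.Perm (Fin k),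
      (∀ i, (t₁ ∘ σ) i ≠ none ∧ t i ≠ none) ∨ ∃ i, (t₁ ∘ σ) i = none ∧ t i = none := by
    by_cases h1 : ∃ i, t₁ i = none
    · obtain ⟨i₁, hi₁⟩ := h1
      obtain ⟨i, hi⟩ := hnone.1 ⟨i₁, hi₁⟩
      refine ⟨Equiv.swap i i₁, Or.inr ⟨i, ?_, hi⟩⟩
      rw [Function.comp_apply, Equiv.swap_apply_left, hi₁]
    · have h2 : ¬ ∃ i, t i = none := fun h => h1 (hnone.2 h)
      push Not at h1 h2
      exact ⟨1, Or.inl fun i => ⟨h1 _, h2 i⟩⟩
  have hs : Function.Injective (t₁ ∘ σ) := ht₁.comp σ.injective
  obtain ⟨π, hπ⟩ := UNI.exists_map (t₁ ∘ σ) t hs ht hσ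
  have h3 : c (sgl K (t₁ ∘ σ)) = 0 := by
    rw [sgl_perm, h0, smul_zero]
  have h4 : push (Option.map π) c (sgl K t) = 0 := by
    rw [push_sgl]
    refine Finset.sum_eq_zero fun s' hs' => ?_
    have h5 : Option.map π ∘ s' = t := (Finset.mem_filter.1 hs').2
    have h6 : s' = t₁ ∘ σ := by
      funext i
      apply Option.map_injective π.injective
      have h7 := congrFun (h5.trans hπ.symm) i
      exact h7
    rw [h6, h3, map_zero]
  rw [halt π] at h4
  have h8 : ((Equiv.Perm.sign π : ℤˣ) : ℤ) • c (sgl K t) = 0 := h4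
  rcases Int.units_eq_one_or (Equiv.Perm.sign π) with h9 | h9
  · rw [h9, Units.val_one, one_smul] at h8
    exact h8
  · rw [h9, Units.val_neg, Units.val_one, neg_smul, one_smul, neg_eq_zero] at h8
    exact h8

end Pool.Agent.VSY
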