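import Pool.Agent.VSY.Stmts

/-!
# Veronese syzygies: change of the number of coordinates
-/

namespace Pool.Agent.VSY

open MvPolynomial

namespace VAR

variable {K : Type} [Field K] {A B : Type} {v m : ℕ}

theorem up_X (h : v ≤ m) (x : A) (j : Fin v) :
    up (K := K) h (X (x, j)) = X (x, Fin.castLE h j) := by
  simp [up, rename_X]

theorem down_X_lt (x : A) (j : Fin m) (hj : j.val < v) :
    down (K := K) (v := v) (X (x, j)) = X (x, (⟨j.val, hj⟩ : Fin v)) := by
  rw [down, aeval_X]
  exact dif_pos hj

theorem down_X_ge (x : A) (j : Fin m) (hj : ¬ j.val < v) :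
    down (K := K) (v := v) (X (x, j)) = 0 := by
  rw [down, aeval_X]
  exact dif_neg hj

theorem down_up (h : v ≤ m) (f : PX K A v) : down (up h f) = f := by
  have h1 : ((down (K := K) (A := A) (v := v) (m := m)).comp (up h)) = AlgHom.id K _ := by
    refine MvPolynomial.algHom_ext fun x => ?_
    obtain ⟨x, j⟩ := x
    rw [AlgHom.comp_apply, up_X, down_X_lt x (Fin.castLE h j) j.isLt]
    rfl
  exact congrArg (fun φ : PX K A v →ₐ[K] PX K A v => φ f) h1

theorem up_down (h : v ≤ m) (f : PX K A m)
    (hf : ∀ μ ∈ f.support, ∀ x, ∀ j : Fin m, v ≤ j.val → μ (x, j) = 0) :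
    up h (down (v := v) f) = f := by
  have h1 : ((up h).comp (down (K := K) (A := A) (v := v) (m := m))).toRingHom f =
      (RingHom.id (PX K A m)) f := by
    refine MvPolynomial.hom_congr_vars ?_ ?_ rfl
    · ext a
      simp
    · intro i hi _
      obtain ⟨x, j⟩ := i
      obtain ⟨μ, hμ, hμi⟩ := mem_vars _ |>.1 hi
      have hj : j.val < v := by
        by_contra hc
        exact (Finsupp.mem_support_iff.1 hμi) (hf μ hμ x j (by omega))
      show up h (down (v := v) (X (x, j))) = X (x, j)
      rw [down_X_lt x j hj, up_X]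
      rfl
  exact h1

theorem ren_up (h : v ≤ m) (φ : A → B) (f : PX K A v) : ren φ (up h f) = up h (ren φ f) := by
  simp only [ren, up, rename_rename]
  rfl

theorem ren_down (φ : A → B) (f : PX K A m) :
    ren φ (down (v := v) f) = down (ren φ f) := by
  have h1 : (ren φ).comp (down (K := K) (A := A) (v := v) (m := m)) =
      (down (K := K) (A := B) (v := v) (m := m)).comp (ren φ) := by
    refine MvPolynomial.algHom_ext fun x => ?_
    obtain ⟨x, j⟩ := x
    rw [AlgHom.comp_apply, AlgHom.comp_apply, ren_X]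
    by_cases hj : j.val < v
    · rw [down_X_lt x j hj, down_X_lt (φ x) j hj, ren_X]
    · rw [down_X_ge x j hj, down_X_ge (φ x) j hj, map_zero]
  exact congrArg (fun ψ : PX K A m →ₐ[K] PX K B v => ψ f) h1

theorem iota_inj (h : v ≤ m) :
    Function.Injective (Prod.map (id : A → A) (Fin.castLE h)) :=
  Function.Injective.prodMap Function.injective_id (Fin.castLE_injective h)

theorem not_range (h : v ≤ m) (x : A) (j : Fin m) (hj : v ≤ j.val) :
    (x, j) ∉ Set.range (Prod.map (id : A → A) (Fin.castLE h)) := by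
  rintro ⟨⟨y, i⟩, hy⟩
  have h2 : Fin.castLE h i = j := congrArg Prod.snd hy
  have h3 : i.val = j.val := congrArg Fin.val h2
  have := i.isLt
  omega

theorem sum_mapDomain (h : v ≤ m) (μ : A × Fin v →₀ ℕ) (x : A) :
    ∑ j, μ.mapDomain (Prod.map (id : A → A) (Fin.castLE h)) (x, j) = ∑ j, μ (x, j) := by
  symm
  refine Fintype.sum_of_injective (Fin.castLE h) (Fin.castLE_injective h) _ _ ?_ ?_
  · intro j hj
    refine Finsupp.mapDomain_notin_range _ _ (not_range h x j ?_)
    by_contra hc
    exact hj ⟨⟨j.val, by omega⟩, rfl⟩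
  · intro j
    exact (Finsupp.mapDomain_apply (iota_inj h) μ (x, j)).symm

theorem coeff_down (h : v ≤ m) (f : PX K A m) (μ : A × Fin v →₀ ℕ) :
    coeff μ (down (v := v) f) =
      coeff (μ.mapDomain (Prod.map (id : A → A) (Fin.castLE h))) f := by
  classical
  induction f using MvPolynomial.induction_on' with
  | add p q hp hq => rw [map_add, coeff_add, coeff_add, hp, hq]
  | monomial u a =>
    by_cases hu : ∀ x, ∀ j : Fin m, v ≤ j.val → u (x, j) = 0
    · have h0 : ∀ μ' ∈ (monomial u a : PX K A m).support, ∀ x, ∀ j : Fin m, v ≤ j.val →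
          μ' (x, j) = 0 := by
        intro μ' hμ'
        have := support_monomial_subset hμ'
        rw [Finset.mem_singleton] at this
        rw [this]
        exact hu
      have h1 := up_down h (monomial u a : PX K A m) h0
      conv_rhs => rw [← h1]
      rw [up, coeff_rename_mapDomain _ (iota_inj h)]
    · push Not at hu
      obtain ⟨x, j, hj, hne⟩ := hu
      have h1 : down (K := K) (v := v) (monomial u a : PX K A m) = 0 := by
        rw [down, aeval_monomial, Finsupp.prod]
        rw [Finset.prod_eq_zero (Finsupp.mem_support_iff.2 hne), mul_zero]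
        show (if h' : j.val < v then X (x, (⟨j.val, h'⟩ : Fin v)) else (0 : PX K A v)) ^ _ = 0
        rw [dif_neg (by omega), zero_pow hne]
      rw [h1, coeff_zero, coeff_monomial, if_neg]
      intro hc
      apply hne
      rw [hc]
      exact Finsupp.mapDomain_notin_range _ _ (not_range h x j hj)

variable {U : Type} [Fintype U] [DecidableEq U] {d s r : ℕ}

theorem InC_up (h : v ≤ m) {f : PX K (Option U) v} (hf : InC U v d s r f) :
    InC U m d s r (up h f) := by
  refine ⟨fun π => ?_, fun μ hμ => ?_⟩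
  · rw [ren_up, hf.alt, map_zsmul]
  · rw [mem_support_iff, up] at hμ
    obtain ⟨μ', rfl, h2⟩ := coeff_rename_ne_zero _ _ _ hμ
    have := hf.deg μ' (mem_support_iff.2 h2)
    refine ⟨fun u => ?_, ?_⟩
    · rw [sum_mapDomain]
      exact this.1 u
    · rw [sum_mapDomain]
      exact this.2

theorem InC_down (h : v ≤ m) {f : PX K (Option U) m} (hf : InC U m d s r f) :
    InC U v d s r (down f) := by
  refine ⟨fun π => ?_, fun μ hμ => ?_⟩
  · rw [ren_down, hf.alt, map_zsmul]
  · rw [mem_support_iff, coeff_down h] at hμ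
    have := hf.deg _ (mem_support_iff.2 hμ)
    simp only [sum_mapDomain] at this
    exact this

end VAR

theorem VAR_thm : Stmt_VAR := by
  intro K _ v m h
  refine ⟨fun A f => VAR.down_up h f, fun A f hf => VAR.up_down h f hf,
    fun A B φ f => VAR.ren_up h φ f, fun A B φ f => VAR.ren_down φ f, ?_⟩
  intro U _ _ d r
  refine ⟨fun f hf => ⟨VAR.InC_up h hf.1, fun u => ?_⟩, fun f hf => ?_,
    fun f hf => ⟨VAR.InC_down h hf.1, fun u => ?_⟩, fun f hf => ?_⟩
  · rw [VAR.ren_up, hf.2 u, map_zero]
  · obtain ⟨g, hg, rfl⟩ := hf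
    exact ⟨up h g, VAR.InC_up h hg, VAR.ren_up h _ g⟩
  · rw [VAR.ren_down, hf.2 u, map_zero]
  · obtain ⟨g, hg, rfl⟩ := hf
    exact ⟨down g, VAR.InC_down h hg, VAR.ren_down _ g⟩

end Pool.Agent.VSY
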