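import Pool.Agent.VSY.Stmts

/-!
# Veronese syzygies: the weight argument
-/

namespace Pool.Agent.VSY

open MvPolynomial

namespace WT

variable {K : Type} [Field K] {A : Type} [Fintype A] [DecidableEq A] {v : ℕ}

/-- The weight of the coordinate `(x, j)`. -/
abbrev wt (A : Type) (v : ℕ) : A × Fin v → (Fin v → ℕ) := fun x => (Pi.single x.2 1 : Fin v → ℕ)

theorem weight_apply (m : A × Fin v →₀ ℕ) (j : Fin v) :
    (Finsupp.weight (wt A v) m : Fin v → ℕ) j = ∑ x, m (x, j) := by
  classical
  rw [Finsupp.weight_apply, Finsupp.sum_fintype _ _ (by simp), Finset.sum_apply,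
    Fintype.sum_prod_type]
  refine Finset.sum_congr rfl fun x _ => ?_
  simp [Pi.single_apply]

/-- The operator `E_ij` on monomials. -/
theorem Eij_monomial (i j : Fin v) (m : A × Fin v →₀ ℕ) (a : K) :
    Eij i j (monomial m a) =
      ∑ x : A, monomial (Finsupp.single (x, i) 1 + (m - Finsupp.single (x, j) 1))
        (a * (m (x, j) : K)) := by
  rw [Eij, LinearMap.sum_apply]
  refine Finset.sum_congr rfl fun x _ => ?_
  show X (x, i) * pderiv (x, j) (monomial m a) = _
  rw [pderiv_monomial, X, monomial_mul, one_mul]

/-- Every monomial of `E_ij f` comes from a monomial of `f`. -/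
theorem exists_of_mem_support_Eij (i j : Fin v) (f : PX K A v) {m : A × Fin v →₀ ℕ}
    (hm : m ∈ (Eij i j f).support) : ∃ m' ∈ f.support, ∃ x : A, m' (x, j) ≠ 0 ∧
      m = Finsupp.single (x, i) 1 + (m' - Finsupp.single (x, j) 1) := by
  classical
  by_contra hcon
  push Not at hcon
  rw [mem_support_iff] at hm
  apply hm
  have h1 : f = ∑ m' ∈ f.support, monomial m' (coeff m' f) := f.as_sum
  rw [h1, map_sum, coeff_sum]
  refine Finset.sum_eq_zero fun m' hm' => ?_
  rw [Eij_monomial, coeff_sum]
  refine Finset.sum_eq_zero fun x _ => ?_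
  rw [coeff_monomial]
  split_ifs with h2
  · by_cases h3 : m' (x, j) = 0
    · rw [h3, Nat.cast_zero, mul_zero]
    · exact absurd h2.symm (hcon m' hm' x h3)
  · rfl

theorem weight_Eij (i j : Fin v) (m : A × Fin v →₀ ℕ) (x : A) (hx : m (x, j) ≠ 0) (l : Fin v) :
    (∑ y, (Finsupp.single (x, i) 1 + (m - Finsupp.single (x, j) 1) : A × Fin v →₀ ℕ) (y, l)) +
      (if l = j then 1 else 0) = (∑ y, m (y, l)) + (if l = i then 1 else 0) := by
  classical
  have h1 : ∀ y, (Finsupp.single (x, i) 1 + (m - Finsupp.single (x, j) 1) : A × Fin v →₀ ℕ) (y, l) +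
      (if y = x then (if l = j then 1 else 0) else 0) =
      m (y, l) + (if y = x then (if l = i then 1 else 0) else 0) := by
    intro y
    rw [Finsupp.add_apply, Finsupp.tsub_apply, Finsupp.single_apply, Finsupp.single_apply]
    simp only [Prod.mk.injEq]
    by_cases hy : x = y
    · subst hy
      by_cases hl : l = j
      · subst hl
        by_cases hi : i = l
        · subst hi
          simp
          omega
        · have hi' : ¬ l = i := fun h => hi h.symm
          simp [hi, hi']
          omega
      · have hl' : ¬ j = l := fun h => hl h.symm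
        by_cases hi : i = l
        · subst hi
          simp [hl, hl']
          omega
        · have hi' : ¬ l = i := fun h => hi h.symm
          simp [hi, hi', hl, hl']
    · have hy' : ¬ y = x := fun h => hy h.symm
      simp [hy, hy']
  have h2 := Finset.sum_congr (rfl : (Finset.univ : Finset A) = Finset.univ) fun y _ => h1 y
  rw [Finset.sum_add_distrib, Finset.sum_add_distrib, Finset.sum_ite_eq', Finset.sum_ite_eq'] at h2
  simpa using h2

/-- All monomials of `f` have weight `ν`. -/
def HasWt (ν : Fin v → ℕ) (f : PX K A v) : Prop := ∀ m ∈ f.support, ∀ l, ∑ x, m (x, l) = ν l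

theorem hasWt_of_component (ν : Fin v → ℕ) (f : PX K A v) :
    HasWt ν (weightedHomogeneousComponent (wt A v) ν f) := by
  intro m hm l
  have h1 := weightedHomogeneousComponent_isWeightedHomogeneous (w := wt A v) ν f
  rw [mem_support_iff] at hm
  have h2 := h1 hm
  rw [← h2, weight_apply]

theorem Eij_self (ν : Fin v → ℕ) (f : PX K A v) (hf : HasWt ν f) (i : Fin v) :
    Eij i i f = (ν i : K) • f := by
  classical
  have h1 : f = ∑ m' ∈ f.support, monomial m' (coeff m' f) := f.as_sum
  conv_lhs => rw [h1]
  conv_rhs => rw [h1]
  rw [map_sum, Finset.smul_sum]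
  refine Finset.sum_congr rfl fun m hm => ?_
  rw [Eij_monomial]
  have h2 : ∀ x : A, monomial (Finsupp.single (x, i) 1 + (m - Finsupp.single (x, i) 1))
      (coeff m f * (m (x, i) : K)) = monomial m (coeff m f * (m (x, i) : K)) := by
    intro x
    by_cases hx : m (x, i) = 0
    · rw [hx, Nat.cast_zero, mul_zero, monomial_zero, monomial_zero]
    · congr 1
      rw [add_tsub_cancel_of_le]
      rw [Finsupp.single_le_iff]
      omega
  rw [Finset.sum_congr rfl fun x _ => h2 x, ← map_sum, ← Finset.mul_sum, smul_monomial,
    ← Nat.cast_sum, hf m hm i, smul_eq_mul, mul_comm]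

theorem capc_ne_zero {v : ℕ} (ν : Fin v → ℕ) : ∀ (L : List (Fin v)) (hL : L ≠ []),
    ν (L.getLast hL) ≠ 0 → capc ν L ≠ 0
  | [], hL, _ => absurd rfl hL
  | [j], _, h => by
    simpa [capc] using h
  | j :: k :: L, _, h => by
    have h1 : ν ((k :: L).getLast (by simp)) ≠ 0 := by
      rwa [List.getLast_cons (by simp)] at h
    have h2 := capc_ne_zero ν (k :: L) (by simp) h1
    rw [capc]
    refine mul_ne_zero ?_ h2
    simp

end WT

open WT

theorem WT_thm (h1 : Stmt_CAPM) : Stmt_WT := by
  classical
  intro K _ _ A _ _ v T Z M hZc hZE hME hT hlast hcap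
  -- the weight argument
  have key : ∀ (N : ℕ) (ν : Fin (v + 1) → ℕ) (g : PX K A (v + 1)), g ∈ Z → HasWt ν g →
      v * T - ∑ l : Fin (v + 1), (v - l.val) * ν l ≤ N → g ∈ M := by
    intro N
    induction N using Nat.strong_induction_on with
    | _ N ih =>
    intro ν g hg hν hN
    -- operators raising the weight
    have hup : ∀ i j : Fin (v + 1), i < j → Eij i j g ∈ M := by
      intro i j hij
      by_cases h0 : Eij i j g = 0
      · rw [h0]
        exact M.zero_mem
      have hsup : (Eij i j g).support.Nonempty := by
        rw [Finset.nonempty_iff_ne_empty, Ne, support_eq_empty]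
        exact h0
      obtain ⟨m0, hm0⟩ := hsup
      obtain ⟨m1, hm1, x1, hx1, hm01⟩ := exists_of_mem_support_Eij i j g hm0
      have hνj : ν j ≠ 0 := by
        rw [← hν m1 hm1 j]
        intro h
        rw [Finset.sum_eq_zero_iff] at h
        exact hx1 (h x1 (Finset.mem_univ _))
      set ν' : Fin (v + 1) → ℕ := fun l =>
        if l = i then ν l + 1 else if l = j then ν l - 1 else ν l with hν'
      have hne : i ≠ j := ne_of_lt hij
      have hw' : HasWt ν' (Eij i j g) := by
        intro m hm l
        obtain ⟨m', hm', x, hx, rfl⟩ := exists_of_mem_support_Eij i j g hm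
        have h2 := weight_Eij i j m' x hx l
        rw [hν m' hm' l] at h2
        rw [hν']
        by_cases hl : l = i
        · subst hl
          simp only [if_true, hne, if_false] at h2 ⊢
          omega
        · by_cases hl' : l = j
          · subst hl'
            simp only [if_true, hl, if_false] at h2 ⊢
            omega
          · simp only [hl, hl', if_false] at h2 ⊢
            omega
      have hEZ := hZE i j g hg
      -- the bound
      have hb : ∑ l : Fin (v + 1), (v - l.val) * ν' l ≤ v * T := by
        have h2 := hT _ hEZ m0 hm0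
        have h3 : ∑ x, m0 x = ∑ l, ν' l := by
          rw [Fintype.sum_prod_type, Finset.sum_comm]
          exact Finset.sum_congr rfl fun l _ => hw' m0 hm0 l
        rw [h3] at h2
        calc ∑ l : Fin (v + 1), (v - l.val) * ν' l ≤ ∑ l : Fin (v + 1), v * ν' l :=
              Finset.sum_le_sum fun l _ => Nat.mul_le_mul_right _ (Nat.sub_le _ _)
          _ = v * ∑ l, ν' l := by rw [Finset.mul_sum]
          _ ≤ v * T := Nat.mul_le_mul_left _ h2
      have hinc : ∑ l : Fin (v + 1), (v - l.val) * ν l < ∑ l : Fin (v + 1), (v - l.val) * ν' l := by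
        have hjv : j.val ≤ v := Nat.lt_succ_iff.1 j.2
        have hij' : i.val < j.val := hij
        have e1 : ∀ l : Fin (v + 1), (v - l.val) * ν' l + (if l = j then v - j.val else 0) =
            (v - l.val) * ν l + (if l = i then v - i.val else 0) := by
          intro l
          rw [hν']
          by_cases hl : l = i
          · subst hl
            simp only [if_true, hne, if_false]
            ring
          · by_cases hl' : l = j
            · subst hl'
              simp only [if_true, hl, if_false]
              obtain ⟨t, ht⟩ := Nat.exists_eq_succ_of_ne_zero hνj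
              rw [ht]
              simp only [Nat.succ_eq_add_one, Nat.add_sub_cancel]
              ring
            · simp only [hl, hl', if_false]
        have e2 := Finset.sum_congr (rfl : (Finset.univ : Finset (Fin (v + 1))) = Finset.univ)
          fun l _ => e1 l
        rw [Finset.sum_add_distrib, Finset.sum_add_distrib, Finset.sum_ite_eq',
          Finset.sum_ite_eq'] at e2
        simp only [Finset.mem_univ, if_true] at e2
        omega
      exact ih (v * T - ∑ l : Fin (v + 1), (v - l.val) * ν' l) (by omega) ν' _ hEZ hw' le_rfl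
    by_cases hνl : ν (Fin.last v) = 0
    · refine hlast g hg fun m hm x => ?_
      have h2 := hν m hm (Fin.last v)
      rw [hνl, Finset.sum_eq_zero_iff] at h2
      exact h2 x (Finset.mem_univ _)
    · have h2 := h1 K A (v + 1) M hME ν g (fun i => Eij_self ν g hν i) hup
        (List.finRange (v + 1)) (List.pairwise_lt_finRange _)
      have h3 : (capc ν (List.finRange (v + 1)) : K) • g ∈ M := by
        have := M.sub_mem (hcap g hg) h2
        rwa [sub_sub_cancel] at this
      have h4 : (capc ν (List.finRange (v + 1)) : K) ≠ 0 := by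
        rw [Nat.cast_ne_zero]
        have h5 : List.finRange (v + 1) ≠ [] := by simp
        refine capc_ne_zero ν _ h5 ?_
        have h6 : (List.finRange (v + 1)).getLast h5 = Fin.last v := by
          simp [List.finRange_succ_last]
        rwa [h6]
      have h5 := M.smul_mem ((capc ν (List.finRange (v + 1)) : K)⁻¹) h3
      rwa [smul_smul, inv_mul_cancel₀ h4, one_smul] at h5
  intro f hf
  rw [← sum_weightedHomogeneousComponent (wt A (v + 1)) f]
  refine finsum_induction (fun g => g ∈ M) M.zero_mem (fun a b ha hb => M.add_mem ha hb)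
    fun ν => ?_
  exact key _ ν _ (hZc f hf ν) (hasWt_of_component ν f) le_rfl

end Pool.Agent.VSY
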