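import Pool.Agent.VSY.StmtsB

/-!
# Veronese syzygies: the cycles `z_1` and `τ`
-/

namespace Pool.Agent.VSY

open MvPolynomial

namespace Z1C

variable {K : Type} [Field K] {A B : Type} {v m N : ℕ}

/-- The determinant at the points `q a`. -/
noncomputable def Md (K : Type) [Field K] {A : Type} {v : ℕ} (N : ℕ) (q : Fin (N + 1) → A)
    (i j : Fin v) : PX K A v :=
  (Matrix.of fun a l : Fin (N + 1) =>
    (X (q a, j) ^ (N - l.val) * X (q a, i) ^ l.val : PX K A v)).det

theorem hom_Md {R : Type} [CommRing R] (F : PX K A v →+* R) (q : Fin (N + 1) → A) (i j : Fin v) :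
    F (Md K N q i j) = (Matrix.of fun a l : Fin (N + 1) =>
      (F (X (q a, j)) ^ (N - l.val) * F (X (q a, i)) ^ l.val)).det := by
  rw [Md, RingHom.map_det]
  congr 1
  ext a l
  simp [RingHom.mapMatrix_apply, Matrix.map_apply]

theorem ren_Md (φ : A → B) (q : Fin (N + 1) → A) (i j : Fin v) :
    ren φ (Md K N q i j) = Md K N (φ ∘ q) i j := by
  have h := hom_Md (ren (K := K) (v := v) φ).toRingHom q i j
  refine h.trans ?_
  rw [Md]
  congr 1
  ext a l
  simp

theorem rename_Md (c : Fin v → Fin m) (q : Fin (N + 1) → A) (i j : Fin v) :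
    rename (Prod.map id c) (Md K N q i j) = Md K N q (c i) (c j) := by
  have h := hom_Md (rename (R := K) (Prod.map (id : A → A) c)).toRingHom q i j
  refine h.trans ?_
  rw [Md]
  congr 1
  ext a l
  simp [rename_X]

theorem Md_perm (q : Fin (N + 1) → A) (i j : Fin v) (σ : Equiv.Perm (Fin (N + 1))) :
    Md K N (q ∘ σ) i j = ((Equiv.Perm.sign σ : ℤˣ) : ℤ) • Md K N q i j := by
  have h := Matrix.det_permute σ (Matrix.of fun a l : Fin (N + 1) =>
    (X (q a, j) ^ (N - l.val) * X (q a, i) ^ l.val : PX K A v))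
  have h2 : ((Matrix.of fun a l : Fin (N + 1) =>
    (X (q a, j) ^ (N - l.val) * X (q a, i) ^ l.val : PX K A v)).submatrix σ id) =
    (Matrix.of fun a l : Fin (N + 1) =>
    (X ((q ∘ σ) a, j) ^ (N - l.val) * X ((q ∘ σ) a, i) ^ l.val : PX K A v)) := by
    ext a l
    simp
  rw [h2] at h
  rw [Md, h, Md, zsmul_eq_mul]

theorem Md_eq_zero (q : Fin (N + 1) → A) (i j : Fin v) (a b : Fin (N + 1)) (hab : a ≠ b)
    (h : q a = q b) : Md K N q i j = 0 := by
  refine Matrix.det_zero_of_row_eq hab ?_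
  funext l
  simp [h]

/-- The grading by the points and by the coordinates. -/
def wt (A : Type) [DecidableEq A] (v : ℕ) : A × Fin v → (A → ℕ) × (Fin v → ℕ) :=
  fun x => (Pi.single x.1 1, Pi.single x.2 1)

theorem weight_wt [Fintype A] [DecidableEq A] (μ : A × Fin v →₀ ℕ) :
    Finsupp.weight (wt A v) μ = (fun x => ∑ j, μ (x, j), fun j => ∑ x, μ (x, j)) := by
  rw [Finsupp.weight_apply, Finsupp.sum_fintype _ _ (by simp), Fintype.sum_prod_type]
  refine Prod.ext ?_ ?_
  · funext y
    simp only [Prod.fst_sum, Finset.sum_apply, wt, Prod.smul_mk, Pi.smul_apply, Pi.single_apply,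
      smul_eq_mul, mul_ite, mul_one, mul_zero]
    rw [Finset.sum_eq_single y]
    · simp
    · intro b _ hb
      simp [Ne.symm hb]
    · simp
  · funext l
    simp only [Prod.snd_sum, Finset.sum_apply, wt, Prod.smul_mk, Pi.smul_apply, Pi.single_apply,
      smul_eq_mul, mul_ite, mul_one, mul_zero]
    refine Finset.sum_congr rfl fun x _ => ?_
    rw [Finset.sum_eq_single l]
    · simp
    · intro b _ hb
      simp [Ne.symm hb]
    · simp

/-- Homogeneous elements. -/
def Hom [DecidableEq A] (f : PX K A v) (a : A → ℕ) (b : Fin v → ℕ) : Prop :=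
  IsWeightedHomogeneous (wt A v) f (a, b)

theorem Hom.mem [Fintype A] [DecidableEq A] {f : PX K A v} {a : A → ℕ} {b : Fin v → ℕ}
    (h : Hom f a b) {μ : A × Fin v →₀ ℕ} (hμ : μ ∈ f.support) :
    (∀ x, ∑ j, μ (x, j) = a x) ∧ ∀ j, ∑ x, μ (x, j) = b j := by
  have h1 := h (mem_support_iff.1 hμ)
  rw [weight_wt] at h1
  exact ⟨fun x => congrFun (congrArg Prod.fst h1) x, fun j => congrFun (congrArg Prod.snd h1) j⟩

theorem Hom.mul [DecidableEq A] {f g : PX K A v} {a a' : A → ℕ} {b b' : Fin v → ℕ}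
    (hf : Hom f a b) (hg : Hom g a' b') : Hom (f * g) (a + a') (b + b') :=
  IsWeightedHomogeneous.mul hf hg

theorem Hom_X [DecidableEq A] (x : A) (l : Fin v) :
    Hom (X (x, l) : PX K A v) (Pi.single x 1) (Pi.single l 1) :=
  isWeightedHomogeneous_X K (wt A v) (x, l)

theorem Hom.pow [DecidableEq A] {f : PX K A v} {a : A → ℕ} {b : Fin v → ℕ} (hf : Hom f a b)
    (n : ℕ) : Hom (f ^ n) (n • a) (n • b) := by
  have := IsWeightedHomogeneous.pow hf n
  exact this

theorem Hom.prod [DecidableEq A] {ι : Type} (s : Finset ι) {f : ι → PX K A v} {a : ι → A → ℕ}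
    {b : ι → Fin v → ℕ} (h : ∀ k ∈ s, Hom (f k) (a k) (b k)) :
    Hom (∏ k ∈ s, f k) (∑ k ∈ s, a k) (∑ k ∈ s, b k) := by
  classical
  induction s using Finset.induction_on with
  | empty =>
    simp only [Finset.prod_empty, Finset.sum_empty]
    exact isWeightedHomogeneous_one K (wt A v)
  | insert x s hx ih =>
    rw [Finset.prod_insert hx, Finset.sum_insert hx, Finset.sum_insert hx]
    exact (h x (Finset.mem_insert_self x s)).mul
      (ih fun k hk => h k (Finset.mem_insert_of_mem hk))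

theorem sum_val (N : ℕ) : ∑ l : Fin (N + 1), l.val = eN N := by
  rw [Fin.sum_univ_eq_sum_range (fun l => l) (N + 1), Finset.sum_range_id, eN]
  congr 1
  rw [Nat.add_sub_cancel, mul_comm]

theorem sum_sub_val (N : ℕ) : ∑ l : Fin (N + 1), (N - l.val) = eN N := by
  rw [← sum_val N, ← Equiv.sum_comp Fin.revPerm]
  refine Finset.sum_congr rfl fun l _ => ?_
  simp only [Fin.revPerm_apply, Fin.val_rev]
  have := l.isLt
  omega

theorem Hom_Md [DecidableEq A] (q : Fin (N + 1) → A) (i j : Fin v) :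
    Hom (Md K N q i j) (N • ∑ a, Pi.single (q a) 1)
      (Pi.single i (eN N) + Pi.single j (eN N)) := by
  rw [Md, Matrix.det_apply]
  refine IsWeightedHomogeneous.sum _ _ _ fun σ _ => ?_
  rw [Units.smul_def]
  have h1 : Hom (∏ l : Fin (N + 1), (Matrix.of fun a l : Fin (N + 1) =>
      (X (q a, j) ^ (N - l.val) * X (q a, i) ^ l.val : PX K A v)) (σ l) l)
      (N • ∑ a, Pi.single (q a) 1) (Pi.single i (eN N) + Pi.single j (eN N)) := by
    have h2 := Hom.prod (K := K) (A := A) (v := v) (Finset.univ : Finset (Fin (N + 1)))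
      (f := fun l => (X (q (σ l), j) ^ (N - l.val) * X (q (σ l), i) ^ l.val : PX K A v))
      (fun l _ => ((Hom_X (q (σ l)) j).pow (N - l.val)).mul ((Hom_X (q (σ l)) i).pow l.val))
    have e1 : ∑ l : Fin (N + 1), ((N - l.val) • (Pi.single (q (σ l)) 1 : A → ℕ) +
        l.val • Pi.single (q (σ l)) 1) = N • ∑ a, Pi.single (q a) 1 := by
      rw [← Equiv.sum_comp σ (fun a => (Pi.single (q a) 1 : A → ℕ)), Finset.smul_sum]
      refine Finset.sum_congr rfl fun l _ => ?_
      rw [← add_smul]
      congr 1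
      have := l.isLt
      omega
    have e2 : ∑ l : Fin (N + 1), ((N - l.val) • (Pi.single j 1 : Fin v → ℕ) +
        l.val • Pi.single i 1) = Pi.single i (eN N) + Pi.single j (eN N) := by
      rw [Finset.sum_add_distrib, ← Finset.sum_smul, ← Finset.sum_smul, sum_val, sum_sub_val,
        add_comm]
      congr 1
      · rw [← Pi.single_smul]
        simp
      · rw [← Pi.single_smul]
        simp
    rw [e1, e2] at h2
    exact h2
  have h3 : ((Equiv.Perm.sign σ : ℤˣ) : ℤ) • ∏ l : Fin (N + 1),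
      (Matrix.of fun a l : Fin (N + 1) =>
      (X (q a, j) ^ (N - l.val) * X (q a, i) ^ l.val : PX K A v)) (σ l) l =
      (((Equiv.Perm.sign σ : ℤˣ) : ℤ) : K) • ∏ l : Fin (N + 1),
      (Matrix.of fun a l : Fin (N + 1) =>
      (X (q a, j) ^ (N - l.val) * X (q a, i) ^ l.val : PX K A v)) (σ l) l := by
    rw [Int.cast_smul_eq_zsmul]
  rw [h3]
  exact (weightedHomogeneousSubmodule K (wt A v) _).smul_mem _ h1

theorem pt_eq (N : ℕ) : pt N = _root_.finSuccEquiv N := by
  funext a
  refine Fin.cases ?_ (fun k => ?_) a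
  · simp [pt]
  · simp [pt]

theorem sum_pt (N : ℕ) (y : Option (Fin N)) :
    (∑ a, (Pi.single (pt N a) 1 : Option (Fin N) → ℕ)) y = 1 := by
  rw [pt_eq, Equiv.sum_comp (_root_.finSuccEquiv N) (fun z => (Pi.single z 1 : Option (Fin N) → ℕ)),
    Finset.sum_apply]
  simp [Pi.single_apply]

/-- A permutation of the points permutes the rows. -/
theorem conj_pt (N : ℕ) (q : Option (Fin N) → A) (π : Equiv.Perm (Option (Fin N))) (i j : Fin v) :
    Md K N (q ∘ π ∘ pt N) i j = ((Equiv.Perm.sign π : ℤˣ) : ℤ) • Md K N (q ∘ pt N) i j := by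
  have h : q ∘ π ∘ pt N = (q ∘ pt N) ∘
      (((_root_.finSuccEquiv N).trans π).trans (_root_.finSuccEquiv N).symm) := by
    rw [pt_eq]
    funext a
    simp
  rw [h, Md_perm, Equiv.Perm.sign_trans_trans_symm]

theorem z1_eq (N v : ℕ) (i j : Fin v) :
    z1 K N v i j = (∏ k : Fin N, X (some k, i)) * Md K N (pt N) i j := rfl

theorem alt_z1 (i j : Fin v) (π : Equiv.Perm (Fin N)) :
    ren (Option.map π) (z1 K N v i j) = ((Equiv.Perm.sign π : ℤˣ) : ℤ) • z1 K N v i j := by
  rw [z1_eq, map_mul, map_prod, ren_Md]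
  have h1 : ∏ k : Fin N, ren (Option.map π) (X (some k, i) : PX K (Option (Fin N)) v) =
      ∏ k : Fin N, X (some k, i) := by
    simp only [ren_X, Option.map_some]
    exact Equiv.prod_comp π (fun k => (X (some k, i) : PX K (Option (Fin N)) v))
  have h2 := conj_pt (K := K) (v := v) N id (Equiv.optionCongr π) i j
  rw [Equiv.optionCongr_sign] at h2
  have h3 : (id : Option (Fin N) → Option (Fin N)) ∘ (Equiv.optionCongr π) ∘ pt N =
      Option.map π ∘ pt N := by
    funext a
    simp
  rw [h3, Function.id_comp] at h2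
  rw [h1, h2, mul_smul_comm]

theorem mg_z1 (i j : Fin v) (u : Fin N) : ren (mg u) (z1 K N v i j) = 0 := by
  rw [z1_eq, map_mul, ren_Md, Md_eq_zero _ _ _ 0 u.succ (Fin.succ_ne_zero u).symm, mul_zero]
  simp [pt, mg, Function.update]

theorem Hom_z1 (i j : Fin v) : Hom (z1 K N v i j)
    (∑ k : Fin N, Pi.single (some k) 1 + N • ∑ a, Pi.single (pt N a) 1)
    (Pi.single i (cN N) + Pi.single j (eN N)) := by
  have h := (Hom.prod (K := K) (A := Option (Fin N)) (v := v) (Finset.univ : Finset (Fin N))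
    (f := fun k => (X (some k, i) : PX K (Option (Fin N)) v))
    (fun k _ => Hom_X (some k) i)).mul (Hom_Md (pt N) i j)
  have e : ∑ k : Fin N, (Pi.single i 1 : Fin v → ℕ) + (Pi.single i (eN N) + Pi.single j (eN N)) =
      Pi.single i (cN N) + Pi.single j (eN N) := by
    rw [Finset.sum_const, Finset.card_univ, Fintype.card_fin, ← add_assoc, ← Pi.single_smul,
      ← Pi.single_add]
    congr 2
    simp [cN, add_comm]
  rw [e] at h
  exact h

theorem deg_some (k : Fin N) : (∑ k : Fin N, (Pi.single (some k) 1 : Option (Fin N) → ℕ) +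
    N • ∑ a, (Pi.single (pt N a) 1 : Option (Fin N) → ℕ) : Option (Fin N) → ℕ) (some k) =
      N + 1 := by
  rw [Pi.add_apply, Pi.smul_apply, sum_pt, Finset.sum_apply]
  simp [Pi.single_apply, add_comm]

theorem deg_none : (∑ k : Fin N, (Pi.single (some k) 1 : Option (Fin N) → ℕ) +
    N • ∑ a, (Pi.single (pt N a) 1 : Option (Fin N) → ℕ) : Option (Fin N) → ℕ) none = N := by
  rw [Pi.add_apply, Pi.smul_apply, sum_pt, Finset.sum_apply]
  simp

theorem InZ_z1 (i j : Fin v) : InZ (Fin N) v (N + 1) N (z1 K N v i j) := by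
  refine ⟨⟨alt_z1 i j, fun μ hμ => ?_⟩, mg_z1 i j⟩
  have h := (Hom_z1 i j).mem hμ
  refine ⟨fun u => ?_, ?_⟩
  · rw [h.1, deg_some]
  · rw [h.1, deg_none, add_zero]

theorem Hom_tau (i j : Fin v) : Hom (tau K N v i j)
    (N • Pi.single none 1 + (∑ k : Fin N, Pi.single (some k) 1 +
      N • ∑ a, Pi.single (pt N a) 1))
    (Pi.single i (cN N) + Pi.single j (cN N)) := by
  have h := ((Hom_X (K := K) (none : Option (Fin N)) j).pow N).mul (Hom_z1 i j)
  have e : N • (Pi.single j 1 : Fin v → ℕ) + (Pi.single i (cN N) + Pi.single j (eN N)) =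
      Pi.single i (cN N) + Pi.single j (cN N) := by
    rw [add_left_comm, ← Pi.single_smul, ← Pi.single_add]
    congr 2
    simp [cN, add_comm]
  rw [e] at h
  exact h

theorem InZ_tau (i j : Fin v) : InZ (Fin N) v (N + 1) (2 * N) (tau K N v i j) := by
  refine ⟨⟨fun π => ?_, fun μ hμ => ?_⟩, fun u => ?_⟩
  · rw [tau, map_mul, alt_z1, map_pow, ren_X, Option.map_none, mul_smul_comm]
  · have h := (Hom_tau i j).mem hμ
    refine ⟨fun u => ?_, ?_⟩
    · rw [h.1, Pi.add_apply, deg_some]
      simp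
    · rw [h.1, Pi.add_apply, deg_none]
      simp
      ring
  · rw [tau, map_mul, mg_z1, mul_zero]

theorem InB_z1 (i j : Fin v) :
    InB (Fin N) v (N + 1) (N + 1) (X (none, i) * z1 K N v i j) := by
  refine ⟨(∏ y : Option (Fin N), X (some y, i)) * Md K N (some ∘ pt N) i j,
    ⟨fun π => ?_, fun μ hμ => ?_⟩, ?_⟩
  · rw [map_mul, map_prod, ren_Md]
    have h1 : ∏ y : Option (Fin N),
        ren (Option.map π) (X (some y, i) : PX K (Option (Option (Fin N))) v) =
        ∏ y : Option (Fin N), X (some y, i) := by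
      simp only [ren_X, Option.map_some]
      exact Equiv.prod_comp π (fun y => (X (some y, i) : PX K (Option (Option (Fin N))) v))
    have h2 := conj_pt (K := K) (v := v) N some π i j
    have h3 : Option.map π ∘ some ∘ pt N = some ∘ π ∘ pt N := by
      funext a
      simp
    rw [h1, h3, h2, mul_smul_comm]
  · have h0 := ((Hom.prod (K := K) (A := Option (Option (Fin N))) (v := v)
      (Finset.univ : Finset (Option (Fin N)))
      (f := fun y => (X (some y, i) : PX K (Option (Option (Fin N))) v))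
      (fun y _ => Hom_X (some y) i)).mul (Hom_Md (some ∘ pt N) i j)).mem hμ
    have e : ∀ z : Option (Option (Fin N)),
        (∑ a, (Pi.single ((some ∘ pt N) a) 1 : Option (Option (Fin N)) → ℕ)) z =
          if z = none then 0 else 1 := by
      intro z
      rw [Finset.sum_apply]
      cases z with
      | none => simp
      | some y =>
        have := sum_pt N y
        rw [Finset.sum_apply] at this
        simp only [Pi.single_apply, Function.comp_apply, Option.some.injEq, reduceCtorEq,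
          if_false] at this ⊢
        exact this
    refine ⟨fun u => ?_, ?_⟩
    · rw [h0.1, Pi.add_apply, Pi.smul_apply, e, Finset.sum_apply]
      simp [Pi.single_apply, add_comm]
    · rw [h0.1, Pi.add_apply, Pi.smul_apply, e, Finset.sum_apply]
      simp
  · rw [map_mul, map_prod, ren_Md, z1_eq, ← mul_assoc]
    congr 1
    rw [Fintype.prod_option]
    simp

theorem rename_tau (c : Fin v → Fin m) (i j : Fin v) :
    rename (Prod.map id c) (tau K N v i j) = tau K N m (c i) (c j) := by
  rw [tau, tau, z1_eq, z1_eq, map_mul, map_mul, map_pow, map_prod, rename_Md]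
  simp [rename_X]

end Z1C

theorem Z1C_thm : Stmt_Z1C := by
  intro K _ _ N v i j _
  refine ⟨Z1C.InZ_z1 i j, Z1C.InZ_tau i j, fun μ hμ => ((Z1C.Hom_z1 i j).mem hμ).2,
    fun μ hμ => ((Z1C.Hom_tau i j).mem hμ).2, Z1C.InB_z1 i j, fun m h => ?_, fun σ => ?_⟩
  · exact Z1C.rename_tau (Fin.castLE h) i j
  · exact Z1C.rename_tau σ i j

end Pool.Agent.VSY
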