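import Pool.Agent.VSY.ASM
import Pool.Agent.VSY.CAPM
import Pool.Agent.VSY.CAPS
import Pool.Agent.VSY.CH
import Pool.Agent.VSY.CRA
import Pool.Agent.VSY.DEG
import Pool.Agent.VSY.DUAL
import Pool.Agent.VSY.EX
import Pool.Agent.VSY.EXA
import Pool.Agent.VSY.GI
import Pool.Agent.VSY.HWL
import Pool.Agent.VSY.IND
import Pool.Agent.VSY.L0B
import Pool.Agent.VSY.L0C
import Pool.Agent.VSY.L0M
import Pool.Agent.VSY.L1M
import Pool.Agent.VSY.L2M
import Pool.Agent.VSY.L4M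
import Pool.Agent.VSY.L4S
import Pool.Agent.VSY.L5M
import Pool.Agent.VSY.LALL
import Pool.Agent.VSY.LLN
import Pool.Agent.VSY.LOW
import Pool.Agent.VSY.NAT
import Pool.Agent.VSY.OFF
import Pool.Agent.VSY.OPS
import Pool.Agent.VSY.OPW
import Pool.Agent.VSY.PAR
import Pool.Agent.VSY.QI
import Pool.Agent.VSY.QIE
import Pool.Agent.VSY.REL
import Pool.Agent.VSY.T2V
import Pool.Agent.VSY.T3M
import Pool.Agent.VSY.T4M
import Pool.Agent.VSY.T5M
import Pool.Agent.VSY.TB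
import Pool.Agent.VSY.TG
import Pool.Agent.VSY.TGEN
import Pool.Agent.VSY.TMX
import Pool.Agent.VSY.TR
import Pool.Agent.VSY.UNI
import Pool.Agent.VSY.VAR
import Pool.Agent.VSY.VU
import Pool.Agent.VSY.WB
import Pool.Agent.VSY.WT
import Pool.Agent.VSY.Z1C

/-!
# Veronese syzygies (MP_deb8da_ag): assembly of the modules
-/

namespace Pool.Agent.VSY

theorem wt : Stmt_WT := WT_thm (CAPM_thm REL_thm)

theorem ops : Stmt_OPS := OPS_thm NAT_thm DEG_thm

theorem ex : Stmt_EX := EX_thm IND_thm UNI_thm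

theorem tr : Stmt_TR := TR_thm wt ops VAR_thm PAR_thm ex

theorem tg : Stmt_TG := TG_thm CRA_thm GI_thm QI_thm DUAL_thm

theorem red : Stmt_RED := RED_thm VAR_thm

theorem low : Stmt_LOW := LOW_thm tr tg red

theorem t2v : Stmt_T2V := T2V_thm QIE_thm Z1C_thm ASM_thm

theorem tgen : Stmt_TGEN := TGEN_thm t2v wt ops VAR_thm PAR_thm ex low Z1C_thm

theorem hwl : Stmt_HWL := HWL_thm (CAPM_thm REL_thm) ops PAR_thm ex low WB_thm

theorem tmx : Stmt_TMX := TMX_thm hwl t2v WB_thm VAR_thm ops Z1C_thm OPW_thm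

theorem t3m : Stmt_T3M := T3M_thm Z1C_thm ops OPW_thm WB_thm

theorem t4m : Stmt_T4M := T4M_thm hwl tmx WB_thm Z1C_thm ops OPW_thm

theorem t5m : Stmt_T5M := T5M_thm t4m WB_thm ops

theorem lln : Stmt_LLN := LLN_thm NAT_thm WB_thm

theorem l1m : Stmt_L1M := L1M_thm ASM_thm

theorem l2m : Stmt_L2M := L2M_thm ASM_thm lln

theorem l4m : Stmt_L4M := L4M_thm t3m t5m l1m l2m lln ops Z1C_thm

theorem l4s : Stmt_L4S := L4S_thm l4m OPW_thm t2v VAR_thm Z1C_thm l1m lln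

theorem l5m : Stmt_L5M := L5M_thm l4m l4s l2m lln t5m l1m ops Z1C_thm

theorem lall : Stmt_LALL := LALL_thm l4m l4s l5m lln l1m tgen ops

theorem l0m : Stmt_L0M :=
  L0M_thm ops (EXA_thm IND_thm UNI_thm) PAR_thm low (L0B_thm CAPS_thm) L0C_thm lall

theorem thb : Stmt_THB := THB_thm low VU_thm tg red wt VAR_thm ops tr l0m

theorem ch : Stmt_CH := CH_thm tr tg red thb

theorem off : Stmt_OFF := OFF_thm

end Pool.Agent.VSY
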