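import Pool.Agent.VSY.Defs

/-!
# Veronese syzygies: basic lemmas about `ren`, `push`, degrees
-/

namespace Pool.Agent.VSY

open MvPolynomial

variable {K : Type} [Field K]

section ren

variable {A B D : Type} {v : ℕ}

@[simp] theorem ren_X (φ : A → B) (x : A) (j : Fin v) :
    ren φ (X (x, j) : PX K A v) = X (φ x, j) := by
  simp [ren, rename_X]

@[simp] theorem ren_C (φ : A → B) (a : K) : ren (v := v) φ (C a) = C a := by
  simp [ren]

theorem ren_ren (φ : A → B) (ψ : B → D) (f : PX K A v) : ren ψ (ren φ f) = ren (ψ ∘ φ) f := by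
  simp only [ren, rename_rename, Prod.map_comp_map, Function.comp_id]

@[simp] theorem ren_id (f : PX K A v) : ren id f = f := by
  simp [ren]

theorem ren_congr {φ ψ : A → B} (h : ∀ x, φ x = ψ x) (f : PX K A v) : ren φ f = ren ψ f := by
  rw [funext h]

theorem ren_monomial (φ : A → B) (m : A × Fin v →₀ ℕ) (a : K) :
    ren φ (monomial m a) = monomial (m.mapDomain (Prod.map φ id)) a := by
  simp [ren, rename_monomial]

theorem ren_injective {φ : A → B} (h : Function.Injective φ) :
    Function.Injective (ren (K := K) (v := v) φ) :=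
  rename_injective _ (Function.Injective.prodMap h Function.injective_id)

/-- Every monomial of `ren φ f` is the image of a monomial of `f`. -/
theorem exists_of_mem_support_ren (φ : A → B) (f : PX K A v) {m : B × Fin v →₀ ℕ}
    (hm : m ∈ (ren φ f).support) : ∃ m' ∈ f.support, m'.mapDomain (Prod.map φ id) = m := by
  rw [mem_support_iff, ren] at hm
  obtain ⟨m', h1, h2⟩ := coeff_rename_ne_zero _ _ _ hm
  exact ⟨m', by rwa [mem_support_iff], h1⟩

/-- Degrees after a substitution of points. -/
theorem mapDomain_deg [Fintype A] [DecidableEq B] (φ : A → B) (m : A × Fin v →₀ ℕ) (b : B)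
    (j : Fin v) :
    m.mapDomain (Prod.map φ id) (b, j) = ∑ a ∈ Finset.univ.filter (fun a => φ a = b), m (a, j) := by
  classical
  rw [Finsupp.mapDomain, Finsupp.sum_apply, Finsupp.sum_fintype _ _ (by simp),
    Fintype.sum_prod_type, Finset.sum_filter]
  refine Finset.sum_congr rfl fun a _ => ?_
  simp only [Prod.map_apply, id_eq, Finsupp.single_apply, Prod.mk.injEq]
  split_ifs with h
  · simp [h]
  · simp [h]

theorem mapDomain_sum [Fintype A] [DecidableEq B] (φ : A → B) (m : A × Fin v →₀ ℕ) (b : B) :
    ∑ j, m.mapDomain (Prod.map φ id) (b, j) =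
      ∑ a ∈ Finset.univ.filter (fun a => φ a = b), ∑ j, m (a, j) := by
  rw [Finset.sum_comm]
  exact Finset.sum_congr rfl fun j _ => mapDomain_deg φ m b j

theorem single_sum [Fintype A] [DecidableEq A] [DecidableEq B] (φ : A → B) (x : A) (b : B)
    (i j : Fin v) :
    (Pi.single (b, j) (1 : PX K B v) : B × Fin v → PX K B v) (φ x, i) =
      ∑ a ∈ Finset.univ.filter (fun a => φ a = b),
        ren φ ((Pi.single (a, j) (1 : PX K A v) : A × Fin v → PX K A v) (x, i)) := by
  have h : ∀ a : A, ren φ ((Pi.single (a, j) (1 : PX K A v) : A × Fin v → PX K A v) (x, i)) =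
      if x = a then (if i = j then 1 else 0) else 0 := by
    intro a
    simp only [Pi.single_apply, Prod.mk.injEq]
    split_ifs with h1 h2 h2 <;> simp_all
  simp only [h]
  rw [Finset.sum_ite_eq]
  simp only [Finset.mem_filter, Finset.mem_univ, true_and, Pi.single_apply, Prod.mk.injEq]
  split_ifs <;> simp_all

/-- The chain rule. -/
theorem pderiv_ren [Fintype A] [DecidableEq B] (φ : A → B) (f : PX K A v) (b : B) (j : Fin v) :
    pderiv (b, j) (ren φ f) =
      ∑ a ∈ Finset.univ.filter (fun a => φ a = b), ren φ (pderiv (a, j) f) := by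
  classical
  induction f using MvPolynomial.induction_on with
  | C a => simp
  | add p q hp hq => simp only [map_add, hp, hq, Finset.sum_add_distrib]
  | mul_X p x hp =>
    obtain ⟨x, i⟩ := x
    simp only [map_mul, ren_X, Derivation.leibniz, hp, smul_eq_mul, pderiv_X, map_add,
      Finset.sum_add_distrib, Finset.mul_sum]
    congr 1
    rw [single_sum, Finset.mul_sum]

end ren

section push

variable {A B D : Type} {v k : ℕ}

theorem push_apply (φ : A → B) (c : SA K A v k) (ξ : Fin k → B → K) :
    push φ c ξ = ren φ (c fun i => ξ i ∘ φ) := rfl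

theorem push_push (φ : A → B) (ψ : B → D) (c : SA K A v k) :
    push ψ (push φ c) = push (ψ ∘ φ) c := by
  ext1 ξ
  simp only [push_apply, ren_ren]
  rfl

@[simp] theorem push_id (c : SA K A v k) : push id c = c := by
  ext1 ξ
  simp [push_apply]

theorem push_add (φ : A → B) (c c' : SA K A v k) : push φ (c + c') = push φ c + push φ c' := by
  ext1 ξ
  simp [push_apply]

theorem push_smul (φ : A → B) (a : K) (c : SA K A v k) : push φ (a • c) = a • push φ c := by
  ext1 ξ
  simp [push_apply]

theorem push_zsmul (φ : A → B) (a : ℤ) (c : SA K A v k) : push φ (a • c) = a • push φ c := by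
  ext1 ξ
  simp [push_apply]

@[simp] theorem push_zero (φ : A → B) : push φ (0 : SA K A v k) = 0 := by
  ext1 ξ
  simp [push_apply]

theorem push_sub (φ : A → B) (c c' : SA K A v k) : push φ (c - c') = push φ c - push φ c' := by
  ext1 ξ
  simp [push_apply]

/-- A super polynomial is determined by its values at the coordinate vectors. -/
theorem SA_ext [Finite A] [DecidableEq A] {c c' : SA K A v k}
    (h : ∀ t : Fin k → A, c (sgl K t) = c' (sgl K t)) : c = c' := by
  have : Fintype A := Fintype.ofFinite A
  refine Module.Basis.ext_alternating (Pi.basisFun K A) fun t _ => ?_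
  have h1 : (fun i => (Pi.basisFun K A) (t i)) = sgl K t := by
    funext i
    simp [sgl]
  rw [h1]
  exact h t

theorem sgl_perm [DecidableEq A] (c : SA K A v k) (t : Fin k → A) (σ : Equiv.Perm (Fin k)) :
    c (sgl K (t ∘ σ)) = ((Equiv.Perm.sign σ : ℤˣ) : ℤ) • c (sgl K t) := by
  have := c.map_perm (sgl K t) σ
  rw [Units.smul_def] at this
  rw [← this]
  rfl

theorem sgl_eq_zero [DecidableEq A] (c : SA K A v k) (t : Fin k → A)
    (h : ¬ Function.Injective t) : c (sgl K t) = 0 := by
  rw [Function.Injective] at h
  push Not at h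
  obtain ⟨i, j, hij, hne⟩ := h
  exact c.map_eq_zero_of_eq _ (by simp [sgl, hij]) hne

/-- The values of `push φ c`. -/
theorem push_sgl [Fintype A] [DecidableEq A] [DecidableEq B] (φ : A → B) (c : SA K A v k)
    (t : Fin k → B) :
    push φ c (sgl K t) =
      ∑ s ∈ Finset.univ.filter (fun s : Fin k → A => φ ∘ s = t), ren φ (c (sgl K s)) := by
  classical
  rw [push_apply]
  have h1 : (fun i => sgl K t i ∘ φ) =
      fun i => ∑ a ∈ Finset.univ.filter (fun a => φ a = t i), (Pi.single a (1 : K) : A → K) := by
    funext i a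
    simp only [sgl, Function.comp_apply, Finset.sum_apply, Pi.single_apply]
    rw [Finset.sum_ite_eq]
    simp [eq_comm]
  rw [h1]
  have h2 := c.toMultilinearMap.map_sum_finset
    (fun _ a => (Pi.single a (1 : K) : A → K))
    (fun i => Finset.univ.filter (fun a => φ a = t i))
  simp only [AlternatingMap.coe_multilinearMap] at h2
  rw [h2, map_sum]
  refine Finset.sum_congr ?_ fun s _ => rfl
  ext s
  simp only [Fintype.mem_piFinset, Finset.mem_filter, Finset.mem_univ, true_and]
  exact ⟨fun h => funext h, fun h i => congrFun h i⟩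

end push

section chains

variable {U V : Type} [Fintype U] [DecidableEq U] [Fintype V] [DecidableEq V] {v d s r : ℕ}

theorem InC.zero : InC U v d s r (0 : PX K (Option U) v) :=
  ⟨fun π => by simp, fun m hm => by simp at hm⟩

theorem InC.add {f g : PX K (Option U) v} (hf : InC U v d s r f) (hg : InC U v d s r g) :
    InC U v d s r (f + g) :=
  ⟨fun π => by rw [map_add, hf.alt, hg.alt, smul_add], fun m hm => by
    classical
    rcases Finset.mem_union.1 (support_add hm) with h | h
    · exact hf.deg m h
    · exact hg.deg m h⟩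

theorem InC.smul (a : K) {f : PX K (Option U) v} (hf : InC U v d s r f) :
    InC U v d s r (a • f) :=
  ⟨fun π => by rw [map_smul, hf.alt, smul_comm], fun m hm => hf.deg m (support_smul hm)⟩

theorem InC.neg {f : PX K (Option U) v} (hf : InC U v d s r f) : InC U v d s r (-f) := by
  have := hf.smul (-1)
  rwa [neg_one_smul] at this

theorem InC.sub {f g : PX K (Option U) v} (hf : InC U v d s r f) (hg : InC U v d s r g) :
    InC U v d s r (f - g) := by
  rw [sub_eq_add_neg]
  exact hf.add hg.neg

theorem InZ.zero : InZ U v d r (0 : PX K (Option U) v) := ⟨InC.zero, fun u => by simp⟩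

theorem InZ.add {f g : PX K (Option U) v} (hf : InZ U v d r f) (hg : InZ U v d r g) :
    InZ U v d r (f + g) :=
  ⟨hf.1.add hg.1, fun u => by rw [map_add, hf.2, hg.2, add_zero]⟩

theorem InZ.smul (a : K) {f : PX K (Option U) v} (hf : InZ U v d r f) : InZ U v d r (a • f) :=
  ⟨hf.1.smul a, fun u => by rw [map_smul, hf.2, smul_zero]⟩

theorem InB.zero : InB U v d r (0 : PX K (Option U) v) := ⟨0, InC.zero, by simp⟩

theorem InB.add {f g : PX K (Option U) v} (hf : InB U v d r f) (hg : InB U v d r g) :
    InB U v d r (f + g) := by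
  obtain ⟨a, ha, rfl⟩ := hf
  obtain ⟨b, hb, rfl⟩ := hg
  exact ⟨a + b, ha.add hb, by rw [map_add]⟩

theorem InB.smul (a : K) {f : PX K (Option U) v} (hf : InB U v d r f) : InB U v d r (a • f) := by
  obtain ⟨g, hg, rfl⟩ := hf
  exact ⟨a • g, hg.smul a, by rw [map_smul]⟩

/-- The space of cycles. -/
def ZZ (K : Type) [Field K] (U : Type) [Fintype U] [DecidableEq U] (v d r : ℕ) :
    Submodule K (PX K (Option U) v) where
  carrier := {f | InZ U v d r f}
  add_mem' := fun ha hb => ha.add hb
  zero_mem' := InZ.zero
  smul_mem' := fun a _ hf => hf.smul a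

/-- The space of boundaries. -/
def BB (K : Type) [Field K] (U : Type) [Fintype U] [DecidableEq U] (v d r : ℕ) :
    Submodule K (PX K (Option U) v) where
  carrier := {f | InB U v d r f}
  add_mem' := fun ha hb => ha.add hb
  zero_mem' := InB.zero
  smul_mem' := fun a _ hf => hf.smul a

theorem mem_ZZ {f : PX K (Option U) v} : f ∈ ZZ K U v d r ↔ InZ U v d r f := Iff.rfl

theorem mem_BB {f : PX K (Option U) v} : f ∈ BB K U v d r ↔ InB U v d r f := Iff.rfl

/-- Transport of chains along a bijection of the alternating points. -/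
theorem InC.equiv (e : U ≃ V) {f : PX K (Option U) v} (hf : InC U v d s r f) :
    InC V v d s r (ren (Option.map e) f) := by
  refine ⟨fun π => ?_, fun m hm => ?_⟩
  · have h1 := hf.alt (e.trans (π.trans e.symm))
    have h2 : Option.map π ∘ Option.map e = Option.map e ∘ Option.map (e.trans (π.trans e.symm)) := by
      funext x
      cases x <;> simp
    rw [ren_ren, h2, ← ren_ren, h1, map_zsmul]
    congr 2
    simp [Equiv.Perm.sign_trans_trans_symm]
  · obtain ⟨m', hm', rfl⟩ := exists_of_mem_support_ren _ _ hm
    have h := hf.deg m' hm'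
    have hfil : ∀ y : Option V, (Finset.univ.filter fun a : Option U => Option.map e a = y) =
        {Option.map e.symm y} := by
      intro y
      ext a
      simp only [Finset.mem_filter, Finset.mem_univ, true_and, Finset.mem_singleton]
      constructor
      · rintro rfl
        cases a <;> simp
      · rintro rfl
        cases y <;> simp
    refine ⟨fun u => ?_, ?_⟩
    · rw [mapDomain_sum, hfil, Finset.sum_singleton]
      exact h.1 _
    · rw [mapDomain_sum, hfil, Finset.sum_singleton]
      exact h.2

end chains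

end Pool.Agent.VSY
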