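import Pool.Agent.VSY.StmtsC
import Pool.Agent.VSY.CH

/-!
# Veronese syzygies: the numbers for `q ≥ 3` (helper94)
-/

namespace Pool.Agent.VSY.CHQ

open Pool.Agent.VSY.CH

variable {K : Type} [Field K] [CharZero K]

/-- The difference of the two sides, times two. -/
def G (N q s : ℕ) : ℤ :=
  2 * ((N + 1 + q).choose q : ℕ) - 2 * ((s + q).choose q : ℕ) - 2 * ((q : ℤ) + 1) -
    (N : ℤ) * (((q : ℤ) + 1) * (q + 2) - 4) + 2 * ((q : ℤ) + 1) * s

theorem G_step (N k s : ℕ) :
    G N (k + 1) s - G N (k + 1) (s + 1) = 2 * ((s + k + 1).choose k : ℕ) - 2 * ((k : ℤ) + 2) := by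
  have h : (s + 1 + (k + 1)).choose (k + 1) = (s + k + 1).choose k + (s + (k + 1)).choose (k + 1) := by
    have e : s + 1 + (k + 1) = s + k + 1 + 1 := by ring
    rw [e, Nat.choose_succ_succ]
    rfl
  unfold G
  rw [h]
  push_cast
  ring

theorem G_last (N k : ℕ) : G N (k + 1) N = G N k 0 := by
  have h : (N + 1 + (k + 1)).choose (k + 1) =
      (N + 1 + k).choose k + (N + (k + 1)).choose (k + 1) := by
    have e : N + 1 + (k + 1) = N + 1 + k + 1 := by ring
    have e2 : N + (k + 1) = N + 1 + k := by ring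
    rw [e, e2, Nat.choose_succ_succ]
  unfold G
  rw [h, Nat.zero_add, Nat.choose_self]
  push_cast
  ring

theorem ch_low (k s : ℕ) (hs : 1 ≤ s) : ((k : ℤ) + 2) * (k + 1) ≤ 2 * ((s + k + 1).choose k : ℕ) := by
  have h1 : (k + 2).choose k ≤ (s + k + 1).choose k := Nat.choose_le_choose k (by omega)
  have h2 : (k + 2).choose k = (k + 1 + 1).choose 2 := by
    rw [← Nat.choose_symm (by omega : k ≤ k + 2)]
    congr 1
    omega
  have h3 := ch2 (k + 1)
  have h4 : (k + 2) * (k + 1) ≤ 2 * (s + k + 1).choose k := by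
    rw [← h2] at h3
    have : (k + 1 + 1) * (k + 1) ≤ 2 * (s + k + 1).choose k := by
      rw [← h3]
      omega
    exact this
  exact_mod_cast h4

theorem G_anti (N k s : ℕ) (hs : 1 ≤ s) :
    G N (k + 1) (s + 1) + ((k : ℤ) + 2) * (k - 1) ≤ G N (k + 1) s := by
  have h1 := G_step N k s
  have h2 := ch_low k s hs
  nlinarith

theorem G_ge (N k : ℕ) (hk : 1 ≤ k) (j : ℕ) : ∀ s, 1 ≤ s → s + j = N →
    G N (k + 1) N ≤ G N (k + 1) s := by
  induction j with
  | zero =>
    intro s _ hs
    rw [add_zero] at hs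
    rw [hs]
  | succ j ih =>
    intro s hs1 hs
    have h1 := ih (s + 1) (by omega) (by omega)
    have h2 := G_anti N k s hs1
    have hk' : (1 : ℤ) ≤ k := by exact_mod_cast hk
    nlinarith

theorem G_zero (N : ℕ) (hN : 4 ≤ N) (k : ℕ) : 2 ≤ G N (k + 2) 0 := by
  have hN' : (4 : ℤ) ≤ N := by exact_mod_cast hN
  induction k with
  | zero =>
    have h := ch2 (N + 2)
    have h' : (2 : ℤ) * ((N + 1 + 2).choose 2 : ℕ) = (N + 2 + 1) * (N + 2) := by
      have : N + 1 + 2 = N + 2 + 1 := by ring
      rw [this]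
      exact_mod_cast h
    unfold G
    simp only [Nat.zero_add, Nat.choose_self]
    push_cast
    rw [h']
    nlinarith
  | succ k ih =>
    have h1 := G_step N (k + 2) 0
    have h2 := G_anti N (k + 2) 1 le_rfl
    have h3 := G_ge N (k + 2) (by omega) (N - 2) 2 (by omega) (by omega)
    rw [G_last] at h3
    have h4 : (0 + (k + 2) + 1).choose (k + 2) = k + 2 + 1 := by
      rw [Nat.zero_add]
      exact Nat.choose_succ_self_right (k + 2)
    rw [h4] at h1
    have hk : (0 : ℤ) ≤ k := by positivity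
    have e1 : G N (k + 1 + 2) 0 = G N (k + 2 + 1) 0 := rfl
    rw [e1]
    push_cast at h1 h2
    have h5 : (0 : ℤ) + 1 = 1 := rfl
    have h6 : G N (k + 2 + 1) (0 + 1) = G N (k + 2 + 1) 1 := rfl
    have h7 : G N (k + 2 + 1) (1 + 1) = G N (k + 2 + 1) 2 := rfl
    rw [h6] at h1
    rw [h7] at h2
    nlinarith

theorem G_nonneg (N : ℕ) (hN : 4 ≤ N) (q s : ℕ) (hq : 3 ≤ q) (hs : s ≤ N) : 0 ≤ G N q s := by
  obtain ⟨k, rfl⟩ : ∃ k, q = k + 2 + 1 := ⟨q - 3, by omega⟩
  rcases Nat.eq_zero_or_pos s with rfl | h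
  · have := G_zero N hN (k + 1)
    have e : G N (k + 2 + 1) 0 = G N (k + 1 + 2) 0 := rfl
    rw [e]
    linarith
  · have h1 := G_ge N (k + 2) (by omega) (N - s) s h (by omega)
    rw [G_last] at h1
    have := G_zero N hN k
    linarith

/-- The inequality for Theorem G. -/
theorem ineq (N : ℕ) (hN : 4 ≤ N) (q s p : ℕ) (hq : 3 ≤ q) (hs : s ≤ N)
    (hp : 2 * p + 4 * N ≤ N * (q * (q + 1)) + 2 * ((q + 1) * (N - s))) :
    p + (s + q).choose q + (q + 1) ≤ (N + 1 + q).choose q := by
  have h := G_nonneg N hN q s hq hs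
  unfold G at h
  obtain ⟨m, rfl⟩ : ∃ m, N = s + m := ⟨N - s, by omega⟩
  rw [Nat.add_sub_cancel_left] at hp
  have hp' : (2 : ℤ) * p + 4 * (s + m) ≤ (s + m) * (q * (q + 1)) + 2 * ((q + 1) * m) := by
    exact_mod_cast hp
  have h2 : (2 : ℤ) * (p + ((s + q).choose q : ℕ) + (q + 1)) ≤ 2 * ((s + m + 1 + q).choose q : ℕ) := by
    push_cast at h ⊢
    nlinarith
  have h3 : 2 * (p + (s + q).choose q + (q + 1)) ≤ 2 * (s + m + 1 + q).choose q := by
    exact_mod_cast h2
  omega

/-- The rows `r ≥ 3 (d - 1)`. -/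
theorem rows (h1 : Stmt_TR) (h2 : Stmt_TG) (h3 : Stmt_RED) (h4 : Stmt_CH) (N : ℕ) (hN : 4 ≤ N)
    (j : ℕ) : ∀ q r p : ℕ, 3 * N + j = r → 3 ≤ q → q * N ≤ r → r ≤ (q + 1) * N →
      2 * p + 4 * N ≤ N * (q * (q + 1)) + 2 * ((q + 1) * (r - q * N)) → W K (N + 1) p r := by
  induction j with
  | zero =>
    intro q r p hr hq hqr hrq hp
    rw [add_zero] at hr
    have hq3 : q = 3 := by
      by_contra hne
      have h5 : 4 * N ≤ q * N := Nat.mul_le_mul_right N (by omega)
      omega
    subst hq3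
    subst hr
    have hp' : p ≤ 4 * N := by
      rw [Nat.sub_self] at hp
      omega
    have e : 3 * N = 2 * (N + 1) + (N - 2) := by omega
    rw [e]
    intro v
    refine (h4 K).1 v (N + 1) (N - 2) p (by omega) ?_ (by omega)
    have hL := lend_eq (by omega : N - 2 + 3 ≤ N + 1)
    obtain ⟨M, rfl⟩ : ∃ M, N = M + 4 := ⟨N - 4, by omega⟩
    have e2 : ((M + 4 - 2 : ℕ) : ℤ) = M + 2 := by
      have : M + 4 - 2 = M + 2 := by omega
      rw [this]
      push_cast
      ring
    rw [e2] at hL
    have hp2 : (p : ℤ) ≤ 4 * (M + 4) := by exact_mod_cast hp'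
    push_cast at hL
    have hM : (0 : ℤ) ≤ M := by positivity
    have e5 : M + 4 - 2 = M + 2 := by omega
    rw [e5]
    have e6 : ((M : ℤ) + 4 + 1 + 2) * (M + 4 + 1 + 1) - (M + 4 + 1 - (M + 2) - 1) *
      (M + 4 + 1 - (M + 2) - 2) - 4 = M * M + 13 * M + 36 := by ring
    rw [e6] at hL
    have hMM : (0 : ℤ) ≤ M * M := mul_nonneg hM hM
    linarith
  | succ j ihj =>
    -- the main case
    have main : ∀ p q r : ℕ, 3 * N + (j + 1) = r → 3 ≤ q → q * N < r → r ≤ (q + 1) * N →
        2 * p + 4 * N ≤ N * (q * (q + 1)) + 2 * ((q + 1) * (r - q * N)) → W K (N + 1) p r := by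
      intro p
      induction p using Nat.strong_induction_on with
      | _ p ih =>
        intro q r hr hq hqr hrq hp
        have e1 : (q + 1) * N = q * N + N := by ring
        obtain ⟨s, hs⟩ : ∃ s, r + s = (q + 1) * N := ⟨(q + 1) * N - r, by omega⟩
        have hsN : s ≤ N := by omega
        have e2 : r - q * N = N - s := by omega
        refine step h1 h2 h3 (q := q) (by omega) ?_ (Or.inr ⟨s, ?_, ?_⟩) ?_ ?_
        · rw [Nat.add_sub_cancel]
          omega
        · rw [Nat.add_sub_cancel]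
          exact hs
        · rw [e2] at hp
          exact ineq N hN q s p hq hsN hp
        · intro p' hp'
          exact ih p' (by omega) q r hr hq hqr hrq (by omega)
        · intro p' r' hp' hr'
          refine ihj q r' p' (by omega) hq (by omega) (by omega) ?_
          have e3 : r - q * N = r' - q * N + 1 := by omega
          rw [e3] at hp
          have e4 : 2 * ((q + 1) * (r' - q * N + 1)) =
            2 * ((q + 1) * (r' - q * N)) + 2 * (q + 1) := by ring
          rw [e4] at hp
          omega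
    intro q r p hr hq hqr hrq hp
    rcases Nat.lt_or_ge (q * N) r with h | h
    · exact main p q r hr hq h hrq hp
    · have hqr' : q * N = r := le_antisymm hqr h
      have hq4 : 4 ≤ q := by
        by_contra hne
        have : q = 3 := by omega
        subst this
        omega
      obtain ⟨k, rfl⟩ : ∃ k, q = k + 1 := ⟨q - 1, by omega⟩
      have e1 : (k + 1) * N = k * N + N := by ring
      refine main p k r hr (by omega) (by omega) (by omega) ?_
      have e2 : r - (k + 1) * N = 0 := by omega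
      have e3 : r - k * N = N := by omega
      rw [e2, mul_zero, mul_zero, add_zero] at hp
      rw [e3]
      have e4 : N * ((k + 1) * (k + 1 + 1)) = N * (k * (k + 1)) + 2 * ((k + 1) * N) := by ring
      rw [← e4]
      exact hp

/-- `d = 4`. -/
theorem four (h1 : Stmt_TR) (h2 : Stmt_TG) (h3 : Stmt_RED) (h4 : Stmt_CH) :
    ∀ p, p ≤ 23 → W K 4 p 12 := by
  have r9 : ∀ p, p ≤ 11 → W K 4 p 9 := by
    intro p hp v
    refine (h4 K).1 v 4 1 p (by omega) ?_ (by omega)
    have hL := lend_eq (by omega : 1 + 3 ≤ 4)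
    have hp' : (p : ℤ) ≤ 11 := by exact_mod_cast hp
    push_cast at hL
    linarith
  have r10 : ∀ p, p ≤ 15 → W K 4 p 10 := by
    intro p
    induction p using Nat.strong_induction_on with
    | _ p ih =>
      intro hp
      refine step h1 h2 h3 (q := 3) (by omega) (by omega) (Or.inr ⟨2, rfl, ?_⟩) ?_ ?_
      · have e1 : (2 + 3).choose 3 = 10 := by decide
        have e2 : (4 + 3).choose 3 = 35 := by decide
        omega
      · intro p' h
        exact ih p' (by omega) (by omega)
      · intro p' r' h hr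
        obtain rfl : r' = 9 := by omega
        exact r9 p' (by omega)
  have r11 : ∀ p, p ≤ 19 → W K 4 p 11 := by
    intro p
    induction p using Nat.strong_induction_on with
    | _ p ih =>
      intro hp
      refine step h1 h2 h3 (q := 3) (by omega) (by omega) (Or.inr ⟨1, rfl, ?_⟩) ?_ ?_
      · have e1 : (1 + 3).choose 3 = 4 := by decide
        have e2 : (4 + 3).choose 3 = 35 := by decide
        omega
      · intro p' h
        exact ih p' (by omega) (by omega)
      · intro p' r' h hr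
        obtain rfl : r' = 10 := by omega
        exact r10 p' (by omega)
  intro p
  induction p using Nat.strong_induction_on with
  | _ p ih =>
    intro hp
    refine step h1 h2 h3 (q := 3) (by omega) (by omega) (Or.inr ⟨0, rfl, ?_⟩) ?_ ?_
    · have e1 : (0 + 3).choose 3 = 1 := by decide
      have e2 : (4 + 3).choose 3 = 35 := by decide
      omega
    · intro p' h
      exact ih p' (by omega) (by omega)
    · intro p' r' h hr
      obtain rfl : r' = 11 := by omega
      exact r11 p' (by omega)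

end Pool.Agent.VSY.CHQ

namespace Pool.Agent.VSY

open CHQ

/-- CHQ: the numbers for `q ≥ 3`. -/
theorem CHQ_thm (h1 : Stmt_TR) (h2 : Stmt_TG) (h3 : Stmt_RED) (h4 : Stmt_CH) : Stmt_CHQ := by
  intro K _ _
  refine ⟨?_, fun v p hp => four h1 h2 h3 h4 p hp v⟩
  intro v d q b p hd hq hb hp
  obtain ⟨N, rfl⟩ : ∃ N, d = N + 1 := ⟨d - 1, by omega⟩
  have e0 : q * (N + 1) + b = q * N + (q + b) := by ring
  have e1 : (q + 1) * N = q * N + N := by ring
  have e2 : 3 * N ≤ q * N := Nat.mul_le_mul_right N hq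
  refine rows h1 h2 h3 h4 N (by omega) (q * (N + 1) + b - 3 * N) q _ p (by omega) hq (by omega)
    (by omega) ?_ v
  have e3 : q * (N + 1) + b - q * N = q + b := by omega
  rw [e3]
  rw [Nat.add_sub_cancel] at hp
  exact hp

end Pool.Agent.VSY
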