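import Mathlib

/-!
# Veronese syzygies (MP_deb8da_ag): the points model of the Koszul complex

A Koszul chain in `Λ^p S_d ⊗ S_r` is a polynomial `f(u_1, ..., u_p; w)` in the coordinates of
points of `K^v`, alternating in the `u`'s, homogeneous of degree `d` in every `u` and of degree `r`
in `w`.  The points are indexed by `Option U`: `none` is `w`, `some u` are the `u`'s.
-/

namespace Pool.Agent.VSY

open MvPolynomial

/-- Polynomials in the coordinates of the points `x : A`; every point has `v` coordinates. -/
abbrev PX (K : Type) [Field K] (A : Type) (v : ℕ) : Type := MvPolynomial (A × Fin v) K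

variable {K : Type} [Field K]

/-- Substitution of points: the point `x` becomes the point `φ x`. -/
noncomputable def ren {A B : Type} {v : ℕ} (φ : A → B) : PX K A v →ₐ[K] PX K B v :=
  rename (Prod.map φ id)

/-- The point `some u` is moved to the point `none` (that is `w`). -/
def mg {U : Type} [DecidableEq U] (u : U) : Option U → Option U :=
  Function.update id (some u) none

/-- Koszul chains with alternating points `u : U`, of degree `d` in each of them and of degree
`r - s` in the point `none`. -/
structure InC (U : Type) [Fintype U] [DecidableEq U] (v d s r : ℕ) (f : PX K (Option U) v) :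
    Prop where
  alt : ∀ π : Equiv.Perm U, ren (Option.map π) f = ((Equiv.Perm.sign π : ℤˣ) : ℤ) • f
  deg : ∀ m ∈ f.support, (∀ u : U, ∑ j, m (some u, j) = d) ∧ ∑ j, m (none, j) + s = r

/-- Koszul cycles: `f` vanishes when one of the alternating points is moved to `w`. -/
def InZ (U : Type) [Fintype U] [DecidableEq U] (v d r : ℕ) (f : PX K (Option U) v) : Prop :=
  InC U v d 0 r f ∧ ∀ u, ren (mg u) f = 0

/-- Koszul boundaries: `f` comes from a chain with one more alternating point, moved to `w`. -/
def InB (U : Type) [Fintype U] [DecidableEq U] (v d r : ℕ) (f : PX K (Option U) v) : Prop :=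
  ∃ g : PX K (Option (Option U)) v, InC (Option U) v d d r g ∧ ren Option.join g = f

variable (K) in
/-- The vanishing of the homology at `Λ^p S_d ⊗ S_r` (in `v` variables). -/
def Van (v d p r : ℕ) : Prop :=
  ∀ (U : Type) [Fintype U] [DecidableEq U], Fintype.card U = p →
    ∀ f : PX K (Option U) v, InZ U v d r f → InB U v d r f

variable (K) in
/-- The vanishing with parameters: the points of `A` outside `S` and different from `w` are
parameters. -/
def PVan (v d p r : ℕ) : Prop :=
  ∀ (A : Type) [Fintype A] [DecidableEq A] (w : A) (S : Finset A), w ∉ S → S.card = p →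
    ∀ f : PX K A v,
    (∀ π : Equiv.Perm A, (∀ x, x ∉ S → π x = x) →
      ren π f = ((Equiv.Perm.sign π : ℤˣ) : ℤ) • f) →
    (∀ m ∈ f.support, (∀ x ∈ S, ∑ j, m (x, j) = d) ∧ ∑ j, m (w, j) = r) →
    (∀ u ∈ S, ren (Function.update id u w) f = 0) →
    ∃ G : PX K (Option A) v,
      (∀ π : Equiv.Perm (Option A), (∀ x, x ∉ S → π (some x) = some x) →
        ren π G = ((Equiv.Perm.sign π : ℤˣ) : ℤ) • G) ∧
      (∀ m ∈ G.support, ∑ j, m (none, j) = d ∧ (∀ x ∈ S, ∑ j, m (some x, j) = d) ∧
        ∑ j, m (some w, j) + d = r) ∧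
      (∀ x, x ∉ S → x ≠ w → ∀ e, (∀ m ∈ f.support, ∑ j, m (x, j) = e) →
        ∀ m ∈ G.support, ∑ j, m (some x, j) = e) ∧
      (∀ σ : Equiv.Perm A, (∀ x ∈ S, σ x = x) → σ w = w → ren σ f = f →
        ren (Option.map σ) G = G) ∧
      ren (fun o => o.getD w) G = f

/-! ## The super Koszul complex -/

/-- Super polynomials of odd degree `k`: alternating forms in `k` functions on the points with
values in polynomials (the odd coordinates of the points are replaced by `k` functions). -/
abbrev SA (K : Type) [Field K] (A : Type) (v k : ℕ) : Type := (A → K) [⋀^Fin k]→ₗ[K] PX K A v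

variable (K) in
/-- The coordinate vectors of the points `t i`. -/
def sgl {A : Type} [DecidableEq A] {k : ℕ} (t : Fin k → A) : Fin k → A → K :=
  fun i => Pi.single (t i) 1

/-- Substitution of points in super polynomials. -/
noncomputable def push {A B : Type} {v k : ℕ} (φ : A → B) (c : SA K A v k) : SA K B v k :=
  (ren φ).toLinearMap.compAlternatingMap (c.compLinearMap (LinearMap.funLeft K K φ))

/-- The polarisation operator `E_ij = ∑_x X_{x,i} ∂/∂X_{x,j}`. -/
noncomputable def Eij {A : Type} [Fintype A] {v : ℕ} (i j : Fin v) : PX K A v →ₗ[K] PX K A v :=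
  ∑ x : A, LinearMap.mulLeft K (X (x, i)) ∘ₗ (pderiv (x, j)).toLinearMap

/-- `E_ij` on super polynomials. -/
noncomputable def EA {A : Type} [Fintype A] {v k : ℕ} (i j : Fin v) (c : SA K A v k) :
    SA K A v k :=
  (Eij i j).compAlternatingMap c

/-- The derivation `∑_x ξ_x ∂/∂X_{x,j}`. -/
noncomputable def dd {A : Type} [Fintype A] {v : ℕ} (j : Fin v) :
    (A → K) →ₗ[K] PX K A v →ₗ[K] PX K A v :=
  ∑ x : A, (LinearMap.proj x : (A → K) →ₗ[K] K).smulRight (pderiv (x, j)).toLinearMap

/-- The odd operator `D_j = ∑_x η_x ∂/∂X_{x,j}`. -/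
noncomputable def Dop {A : Type} [Fintype A] {v k : ℕ} (j : Fin v) (c : SA K A v k) :
    SA K A v (k + 1) :=
  AlternatingMap.alternatizeUncurryFin
    { toFun := fun ξ => (dd j ξ).compAlternatingMap c
      map_add' := fun ξ ζ => by ext; simp
      map_smul' := fun a ξ => by ext; simp }

/-- The odd operator `E*_i = ∑_x X_{x,i} ∂/∂η_x`. -/
noncomputable def Est {A : Type} [Fintype A] [DecidableEq A] {v k : ℕ} (i : Fin v)
    (c : SA K A v (k + 1)) : SA K A v k :=
  ∑ x : A, (LinearMap.mulLeft K (X (x, i) : PX K A v)).compAlternatingMap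
    (c.curryLeft (Pi.single x 1))

/-- `D_{j_1} ... D_{j_k} g` for the list `[j_1, ..., j_k]`. -/
noncomputable def yL {A : Type} [Fintype A] {v : ℕ} :
    (L : List (Fin v)) → PX K A v → SA K A v L.length
  | [], g => AlternatingMap.constOfIsEmpty K (A → K) (Fin 0) g
  | j :: L, g => Dop j (yL L g)

/-- `E*_{j_k} ... E*_{j_1} c` for the list `[j_1, ..., j_k]`. -/
noncomputable def capL {A : Type} [Fintype A] [DecidableEq A] {v : ℕ} :
    (L : List (Fin v)) → SA K A v L.length → PX K A v
  | [], c => c Fin.elim0
  | j :: L, c => capL L (Est j c)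

/-- The Capelli factor. -/
def capc {v : ℕ} (ν : Fin v → ℕ) : List (Fin v) → ℕ
  | [] => 1
  | j :: L => (ν j + L.length) * capc ν L

/-- Chains of the super Koszul complex. -/
structure KC (U : Type) [Fintype U] [DecidableEq U] (v d s r k : ℕ) (c : SA K (Option U) v k) :
    Prop where
  alt : ∀ π : Equiv.Perm U, push (Option.map π) c = ((Equiv.Perm.sign π : ℤˣ) : ℤ) • c
  deg : ∀ t : Fin k → Option U, ∀ m ∈ (c (sgl K t)).support,
    (∀ u : U, ∑ j, m (some u, j) + (Finset.univ.filter fun i => t i = some u).card = d) ∧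
      ∑ j, m (none, j) + (Finset.univ.filter fun i => t i = none).card + s = r

/-- Cycles of the super Koszul complex. -/
def KZ (U : Type) [Fintype U] [DecidableEq U] (v d r k : ℕ) (c : SA K (Option U) v k) : Prop :=
  KC U v d 0 r k c ∧ ∀ u, push (mg u) c = 0

/-- Boundaries of the super Koszul complex. -/
def KB (U : Type) [Fintype U] [DecidableEq U] (v d r k : ℕ) (c : SA K (Option U) v k) : Prop :=
  ∃ h : SA K (Option (Option U)) v k, KC (Option U) v d d r k h ∧ push Option.join h = c

/-! ## The ideals used in the duality argument -/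

/-- Every monomial of `f` is divisible by the `d`-th power of one of the first `i` coordinates of
the point `none`. -/
def InI {U : Type} {v : ℕ} (d i : ℕ) (f : PX K (Option U) v) : Prop :=
  ∀ m ∈ f.support, ∃ l : Fin v, l.val < i ∧ d ≤ m (none, l)

variable (K) in
/-- `(G_i)`: a chain of degree `s` in `w` whose boundary lies in the `i`-th ideal is zero. -/
def GP (v d s P i : ℕ) : Prop :=
  ∀ (U : Type) [Fintype U] [DecidableEq U], Fintype.card U = P →
    ∀ f : PX K (Option U) v, InC U v d 0 s f → (∀ u, InI d i (ren (mg u) f)) → f = 0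

variable (K) in
/-- `(Q_i)`: a chain whose boundary lies in the `i`-th ideal is a boundary modulo the ideal. -/
def QP (v d p r i : ℕ) : Prop :=
  ∀ (U : Type) [Fintype U] [DecidableEq U], Fintype.card U = p →
    ∀ f : PX K (Option U) v, InC U v d 0 r f → (∀ u, InI d i (ren (mg u) f)) →
      ∃ g : PX K (Option (Option U)) v, InC (Option U) v d d r g ∧
        InI d i (f - ren Option.join g)

end Pool.Agent.VSY
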