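import Pool.Agent.VSY.Basic

/-!
# Veronese syzygies (MP_deb8da_ag): definitions for Theorem B
-/

namespace Pool.Agent.VSY

open MvPolynomial

variable {K : Type} [Field K]

/-- Every monomial of `f` has total degree `ν j` in the `j`-th coordinates of the points. -/
def HasW {A : Type} [Fintype A] {v : ℕ} (ν : Fin v → ℕ) (f : PX K A v) : Prop :=
  ∀ m ∈ f.support, ∀ j, ∑ x, m (x, j) = ν j

/-- The form `a` evaluated at the point `x`. -/
noncomputable def atp {A : Type} {v : ℕ} (x : A) : MvPolynomial (Fin v) K →ₐ[K] PX K A v :=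
  rename fun j => (x, j)

/-- A permutation of the coordinates. -/
noncomputable def sw {A : Type} {v : ℕ} (σ : Equiv.Perm (Fin v)) : PX K A v →ₐ[K] PX K A v :=
  rename (Prod.map id σ)

/-- The operator `x_i ∂/∂x_j` on forms. -/
noncomputable def E1 {v : ℕ} (i j : Fin v) (a : MvPolynomial (Fin v) K) :
    MvPolynomial (Fin v) K :=
  X i * pderiv j a

/-- The points `w, u_1, ..., u_N`. -/
def pt (N : ℕ) : Fin (N + 1) → Option (Fin N) := Fin.cons none some

variable (K) in
/-- The cycle `z_1` (coordinates `i` and `j`). -/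
noncomputable def z1 (N v : ℕ) (i j : Fin v) : PX K (Option (Fin N)) v :=
  (∏ k : Fin N, X (some k, i)) *
    (Matrix.of fun a l : Fin (N + 1) =>
      (X (pt N a, j) ^ (N - l.val) * X (pt N a, i) ^ l.val : PX K (Option (Fin N)) v)).det

variable (K) in
/-- The cycle `τ`. -/
noncomputable def tau (N v : ℕ) (i j : Fin v) : PX K (Option (Fin N)) v :=
  X (none, j) ^ N * z1 K N v i j

/-- `e = N (N + 1) / 2`. -/
def eN (N : ℕ) : ℕ := N * (N + 1) / 2

/-- `c = N (N + 3) / 2`. -/
def cN (N : ℕ) : ℕ := eN N + N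

variable (K) in
/-- The factor `ρ(j, k)`. -/
noncomputable def rho (N j k : ℕ) : K :=
  ((eN N).descFactorial j : K) / ((cN N).descFactorial (j + k) : K)

/-- `E_31^b E_21^a` (coordinates `0, 1, 2, 3`). -/
noncomputable def EE {A : Type} [Fintype A] (a b : ℕ) (f : PX K A 4) : PX K A 4 :=
  (Eij (3 : Fin 4) 1)^[b] ((Eij (2 : Fin 4) 1)^[a] f)

/-- The alternating points `u_1, u_2, u_3` and the `N` others. -/
abbrev QU (N : ℕ) : Type := Fin 3 ⊕ Fin N

/-- The points `w, u_1, u_2, u_3`. -/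
def q4 (N : ℕ) : Fin 4 → Option (QU N) := Fin.cons none fun i => some (Sum.inl i)

variable (K) in
/-- The determinant of the coordinates of `w, u_1, u_2, u_3`. -/
noncomputable def DD4 (N : ℕ) : PX K (Option (QU N)) 4 :=
  (Matrix.of fun i j : Fin 4 => (X (q4 N i, j) : PX K (Option (QU N)) 4)).det

/-- `Λ(abc; z)`. -/
noncomputable def Lam (N : ℕ) (a b c : MvPolynomial (Fin 4) K) (z : PX K (Option (Fin N)) 4) :
    PX K (Option (QU N)) 4 :=
  ∑ π : Equiv.Perm (QU N), ((Equiv.Perm.sign π : ℤˣ) : ℤ) • ren (Option.map π)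
    (DD4 K N * (atp (some (Sum.inl 0)) a * atp (some (Sum.inl 1)) b * atp (some (Sum.inl 2)) c) *
      ren (Option.map Sum.inr) z)

end Pool.Agent.VSY
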