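import Pool.Agent.VSY.MAIN
import Pool.Agent.VSY.CHQ

/-!
# Veronese syzygies (MP_deb8da_ag): the final statements
-/

namespace Pool.Agent.VSY

open CH

theorem chq : Stmt_CHQ := CHQ_thm tr tg red ch

/-- `d = 4`, `q = 3`. -/
theorem four24 {K : Type} [Field K] [CharZero K] : ∀ p, p ≤ 24 → W K 4 p 12 := by
  have r9 : ∀ p, p ≤ 11 → W K 4 p 9 := by
    intro p hp v
    refine (ch K).1 v 4 1 p (by omega) ?_ (by omega)
    have hL := lend_eq (by omega : 1 + 3 ≤ 4)
    have hp' : (p : ℤ) ≤ 11 := by exact_mod_cast hp
    push_cast at hL
    linarith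
  have r10 : ∀ p, p ≤ 15 → W K 4 p 10 := by
    intro p
    induction p using Nat.strong_induction_on with
    | _ p ih =>
      intro hp
      refine step tr tg red (q := 3) (by omega) (by omega) (Or.inr ⟨2, rfl, ?_⟩) ?_ ?_
      · have e1 : (2 + 3).choose 3 = 10 := by decide
        have e2 : (4 + 3).choose 3 = 35 := by decide
        omega
      · intro p' h
        exact ih p' (by omega) (by omega)
      · intro p' r' h hr
        obtain rfl : r' = 9 := by omega
        exact r9 p' (by omega)
  have r11 : ∀ p, p ≤ 19 → W K 4 p 11 := by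
    intro p
    induction p using Nat.strong_induction_on with
    | _ p ih =>
      intro hp
      refine step tr tg red (q := 3) (by omega) (by omega) (Or.inr ⟨1, rfl, ?_⟩) ?_ ?_
      · have e1 : (1 + 3).choose 3 = 4 := by decide
        have e2 : (4 + 3).choose 3 = 35 := by decide
        omega
      · intro p' h
        exact ih p' (by omega) (by omega)
      · intro p' r' h hr
        obtain rfl : r' = 10 := by omega
        exact r10 p' (by omega)
  intro p
  induction p using Nat.strong_induction_on with
  | _ p ih =>
    intro hp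
    refine step tr tg red (q := 4) (by omega) (by omega) (Or.inr ⟨3, rfl, ?_⟩) ?_ ?_
    · have e1 : (3 + 4).choose 4 = 35 := by decide
      have e2 : (4 + 4).choose 4 = 70 := by decide
      omega
    · intro p' h
      exact ih p' (by omega) (by omega)
    · intro p' r' h hr
      obtain rfl : r' = 11 := by omega
      exact r11 p' (by omega)

/-- The lower end of the vanishing range. -/
theorem lower_end (K : Type) [Field K] [CharZero K] (n q b d p : ℕ) (hq : 2 ≤ q)
    (hd : b + q + 1 ≤ d) (hL : (p : ℤ) < Lend q b d)
    (hp : 2 * p + 4 * (d - 1) ≤ q * (q + 1) * (d - 1) + 2 * ((q + 1) * (q + b))) :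
    KVanishes K n b d p q := by
  refine off K n b d p q (by omega) ?_
  rcases Nat.lt_or_ge q 3 with h3 | h3
  · obtain rfl : q = 2 := by omega
    exact (ch K).1 (n + 1) d b p (by omega) hL (by omega)
  · have e : q * (q + 1) * (d - 1) = (d - 1) * (q * (q + 1)) := by ring
    rw [e] at hp
    rcases Nat.lt_or_ge d 5 with h5 | h5
    · obtain rfl : q = 3 := by omega
      obtain rfl : d = 4 := by omega
      obtain rfl : b = 0 := by omega
      exact four24 p (by omega) (n + 1)
    · exact (chq K).1 (n + 1) d q b p h5 h3 hd hp

end Pool.Agent.VSY
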