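import Pool.Agent.VSY.StmtsB

/-!
# Veronese syzygies (MP_deb8da_ag): the module L4M
-/

namespace Pool.Agent.VSY

open MvPolynomial

namespace L4M

variable {K : Type} [Field K] [CharZero K]

/-- `Λ(abc; z)` as a linear map in `z`. -/
noncomputable def lamL (h5 : Stmt_LLN) (N : ℕ) (a b c : MvPolynomial (Fin 4) K) :
    PX K (Option (Fin N)) 4 →ₗ[K] PX K (Option (QU N)) 4 where
  toFun := Lam N a b c
  map_add' := (h5 K N).2.2.1 a b c
  map_smul' := fun t z => (h5 K N).2.2.2.1 t a b c z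

theorem lamL_apply (h5 : Stmt_LLN) (N : ℕ) (a b c : MvPolynomial (Fin 4) K)
    (z : PX K (Option (Fin N)) 4) : lamL h5 N a b c z = Lam N a b c z := rfl

theorem inZ_EE (h6 : Stmt_OPS) (N d r a b : ℕ) (z : PX K (Option (Fin N)) 4)
    (hz : InZ (Fin N) 4 d r z) : InZ (Fin N) 4 d r (EE a b z) := by
  unfold EE
  have h1 : ∀ (i j : Fin 4) (n : ℕ) (f : PX K (Option (Fin N)) 4), InZ (Fin N) 4 d r f →
      InZ (Fin N) 4 d r ((Eij i j)^[n] f) := by
    intro i j n
    induction n with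
    | zero => intro f hf; exact hf
    | succ n ih =>
      intro f hf
      rw [Function.iterate_succ_apply]
      exact ih _ ((h6 K (Fin N) 4 d r).1 i j f hf)
  exact h1 _ _ _ _ (h1 _ _ _ _ hz)

theorem rho_ne {N j : ℕ} (hj : j ≤ eN N) : rho K N j 0 ≠ 0 := by
  unfold rho
  have h1 : (eN N).descFactorial j ≠ 0 := by
    rw [Ne, Nat.descFactorial_eq_zero_iff_lt]
    omega
  have h2 : (cN N).descFactorial (j + 0) ≠ 0 := by
    rw [Ne, Nat.descFactorial_eq_zero_iff_lt]
    unfold cN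
    omega
  exact div_ne_zero (by exact_mod_cast h1) (by exact_mod_cast h2)

theorem two_le_eN {N : ℕ} (hN : 3 ≤ N) : 2 * N ≤ eN N := by
  unfold eN
  rw [Nat.le_div_iff_mul_le (by norm_num)]
  nlinarith

/-- Reduction to the form `X_1^N`. -/
theorem red (h1 : Stmt_T3M) (h2 : Stmt_T5M) {N R p q : ℕ} (hN : 3 ≤ N)
    (Φ : PX K (Option (Fin N)) 4 →ₗ[K] PX K (Option (QU N)) 4)
    (M : Submodule K (PX K (Option (QU N)) 4))
    (hΦ : ∀ z, InB (Fin N) 4 (N + 1) (2 * N) z → Φ z ∈ M)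
    (hR : R ≤ 2 * N)
    (hM : ∀ p' q', p' + q' ≤ R → Φ (atp none (X 1 ^ N) * EE p' q' (z1 K N 4 0 1)) ∈ M)
    (hpq : p + q + N ≤ R) (b : MvPolynomial (Fin 4) K) (hb : b.IsHomogeneous N) :
    Φ (atp none b * EE p q (z1 K N 4 0 1)) ∈ M := by
  classical
  have hmon : ∀ m : Fin 4 →₀ ℕ, m.degree = N →
      Φ (atp none (monomial m (1 : K)) * EE p q (z1 K N 4 0 1)) ∈ M := by
    intro m hm
    by_cases h0 : m 0 = 0
    · have hsum : m 1 + m 2 + m 3 = N := by
        rw [← hm, Finsupp.degree_eq_sum, Fin.sum_univ_four, h0]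
        ring
      have hme : monomial m (1 : K) = X 1 ^ (N - (m 2 + m 3)) * X 2 ^ m 2 * X 3 ^ m 3 := by
        rw [monomial_eq, Finsupp.prod_fintype _ _ (by simp), Fin.prod_univ_four, h0]
        have : N - (m 2 + m 3) = m 1 := by omega
        rw [this]
        simp
      rw [hme]
      have hT := h2 K N (m 2) (m 3) p q hN (by omega) (by omega)
      have hT0 := h2 K N 0 0 (p + m 2) (q + m 3) hN (by omega) (by omega)
      have hM0 := hM (p + m 2) (q + m 3) (by omega)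
      have e1 : (X 1 ^ (N - (0 + 0)) * X 2 ^ 0 * X 3 ^ 0 : MvPolynomial (Fin 4) K) = X 1 ^ N := by
        simp
      rw [e1] at hT0
      simp only [add_zero] at hT0
      have hr : rho K N (p + m 2 + (q + m 3)) 0 ≠ 0 :=
        rho_ne (le_trans (by omega) (two_le_eN hN))
      have k1 := hΦ _ hT
      have k2 := hΦ _ hT0
      rw [map_sub, map_smul] at k1 k2
      have k3 : rho K N (p + m 2 + (q + m 3)) 0 • Φ (EE (p + m 2) (q + m 3) (tau K N 4 0 1)) ∈ M := by
        have := M.sub_mem hM0 k2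
        rwa [sub_sub_cancel] at this
      have k4 : Φ (EE (p + m 2) (q + m 3) (tau K N 4 0 1)) ∈ M := by
        have := M.smul_mem (rho K N (p + m 2 + (q + m 3)) 0)⁻¹ k3
        rwa [smul_smul, inv_mul_cancel₀ hr, one_smul] at this
      have k5 := M.add_mem k1 (M.smul_mem (rho K N (p + q) (m 2 + m 3)) k4)
      rwa [sub_add_cancel] at k5
    · have hme : monomial m (1 : K) = X 0 * monomial (m - Finsupp.single 0 1) (1 : K) := by
        rw [X, monomial_mul, one_mul]
        have hmm : m = Finsupp.single 0 1 + (m - Finsupp.single 0 1) := by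
          ext i
          simp only [Finsupp.add_apply, Finsupp.tsub_apply, Finsupp.single_apply]
          split_ifs with h
          · subst h
            omega
          · omega
        rw [← hmm]
      rw [hme]
      refine hΦ _ (h1 K N p q _ (by omega) ?_)
      apply isHomogeneous_monomial
      have h3 : (Finsupp.single (0 : Fin 4) 1 + (m - Finsupp.single 0 1)).degree = N := by
        rw [← hm]
        congr 1
        ext i
        simp only [Finsupp.add_apply, Finsupp.tsub_apply, Finsupp.single_apply]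
        split_ifs with h
        · subst h
          omega
        · omega
      rw [map_add, Finsupp.degree_single] at h3
      omega
  have hb2 : b = ∑ m ∈ b.support, b.coeff m • monomial m (1 : K) := by
    conv_lhs => rw [b.as_sum]
    refine Finset.sum_congr rfl fun m _ => ?_
    rw [smul_monomial, smul_eq_mul, mul_one]
  rw [hb2, map_sum, Finset.sum_mul, map_sum]
  refine M.sum_mem fun m hm => ?_
  rw [map_smul, smul_mul_assoc, map_smul]
  refine M.smul_mem _ (hmon m ?_)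
  have := hb (mem_support_iff.1 hm)
  rw [← this]
  simp [Finsupp.weight_apply, Finsupp.degree_eq_sum, Finsupp.sum_fintype]

end L4M

open L4M in
theorem L4M_thm (h1 : Stmt_T3M) (h2 : Stmt_T5M) (h3 : Stmt_L1M) (h4 : Stmt_L2M)
    (h5 : Stmt_LLN) (h6 : Stmt_OPS) (h7 : Stmt_Z1C) : Stmt_L4M := by
  intro K _ _ N hN a b c ha hb hc
  set B := BB K (QU N) 4 (N + 1) (2 * N + 1) with hB
  have hA : (X 0 * a : MvPolynomial (Fin 4) K).IsHomogeneous N := by
    have := (isHomogeneous_X K (0 : Fin 4)).mul ha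
    have e : 1 + (N - 1) = N := by omega
    rwa [e] at this
  have hM1 : (X 1 ^ N : MvPolynomial (Fin 4) K).IsHomogeneous N := by
    have := (isHomogeneous_X K (1 : Fin 4)).pow N
    rwa [one_mul] at this
  have hz : ∀ p q, InZ (Fin N) 4 (N + 1) N (EE p q (z1 K N 4 0 1)) := fun p q =>
    inZ_EE h6 N _ _ p q _ (h7 K N 4 0 1 (by decide)).1
  have sym1 := (h5 K N).2.2.2.2.1
  have sym2 := (h5 K N).2.2.2.2.2.1
  -- the first term of the identity
  have hfirst : ∀ x y u : MvPolynomial (Fin 4) K, x.IsHomogeneous N → y.IsHomogeneous N →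
      u.IsHomogeneous N → ∀ p q,
      Lam N x y u (atp none (X 0 * a) * EE p q (z1 K N 4 0 1)) ∈ B := by
    intro x y u hx hy hu p q
    exact h3 K N x y u hx hy hu _ (h1 K N p q a (by omega) ha)
  have hL2 : ∀ x y u e : MvPolynomial (Fin 4) K, x.IsHomogeneous N → y.IsHomogeneous N →
      u.IsHomogeneous N → e.IsHomogeneous N → ∀ p q,
      Lam N y u e (atp none x * EE p q (z1 K N 4 0 1)) +
        Lam N x u e (atp none y * EE p q (z1 K N 4 0 1)) +
        Lam N x y e (atp none u * EE p q (z1 K N 4 0 1)) +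
        Lam N x y u (atp none e * EE p q (z1 K N 4 0 1)) ∈ B := by
    intro x y u e hx hy hu he p q
    exact h4 K N x y u e hx hy hu he _ (hz p q)
  -- (1)
  have s1 : ∀ p q, Lam N (X 0 * a) (X 1 ^ N) (X 1 ^ N)
      (atp none (X 1 ^ N) * EE p q (z1 K N 4 0 1)) ∈ B := by
    intro p q
    have k1 := hL2 (X 0 * a) (X 1 ^ N) (X 1 ^ N) (X 1 ^ N) hA hM1 hM1 hM1 p q
    have k2 := hfirst (X 1 ^ N) (X 1 ^ N) (X 1 ^ N) hM1 hM1 hM1 p q
    have k3 := B.sub_mem k1 k2
    have k4 : (3 : K) • Lam N (X 0 * a) (X 1 ^ N) (X 1 ^ N)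
        (atp none (X 1 ^ N) * EE p q (z1 K N 4 0 1)) ∈ B := by
      have e : (3 : K) • Lam N (X 0 * a) (X 1 ^ N) (X 1 ^ N)
          (atp none (X 1 ^ N) * EE p q (z1 K N 4 0 1)) =
          Lam N (X 1 ^ N) (X 1 ^ N) (X 1 ^ N) (atp none (X 0 * a) * EE p q (z1 K N 4 0 1)) +
          Lam N (X 0 * a) (X 1 ^ N) (X 1 ^ N) (atp none (X 1 ^ N) * EE p q (z1 K N 4 0 1)) +
          Lam N (X 0 * a) (X 1 ^ N) (X 1 ^ N) (atp none (X 1 ^ N) * EE p q (z1 K N 4 0 1)) +
          Lam N (X 0 * a) (X 1 ^ N) (X 1 ^ N) (atp none (X 1 ^ N) * EE p q (z1 K N 4 0 1)) -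
          Lam N (X 1 ^ N) (X 1 ^ N) (X 1 ^ N) (atp none (X 0 * a) * EE p q (z1 K N 4 0 1)) := by
        module
      rw [e]
      exact k3
    have := B.smul_mem (3 : K)⁻¹ k4
    rwa [smul_smul, inv_mul_cancel₀ (by norm_num), one_smul] at this
  -- (2)
  have s2 : ∀ p q, p + q ≤ N → ∀ y : MvPolynomial (Fin 4) K, y.IsHomogeneous N →
      Lam N (X 0 * a) (X 1 ^ N) (X 1 ^ N) (atp none y * EE p q (z1 K N 4 0 1)) ∈ B := by
    intro p q hpq y hy
    refine red (R := 2 * N) h1 h2 hN (lamL h5 N (X 0 * a) (X 1 ^ N) (X 1 ^ N)) B ?_ le_rfl ?_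
      (by omega) y hy
    · intro z hz
      exact h3 K N _ _ _ hA hM1 hM1 z hz
    · intro p' q' _
      exact s1 p' q'
  -- (3)
  have s3 : ∀ p q, p + q ≤ N → ∀ y : MvPolynomial (Fin 4) K, y.IsHomogeneous N →
      Lam N (X 0 * a) y (X 1 ^ N) (atp none (X 1 ^ N) * EE p q (z1 K N 4 0 1)) ∈ B := by
    intro p q hpq y hy
    have k1 := hL2 (X 0 * a) y (X 1 ^ N) (X 1 ^ N) hA hy hM1 hM1 p q
    have k2 := hfirst y (X 1 ^ N) (X 1 ^ N) hy hM1 hM1 p q
    have k3 := s2 p q hpq y hy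
    have k4 := B.sub_mem (B.sub_mem k1 k2) k3
    have k5 : (2 : K) • Lam N (X 0 * a) y (X 1 ^ N)
        (atp none (X 1 ^ N) * EE p q (z1 K N 4 0 1)) ∈ B := by
      have e : (2 : K) • Lam N (X 0 * a) y (X 1 ^ N)
          (atp none (X 1 ^ N) * EE p q (z1 K N 4 0 1)) =
          Lam N y (X 1 ^ N) (X 1 ^ N) (atp none (X 0 * a) * EE p q (z1 K N 4 0 1)) +
          Lam N (X 0 * a) (X 1 ^ N) (X 1 ^ N) (atp none y * EE p q (z1 K N 4 0 1)) +
          Lam N (X 0 * a) y (X 1 ^ N) (atp none (X 1 ^ N) * EE p q (z1 K N 4 0 1)) +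
          Lam N (X 0 * a) y (X 1 ^ N) (atp none (X 1 ^ N) * EE p q (z1 K N 4 0 1)) -
          Lam N y (X 1 ^ N) (X 1 ^ N) (atp none (X 0 * a) * EE p q (z1 K N 4 0 1)) -
          Lam N (X 0 * a) (X 1 ^ N) (X 1 ^ N) (atp none y * EE p q (z1 K N 4 0 1)) := by
        module
      rw [e]
      exact k4
    have := B.smul_mem (2 : K)⁻¹ k5
    rwa [smul_smul, inv_mul_cancel₀ (by norm_num), one_smul] at this
  -- (4)
  have s4 : ∀ x y : MvPolynomial (Fin 4) K, x.IsHomogeneous N → y.IsHomogeneous N →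
      Lam N (X 0 * a) x (X 1 ^ N) (atp none y * EE 0 0 (z1 K N 4 0 1)) ∈ B := by
    intro x y hx hy
    refine red (R := N) h1 h2 hN (lamL h5 N (X 0 * a) x (X 1 ^ N)) B ?_ (by omega) ?_
      (by omega) y hy
    · intro z hz
      exact h3 K N _ _ _ hA hx hM1 z hz
    · intro p' q' hpq
      exact s3 p' q' hpq x hx
  -- (5)
  have k1 := hL2 (X 0 * a) b c (X 1 ^ N) hA hb hc hM1 0 0
  have k2 := hfirst b c (X 1 ^ N) hb hc hM1 0 0
  have k3 := s4 c b hc hb
  have k4 := s4 b c hb hc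
  have k5 := B.sub_mem (B.sub_mem (B.sub_mem k1 k2) k3) k4
  have e1 : atp none (X 1 ^ N) * EE 0 0 (z1 K N 4 0 1) = tau K N 4 0 1 := by
    unfold EE tau
    simp [atp]
  rw [e1] at k5
  have e2 : ∀ x y z w : PX K (Option (QU N)) 4, x + y + z + w - x - y - z = w := by
    intro x y z w; abel
  rw [e2] at k5
  exact k5

end Pool.Agent.VSY
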