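import Pool.Agent.VSY.FIN

/-!
# Veronese syzygies: property `N_p`
-/

namespace Pool.Agent.VSY

open CH

/-- The vanishing goes up in `r`. -/
theorem mono {K : Type} [Field K] [CharZero K] {d B r : ℕ} (hd : 1 ≤ d) (hr : 3 * (d - 1) ≤ r)
    (h : ∀ p, p ≤ B → W K d p r) : ∀ p, p ≤ B → W K d p (r + 1) := by
  intro p
  induction p using Nat.strong_induction_on with
  | _ p ih =>
    intro hp
    refine step tr tg red (q := 2) hd (by omega) (Or.inl (by omega)) ?_ ?_
    · intro p' h'
      exact ih p' (by omega) (by omega)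
    · intro p' r' h' hr'
      obtain rfl : r' = r := by omega
      exact h p' (by omega)

theorem mono' {K : Type} [Field K] [CharZero K] {d B r : ℕ} (hd : 1 ≤ d) (hr : 3 * (d - 1) ≤ r)
    (h : ∀ p, p ≤ B → W K d p r) (j : ℕ) : ∀ p, p ≤ B → W K d p (r + j) := by
  induction j with
  | zero => exact h
  | succ j ih => exact mono (r := r + j) hd (le_trans hr (Nat.le_add_right r j)) ih

/-- The case `q = 2`, `b = d - 3`. -/
theorem row3 {K : Type} [Field K] [CharZero K] {d : ℕ} (hd : 3 ≤ d) :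
    ∀ p, p + 2 < 3 * d → W K d p (3 * (d - 1)) := by
  intro p hp v
  have e : 3 * (d - 1) = 2 * d + (d - 3) := by omega
  rw [e]
  refine (ch K).1 v d (d - 3) p (by omega) ?_ (by omega)
  have hL := lend_eq (by omega : d - 3 + 3 ≤ d)
  obtain ⟨m, rfl⟩ : ∃ m, d = m + 3 := ⟨d - 3, by omega⟩
  rw [Nat.add_sub_cancel] at hL ⊢
  have hp' : (p : ℤ) + 2 < 3 * (m + 3) := by exact_mod_cast hp
  push_cast at hL
  nlinarith

/-- Property `N_p` of the `d`-th Veronese embedding for `p ≤ min (3 d - 3) (d + 5)`. -/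
theorem np (K : Type) [Field K] [CharZero K] (n d i q : ℕ) (hd : 1 ≤ d) (hi : i + 2 < 3 * d)
    (hi' : i ≤ d + 5) (hq : 2 ≤ q) : KVanishes K n 0 d i q := by
  refine off K n 0 d i q hd ?_
  rw [add_zero]
  rcases Nat.lt_or_ge d 3 with h3 | h3
  · obtain ⟨m, rfl⟩ : ∃ m, q = m + 2 := ⟨q - 2, by omega⟩
    rcases (by omega : d = 1 ∨ d = 2) with rfl | rfl
    · exact low K (n + 1) 1 i _ le_rfl (by omega)
    · by_cases h : 2 + i ≤ (m + 2) * 2
      · exact low K (n + 1) 2 i _ (by omega) h
      · obtain rfl : m = 0 := by omega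
        obtain rfl : i = 3 := by omega
        refine step tr tg red (q := 4) (d := 2) (r := 4) (by omega) (by omega)
          (Or.inr ⟨1, rfl, ?_⟩) ?_ ?_ (n + 1)
        · have e1 : (1 + 4).choose 4 = 5 := by decide
          have e2 : (2 + 4).choose 4 = 15 := by decide
          omega
        · intro p' h'
          omega
        · intro p' r' h' hr'
          omega
  · rcases Nat.lt_or_ge q 3 with hq3 | hq3
    · obtain rfl : q = 2 := by omega
      have hL := lend_eq (by omega : 0 + 3 ≤ d)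
      refine (ch K).1 (n + 1) d 0 i (by omega) ?_ (by omega)
      have hi2 : (i : ℤ) + 2 < 3 * d := by exact_mod_cast hi
      push_cast at hL
      nlinarith
    · obtain ⟨m, rfl⟩ : ∃ m, q = m + 3 := ⟨q - 3, by omega⟩
      have e : (m + 3) * d = 3 * (d - 1) + (m * d + 3) := by
        obtain ⟨k, rfl⟩ : ∃ k, d = k + 1 := ⟨d - 1, by omega⟩
        rw [Nat.add_sub_cancel]
        ring
      rw [e]
      exact mono' (B := 3 * d - 3) hd le_rfl (fun p hp => row3 h3 p (by omega)) (m * d + 3) i
        (by omega) (n + 1)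

end Pool.Agent.VSY
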