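import Pool.Agent.VSY.StmtsB

/-!
# Veronese syzygies (MP_deb8da_ag): the numbers for `q ≥ 3`
-/

namespace Pool.Agent.VSY

open MvPolynomial

/-- CHQ: the numbers for `q ≥ 3`: `p ≤ (d - 1) (q (q + 1) / 2 - 2) + (q + 1) (q + b)`. -/
def Stmt_CHQ : Prop :=
  ∀ (K : Type) [Field K] [CharZero K],
    (∀ v d q b p : ℕ, 5 ≤ d → 3 ≤ q → b + q + 1 ≤ d →
      2 * p + 4 * (d - 1) ≤ (d - 1) * (q * (q + 1)) + 2 * ((q + 1) * (q + b)) →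
      Van K v d p (q * d + b)) ∧
    (∀ v p : ℕ, p ≤ 23 → Van K v 4 p 12)

/-- The final theorem. -/
def Stmt_FINQ : Prop :=
  (∀ n b d p : ℕ, 1 ≤ n → b + 3 ≤ d → (p : ℤ) < Lend 2 b d → p ≤ d + 3 * b + 5 →
    KVanishes ℂ n b d p 2) ∧
  (∀ n b p : ℕ, 1 ≤ n → b + 3 ≤ 4 → (p : ℤ) < Lend 2 b 4 → KVanishes ℂ n b 4 p 2) ∧
  (∀ n q b d p : ℕ, 1 ≤ n → 5 ≤ d → 3 ≤ q → b + q + 1 ≤ d →
    2 * p + 4 * (d - 1) ≤ (d - 1) * (q * (q + 1)) + 2 * ((q + 1) * (q + b)) →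
    KVanishes ℂ n b d p q) ∧
  (∀ n p : ℕ, 1 ≤ n → p ≤ 23 → KVanishes ℂ n 0 4 p 3)

end Pool.Agent.VSY
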