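import Pool.Agent.VSY.Off

/-!
# Veronese syzygies (MP_deb8da_ag): the Koszul complex in coordinates
-/

namespace Pool.Agent.VSY

/-- The Koszul complex
`Λ^{p+1} S_d ⊗ S_{r-d} → Λ^p S_d ⊗ S_r → Λ^{p-1} S_d ⊗ S_{r+d}` of the forms in `z_0, ..., z_n`
is exact in the middle.  A basis `φ` of `S_d` is chosen, and an element of `Λ^p S_d ⊗ S_r` is
given by its coefficients `f I`, `I` a set of `p` basis vectors. -/
def KExact (K : Type) [Field K] (n d p r : ℕ) : Prop :=
  ∀ (N : ℕ) (φ : Fin N → MvPolynomial (Fin (n + 1)) K),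
    (∀ k, φ k ∈ MvPolynomial.homogeneousSubmodule (Fin (n + 1)) K d) →
    LinearIndependent K φ →
    Submodule.span K (Set.range φ) = MvPolynomial.homogeneousSubmodule (Fin (n + 1)) K d →
    ∀ f : Finset (Fin N) → MvPolynomial (Fin (n + 1)) K,
      (∀ I, f I ∈ MvPolynomial.homogeneousSubmodule (Fin (n + 1)) K r) →
      (∀ I, I.card ≠ p → f I = 0) →
      (∀ J : Finset (Fin N), J.card + 1 = p →
        ∑ k ∈ Jᶜ, (-1 : MvPolynomial (Fin (n + 1)) K) ^ (J.filter (fun c => c < k)).card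
          * φ k * f (insert k J) = 0) →
      ∃ g : Finset (Fin N) → MvPolynomial (Fin (n + 1)) K,
        (∀ I, g I ∈ MvPolynomial.homogeneousSubmodule (Fin (n + 1)) K (r - d)) ∧
        (r < d → ∀ I, g I = 0) ∧
        (∀ I, I.card ≠ p + 1 → g I = 0) ∧
        ∀ I : Finset (Fin N), I.card = p →
          f I = ∑ k ∈ Iᶜ, (-1 : MvPolynomial (Fin (n + 1)) K) ^ (I.filter (fun c => c < k)).card
            * φ k * g (insert k I)

/-- KOS: the two forms of the vanishing. -/
def Stmt_KOS : Prop :=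
  ∀ (K : Type) [Field K] (n b d p q : ℕ), KVanishes K n b d p q → KExact K n d p (q * d + b)

end Pool.Agent.VSY
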